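import Pool.Agent.R390.SF.Stab
import Pool.Agent.Y126.MD.Fal

/-!
# Finitely many Frobenius traces determine all traces, and finiteness of the traces
-/

set_option autoImplicit false
set_option linter.unusedSectionVars false

namespace Pool.Agent.R390.SF

open Module Matrix Polynomial NumberField Pool.Agent.Y800 Topology

attribute [local instance] Subgroup.fintypeQuotientOfFiniteIndex

section group

/-- the index of the normal core -/
theorem index_core {G : Type*} [Group G] (H : Subgroup G) [H.FiniteIndex] :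
    H.normalCore.index ≤ H.index.factorial := by
  classical
  have : Finite (G ⧸ H) := Subgroup.finite_quotient_of_finiteIndex
  rw [Subgroup.normalCore_eq_ker, Subgroup.index_ker]
  have h1 : Nat.card (Equiv.Perm (G ⧸ H)) = H.index.factorial := by
    rw [Nat.card_perm]
    rfl
  rw [← h1]
  exact Nat.card_le_card_of_injective _ Subtype.val_injective

/-- the normal core of an open subgroup is open -/
theorem isOpen_core {G : Type*} [Group G] [TopologicalSpace G] [IsTopologicalGroup G]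
    {H : Subgroup G} [H.FiniteIndex] (hH : IsOpen (H : Set G)) : IsOpen (H.normalCore : Set G) := by
  have hc : IsClosed (H : Set G) := Subgroup.isClosed_of_isOpen _ hH
  have h1 : (H.normalCore : Set G) = ⋂ b : G, {a | b * a * b⁻¹ ∈ (H : Set G)} := by
    ext a
    rw [Set.mem_iInter]
    rfl
  have h2 : IsClosed (H.normalCore : Set G) := by
    rw [h1]
    refine isClosed_iInter fun b => hc.preimage ?_
    exact (continuous_const.mul continuous_id).mul continuous_const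
  exact Subgroup.isOpen_of_isClosed_of_finiteIndex _ h2

end group

section ram

variable (F : SubFld ℚ) [hF : FiniteDimensional ℚ F]

theorem isOpen_F : IsOpen ((F.fixingSubgroup : Subgroup GQ) : Set GQ) :=
  IntermediateField.fixingSubgroup_isOpen F

instance compact_F : CompactSpace F.fixingSubgroup :=
  isCompact_iff_compactSpace.1 (InfiniteGalois.fixingSubgroup_isClosed F).isCompact

/-- almost all primes are unramified in `F` -/
theorem exists_ram : ∃ R : Finset ℕ, ∀ p : ℕ, p.Prime → p ∉ R → ∀ P : Ideal ZBar,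
    P.IsMaximal → (p : ZBar) ∈ P → ∀ τ : GQ, InInertia P τ → τ ∈ F.fixingSubgroup := by
  classical
  let b := RingOfIntegers.basis F
  have hm : ∀ e : ZBar, ∃ m : ℤ, m ≠ 0 ∧ (e ≠ 0 → ∃ r, e * r = m) := by
    intro e
    by_cases he : e = 0
    · exact ⟨1, one_ne_zero, fun h => absurd he h⟩
    · obtain ⟨m, r, h1, h2⟩ := exists_int_mul he
      exact ⟨m, h1, fun _ => ⟨r, h2⟩⟩
  choose m hm0 hm using hm
  let x : Free.ChooseBasisIndex ℤ (𝓞 F) → ZBar := fun i => algebraMap (𝓞 F) ZBar (b i)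
  let e : (GQ ⧸ F.fixingSubgroup) → Free.ChooseBasisIndex ℤ (𝓞 F) → ZBar :=
    fun q i => q.out • x i - x i
  refine ⟨(∏ q, ∏ i, (m (e q i))).natAbs.primeFactors, ?_⟩
  intro p hp hpR P hP hpP τ hτ
  have hfix : ∀ i, τ • x i = x i := by
    intro i
    by_contra hne
    obtain ⟨h, hh⟩ := QuotientGroup.mk_out_eq_mul F.fixingSubgroup τ
    have h1 : (Quotient.out ((τ : GQ) : GQ ⧸ F.fixingSubgroup)) • x i = τ • x i := by
      rw [hh, mul_smul]
      congr 1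
      exact smul_F h.2 (b i)
    have h2 : e ((τ : GQ) : GQ ⧸ F.fixingSubgroup) i = τ • x i - x i := by
      show (Quotient.out ((τ : GQ) : GQ ⧸ F.fixingSubgroup)) • x i - x i = _
      rw [h1]
    have h3 : e ((τ : GQ) : GQ ⧸ F.fixingSubgroup) i ≠ 0 := by
      rw [h2]
      exact sub_ne_zero.2 hne
    obtain ⟨r, hr⟩ := hm _ h3
    have h4 : ((m (e ((τ : GQ) : GQ ⧸ F.fixingSubgroup) i) : ℤ) : ZBar) ∈ P := by
      rw [← hr, h2]
      exact P.mul_mem_right _ (hτ (x i))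
    have h5 : ¬ (p : ℤ) ∣ m (e ((τ : GQ) : GQ ⧸ F.fixingSubgroup) i) := by
      intro hdvd
      apply hpR
      rw [Nat.mem_primeFactors]
      refine ⟨hp, ?_, ?_⟩
      · rw [← Int.natCast_dvd]
        exact hdvd.trans ((Finset.dvd_prod_of_mem _ (Finset.mem_univ i)).trans
          (Finset.dvd_prod_of_mem (fun q => ∏ i, m (e q i))
            (Finset.mem_univ ((τ : GQ) : GQ ⧸ F.fixingSubgroup))))
      · rw [Int.natAbs_ne_zero, Finset.prod_ne_zero_iff]
        intro q _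
        rw [Finset.prod_ne_zero_iff]
        intro i _
        exact hm0 _
    have h6 : IsCoprime (p : ℤ) (m (e ((τ : GQ) : GQ ⧸ F.fixingSubgroup) i)) :=
      (Int.prime_iff_natAbs_prime.2 (by rwa [Int.natAbs_natCast])).coprime_iff_not_dvd.2 h5
    obtain ⟨u, v, huv⟩ := h6
    apply hP.ne_top
    rw [Ideal.eq_top_iff_one]
    have h7 := congrArg (Int.cast : ℤ → ZBar) huv
    rw [Int.cast_add, Int.cast_mul, Int.cast_mul, Int.cast_one, Int.cast_natCast] at h7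
    rw [← h7]
    exact P.add_mem (P.mul_mem_left _ hpP) (P.mul_mem_left _ h4)
  -- `τ` fixes the integers of `F`
  have hint : ∀ a : 𝓞 F, τ • (algebraMap (𝓞 F) ZBar a) = algebraMap (𝓞 F) ZBar a := by
    intro a
    rw [← b.sum_repr a, map_sum, Finset.smul_sum]
    refine Finset.sum_congr rfl fun i _ => ?_
    rw [zsmul_eq_mul, map_mul, map_intCast, smul_mul', hfix i]
    congr 1
    exact map_intCast (MulSemiringAction.toRingHom GQ ZBar τ) _
  rw [IntermediateField.mem_fixingSubgroup_iff]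
  intro y hy
  obtain ⟨a, c, hc, hac⟩ := IsFractionRing.div_surjective (A := 𝓞 F) (⟨y, hy⟩ : F)
  have h1 : ∀ a : 𝓞 F, τ ((a : F) : AlgebraicClosure ℚ) = ((a : F) : AlgebraicClosure ℚ) :=
    fun a => congrArg (fun z : ZBar => (z : AlgebraicClosure ℚ)) (hint a)
  have h2 : y = ((a : F) : AlgebraicClosure ℚ) / ((c : F) : AlgebraicClosure ℚ) := by
    have h3 := congrArg (fun z : F => (z : AlgebraicClosure ℚ)) hac
    exact h3.symm
  rw [h2, map_div₀, h1, h1]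

end ram

section dens

variable {F : SubFld ℚ} [hF : FiniteDimensional ℚ F]

/-- a closed set which contains almost all Frobenius elements of degree one is everything -/
theorem closed_univ' (C : Set F.fixingSubgroup) (hC : IsClosed C) (S : Finset ℕ)
    (h : ∀ p : ℕ, p.Prime → p ∉ S → ∀ P : Ideal ZBar, P.IsMaximal → (p : ZBar) ∈ P →
      ∀ σ : F.fixingSubgroup, IsGeomFrob p P σ → σ ∈ C) (g : F.fixingSubgroup) : g ∈ C := by
  by_contra hg
  obtain ⟨V, hV, hVC⟩ := isOpen_induced_iff.1 hC.isOpen_compl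
  have hgV : (g : GQ) ∈ V := by
    have : g ∈ Subtype.val ⁻¹' V := by rw [hVC]; exact hg
    exact this
  have h1 : (fun x => x * (g : GQ)) ⁻¹' (V ∩ (F.fixingSubgroup : Set GQ)) ∈ 𝓝 (1 : GQ) := by
    refine (continuous_mul_const (g : GQ)).continuousAt.preimage_mem_nhds ?_
    rw [one_mul]
    exact (hV.inter (isOpen_F F)).mem_nhds ⟨hgV, g.2⟩
  obtain ⟨W, hW1, hW, hW0⟩ := mem_nhds_iff.mp h1
  obtain ⟨U, hU⟩ := ProfiniteGrp.exist_openNormalSubgroup_sub_open_nhds_of_one hW hW0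
  have hUn : U.toSubgroup.Normal := U.isNormal'
  obtain ⟨p, hp, hpS, P, hP, hpP, σ, hσ, τ, hτ⟩ := exists_frob U.toSubgroup U.isOpen' S (g : GQ)
  have h2 := hW1 (hU hτ)
  have h3 : τ * σ * τ⁻¹ * (g : GQ)⁻¹ * (g : GQ) ∈ V ∩ (F.fixingSubgroup : Set GQ) := h2
  rw [inv_mul_cancel_right] at h3
  have h4 : IsGeomFrob p (cj τ⁻¹ P) (τ * σ * τ⁻¹) := by
    have h5 := cj_frob (x := τ⁻¹) hσ
    rwa [inv_inv] at h5
  have h6 := h p hp hpS (cj τ⁻¹ P) (cj_max hP) (cj_nat.2 hpP) ⟨τ * σ * τ⁻¹, h3.2⟩ h4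
  have h7 : (⟨τ * σ * τ⁻¹, h3.2⟩ : F.fixingSubgroup) ∈ Subtype.val ⁻¹' V := h3.1
  rw [hVC] at h7
  exact h7 h6

/-- a Frobenius element in the normal core -/
theorem exists_core (S : Finset ℕ) : ∃ p : ℕ, p.Prime ∧ p ∉ S ∧ ∃ P : Ideal ZBar, P.IsMaximal ∧
    (p : ZBar) ∈ P ∧ ∃ σ : GQ, IsGeomFrob p P σ ∧ σ ∈ (F.fixingSubgroup).normalCore := by
  obtain ⟨p, hp, hpS, P, hP, hpP, σ, hσ, τ, hτ⟩ :=
    exists_frob (F.fixingSubgroup).normalCore (isOpen_core (isOpen_F F)) S 1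
  refine ⟨p, hp, hpS, P, hP, hpP, σ, hσ, ?_⟩
  rw [inv_one, mul_one] at hτ
  have h1 := (Subgroup.normalCore_normal F.fixingSubgroup).conj_mem _ hτ τ⁻¹
  have h2 : τ⁻¹ * (τ * σ * τ⁻¹) * τ⁻¹⁻¹ = σ := by group
  rwa [h2] at h1

/-- a uniform finite set of primes -/
theorem exists_prime_set' (S S' : Finset ℕ) (hS : ∀ p ∈ S, p.Prime) (D : ℕ) :
    ∃ 𝒯 : Finset ℕ, (∀ p ∈ 𝒯, p.Prime ∧ p ∉ S') ∧
      ∀ H : Subgroup F.fixingSubgroup, IsOpen (H : Set F.fixingSubgroup) → H.index ≤ D →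
        (∀ p : ℕ, p.Prime → p ∉ S → ∀ P : Ideal ZBar, P.IsMaximal → (p : ZBar) ∈ P →
          ∀ τ : F.fixingSubgroup, InInertia P τ → τ ∈ H) →
        ∀ g : F.fixingSubgroup, ∃ p ∈ 𝒯, ∃ P : Ideal ZBar, P.IsMaximal ∧ (p : ZBar) ∈ P ∧
          ∃ σ : F.fixingSubgroup, IsGeomFrob p P σ ∧ σ * g⁻¹ ∈ H := by
  classical
  obtain ⟨R, hR⟩ := exists_ram F
  let S1 : Finset ℕ := S ∪ R.filter Nat.Prime
  have hS1 : ∀ p ∈ S1, p.Prime := by
    intro p hp
    rcases Finset.mem_union.1 hp with h | h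
    · exact hS p h
    · exact (Finset.mem_filter.1 h).2
  obtain ⟨𝒯, h𝒯, hD⟩ := exists_prime_set S1 hS1 S' (D * (F.fixingSubgroup).index).factorial
  refine ⟨𝒯, h𝒯, ?_⟩
  intro H hH hHD hI g
  have hHfin : H.FiniteIndex := by
    have : Finite (F.fixingSubgroup ⧸ H) := Subgroup.quotient_finite_of_isOpen _ hH
    exact Subgroup.finiteIndex_of_finite_quotient
  let H' : Subgroup GQ := H.map (F.fixingSubgroup).subtype
  have hidx : H'.index = H.index * (F.fixingSubgroup).index := Subgroup.index_map_subtype _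
  have hH'fin : H'.FiniteIndex := ⟨by
    rw [hidx]
    exact Nat.mul_ne_zero hHfin.index_ne_zero Subgroup.FiniteIndex.index_ne_zero⟩
  have hH'o : IsOpen (H' : Set GQ) := by
    have h1 : (H' : Set GQ) = Subtype.val '' (H : Set F.fixingSubgroup) := rfl
    rw [h1]
    exact (isOpen_F F).isOpenMap_subtype_val _ hH
  have hcore : H'.normalCore.index ≤ (D * (F.fixingSubgroup).index).factorial := by
    refine (index_core H').trans (Nat.factorial_le ?_)
    rw [hidx]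
    exact Nat.mul_le_mul_right _ hHD
  obtain ⟨p, hp, P, hP, hpP, σ, hσ, τ, hτ⟩ := hD H'.normalCore inferInstance (isOpen_core hH'o)
    hcore (by
      intro p hp hpS P hP hpP τ hτ b
      have h1 : p ∉ S := fun h => hpS (Finset.mem_union_left _ h)
      have h2 : p ∉ R := fun h => hpS (Finset.mem_union_right _ (Finset.mem_filter.2 ⟨h, hp⟩))
      have h3 : InInertia (cj b⁻¹ P) (b * τ * b⁻¹) := by
        have h5 := cj_inertia (x := b⁻¹) hτ
        rwa [inv_inv] at h5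
      have h4 := hR p hp h2 (cj b⁻¹ P) (cj_max hP) (cj_nat.2 hpP) _ h3
      exact ⟨⟨b * τ * b⁻¹, h4⟩, hI p hp h1 (cj b⁻¹ P) (cj_max hP) (cj_nat.2 hpP)
        ⟨b * τ * b⁻¹, h4⟩ h3, rfl⟩) (g : GQ)
  have h1 : τ * σ * τ⁻¹ * (g : GQ)⁻¹ ∈ H' := Subgroup.normalCore_le _ hτ
  obtain ⟨h, hh, hh'⟩ := h1
  have h2 : τ * σ * τ⁻¹ ∈ F.fixingSubgroup := by
    have h3 : τ * σ * τ⁻¹ = (h : GQ) * g := by
      have h4 : (h : GQ) = τ * σ * τ⁻¹ * (g : GQ)⁻¹ := hh'
      rw [h4, inv_mul_cancel_right]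
    rw [h3]
    exact (F.fixingSubgroup).mul_mem h.2 g.2
  refine ⟨p, hp, cj τ⁻¹ P, cj_max hP, cj_nat.2 hpP, ⟨τ * σ * τ⁻¹, h2⟩, ?_, ?_⟩
  · have h5 := cj_frob (x := τ⁻¹) hσ
    rwa [inv_inv] at h5
  · have h3 : (⟨τ * σ * τ⁻¹, h2⟩ : F.fixingSubgroup) * g⁻¹ = h := by
      apply Subtype.ext
      exact hh'.symm
    rw [h3]
    exact hh

/-- the places of `F` above the primes of a finite set -/
theorem exists_places (𝒯 : Finset ℕ) (h𝒯 : ∀ p ∈ 𝒯, p.Prime) : ∃ 𝒬 : Finset (Ideal (𝓞 F)),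
    (∀ 𝔭 ∈ 𝒬, 𝔭.IsMaximal ∧ ∃ p ∈ 𝒯, (p : 𝓞 F) ∈ 𝔭) ∧
      ∀ p ∈ 𝒯, ∀ P : Ideal ZBar, P.IsMaximal → (p : ZBar) ∈ P → P.under (𝓞 F) ∈ 𝒬 := by
  classical
  have h1 : ∀ p : ℕ, ∃ P : Ideal ZBar, p.Prime → P.IsMaximal ∧ (p : ZBar) ∈ P := by
    intro p
    by_cases hp : p.Prime
    · obtain ⟨P, _, hP, hpP, _⟩ := exists_geom hp
      exact ⟨P, fun _ => ⟨hP, hpP⟩⟩
    · exact ⟨⊥, fun h => absurd h hp⟩
  choose P₀ hP₀ using h1
  refine ⟨(𝒯 ×ˢ (Finset.univ : Finset (GQ ⧸ F.fixingSubgroup))).image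
    fun x => (cj x.2.out (P₀ x.1)).under (𝓞 F), ?_, ?_⟩
  · intro 𝔭 h𝔭
    obtain ⟨⟨p, q⟩, hpq, rfl⟩ := Finset.mem_image.1 h𝔭
    have hp := (Finset.mem_product.1 hpq).1
    obtain ⟨h2, h3⟩ := hP₀ p (h𝒯 p hp)
    have h4 : (cj q.out (P₀ p)).IsMaximal := cj_max h2
    refine ⟨Ideal.IsMaximal.under (𝓞 F) (cj q.out (P₀ p)), p, hp, ?_⟩
    show (p : 𝓞 F) ∈ (cj q.out (P₀ p)).under (𝓞 F)
    rw [mem_under, map_natCast]
    exact cj_nat.2 h3
  · intro p hp P hP hpP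
    obtain ⟨h2, h3⟩ := hP₀ p (h𝒯 p hp)
    obtain ⟨x, rfl⟩ := exists_cj (h𝒯 p hp) h2 h3 hP hpP
    refine Finset.mem_image.2 ⟨(p, ((x : GQ) : GQ ⧸ F.fixingSubgroup)),
      Finset.mem_product.2 ⟨hp, Finset.mem_univ _⟩, ?_⟩
    exact under_out

end dens

end Pool.Agent.R390.SF
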