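import Pool.Agent.R390.SF.Stab

/-!
# Semisimple representations with the same traces are isomorphic (characteristic zero)
-/

set_option autoImplicit false
set_option linter.unusedSectionVars false

namespace Pool.Agent.R390.SF

open Module

section abstr

universe u

variable {k A : Type*} [Field k] [Ring A] [Algebra k A]

/-- the trace of `a` on `M` -/
noncomputable def trc (k : Type*) [Field k] {A : Type*} [Ring A] [Algebra k A] (M : Type u)
    [AddCommGroup M] [Module k M] [Module A M] [IsScalarTower k A M] (a : A) : k :=
  LinearMap.trace k M (Algebra.lsmul k k M a)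

section one

variable {M N : Type u} [AddCommGroup M] [Module k M] [Module A M] [IsScalarTower k A M]
  [AddCommGroup N] [Module k N] [Module A N] [IsScalarTower k A N]

theorem trc_congr (e : M ≃ₗ[A] N) (a : A) : trc k M a = trc k N a := by
  unfold trc
  have h : Algebra.lsmul k k N a = (e.restrictScalars k).conj (Algebra.lsmul k k M a) := by
    ext x
    rw [LinearEquiv.conj_apply_apply]
    show a • x = e (a • e.symm x)
    rw [map_smul, e.apply_symm_apply]
  rw [h, LinearMap.trace_conj']

theorem trc_prod [FiniteDimensional k M] [FiniteDimensional k N] (a : A) :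
    trc k (M × N) a = trc k M a + trc k N a := by
  unfold trc
  have h : Algebra.lsmul k k (M × N) a =
      (Algebra.lsmul k k M a).prodMap (Algebra.lsmul k k N a) := by
    ext x <;> rfl
  rw [h, LinearMap.trace_prodMap']

variable [CharZero k] [FiniteDimensional k M] [FiniteDimensional k N] [IsSemisimpleModule A M]
  [IsSemisimpleModule A N]

theorem hom_symm (h : ∀ f : M →ₗ[A] N, f = 0) (g : N →ₗ[A] M) : g = 0 := by
  obtain ⟨s, hs⟩ := IsSemisimpleModule.lifting_property (R := A) g.rangeRestrict
    g.surjective_rangeRestrict LinearMap.id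
  obtain ⟨t, ht⟩ := IsSemisimpleModule.extension_property (R := A) (LinearMap.range g).subtype
    (LinearMap.range g).subtype_injective s
  have h1 : s = 0 := by rw [← ht, h t, LinearMap.zero_comp]
  rw [h1, LinearMap.comp_zero] at hs
  have h2 : LinearMap.range g = ⊥ := by
    rw [eq_bot_iff]
    rintro x hx
    have h3 := LinearMap.congr_fun hs ⟨x, hx⟩
    exact (congrArg Subtype.val h3).symm
  exact LinearMap.range_eq_bot.1 h2

theorem hom_ne_zero [Nontrivial M] (htr : ∀ a : A, trc k M a = trc k N a) :
    ∃ f : M →ₗ[A] N, f ≠ 0 := by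
  classical
  by_contra hcon
  push Not at hcon
  have hcon' : ∀ g : N →ₗ[A] M, g = 0 := fun g => hom_symm hcon g
  -- the projection
  have hf : ∀ (f : Module.End A (M × N)) (x : M) (y : N), (f (x, y)).1 = (f (x, 0)).1 ∧
      (f (x, 0)).2 = 0 := by
    intro f x y
    constructor
    · have h1 : f (x, y) = f (x, 0) + f (0, y) := by
        rw [← map_add]
        simp
      have h2 := LinearMap.congr_fun (hcon' ((LinearMap.fst A M N).comp (f.comp
        (LinearMap.inr A M N)))) y
      have h3 : (f (0, y)).1 = 0 := h2
      rw [h1, Prod.fst_add, h3, add_zero]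
    · exact LinearMap.congr_fun (hcon ((LinearMap.snd A M N).comp (f.comp
        (LinearMap.inl A M N)))) x
  let e : Module.End (Module.End A (M × N)) (M × N) :=
    { toFun := fun p => (p.1, 0)
      map_add' := fun p q => by simp
      map_smul' := fun f p => by
        obtain ⟨x, y⟩ := p
        show ((f (x, y)).1, (0 : N)) = f (x, 0)
        rw [(hf f x y).1]
        exact Prod.ext rfl (hf f x y).2.symm }
  have hss : IsSemisimpleModule A (M × N) := by
    have h1 : IsSemisimpleModule A (LinearMap.range (LinearMap.inl A M N)) :=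
      IsSemisimpleModule.congr (LinearEquiv.ofInjective (LinearMap.inl A M N)
        LinearMap.inl_injective).symm
    have h2 : IsSemisimpleModule A (LinearMap.range (LinearMap.inr A M N)) :=
      IsSemisimpleModule.congr (LinearEquiv.ofInjective (LinearMap.inr A M N)
        LinearMap.inr_injective).symm
    have h3 := IsSemisimpleModule.sup h1 h2
    rw [LinearMap.sup_range_inl_inr] at h3
    exact IsSemisimpleModule.congr Submodule.topEquiv.symm
  let b := Module.finBasis k (M × N)
  obtain ⟨a, ha⟩ := jacobson_density (R := A) e (Finset.univ.image b)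
  have ha' : ∀ p : M × N, a • p = (p.1, 0) := by
    intro p
    have h1 : Algebra.lsmul k k (M × N) a = (LinearMap.inl k M N).comp (LinearMap.fst k M N) := by
      refine b.ext fun i => ?_
      have h2 := ha (b i) (Finset.mem_image_of_mem _ (Finset.mem_univ _))
      exact h2.symm
    exact LinearMap.congr_fun h1 p
  have h1 : Algebra.lsmul k k M a = 1 := by
    ext x
    have h2 := congrArg Prod.fst (ha' (x, 0))
    exact h2
  have h2 : Algebra.lsmul k k N a = 0 := by
    ext x
    have h3 := congrArg Prod.snd (ha' (0, x))
    exact h3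
  have h3 := htr a
  unfold trc at h3
  rw [h1, h2, map_zero, LinearMap.trace_one] at h3
  have h4 : finrank k M ≠ 0 := (Module.finrank_pos (R := k) (M := M)).ne'
  exact h4 (by exact_mod_cast h3)

end one

/-- **Semisimple modules with the same traces are isomorphic.** -/
theorem iso_of_trc [CharZero k] : ∀ (d : ℕ) (M N : Type u) [AddCommGroup M] [Module k M]
    [Module A M] [IsScalarTower k A M] [AddCommGroup N] [Module k N] [Module A N]
    [IsScalarTower k A N] [FiniteDimensional k M] [FiniteDimensional k N] [IsSemisimpleModule A M]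
    [IsSemisimpleModule A N], finrank k M = d → (∀ a : A, trc k M a = trc k N a) →
      Nonempty (M ≃ₗ[A] N) := by
  intro d
  induction d using Nat.strong_induction_on with
  | _ d ih =>
    intro M N _ _ _ _ _ _ _ _ _ _ _ _ hd htr
    have hdim : finrank k M = finrank k N := by
      have h1 := htr 1
      have h2 : Algebra.lsmul k k M (1 : A) = 1 := map_one _
      have h3 : Algebra.lsmul k k N (1 : A) = 1 := map_one _
      unfold trc at h1
      rw [h2, h3, LinearMap.trace_one, LinearMap.trace_one] at h1
      exact_mod_cast h1
    rcases subsingleton_or_nontrivial M with hM | hM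
    · have h0 : finrank k M = 0 := Module.finrank_zero_of_subsingleton
      have hN : Subsingleton N := Module.finrank_zero_iff.1 (hdim ▸ h0 : finrank k N = 0)
      exact ⟨LinearEquiv.ofBijective (0 : M →ₗ[A] N)
        ⟨fun x y _ => Subsingleton.elim _ _, fun y => ⟨0, Subsingleton.elim _ _⟩⟩⟩
    · obtain ⟨f, hf⟩ := hom_ne_zero (k := k) htr
      obtain ⟨K', hK'⟩ := exists_isCompl (LinearMap.ker f)
      obtain ⟨C, hC⟩ := exists_isCompl (LinearMap.range f)
      have hfd : ∀ K : Submodule A M, FiniteDimensional k K := fun K =>
        FiniteDimensional.of_injective (K.subtype.restrictScalars k) K.subtype_injective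
      have hfd' : ∀ K : Submodule A N, FiniteDimensional k K := fun K =>
        FiniteDimensional.of_injective (K.subtype.restrictScalars k) K.subtype_injective
      have := hfd (LinearMap.ker f)
      have := hfd K'
      have := hfd' (LinearMap.range f)
      have := hfd' C
      -- the isomorphism of the complements
      have e₁ : K' ≃ₗ[A] LinearMap.range f :=
        (Submodule.quotientEquivOfIsCompl _ _ hK').symm.trans f.quotKerEquivRange
      have e₂ := Submodule.prodEquivOfIsCompl _ _ hK'
      have e₃ := Submodule.prodEquivOfIsCompl _ _ hC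
      have h1 : ∀ a : A, trc k (LinearMap.ker f) a = trc k C a := by
        intro a
        have h2 := trc_congr (k := k) e₂ a
        have h3 := trc_congr (k := k) e₃ a
        rw [trc_prod] at h2 h3
        have h4 := trc_congr (k := k) e₁ a
        have h5 := htr a
        rw [← h2, ← h3, h4, add_comm] at h5
        exact add_left_cancel h5
      have h2 : finrank k (LinearMap.ker f) < d := by
        rw [← hd]
        have h3 : (LinearMap.ker f).restrictScalars k ≠ ⊤ := by
          intro h4
          apply hf
          ext x
          have h5 : x ∈ (LinearMap.ker f).restrictScalars k := by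
            rw [h4]
            exact Submodule.mem_top
          exact h5
        exact Submodule.finrank_lt h3
      obtain ⟨e₄⟩ := ih _ h2 (LinearMap.ker f) C rfl h1
      exact ⟨e₂.symm.trans ((LinearEquiv.prodCongr e₄ e₁).trans
        ((LinearEquiv.prodComm A _ _).trans e₃))⟩

end abstr

section mat

open scoped MonoidAlgebra

variable {G : Type} [Group G] {n : ℕ} {k : Type} [Field k]

/-- every stable subspace has a stable complement -/
def Semis (ρ : G →* GL (Fin n) k) : Prop :=
  ∀ U : Submodule k (Fin n → k), IsStable ρ U →
    ∃ U' : Submodule k (Fin n → k), IsStable ρ U' ∧ IsCompl U U'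

/-- the representation on the space of the column vectors -/
noncomputable def rp (ρ : G →* GL (Fin n) k) : Representation k G (Fin n → k) := lin ρ

theorem semis_module {ρ : G →* GL (Fin n) k} (h : Semis ρ) :
    IsSemisimpleModule k[G] (rp ρ).asModule := by
  rw [← Representation.isSemisimpleRepresentation_iff_isSemisimpleModule_asModule]
  refine ⟨fun W => ?_⟩
  obtain ⟨U', hU', hc⟩ := h W.toSubmodule (fun g u hu => W.apply_mem_toSubmodule g hu)
  refine ⟨⟨U', fun g v hv => hU' g v hv⟩, ?_⟩
  rw [isCompl_iff, disjoint_iff, codisjoint_iff] at hc ⊢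
  constructor
  · apply Subrepresentation.toSubmodule_injective
    exact hc.1
  · apply Subrepresentation.toSubmodule_injective
    exact hc.2

theorem trc_asModule (ρ : G →* GL (Fin n) k) (ρ' : G →* GL (Fin n) k)
    (ht : ∀ g, (ρ g : Matrix (Fin n) (Fin n) k).trace = (ρ' g : Matrix (Fin n) (Fin n) k).trace)
    (a : k[G]) : trc k (rp ρ).asModule a = trc k (rp ρ').asModule a := by
  have key : ∀ (ρ : G →* GL (Fin n) k) (g : G) (t : k),
      trc k (rp ρ).asModule (MonoidAlgebra.single g t) =
        t * (ρ g : Matrix (Fin n) (Fin n) k).trace := by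
    intro ρ g t
    unfold trc
    have h1 : Algebra.lsmul k k (rp ρ).asModule (MonoidAlgebra.single g t) =
        t • (Matrix.toLin' (ρ g : Matrix (Fin n) (Fin n) k) : (Fin n → k) →ₗ[k] (Fin n → k)) := by
      ext1 v
      exact Representation.single_smul _ _ _ _
    rw [h1]
    have h2 : LinearMap.trace k (Fin n → k) (t • (Matrix.toLin'
        (ρ g : Matrix (Fin n) (Fin n) k))) = t * (ρ g : Matrix (Fin n) (Fin n) k).trace := by
      rw [map_smul, Matrix.trace_toLin'_eq, smul_eq_mul]
    exact h2
  induction a using MonoidAlgebra.induction_linear with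
  | zero => unfold trc; simp
  | add x y hx hy =>
    have hadd : ∀ ρ : G →* GL (Fin n) k, trc k (rp ρ).asModule (x + y) =
        trc k (rp ρ).asModule x + trc k (rp ρ).asModule y := by
      intro ρ
      unfold trc
      rw [map_add, map_add]
    rw [hadd, hadd, hx, hy]
  | single g t => rw [key, key, ht]

/-- **Semisimple representations with the same traces are isomorphic.** -/
theorem bn_ss [CharZero k] {ρ ρ' : G →* GL (Fin n) k} (h : Semis ρ) (h' : Semis ρ')
    (ht : ∀ g, (ρ g : Matrix (Fin n) (Fin n) k).trace = (ρ' g : Matrix (Fin n) (Fin n) k).trace) :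
    ∃ A : GL (Fin n) k, ∀ g, (ρ' g : Matrix (Fin n) (Fin n) k) * A = A * ρ g := by
  have := semis_module h
  have := semis_module h'
  obtain ⟨e⟩ := iso_of_trc (k := k) (A := k[G]) _ (rp ρ).asModule (rp ρ').asModule rfl
    (trc_asModule ρ ρ' ht)
  let e' : (Fin n → k) ≃ₗ[k] (Fin n → k) := e.restrictScalars k
  have he : ∀ (g : G) (v : Fin n → k), e' ((ρ g : Matrix (Fin n) (Fin n) k).mulVec v) =
      (ρ' g : Matrix (Fin n) (Fin n) k).mulVec (e' v) := by
    intro g v
    have h0 : ∀ (r : Representation k G (Fin n → k)) (x : r.asModule),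
        MonoidAlgebra.single g (1 : k) • x = r g (r.asModuleEquiv x) := by
      intro r x
      rw [Representation.single_smul, one_smul]
    have h1 : e (MonoidAlgebra.single g (1 : k) • ((rp ρ).asModuleEquiv.symm v)) =
        MonoidAlgebra.single g (1 : k) • e ((rp ρ).asModuleEquiv.symm v) := e.map_smul _ _
    rw [h0 (rp ρ), h0 (rp ρ')] at h1
    exact h1
  have h1 : IsUnit (LinearMap.toMatrix' (e' : (Fin n → k) →ₗ[k] (Fin n → k))) := by
    refine ⟨⟨LinearMap.toMatrix' (e' : (Fin n → k) →ₗ[k] (Fin n → k)),
      LinearMap.toMatrix' (e'.symm : (Fin n → k) →ₗ[k] (Fin n → k)), ?_, ?_⟩, rfl⟩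
    · rw [← LinearMap.toMatrix'_comp]
      simp
    · rw [← LinearMap.toMatrix'_comp]
      simp
  obtain ⟨A, hA⟩ := h1
  refine ⟨A, fun g => ?_⟩
  rw [hA]
  apply Matrix.toLin'.injective
  rw [Matrix.toLin'_mul, Matrix.toLin'_mul, Matrix.toLin'_toMatrix']
  exact LinearMap.ext fun v => (he g v).symm

end mat

end Pool.Agent.R390.SF
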