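import Pool.Agent.R390.SF.Prim

/-!
# Stable subspaces of a representation with pure monodromy
-/

set_option autoImplicit false
set_option linter.unusedSectionVars false

namespace Pool.Agent.R390.SF

open Module Polynomial

section comb

/-- splitting a sum around the middle -/
theorem sum_mid (w : ℕ) (f : ℕ → ℕ) : ∑ j ∈ Finset.range (2 * w + 1), f j =
    f w + ∑ i ∈ Finset.range w, (f (w - 1 - i) + f (w + 1 + i)) := by
  have h1 : 2 * w + 1 = w + (w + 1) := by ring
  rw [h1, Finset.sum_range_add, Finset.sum_range_succ', Finset.sum_add_distrib,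
    Finset.sum_range_reflect]
  have h2 : ∑ i ∈ Finset.range w, f (w + (i + 1)) = ∑ i ∈ Finset.range w, f (w + 1 + i) :=
    Finset.sum_congr rfl fun i _ => by congr 1; ring
  rw [h2, add_zero]
  ring

/-- the weights of a stable subspace are at most `w` in the mean -/
theorem sum_le {w : ℕ} {u : ℕ → ℕ} (hu : ∀ i ≤ w, u (w + i) ≤ u (w - i)) :
    ∑ j ∈ Finset.range (2 * w + 1), j * u j ≤ w * ∑ j ∈ Finset.range (2 * w + 1), u j ∧
    (∑ j ∈ Finset.range (2 * w + 1), j * u j = w * ∑ j ∈ Finset.range (2 * w + 1), u j →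
      ∀ i ≤ w, u (w + i) = u (w - i)) := by
  rw [sum_mid, sum_mid, mul_add, Finset.mul_sum]
  have key : ∀ i ∈ Finset.range w, (w - 1 - i) * u (w - 1 - i) + (w + 1 + i) * u (w + 1 + i) ≤
      w * (u (w - 1 - i) + u (w + 1 + i)) ∧
      ((w - 1 - i) * u (w - 1 - i) + (w + 1 + i) * u (w + 1 + i) =
        w * (u (w - 1 - i) + u (w + 1 + i)) → u (w + 1 + i) = u (w - 1 - i)) := by
    intro i hi
    rw [Finset.mem_range] at hi
    obtain ⟨a, ha⟩ : ∃ a, w = a + 1 + i := ⟨w - 1 - i, by omega⟩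
    have h2 := hu (i + 1) (by omega)
    have e1 : w - 1 - i = a := by omega
    have e2 : w - (i + 1) = a := by omega
    have e3 : w + (i + 1) = w + 1 + i := by ring
    rw [e2, e3] at h2
    rw [e1]
    generalize u (w + 1 + i) = y at *
    generalize u a = x at *
    subst ha
    constructor
    · nlinarith
    · intro h
      nlinarith
  constructor
  · exact Nat.add_le_add_left (Finset.sum_le_sum fun i hi => (key i hi).1) _
  · intro h
    have h1 := Nat.add_left_cancel h
    have h2 := (Finset.sum_eq_sum_iff_of_le fun i hi => (key i hi).1).1 h1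
    intro i hi
    rcases Nat.eq_zero_or_pos i with rfl | hpos
    · rfl
    · have h3 := (key (i - 1) (Finset.mem_range.2 (by omega))).2
        (h2 (i - 1) (Finset.mem_range.2 (by omega)))
      have e1 : w + 1 + (i - 1) = w + i := by omega
      have e2 : w - 1 - (i - 1) = w - i := by omega
      rwa [e1, e2] at h3

/-- the dimension is the sum of the sizes of the blocks -/
theorem sum_blocks {w : ℕ} {u : ℕ → ℕ} (h0 : ∀ j, 2 * w < j → u j = 0)
    (h1 : ∀ i ≤ w, u (w + i) = u (w - i)) (h2 : ∀ i, u (w + i + 2) ≤ u (w + i)) :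
    ∑ s ∈ Finset.range (w + 1), (s + 1) * (u (w + s) - u (w + s + 2)) =
      ∑ j ∈ Finset.range (2 * w + 1), u j := by
  have key : ∀ m : ℕ, (∑ s ∈ Finset.range (m + 1), (s + 1) * (u (w + s) - u (w + s + 2))) +
      (m * u (w + m + 1) + (m + 1) * u (w + m + 2)) =
      u w + ∑ i ∈ Finset.range m, 2 * u (w + 1 + i) := by
    intro m
    induction m with
    | zero =>
      have := h2 0
      rw [Finset.sum_range_one, Finset.sum_range_zero]
      simp only [Nat.add_zero] at this ⊢
      omega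
    | succ m ih =>
      rw [Finset.sum_range_succ, Finset.sum_range_succ (fun i => 2 * u (w + 1 + i))]
      have h3 := h2 (m + 1)
      have e1 : w + (m + 1) + 2 = w + m + 3 := by ring
      have e2 : w + (m + 1) = w + m + 1 := by ring
      have e3 : w + (m + 1) + 1 = w + m + 2 := by ring
      have e4 : w + 1 + m = w + m + 1 := by ring
      rw [e1, e2] at h3
      rw [e1, e3, e2, e4]
      have h4 : (m + 1 + 1) * (u (w + m + 1) - u (w + m + 3)) + (m + 1 + 1) * u (w + m + 3) =
          (m + 1 + 1) * u (w + m + 1) := by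
        rw [← mul_add, Nat.sub_add_cancel h3]
      generalize u (w + m + 1) - u (w + m + 3) = z at *
      generalize ∑ s ∈ Finset.range (m + 1), (s + 1) * (u (w + s) - u (w + s + 2)) = Z at *
      generalize ∑ i ∈ Finset.range m, 2 * u (w + 1 + i) = Y at *
      nlinarith [ih, h4]
  have h3 := key w
  rw [h0 (w + w + 1) (by omega), h0 (w + w + 2) (by omega), mul_zero, mul_zero, add_zero,
    add_zero] at h3
  rw [h3, sum_mid, Nat.add_left_cancel_iff]
  refine Finset.sum_congr rfl fun i hi => ?_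
  rw [Finset.mem_range] at hi
  have h4 := h1 (i + 1) (by omega)
  have e1 : w - (i + 1) = w - 1 - i := by omega
  have e2 : w + (i + 1) = w + 1 + i := by ring
  rw [e1, e2] at h4
  rw [← h4]
  ring

end comb

section lin

variable {k : Type*} [Field k] {V : Type*} [AddCommGroup V] [Module k V] [FiniteDimensional k V]

theorem rank_inf (f : V →ₗ[k] V) (X : Submodule k V) :
    finrank k (X.map f) + finrank k (X ⊓ LinearMap.ker f : Submodule k V) = finrank k X := by
  have h1 := LinearMap.finrank_range_add_finrank_ker (f.domRestrict X)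
  rw [LinearMap.range_domRestrict, LinearMap.ker_domRestrict,
    ← Submodule.finrank_map_subtype_eq, Submodule.map_comap_subtype] at h1
  exact h1

variable {w : ℕ} {r : ℕ → k[X]} {Φ N : V →ₗ[k] V} {U : Submodule k V}

/-- the part of weight `j` of the subspace `U` -/
noncomputable def pt (Φ : V →ₗ[k] V) (r : ℕ → k[X]) (U : Submodule k V) (j : ℕ) : Submodule k V :=
  U ⊓ LinearMap.ker (aeval Φ (r j))

theorem pow_mem_pt (hN : ∀ j, ∀ v, aeval Φ (r (j + 2)) v = 0 → aeval Φ (r j) (N v) = 0)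
    (hU : ∀ v ∈ U, N v ∈ U) (i j : ℕ) {v : V} (hv : v ∈ pt Φ r U (j + 2 * i)) :
    (N ^ i) v ∈ pt Φ r U j := by
  induction i generalizing j v with
  | zero => simpa using hv
  | succ i ih =>
    rw [pow_succ, Module.End.mul_apply]
    apply ih
    unfold pt at hv ⊢
    rw [Submodule.mem_inf, LinearMap.mem_ker] at hv ⊢
    have e : j + 2 * (i + 1) = j + 2 * i + 2 := by ring
    rw [e] at hv
    exact ⟨hU v hv.1, hN _ v hv.2⟩

theorem finrank_pt_le (hN : ∀ j, ∀ v, aeval Φ (r (j + 2)) v = 0 → aeval Φ (r j) (N v) = 0)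
    (hinj : ∀ i ≤ w, ∀ v, aeval Φ (r (w + i)) v = 0 → (N ^ i) v = 0 → v = 0)
    (hU : ∀ v ∈ U, N v ∈ U) {i : ℕ} (hi : i ≤ w) :
    finrank k (pt Φ r U (w + i)) ≤ finrank k (pt Φ r U (w - i)) := by
  have e : w + i = w - i + 2 * i := by omega
  have hmaps : ∀ v ∈ pt Φ r U (w + i), (N ^ i) v ∈ pt Φ r U (w - i) := by
    intro v hv
    rw [e] at hv
    exact pow_mem_pt hN hU i _ hv
  refine LinearMap.finrank_le_finrank_of_injective (f := (N ^ i).restrict hmaps) ?_
  rw [← LinearMap.ker_eq_bot, LinearMap.ker_eq_bot']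
  rintro ⟨v, hv⟩ h
  apply Subtype.ext
  exact hinj i hi v (Submodule.mem_inf.1 hv).2 (congrArg Subtype.val h)

theorem finrank_pt_two (hN : ∀ j, ∀ v, aeval Φ (r (j + 2)) v = 0 → aeval Φ (r j) (N v) = 0)
    (hinj : ∀ i ≤ w, ∀ v, aeval Φ (r (w + i)) v = 0 → (N ^ i) v = 0 → v = 0)
    (h1 : ∀ j, 2 * w < j → r j = 1) (hU : ∀ v ∈ U, N v ∈ U) (i : ℕ) :
    finrank k (pt Φ r U (w + i + 2)) ≤ finrank k (pt Φ r U (w + i)) := by
  by_cases hi : i + 2 ≤ w
  · have hmaps : ∀ v ∈ pt Φ r U (w + i + 2), N v ∈ pt Φ r U (w + i) := by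
      intro v hv
      have h2 := pow_mem_pt hN hU 1 (w + i) hv
      rwa [pow_one] at h2
    refine LinearMap.finrank_le_finrank_of_injective (f := N.restrict hmaps) ?_
    rw [← LinearMap.ker_eq_bot, LinearMap.ker_eq_bot']
    rintro ⟨v, hv⟩ h
    apply Subtype.ext
    have h2 : N v = 0 := congrArg Subtype.val h
    refine hinj (i + 2) hi v ?_ ?_
    · exact (Submodule.mem_inf.1 hv).2
    · rw [pow_succ, Module.End.mul_apply, h2, map_zero]
  · have h2 : pt Φ r U (w + i + 2) = ⊥ := by
      unfold pt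
      rw [h1 _ (by omega), map_one]
      rw [eq_bot_iff]
      intro x hx
      exact (Submodule.mem_inf.1 hx).2
    rw [h2, finrank_bot]
    exact Nat.zero_le _

/-- **The blocks of a balanced stable subspace are at most the blocks of the space.** -/
theorem blocks_le (hN : ∀ j, ∀ v, aeval Φ (r (j + 2)) v = 0 → aeval Φ (r j) (N v) = 0)
    (hinj : ∀ i ≤ w, ∀ v, aeval Φ (r (w + i)) v = 0 → (N ^ i) v = 0 → v = 0)
    (h1 : ∀ j, 2 * w < j → r j = 1) (hU : ∀ v ∈ U, N v ∈ U)
    (hb : ∀ i ≤ w, finrank k (pt Φ r U (w + i)) = finrank k (pt Φ r U (w - i))) (s : ℕ) :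
    finrank k (pt Φ r U (w + s)) - finrank k (pt Φ r U (w + s + 2)) +
      finrank k (pt Φ r ⊤ (w + s + 2)) ≤ finrank k (pt Φ r ⊤ (w + s)) := by
  have htop : ∀ v ∈ (⊤ : Submodule k V), N v ∈ (⊤ : Submodule k V) := fun _ _ => Submodule.mem_top
  have hle : ∀ j, pt Φ r U j ≤ pt Φ r ⊤ j := fun j => inf_le_inf_right _ le_top
  by_cases hs : s + 2 ≤ w
  · have e1 := rank_inf (N ^ (s + 1)) (pt Φ r U (w + s))
    have e2 := rank_inf (N ^ (s + 1)) (pt Φ r ⊤ (w + s))
    have e : w + s = w - (s + 2) + 2 * (s + 1) := by omega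
    have h2 : finrank k ((pt Φ r U (w + s)).map (N ^ (s + 1))) ≤
        finrank k (pt Φ r U (w - (s + 2))) := by
      apply Submodule.finrank_mono
      rintro _ ⟨v, hv, rfl⟩
      refine pow_mem_pt hN hU (s + 1) _ ?_
      rw [← e]
      exact hv
    rw [← hb (s + 2) hs, ← add_assoc] at h2
    have h3 : finrank k (pt Φ r U (w + s) ⊓ LinearMap.ker (N ^ (s + 1)) : Submodule k V) ≤
        finrank k (pt Φ r ⊤ (w + s) ⊓ LinearMap.ker (N ^ (s + 1)) : Submodule k V) :=
      Submodule.finrank_mono (inf_le_inf_right _ (hle _))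
    have h4 : finrank k (pt Φ r ⊤ (w + s + 2)) ≤
        finrank k ((pt Φ r ⊤ (w + s)).map (N ^ (s + 1))) := by
      have hmaps : ∀ v ∈ pt Φ r ⊤ (w + s + 2), (N ^ (s + 2)) v ∈
          (pt Φ r ⊤ (w + s)).map (N ^ (s + 1)) := by
        intro v hv
        refine ⟨N v, ?_, ?_⟩
        · have h5 := pow_mem_pt hN htop 1 (w + s) hv
          rwa [pow_one] at h5
        · rw [← Module.End.mul_apply, ← pow_succ]
      refine LinearMap.finrank_le_finrank_of_injective (f := (N ^ (s + 2)).restrict hmaps) ?_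
      rw [← LinearMap.ker_eq_bot, LinearMap.ker_eq_bot']
      rintro ⟨v, hv⟩ h
      apply Subtype.ext
      refine hinj (s + 2) hs v ?_ (congrArg Subtype.val h)
      exact (Submodule.mem_inf.1 hv).2
    omega
  · have h2 : ∀ W : Submodule k V, pt Φ r W (w + s + 2) = ⊥ := by
      intro W
      unfold pt
      rw [h1 _ (by omega), map_one]
      rw [eq_bot_iff]
      intro x hx
      exact (Submodule.mem_inf.1 hx).2
    rw [h2, h2, finrank_bot, add_zero, Nat.sub_zero]
    exact Submodule.finrank_mono (hle _)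

end lin

end Pool.Agent.R390.SF
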