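import Pool.Agent.R390.SF.Gal

/-!
# Integral systems of Galois representations of a number field `F`

`F` is a subfield of the algebraic closure of `ℚ`, of finite degree. Its absolute Galois group is the
subgroup `F.fixingSubgroup` of the absolute Galois group `GQ` of `ℚ`. The places of `F` above a prime
number `p` are the maximal ideals of the ring of integers `𝓞 F` which contain `p`; the maximal ideals
`P` of the ring `ZBar` of all algebraic integers with `P.under (𝓞 F) = 𝔭` are the extensions of the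
place `𝔭` to the algebraic closure, and `InInertia P`, `IsGeomFrob q P` (in `Pool.Agent.Y800.Defs`)
define the inertia group and the geometric Frobenius elements.
-/

set_option autoImplicit false

namespace Pool.Agent.R390.SF

open Polynomial NumberField Pool.Agent.Y800
open Pool.Agent.Y126.SH (chi)

/-- The subspace `U` of `k ^ n` is stable under the representation `ρ`. -/
def IsStable {G : Type*} [Group G] {k : Type} [Field k] {n : ℕ} (ρ : G →* GL (Fin n) k)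
    (U : Submodule k (Fin n → k)) : Prop :=
  ∀ g : G, ∀ u ∈ U, (ρ g : Matrix (Fin n) (Fin n) k).mulVec u ∈ U

variable (F : SubFld ℚ)

section field

variable {k : Type} [Field k] {n : ℕ}

/-- The weights at `ℓ` are natural numbers: for each subrepresentation `σ` of `ρ` (of dimension `d`,
with `C : k ^ d → k ^ n` injective and equivariant) and each place `𝔩` of `F` above `ℓ` there is
`a ≤ c` such that the inertia groups at `𝔩` act on the determinant of `σ` through `χ ^ (-a)`. -/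
def WeightsAt (ρ : F.fixingSubgroup →* GL (Fin n) k) (χ : GQ → k) (ℓ c : ℕ) : Prop :=
  ∀ (d : ℕ) (C : Matrix (Fin n) (Fin d) k) (σ : F.fixingSubgroup → Matrix (Fin d) (Fin d) k),
    Function.Injective C.mulVec → (∀ g, (ρ g : Matrix (Fin n) (Fin n) k) * C = C * σ g) →
    ∀ 𝔩 : Ideal (𝓞 F), 𝔩.IsMaximal → (ℓ : 𝓞 F) ∈ 𝔩 →
      ∃ a : ℕ, a ≤ c ∧ ∀ P : Ideal ZBar, P.IsMaximal → P.under (𝓞 F) = 𝔩 →
        ∀ τ : F.fixingSubgroup, InInertia P τ → (σ τ).det * χ τ ^ a = 1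

end field

/-- A family of `ℓ`-adic representations on `T_ℓ = ℤ_ℓ ^ n` of the absolute Galois group of `F`, one
for each prime number `ℓ`, and a family of polynomials (for the Frobenius elements at the places). -/
structure IntegralSystem (n : ℕ) where
  /-- the representations -/
  rho : ∀ (ℓ : ℕ) [Fact ℓ.Prime], F.fixingSubgroup →* GL (Fin n) ℤ_[ℓ]
  /-- the Frobenius polynomials -/
  poly : Ideal (𝓞 F) → ℤ[X]

namespace IntegralSystem

variable {F} {n : ℕ}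

/-- The representation on `V_ℓ = T_ℓ ⊗ ℚ_ℓ`. -/
noncomputable def rat (T : IntegralSystem F n) (ℓ : ℕ) [Fact ℓ.Prime] :
    F.fixingSubgroup →* GL (Fin n) ℚ_[ℓ] :=
  (Matrix.GeneralLinearGroup.map (algebraMap ℤ_[ℓ] ℚ_[ℓ])).comp (T.rho ℓ)

/-- The representation on `T_ℓ / ℓ T_ℓ`. -/
noncomputable def res (T : IntegralSystem F n) (ℓ : ℕ) [Fact ℓ.Prime] :
    F.fixingSubgroup →* GL (Fin n) (ZMod ℓ) :=
  (Matrix.GeneralLinearGroup.map (PadicInt.toZMod (p := ℓ))).comp (T.rho ℓ)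

/-- Good reduction at the place `𝔭` above `p`, pure of weight `w`. -/
structure GoodAt (T : IntegralSystem F n) (w p : ℕ) (𝔭 : Ideal (𝓞 F)) : Prop where
  /-- the Frobenius polynomial is monic -/
  monic : (T.poly 𝔭).Monic
  /-- of degree `n` -/
  natDegree : (T.poly 𝔭).natDegree = n
  /-- and pure of weight `w` -/
  pure : ∀ z : ℂ, z ∈ (T.poly 𝔭).aroots ℂ → ‖z‖ ^ 2 = (Nat.card (𝓞 F ⧸ 𝔭) : ℝ) ^ w
  /-- `T_ℓ` is unramified at `𝔭` for `ℓ ≠ p` -/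
  unramified : ∀ (ℓ : ℕ) [Fact ℓ.Prime], ℓ ≠ p → ∀ P : Ideal ZBar, P.IsMaximal →
    P.under (𝓞 F) = 𝔭 → ∀ τ : F.fixingSubgroup, InInertia P τ → T.rho ℓ τ = 1
  /-- with characteristic polynomial of the geometric Frobenius elements independent of `ℓ` -/
  frobenius : ∀ (ℓ : ℕ) [Fact ℓ.Prime], ℓ ≠ p → ∀ P : Ideal ZBar, P.IsMaximal →
    P.under (𝓞 F) = 𝔭 → ∀ σ : F.fixingSubgroup, IsGeomFrob (Nat.card (𝓞 F ⧸ 𝔭)) P σ →
      (T.rho ℓ σ : Matrix (Fin n) (Fin n) ℤ_[ℓ]).charpoly =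
        (T.poly 𝔭).map (Int.castRingHom ℤ_[ℓ])

/-- Semistable reduction at the place `𝔭` above `p`: inertia acts unipotently on `T_ℓ` for `ℓ ≠ p`. -/
def SemistableAt (T : IntegralSystem F n) (p : ℕ) (𝔭 : Ideal (𝓞 F)) : Prop :=
  ∀ (ℓ : ℕ) [Fact ℓ.Prime], ℓ ≠ p → ∀ P : Ideal ZBar, P.IsMaximal → P.under (𝓞 F) = 𝔭 →
    ∀ τ : F.fixingSubgroup, InInertia P τ →
      IsNilpotent ((T.rho ℓ τ : Matrix (Fin n) (Fin n) ℤ_[ℓ]) - 1)

/-- The representations are continuous and have good reduction, pure of weight `w`, at the places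
which are not above primes in `S`. -/
structure GoodSystem (S : Finset ℕ) (w : ℕ) (T : IntegralSystem F n) : Prop where
  /-- the representations are continuous -/
  continuous : ∀ (ℓ : ℕ) [Fact ℓ.Prime],
    Continuous fun g => (T.rho ℓ g : Matrix (Fin n) (Fin n) ℤ_[ℓ])
  /-- good reduction outside `S` -/
  good : ∀ p : ℕ, p.Prime → p ∉ S → ∀ 𝔭 : Ideal (𝓞 F), 𝔭.IsMaximal → (p : 𝓞 F) ∈ 𝔭 →
    T.GoodAt w p 𝔭

/-- The properties of the realisations of a pure motive of weight `w ≥ 0` (with Hodge numbers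
`h^{r,w-r} = 0` for `r < 0`) over `F` with a lattice, with good reduction outside the finite set `S`
of primes and semistable reduction in `S`. No polarization. -/
structure PureSystem (S : Finset ℕ) (w : ℕ) (T : IntegralSystem F n) : Prop
    extends T.GoodSystem S w where
  /-- semistable reduction in `S` -/
  semistable : ∀ p : ℕ, p.Prime → p ∈ S → ∀ 𝔭 : Ideal (𝓞 F), 𝔭.IsMaximal → (p : 𝓞 F) ∈ 𝔭 →
    T.SemistableAt p 𝔭
  /-- Hodge-Tate weights of `V_ℓ` at the places above `ℓ` -/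
  weights : ∀ (ℓ : ℕ) [Fact ℓ.Prime], ∃ c : ℕ,
    WeightsAt F (T.rat ℓ) (fun g => algebraMap ℤ_[ℓ] ℚ_[ℓ] (chi ℓ g : ℤ_[ℓ])) ℓ c
  /-- Fontaine-Laffaille weights of `T_ℓ / ℓ` at the places above `ℓ`, for almost all `ℓ` -/
  residualWeights : ∃ N : ℕ, ∀ (ℓ : ℕ) [Fact ℓ.Prime], N < ℓ →
    WeightsAt F (T.res ℓ) (fun g => PadicInt.toZMod (chi ℓ g : ℤ_[ℓ])) ℓ (w * n)

/-- The representations `V_ℓ` are irreducible for all `ℓ` in `Λ`, and the representations `T_ℓ / ℓ`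
for almost all `ℓ` in `Λ`. -/
structure IsIrreducible (Λ : Set ℕ) (T : IntegralSystem F n) : Prop where
  rational : ∀ (ℓ : ℕ) [Fact ℓ.Prime], ℓ ∈ Λ → ∀ U : Submodule ℚ_[ℓ] (Fin n → ℚ_[ℓ]),
    IsStable (T.rat ℓ) U → U = ⊥ ∨ U = ⊤
  residual : ∃ N : ℕ, ∀ (ℓ : ℕ) [Fact ℓ.Prime], ℓ ∈ Λ → N < ℓ →
    ∀ U : Submodule (ZMod ℓ) (Fin n → ZMod ℓ), IsStable (T.res ℓ) U → U = ⊥ ∨ U = ⊤

/-- `T_ℓ` and `T'_ℓ` are isomorphic for all `ℓ` in `Λ`. -/
def IsomorphicOn (Λ : Set ℕ) (T T' : IntegralSystem F n) : Prop :=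
  ∀ (ℓ : ℕ) [Fact ℓ.Prime], ℓ ∈ Λ → ∃ A : GL (Fin n) ℤ_[ℓ],
    ∀ g : F.fixingSubgroup, T'.rho ℓ g = A * T.rho ℓ g * A⁻¹

/-- A Galois stable lattice in the adelic realisation of `T`: finitely generated `ℤ_ℓ`-submodules
`L_ℓ` of `V_ℓ = ℚ_ℓ ^ n` which span `V_ℓ` and are stable, with `L_ℓ = ℤ_ℓ ^ n` for almost all `ℓ`. -/
structure IsLattice (T : IntegralSystem F n)
    (L : ∀ (ℓ : ℕ) [Fact ℓ.Prime], Submodule ℤ_[ℓ] (Fin n → ℚ_[ℓ])) : Prop where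
  fg : ∀ (ℓ : ℕ) [Fact ℓ.Prime], (L ℓ).FG
  span : ∀ (ℓ : ℕ) [Fact ℓ.Prime] (v : Fin n → ℚ_[ℓ]), ∃ m : ℕ, (ℓ : ℚ_[ℓ]) ^ m • v ∈ L ℓ
  stable : ∀ (ℓ : ℕ) [Fact ℓ.Prime] (g : F.fixingSubgroup), ∀ v ∈ L ℓ,
    (T.rat ℓ g : Matrix (Fin n) (Fin n) ℚ_[ℓ]).mulVec v ∈ L ℓ
  standard : ∃ N : ℕ, ∀ (ℓ : ℕ) [Fact ℓ.Prime], N < ℓ → ∀ v, v ∈ L ℓ ↔ ∀ i, ‖v i‖ ≤ 1

/-- The lattices `L` and `L'` are proportional on `Λ`: for a rational number `c > 0`, `c L'_ℓ = L_ℓ`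
for all `ℓ` in `Λ`. -/
def ProportionalOn (Λ : Set ℕ)
    (L L' : ∀ (ℓ : ℕ) [Fact ℓ.Prime], Submodule ℤ_[ℓ] (Fin n → ℚ_[ℓ])) : Prop :=
  ∃ c : ℚ, 0 < c ∧ ∀ (ℓ : ℕ) [Fact ℓ.Prime], ℓ ∈ Λ → ∀ v : Fin n → ℚ_[ℓ],
    v ∈ L' ℓ ↔ (c : ℚ_[ℓ]) • v ∈ L ℓ

end IntegralSystem

end Pool.Agent.R390.SF
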