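import Pool.Agent.R390.SF.Defs

/-!
# Maximally degenerate reduction over a number field
-/

set_option autoImplicit false

namespace Pool.Agent.R390.SF

open Polynomial NumberField Pool.Agent.Y800

variable (F : SubFld ℚ) {k : Type} [Field k] {n : ℕ}

/-- The representation `ρ` is maximally degenerate at the place of `F` below `P`: for a geometric
Frobenius element `σ` and an element `g` (a generator of the tame inertia group) with
`ρ(g) ρ(σ) = ρ(σ) ρ(g) ^ q`, where `q` is the number of the elements of the residue field, `ρ(g)` is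
unipotent with one Jordan block. -/
def OneBlockAt (ρ : F.fixingSubgroup →* GL (Fin n) k) (P : Ideal ZBar) : Prop :=
  ∃ σ g : F.fixingSubgroup, IsGeomFrob (resCard F P) P σ ∧
    ρ g * ρ σ = ρ σ * ρ g ^ resCard F P ∧
    IsNilpotent ((ρ g : Matrix (Fin n) (Fin n) k) - 1) ∧
    ((ρ g : Matrix (Fin n) (Fin n) k) - 1) ^ (n - 1) ≠ 0

namespace IntegralSystem

variable {F}

/-- `T` is maximally degenerate for the primes `ℓ` in `Λ`: for each `ℓ` in `Λ` the representation
`V_ℓ`, and for almost all `ℓ` in `Λ` also `T_ℓ / ℓ`, is maximally degenerate at all the places above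
a prime `p ≠ ℓ` in `S`. -/
structure IsDegenerate (S : Finset ℕ) (Λ : Set ℕ) (T : IntegralSystem F n) : Prop where
  rational : ∀ (ℓ : ℕ) [Fact ℓ.Prime], ℓ ∈ Λ → ∃ p ∈ S, p.Prime ∧ ℓ ≠ p ∧
    ∀ P : Ideal ZBar, P.IsMaximal → (p : ZBar) ∈ P → OneBlockAt F (T.rat ℓ) P
  residual : ∃ N : ℕ, ∀ (ℓ : ℕ) [Fact ℓ.Prime], ℓ ∈ Λ → N < ℓ → ∃ p ∈ S, p.Prime ∧ ℓ ≠ p ∧
    ∀ P : Ideal ZBar, P.IsMaximal → (p : ZBar) ∈ P → OneBlockAt F (T.res ℓ) P

end IntegralSystem

end Pool.Agent.R390.SF
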