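import Pool.Agent.R390.SF.Fal

/-!
# Finitely many Frobenius traces determine all traces
-/

set_option autoImplicit false
set_option linter.unusedSectionVars false

namespace Pool.Agent.R390.SF

open Module Matrix Polynomial NumberField Pool.Agent.Y800 Topology

attribute [local instance] Subgroup.fintypeQuotientOfFiniteIndex

variable {F : SubFld ℚ} [hF : FiniteDimensional ℚ F] {n : ℕ}

theorem charpoly_frob_rat {S : Finset ℕ} {w : ℕ} {T : IntegralSystem F n} (hT : T.GoodSystem S w)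
    {p : ℕ} (hp : p.Prime) (hpS : p ∉ S) {ℓ : ℕ} [Fact ℓ.Prime] (hℓ : ℓ ≠ p) {P : Ideal ZBar}
    (hP : P.IsMaximal) (hpP : (p : ZBar) ∈ P) {σ : F.fixingSubgroup} (hσ : IsGeomFrob p P σ) :
    (T.rat ℓ σ : Matrix (Fin n) (Fin n) ℚ_[ℓ]).charpoly =
      (T.poly (P.under (𝓞 F))).map (Int.castRingHom ℚ_[ℓ]) := by
  have h1 := charpoly_frob (algebraMap ℤ_[ℓ] ℚ_[ℓ]) hT hp hpS hℓ hP hpP hσ
  rw [charpoly_lin] at h1
  exact h1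

theorem trace_frob_rat (hn : 0 < n) {S : Finset ℕ} {w : ℕ} {T : IntegralSystem F n}
    (hT : T.GoodSystem S w) {p : ℕ} (hp : p.Prime) (hpS : p ∉ S) {ℓ : ℕ} [Fact ℓ.Prime]
    (hℓ : ℓ ≠ p) {P : Ideal ZBar} (hP : P.IsMaximal) (hpP : (p : ZBar) ∈ P)
    {σ : F.fixingSubgroup} (hσ : IsGeomFrob p P σ) :
    (T.rat ℓ σ : Matrix (Fin n) (Fin n) ℚ_[ℓ]).trace =
      -(((T.poly (P.under (𝓞 F))).coeff (n - 1) : ℤ) : ℚ_[ℓ]) := by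
  have : Nonempty (Fin n) := ⟨⟨0, hn⟩⟩
  rw [Matrix.trace_eq_neg_charpoly_coeff, charpoly_frob_rat hT hp hpS hℓ hP hpP hσ,
    Fintype.card_fin, Polynomial.coeff_map]
  rfl

theorem continuous_trace_rat {S : Finset ℕ} {w : ℕ} {T : IntegralSystem F n}
    (hT : T.GoodSystem S w) (ℓ : ℕ) [Fact ℓ.Prime] :
    Continuous fun g => (T.rat ℓ g : Matrix (Fin n) (Fin n) ℚ_[ℓ]).trace := by
  have h1 : (fun g => (T.rat ℓ g : Matrix (Fin n) (Fin n) ℚ_[ℓ]).trace) =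
      fun g => (((T.rho ℓ g : Matrix (Fin n) (Fin n) ℤ_[ℓ]).trace : ℤ_[ℓ]) : ℚ_[ℓ]) := by
    funext g
    show ((T.rho ℓ g : Matrix (Fin n) (Fin n) ℤ_[ℓ]).map (algebraMap ℤ_[ℓ] ℚ_[ℓ])).trace = _
    rw [← AddMonoidHom.map_trace (algebraMap ℤ_[ℓ] ℚ_[ℓ])]
    rfl
  rw [h1]
  exact continuous_subtype_val.comp (hT.continuous ℓ).matrix_trace

/-- a finite set of places determines everything -/
theorem traces_of_finite (hn : 0 < n) (S : Finset ℕ) : ∃ 𝒬 : Finset (Ideal (𝓞 F)),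
    (∀ 𝔭 ∈ 𝒬, 𝔭.IsMaximal ∧ ∃ p : ℕ, p.Prime ∧ p ∉ S ∧ (p : 𝓞 F) ∈ 𝔭) ∧
      ∀ (w w' : ℕ) (T T' : IntegralSystem F n), T.GoodSystem S w → T'.GoodSystem S w' →
        (∀ 𝔭 ∈ 𝒬, (T.poly 𝔭).coeff (n - 1) = (T'.poly 𝔭).coeff (n - 1)) →
        ∀ (ℓ : ℕ) [Fact ℓ.Prime] (g : F.fixingSubgroup),
          (T.rat ℓ g : Matrix (Fin n) (Fin n) ℚ_[ℓ]).trace =
            (T'.rat ℓ g : Matrix (Fin n) (Fin n) ℚ_[ℓ]).trace := by
  classical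
  have : Fact (Nat.Prime 2) := ⟨Nat.prime_two⟩
  let S1 : Finset ℕ := S.filter Nat.Prime ∪ {2}
  have hS1 : ∀ p ∈ S1, p.Prime := by
    intro p hp
    rcases Finset.mem_union.1 hp with h | h
    · exact (Finset.mem_filter.1 h).2
    · rw [Finset.mem_singleton.1 h]
      exact Nat.prime_two
  have hS1' : ∀ p : ℕ, p.Prime → p ∉ S1 → p ∉ S ∧ 2 ≠ p := by
    intro p hp hpS
    refine ⟨fun h => hpS (Finset.mem_union_left _ (Finset.mem_filter.2 ⟨h, hp⟩)), ?_⟩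
    rintro rfl
    exact hpS (Finset.mem_union_right _ (Finset.mem_singleton_self 2))
  let A : Type := Matrix (Fin n) (Fin n) ℚ_[2] × Matrix (Fin n) (Fin n) ℚ_[2]
  let D : ℕ := (2 ^ (2 * finrank ℚ_[2] A * finrank ℚ_[2] (⊤ : Submodule ℚ_[2] ℚ_[2]))) ^
    (2 ^ (2 * finrank ℚ_[2] A * finrank ℚ_[2] (⊤ : Submodule ℚ_[2] ℚ_[2])))
  obtain ⟨𝒯, h𝒯, hD⟩ := exists_prime_set' (F := F) S1 S1 hS1 D
  obtain ⟨𝒬, h𝒬1, h𝒬2⟩ := exists_places (F := F) 𝒯 fun p hp => (h𝒯 p hp).1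
  refine ⟨𝒬, fun 𝔭 h𝔭 => ?_, ?_⟩
  · obtain ⟨h1, p, hp, h2⟩ := h𝒬1 𝔭 h𝔭
    exact ⟨h1, p, (h𝒯 p hp).1, (hS1' p (h𝒯 p hp).1 (h𝒯 p hp).2).1, h2⟩
  intro w w' T T' hT hT' heq
  let τ₁ : A →ₗ[ℚ_[2]] ℚ_[2] :=
    (Matrix.traceLinearMap (Fin n) ℚ_[2] ℚ_[2]) ∘ₗ LinearMap.fst ℚ_[2] _ _
  let τ₂ : A →ₗ[ℚ_[2]] ℚ_[2] :=
    (Matrix.traceLinearMap (Fin n) ℚ_[2] ℚ_[2]) ∘ₗ LinearMap.snd ℚ_[2] _ _
  let r : F.fixingSubgroup →* A :=
    MonoidHom.prod ((Units.coeHom _).comp (T.rat 2)) ((Units.coeHom _).comp (T'.rat 2))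
  have hr : ∀ g, r g = ((T.rat 2 g : Matrix (Fin n) (Fin n) ℚ_[2]),
    (T'.rat 2 g : Matrix (Fin n) (Fin n) ℚ_[2])) := fun g => rfl
  obtain ⟨H, hHn, hHo, hHi, hHker, hH⟩ := falt_core (ℓ := 2) (k := ℚ_[2]) r τ₁ τ₂
    (fun x y => Matrix.trace_mul_comm x.1 y.1) (fun x y => Matrix.trace_mul_comm x.2 y.2)
    (continuous_trace_rat hT 2) (continuous_trace_rat hT' 2) ⊤
    (fun g => Submodule.mem_top) (fun g => Submodule.mem_top)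
  have htr2 : ∀ g, τ₁ (r g) = τ₂ (r g) := by
    refine hH {x | ∃ p ∈ 𝒯, ∃ P : Ideal ZBar, P.IsMaximal ∧ (p : ZBar) ∈ P ∧
      IsGeomFrob p P (x : GQ)} ?_ ?_
    · intro g
      have hin : ∀ p : ℕ, p.Prime → p ∉ S1 → ∀ P : Ideal ZBar, P.IsMaximal → (p : ZBar) ∈ P →
          ∀ τ : F.fixingSubgroup, InInertia P τ → τ ∈ H := by
        intro p hp hpS P hP hpP τ hτ
        obtain ⟨h1, h2⟩ := hS1' p hp hpS
        apply hHker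
        rw [hr]
        have hm : (P.under (𝓞 F)).IsMaximal := Ideal.IsMaximal.under (𝓞 F) P
        have hpm : (p : 𝓞 F) ∈ P.under (𝓞 F) := by
          rw [mem_under, map_natCast]
          exact hpP
        have h3 : T.rat 2 τ = 1 := by
          show (Matrix.GeneralLinearGroup.map (algebraMap ℤ_[2] ℚ_[2])) (T.rho 2 τ) = 1
          rw [(hT.good p hp h1 _ hm hpm).unramified 2 h2 P hP rfl τ hτ, map_one]
        have h4 : T'.rat 2 τ = 1 := by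
          show (Matrix.GeneralLinearGroup.map (algebraMap ℤ_[2] ℚ_[2])) (T'.rho 2 τ) = 1
          rw [(hT'.good p hp h1 _ hm hpm).unramified 2 h2 P hP rfl τ hτ, map_one]
        rw [h3, h4]
        rfl
      obtain ⟨p, hp, P, hP, hpP, σ, hσ, hτ⟩ := hD H hHo hHi hin g
      exact ⟨σ, ⟨p, hp, P, hP, hpP, hσ⟩, hτ⟩
    · rintro σ ⟨p, hp, P, hP, hpP, hσ⟩
      obtain ⟨h1, h2⟩ := hS1' p (h𝒯 p hp).1 (h𝒯 p hp).2
      show (T.rat 2 σ : Matrix (Fin n) (Fin n) ℚ_[2]).trace =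
        (T'.rat 2 σ : Matrix (Fin n) (Fin n) ℚ_[2]).trace
      rw [trace_frob_rat hn hT (h𝒯 p hp).1 h1 h2 hP hpP hσ,
        trace_frob_rat hn hT' (h𝒯 p hp).1 h1 h2 hP hpP hσ, heq _ (h𝒬2 p hp P hP hpP)]
  intro ℓ _ g
  have hclosed : IsClosed {g : F.fixingSubgroup | (T.rat ℓ g : Matrix (Fin n) (Fin n) ℚ_[ℓ]).trace =
      (T'.rat ℓ g : Matrix (Fin n) (Fin n) ℚ_[ℓ]).trace} :=
    isClosed_eq (continuous_trace_rat hT ℓ) (continuous_trace_rat hT' ℓ)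
  refine closed_univ' _ hclosed (S1 ∪ {ℓ}) ?_ g
  intro p hp hpS P hP hpP σ hσ
  have h0 : p ∉ S1 := fun h => hpS (Finset.mem_union_left _ h)
  have hℓp : ℓ ≠ p := fun h => hpS (Finset.mem_union_right _ (Finset.mem_singleton.2 h.symm))
  obtain ⟨h1, h2⟩ := hS1' p hp h0
  -- the Frobenius polynomials agree
  have hpoly : T.poly (P.under (𝓞 F)) = T'.poly (P.under (𝓞 F)) := by
    have h3 := charpoly_of_traces (T.rat 2) (T'.rat 2) htr2 σ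
    rw [charpoly_frob_rat hT hp h1 h2 hP hpP hσ, charpoly_frob_rat hT' hp h1 h2 hP hpP hσ] at h3
    exact Polynomial.map_injective _ (RingHom.injective_int (Int.castRingHom ℚ_[2])) h3
  show (T.rat ℓ σ : Matrix (Fin n) (Fin n) ℚ_[ℓ]).trace =
    (T'.rat ℓ σ : Matrix (Fin n) (Fin n) ℚ_[ℓ]).trace
  rw [trace_frob_rat hn hT hp h1 hℓp hP hpP hσ, trace_frob_rat hn hT' hp h1 hℓp hP hpP hσ, hpoly]

/-- the coefficients of the Frobenius polynomials are bounded -/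
theorem coeff_bound {S : Finset ℕ} {w : ℕ} {T : IntegralSystem F n} (hT : T.GoodSystem S w)
    {p : ℕ} (hp : p.Prime) (hpS : p ∉ S) {𝔭 : Ideal (𝓞 F)} (h𝔭 : 𝔭.IsMaximal)
    (hp𝔭 : (p : 𝓞 F) ∈ 𝔭) (i : ℕ) :
    |(T.poly 𝔭).coeff i| ≤ ((Nat.card (𝓞 F ⧸ 𝔭) ^ w) ^ n * n.choose (n / 2) : ℕ) := by
  have hg := hT.good p hp hpS 𝔭 h𝔭 hp𝔭
  have hne : 𝔭 ≠ ⊥ := by
    intro h0
    rw [h0, Ideal.mem_bot] at hp𝔭
    exact hp.ne_zero (by exact_mod_cast hp𝔭)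
  have hfin : Finite (𝓞 F ⧸ 𝔭) := Ideal.finiteQuotientOfFreeOfNeBot _ hne
  have hq : 1 ≤ Nat.card (𝓞 F ⧸ 𝔭) := Nat.card_pos
  have h1 := Polynomial.coeff_bdd_of_roots_le (B := (Nat.card (𝓞 F ⧸ 𝔭) : ℝ) ^ w) (d := n)
    (algebraMap ℤ ℂ) hg.monic (IsAlgClosed.splits _) hg.natDegree.le ?_ i
  · have h2 : (1 : ℝ) ≤ (Nat.card (𝓞 F ⧸ 𝔭) : ℝ) ^ w := one_le_pow₀ (by exact_mod_cast hq)
    rw [max_eq_left h2, Polynomial.coeff_map] at h1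
    have h3 : ‖(algebraMap ℤ ℂ) ((T.poly 𝔭).coeff i)‖ = (|(T.poly 𝔭).coeff i| : ℤ) := by
      rw [eq_intCast, Complex.norm_intCast]
      push_cast
      rfl
    rw [h3] at h1
    exact_mod_cast h1
  · intro z hz
    have h2 := hg.pure z hz
    have h3 : (1 : ℝ) ≤ (Nat.card (𝓞 F ⧸ 𝔭) : ℝ) ^ w := one_le_pow₀ (by exact_mod_cast hq)
    nlinarith [norm_nonneg z, sq_nonneg (‖z‖ - 1)]

end Pool.Agent.R390.SF
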