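import Pool.Agent.R390.SF.Wt
import Pool.Agent.R390.SF.Tr
import Pool.Agent.Y126.SH.Inst

/-!
# The fields `ℚ_ℓ` and `𝔽_ℓ`; the total weights of the stable subspaces
-/

set_option autoImplicit false
set_option linter.unusedSectionVars false

namespace Pool.Agent.R390.SF

open Module Polynomial NumberField Pool.Agent.Y800
open Pool.Agent.Y126.SH (chi)

attribute [local instance] Subgroup.fintypeQuotientOfFiniteIndex

section

variable {F : SubFld ℚ} [hF : FiniteDimensional ℚ F] {n : ℕ} {S : Finset ℕ} {w : ℕ}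
  {T : IntegralSystem F n} {ℓ : ℕ} [hℓ : Fact ℓ.Prime]

theorem mink_padic : HasMink ℚ_[ℓ] := fun θ hc h g =>
  Pool.Agent.Y126.SH.eq_one_padic θ hc h g

theorem mink_zmod : HasMink (ZMod ℓ) := by
  intro θ hc h g
  refine Pool.Agent.Y126.SH.eq_one_disc θ θ.ker ?_ (fun g hg => hg) h g
  have h1 : (θ.ker : Set GQ) = (fun g => (θ g : ZMod ℓ)) ⁻¹' {1} := by
    ext g
    rw [SetLike.mem_coe, MonoidHom.mem_ker, Set.mem_preimage, Set.mem_singleton_iff]
    exact ⟨fun h => by rw [h, Units.val_one], fun h => Units.ext h⟩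
  rw [h1]
  exact (isOpen_discrete _).preimage hc

theorem continuous_coe : Continuous (algebraMap ℤ_[ℓ] ℚ_[ℓ]) := continuous_subtype_val

theorem continuous_toZMod : Continuous (PadicInt.toZMod (p := ℓ)) := by
  rw [continuous_discrete_rng]
  intro c
  exact Pool.Agent.Y126.SH.isOpen_zmod c

/-- the data at a good prime -/
theorem exists_M (hT : T.GoodSystem S w) {p : ℕ} (hp : p.Prime) (hpS : p ∉ S) {P : Ideal ZBar}
    (hP : P.IsMaximal) (hpP : (p : ZBar) ∈ P) {σ : GQ} (hσ : IsGeomFrob p P σ)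
    (hσc : σ ∈ (F.fixingSubgroup).normalCore) (c : ℕ) : ∃ M : ℤ, M ≠ 0 ∧
    ∀ (Ω : Type) [Field Ω] [IsAlgClosed Ω], (M : Ω) ≠ 0 →
      ∀ (A : (GQ ⧸ F.fixingSubgroup) → Multiset Ω) (a : ℕ),
        a ≤ expo F.fixingSubgroup * (finrank ℚ F * c) →
        (∀ q, A q ≤ ((T.poly ((cj q.out P).under (𝓞 F))).map (Int.castRingHom Ω)).roots) →
        ∏ q, (A q).prod ^ expo F.fixingSubgroup = (p : Ω) ^ a →
          a * 2 = ∑ q, expo F.fixingSubgroup * (w * Multiset.card (A q)) := by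
  refine wt_gen (fun q : GQ ⧸ F.fixingSubgroup => T.poly ((cj q.out P).under (𝓞 F))) ?_ hp.one_lt
    (fun _ => w) ?_ (fun _ => expo F.fixingSubgroup) _
  · intro q
    have h1 : (cj q.out P).IsMaximal := cj_max hP
    have hpm : (p : 𝓞 F) ∈ (cj q.out P).under (𝓞 F) := by
      rw [mem_under, map_natCast]
      exact cj_nat.2 hpP
    exact (hT.good p hp hpS _ (Ideal.IsMaximal.under (𝓞 F) _) hpm).monic
  · intro q
    exact pure_frob hT hp hpS (cj_max hP) (cj_nat.2 hpP)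
      (σ := ⟨q.out⁻¹ * σ * q.out, core_conj hσc q.out⟩) (cj_frob hσ)

/-- the total weights, rational representations -/
theorem rat_wt (hT : T.PureSystem S w) (U : Submodule ℚ_[ℓ] (Fin n → ℚ_[ℓ]))
    (hU : IsStable (T.rat ℓ) U) :
    Wt (algebraMap ℤ_[ℓ] ℚ_[ℓ]) w (finrank ℚ_[ℓ] U) (detChar (T.rat ℓ) U hU) := by
  obtain ⟨q, hq, hqS', P, hPm, hqP, σ, hσ, hσc⟩ := exists_core (F := F) (S ∪ {ℓ})
  have hqS : q ∉ S := fun h => hqS' (Finset.mem_union_left _ h)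
  have hqℓ : ℓ ≠ q := fun h => hqS' (Finset.mem_union_right _ (Finset.mem_singleton.2 h.symm))
  obtain ⟨c, hc⟩ := hT.weights ℓ
  obtain ⟨M, hM0, hM⟩ := exists_M hT.toGoodSystem hq hqS hPm hqP hσ hσc c
  exact weight_sub (algebraMap ℤ_[ℓ] ℚ_[ℓ]) continuous_coe mink_padic hT hc hq hqS
    hqℓ hPm hqP hσ hσc (M := M) (by exact_mod_cast hM0) hM U hU

end

/-- a nonzero integer is not zero modulo almost all primes -/
theorem ne_zero_mod {M : ℤ} (hM : M ≠ 0) {ℓ : ℕ} [Fact ℓ.Prime] (h : M.natAbs < ℓ) :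
    (M : ZMod ℓ) ≠ 0 := by
  intro h0
  rw [ZMod.intCast_zmod_eq_zero_iff_dvd] at h0
  have h7 := Int.le_of_dvd (by positivity : (0 : ℤ) < |M|) ((dvd_abs _ _).2 h0)
  rw [Int.abs_eq_natAbs] at h7
  omega

/-- the total weights, almost all residual representations -/
theorem res_wt {F : SubFld ℚ} [hF : FiniteDimensional ℚ F] {n : ℕ} {S : Finset ℕ} {w : ℕ}
    {T : IntegralSystem F n} (hT : T.PureSystem S w) : ∃ N : ℕ, ∀ (ℓ : ℕ) [Fact ℓ.Prime], N < ℓ →
      ∀ (U : Submodule (ZMod ℓ) (Fin n → ZMod ℓ)) (hU : IsStable (T.res ℓ) U),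
        Wt (PadicInt.toZMod (p := ℓ)) w (finrank (ZMod ℓ) U) (detChar (T.res ℓ) U hU) := by
  obtain ⟨q, hq, hqS, P, hPm, hqP, σ, hσ, hσc⟩ := exists_core (F := F) S
  obtain ⟨N₂, hN₂⟩ := hT.residualWeights
  obtain ⟨M, hM0, hM⟩ := exists_M hT.toGoodSystem hq hqS hPm hqP hσ hσc (w * n)
  refine ⟨max N₂ (max q M.natAbs), ?_⟩
  intro ℓ hℓ hlt U hU
  simp only [max_lt_iff] at hlt
  obtain ⟨h2, h4, h5⟩ := hlt
  exact weight_sub (PadicInt.toZMod (p := ℓ)) continuous_toZMod mink_zmod hT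
    (hN₂ ℓ h2) hq hqS (by omega) hPm hqP hσ hσc (M := M) (ne_zero_mod hM0 h5) hM U hU

end Pool.Agent.R390.SF
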