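import Pool.Agent.R390.SF.Irr
import Pool.Agent.R390.SF.Inst

/-!
# The maximally degenerate systems are irreducible
-/

set_option autoImplicit false
set_option linter.unusedSectionVars false

namespace Pool.Agent.R390.SF

open Module Polynomial NumberField Pool.Agent.Y800

/-- powers of a prime number modulo large primes -/
theorem pow_ne_one {p ℓ e E : ℕ} [Fact ℓ.Prime] (hp : p.Prime) (he : 0 < e) (heE : e ≤ E)
    (h : p ^ E < ℓ) : (p : ZMod ℓ) ^ e ≠ 1 := by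
  intro h1
  have h8 : p ^ e ≤ p ^ E := Nat.pow_le_pow_right hp.pos heE
  have h9 : 1 < p ^ e := Nat.one_lt_pow he.ne' hp.one_lt
  have h10 : ((p ^ e : ℕ) : ZMod ℓ) = ((1 : ℕ) : ZMod ℓ) := by
    rw [Nat.cast_pow, Nat.cast_one]
    exact h1
  rw [ZMod.natCast_eq_natCast_iff'] at h10
  rw [Nat.mod_eq_of_lt (by omega), Nat.mod_eq_of_lt (by omega)] at h10
  omega

theorem pow_ne_one_padic {p ℓ e : ℕ} [Fact ℓ.Prime] (hp : p.Prime) (he : 0 < e) :
    (p : ℚ_[ℓ]) ^ e ≠ 1 := by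
  intro h1
  have h2 : p ^ e = 1 := by exact_mod_cast h1
  exact absurd h2 (Nat.one_lt_pow he.ne' hp.one_lt).ne'

/-- **The maximally degenerate systems are irreducible.** -/
theorem irr_of_deg {F : SubFld ℚ} [hF : FiniteDimensional ℚ F] {n : ℕ} (hn : 0 < n) {S : Finset ℕ}
    {w : ℕ} {Λ : Set ℕ} {T : IntegralSystem F n} (hT : T.PureSystem S w)
    (hD : T.IsDegenerate S Λ) : T.IsIrreducible Λ where
  rational ℓ _ hΛ U hU := by
    obtain ⟨p, hpS, hp, hpℓ, hdeg⟩ := hD.rational ℓ hΛ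
    exact irr_block (algebraMap ℤ_[ℓ] ℚ_[ℓ]) hn hT hp hpℓ hdeg
      (fun e he _ => pow_ne_one_padic hp he) (fun U hU => rat_wt hT U hU) U hU
  residual := by
    obtain ⟨N, hN⟩ := res_wt hT
    obtain ⟨N', hN'⟩ := hD.residual
    set E := expo F.fixingSubgroup * finrank ℚ F * n ^ 3 with hE
    refine ⟨max (max N N') (S.sup fun p => p ^ E), ?_⟩
    intro ℓ _ hΛ hlt U hU
    simp only [max_lt_iff] at hlt
    obtain ⟨⟨h2, h3⟩, h6⟩ := hlt
    obtain ⟨p, hpS, hp, hpℓ, hdeg⟩ := hN' ℓ hΛ h3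
    exact irr_block (PadicInt.toZMod (p := ℓ)) hn hT hp hpℓ hdeg
      (fun e he heE => pow_ne_one hp he heE
        (lt_of_le_of_lt (Finset.le_sup (f := fun p => p ^ E) hpS) h6))
      (fun U hU => hN ℓ h2 U hU) U hU

end Pool.Agent.R390.SF
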