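import Pool.Agent.Y126.SH.Ari

/-!
# Galois groups of number fields as subgroups of the one of `ℚ`: inertia groups, Frobenius elements
-/

set_option autoImplicit false
set_option linter.unusedSectionVars false

namespace Pool.Agent.R390.SF

open NumberField Pool.Agent.Y800

/-- The subfields of the algebraic closure of `k` which contain `k`. -/
abbrev SubFld (k : Type) [Field k] : Type := IntermediateField k (AlgebraicClosure k)

/-- the conjugate `x⁻¹ P` -/
noncomputable def cj (x : GQ) (P : Ideal ZBar) : Ideal ZBar := P.comap (MulSemiringAction.toRingHom GQ ZBar x)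

theorem mem_cj {x : GQ} {P : Ideal ZBar} {y : ZBar} : y ∈ cj x P ↔ x • y ∈ P := Iff.rfl

theorem cj_max {x : GQ} {P : Ideal ZBar} (hP : P.IsMaximal) : (cj x P).IsMaximal := by
  refine Ideal.comap_isMaximal_of_surjective _ ?_
  intro y
  exact ⟨x⁻¹ • y, smul_inv_smul x y⟩

theorem cj_nat {x : GQ} {P : Ideal ZBar} {p : ℕ} : (p : ZBar) ∈ cj x P ↔ (p : ZBar) ∈ P := by
  rw [mem_cj]
  have h : x • (p : ZBar) = p := map_natCast (MulSemiringAction.toRingHom GQ ZBar x) p
  rw [h]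

theorem cj_cj {x y : GQ} {P : Ideal ZBar} : cj y (cj x P) = cj (x * y) P := by
  ext z
  rw [mem_cj, mem_cj, mem_cj, mul_smul]

theorem cj_one {P : Ideal ZBar} : cj 1 P = P := by
  ext z
  rw [mem_cj, one_smul]

theorem cj_inertia {x τ : GQ} {P : Ideal ZBar} (h : InInertia P τ) :
    InInertia (cj x P) (x⁻¹ * τ * x) := by
  intro y
  rw [mem_cj, smul_sub, ← mul_smul]
  have h1 : x * (x⁻¹ * τ * x) = τ * x := by group
  rw [h1, mul_smul]
  exact h (x • y)

theorem cj_frob {x σ : GQ} {q : ℕ} {P : Ideal ZBar} (h : IsGeomFrob q P σ) :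
    IsGeomFrob q (cj x P) (x⁻¹ * σ * x) := by
  intro y
  rw [mem_cj, smul_sub, smul_pow', ← mul_smul]
  have h1 : x * (x⁻¹ * σ * x) = σ * x := by group
  rw [h1, mul_smul]
  exact h (x • y)

/-- the primes above `p` are conjugate -/
theorem exists_cj {p : ℕ} (hp : p.Prime) {P Q : Ideal ZBar} (hP : P.IsMaximal)
    (hpP : (p : ZBar) ∈ P) (hQ : Q.IsMaximal) (hpQ : (p : ZBar) ∈ Q) : ∃ x : GQ, Q = cj x P := by
  obtain ⟨g, hg⟩ := Pool.Agent.W571.FM.exists_smul (K := ℚ) P Q hP.isPrime hQ.isPrime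
    ((Pool.Agent.W571.FM.cm_eq hp hP hpP).trans (Pool.Agent.W571.FM.cm_eq hp hQ hpQ).symm)
  refine ⟨g⁻¹, ?_⟩
  ext x
  rw [mem_cj]
  exact hg x

theorem geom_mem {q : ℕ} {P : Ideal ZBar} (hP : P.IsMaximal) {σ : GQ} (h : IsGeomFrob q P σ)
    (hq : q ≠ 0) {y : ZBar} : σ • y ∈ P ↔ y ∈ P := by
  have h1 := h y
  constructor
  · intro h2
    have h3 := P.add_mem h1 (P.pow_mem_of_mem h2 q (Nat.pos_of_ne_zero hq))
    rwa [sub_add_cancel] at h3
  · intro h2
    have h3 := P.sub_mem h2 h1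
    rw [sub_sub_cancel] at h3
    exact hP.isPrime.mem_of_pow_mem q h3

theorem inertia_mem {P : Ideal ZBar} {τ : GQ} (h : InInertia P τ) {y : ZBar} :
    τ • y ∈ P ↔ y ∈ P := by
  have h1 := h y
  constructor
  · intro h2
    have h3 := P.sub_mem h2 h1
    rwa [sub_sub_cancel] at h3
  · intro h2
    have h3 := P.add_mem h1 h2
    rwa [sub_add_cancel] at h3

theorem inertia_mul {P : Ideal ZBar} {τ τ' : GQ} (h : InInertia P τ) (h' : InInertia P τ') :
    InInertia P (τ * τ') := by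
  intro x
  have h1 := P.add_mem (h (τ' • x)) (h' x)
  rwa [sub_add_sub_cancel, ← mul_smul] at h1

theorem inertia_one {P : Ideal ZBar} : InInertia P 1 := by
  intro x
  rw [one_smul, sub_self]
  exact P.zero_mem

theorem inertia_pow {P : Ideal ZBar} {τ : GQ} (h : InInertia P τ) (m : ℕ) : InInertia P (τ ^ m) := by
  induction m with
  | zero => rw [pow_zero]; exact inertia_one
  | succ m ih => rw [pow_succ]; exact inertia_mul ih h

theorem geom_one {P : Ideal ZBar} : IsGeomFrob 1 P 1 := by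
  intro x
  rw [one_smul, pow_one, sub_self]
  exact P.zero_mem

theorem geom_mul {P : Ideal ZBar} {q r : ℕ} {σ τ : GQ} (h : IsGeomFrob q P σ)
    (h' : IsGeomFrob r P τ) : IsGeomFrob (q * r) P (σ * τ) := by
  intro x
  have h1 := h' x
  have h2 := h (τ • x)
  have h3 : (τ • x) ^ r - ((σ • (τ • x)) ^ q) ^ r ∈ P := by
    have h4 := sub_dvd_pow_sub_pow (τ • x) ((σ • (τ • x)) ^ q) r
    exact P.mem_of_dvd h4 h2
  have h5 := P.add_mem h1 h3
  rwa [sub_add_sub_cancel, ← pow_mul, ← mul_smul] at h5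

theorem geom_pow {P : Ideal ZBar} {q : ℕ} {σ : GQ} (h : IsGeomFrob q P σ) (m : ℕ) :
    IsGeomFrob (q ^ m) P (σ ^ m) := by
  induction m with
  | zero => rw [pow_zero, pow_zero]; exact geom_one
  | succ m ih => rw [pow_succ, pow_succ]; exact geom_mul ih h

/-- two Frobenius elements differ by an element of the inertia group -/
theorem geom_unique {P : Ideal ZBar} (hP : P.IsMaximal) {q : ℕ} (hq : q ≠ 0) {σ τ : GQ}
    (h : IsGeomFrob q P σ) (h' : IsGeomFrob q P τ) (hfrob : ∀ x y : ZBar, x ^ q - y ^ q ∈ P → x - y ∈ P) :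
    InInertia P (σ⁻¹ * τ) := by
  intro x
  have h1 := P.sub_mem (h x) (h' x)
  rw [sub_sub_sub_cancel_left] at h1
  have h2 := hfrob _ _ h1
  rw [← geom_mem hP h hq, smul_sub, ← mul_smul, mul_inv_cancel_left]
  exact h2

/-- the Frobenius map of the residue field is injective -/
theorem frob_inj {p : ℕ} (hp : p.Prime) {P : Ideal ZBar} (hP : P.IsMaximal) (hpP : (p : ZBar) ∈ P)
    (m : ℕ) (x y : ZBar) (h : x ^ p ^ m - y ^ p ^ m ∈ P) : x - y ∈ P := by
  have := hP.isPrime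
  have : Fact p.Prime := ⟨hp⟩
  have : CharP (ZBar ⧸ P) p := by
    have h0 : ((p : ℕ) : ZBar ⧸ P) = 0 := by
      rw [← map_natCast (Ideal.Quotient.mk P)]
      exact Ideal.Quotient.eq_zero_iff_mem.2 hpP
    have := Ideal.Quotient.isDomain P
    exact (CharP.charP_iff_prime_eq_zero hp).2 h0
  have h1 : (Ideal.Quotient.mk P x) ^ p ^ m = (Ideal.Quotient.mk P y) ^ p ^ m := by
    rw [← map_pow, ← map_pow]
    exact Ideal.Quotient.eq.2 h
  have := Ideal.Quotient.isDomain P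
  have h2 : (Ideal.Quotient.mk P x - Ideal.Quotient.mk P y) ^ p ^ m = 0 := by
    rw [sub_pow_char_pow, h1, sub_self]
  have h3 := eq_zero_of_pow_eq_zero h2
  rw [← map_sub] at h3
  exact Ideal.Quotient.eq_zero_iff_mem.1 h3

section field

variable (F : SubFld ℚ)

/-- the number of the elements of the residue field of `F` at `P` -/
noncomputable def resCard (P : Ideal ZBar) : ℕ := Nat.card (𝓞 F ⧸ P.under (𝓞 F))

variable {F}

theorem smul_F {τ : GQ} (hτ : τ ∈ F.fixingSubgroup) (a : 𝓞 F) :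
    τ • (algebraMap (𝓞 F) ZBar a) = algebraMap (𝓞 F) ZBar a := by
  apply RingOfIntegers.ext
  exact (IntermediateField.mem_fixingSubgroup_iff F τ).1 hτ _ (a : F).2

theorem mem_under {P : Ideal ZBar} {a : 𝓞 F} : a ∈ P.under (𝓞 F) ↔ algebraMap (𝓞 F) ZBar a ∈ P :=
  Iff.rfl

theorem under_cj {x : GQ} (hx : x ∈ F.fixingSubgroup) (P : Ideal ZBar) :
    (cj x P).under (𝓞 F) = P.under (𝓞 F) := by
  ext a
  rw [mem_under, mem_under, mem_cj, smul_F hx]

variable [FiniteDimensional ℚ F]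

instance : NumberField F := ⟨⟩

omit [FiniteDimensional ℚ F] in
theorem under_max {P : Ideal ZBar} (hP : P.IsMaximal) : (P.under (𝓞 F)).IsMaximal :=
  Ideal.IsMaximal.under (𝓞 F) P

theorem resCard_pow {p : ℕ} (hp : p.Prime) {P : Ideal ZBar} (hP : P.IsMaximal)
    (hpP : (p : ZBar) ∈ P) : ∃ f : ℕ, 0 < f ∧ resCard F P = p ^ f := by
  have hm : (P.under (𝓞 F)).IsMaximal := under_max hP
  have hpm : (p : 𝓞 F) ∈ P.under (𝓞 F) := by
    rw [mem_under, map_natCast]
    exact hpP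
  have hne : P.under (𝓞 F) ≠ ⊥ := by
    intro h0
    rw [h0, Ideal.mem_bot] at hpm
    exact hp.ne_zero (by exact_mod_cast hpm)
  have hfin : Finite (𝓞 F ⧸ P.under (𝓞 F)) := Ideal.finiteQuotientOfFreeOfNeBot _ hne
  let _ : Field (𝓞 F ⧸ P.under (𝓞 F)) := Ideal.Quotient.field _
  have hch : CharP (𝓞 F ⧸ P.under (𝓞 F)) p := by
    have h0 : ((p : ℕ) : 𝓞 F ⧸ P.under (𝓞 F)) = 0 := by
      rw [← map_natCast (Ideal.Quotient.mk (P.under (𝓞 F)))]
      exact Ideal.Quotient.eq_zero_iff_mem.2 hpm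
    exact (CharP.charP_iff_prime_eq_zero hp).2 h0
  have := Fintype.ofFinite (𝓞 F ⧸ P.under (𝓞 F))
  obtain ⟨f, _, hf⟩ := FiniteField.card (𝓞 F ⧸ P.under (𝓞 F)) p
  exact ⟨f, f.2, by rw [resCard, Nat.card_eq_fintype_card, hf]⟩

/-- the residue degree divides the degree of a Frobenius element -/
theorem dvd_of_frob {p : ℕ} (hp : p.Prime) {P : Ideal ZBar} (hP : P.IsMaximal)
    (hpP : (p : ZBar) ∈ P) {f : ℕ} (hf : resCard F P = p ^ f) {m : ℕ} {σ : GQ}
    (hσF : σ ∈ F.fixingSubgroup) (hσ : IsGeomFrob (p ^ m) P σ) : f ∣ m := by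
  have hm : (P.under (𝓞 F)).IsMaximal := under_max hP
  have hpm : (p : 𝓞 F) ∈ P.under (𝓞 F) := by
    rw [mem_under, map_natCast]
    exact hpP
  have hne : P.under (𝓞 F) ≠ ⊥ := by
    intro h0
    rw [h0, Ideal.mem_bot] at hpm
    exact hp.ne_zero (by exact_mod_cast hpm)
  have hfin : Finite (𝓞 F ⧸ P.under (𝓞 F)) := Ideal.finiteQuotientOfFreeOfNeBot _ hne
  let _ : Field (𝓞 F ⧸ P.under (𝓞 F)) := Ideal.Quotient.field _
  have hfix : ∀ y : 𝓞 F ⧸ P.under (𝓞 F), y ^ p ^ m = y := by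
    intro y
    obtain ⟨a, rfl⟩ := Ideal.Quotient.mk_surjective y
    have h1 := hσ (algebraMap (𝓞 F) ZBar a)
    rw [smul_F hσF, ← map_pow, ← map_sub] at h1
    rw [← map_pow]
    exact (Ideal.Quotient.eq.2 h1).symm
  have := Fintype.ofFinite (𝓞 F ⧸ P.under (𝓞 F))
  obtain ⟨g, hg⟩ := IsCyclic.exists_generator (α := (𝓞 F ⧸ P.under (𝓞 F))ˣ)
  have hord : orderOf g = p ^ f - 1 := by
    rw [orderOf_eq_card_of_forall_mem_zpowers hg, Nat.card_units, ← hf, resCard]
  have hpm1 : 0 < p ^ m := pow_pos hp.pos m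
  have h2 : g ^ (p ^ m - 1) = 1 := by
    have h3 : g ^ p ^ m = g := by
      apply Units.ext
      rw [Units.val_pow_eq_pow_val]
      exact hfix g
    have h4 : g ^ (p ^ m - 1) * g = 1 * g := by
      rw [← pow_succ, Nat.sub_add_cancel hpm1, h3, one_mul]
    exact mul_right_cancel h4
  have h3 := orderOf_dvd_of_pow_eq_one h2
  rw [hord] at h3
  have h4 := Nat.pow_sub_one_gcd_pow_sub_one p f m
  rw [Nat.gcd_eq_left h3] at h4
  have h5 : p ^ f = p ^ (f.gcd m) := by
    have h6 : 0 < p ^ f := pow_pos hp.pos f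
    have h7 : 0 < p ^ (f.gcd m) := pow_pos hp.pos _
    omega
  have h6 := Nat.pow_right_injective hp.two_le h5
  rw [h6]
  exact Nat.gcd_dvd_right f m

end field

end Pool.Agent.R390.SF
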