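import Pool.Agent.R390.SF.Inst

/-!
# Integral systems with given Hodge numbers; rank two over number fields of odd degree
-/

set_option autoImplicit false
set_option linter.unusedSectionVars false

namespace Pool.Agent.R390.SF

open Module Polynomial NumberField Pool.Agent.Y800
open Pool.Agent.Y126.SH (chi)

attribute [local instance] Subgroup.fintypeQuotientOfFiniteIndex

section defs

variable (F : SubFld ℚ)

/-- The Hodge-Tate weights at `ℓ` are given by the Hodge numbers `h r = h^{r,w-r}`: for each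
subrepresentation `σ` of `ρ` (of dimension `d`, with `C : k ^ d → k ^ n` injective and equivariant) and
each place `𝔩` of `F` above `ℓ` there are numbers `m r ≤ h r`, `r ≤ w`, with sum `d` (the
multiplicities of the weights of `σ` at `𝔩`) such that the inertia groups at `𝔩` act on the
determinant of `σ` through `χ ^ (-∑ r m_r)`. -/
def HodgeWeightsAt {k : Type} [Field k] {n : ℕ} (ρ : F.fixingSubgroup →* GL (Fin n) k) (χ : GQ → k)
    (ℓ w : ℕ) (h : ℕ → ℕ) : Prop :=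
  ∀ (d : ℕ) (C : Matrix (Fin n) (Fin d) k) (σ : F.fixingSubgroup → Matrix (Fin d) (Fin d) k),
    Function.Injective C.mulVec → (∀ g, (ρ g : Matrix (Fin n) (Fin n) k) * C = C * σ g) →
    ∀ 𝔩 : Ideal (𝓞 F), 𝔩.IsMaximal → (ℓ : 𝓞 F) ∈ 𝔩 →
      ∃ m : ℕ → ℕ, (∀ r, m r ≤ h r) ∧ ∑ r ∈ Finset.range (w + 1), m r = d ∧
        ∀ P : Ideal ZBar, P.IsMaximal → P.under (𝓞 F) = 𝔩 → ∀ τ : F.fixingSubgroup,
          InInertia P τ → (σ τ).det * χ τ ^ (∑ r ∈ Finset.range (w + 1), r * m r) = 1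

namespace IntegralSystem

variable {F} {n : ℕ}

/-- The properties of the realisations of a pure motive over `F` of weight `w`, with Hodge numbers
`h r = h^{r,w-r}`, `0 ≤ r ≤ w`, with a lattice, with good reduction outside the finite set `S` of
primes and semistable reduction in `S`. -/
structure HodgeSystem (S : Finset ℕ) (w : ℕ) (h : ℕ → ℕ) (T : IntegralSystem F n) : Prop
    extends T.GoodSystem S w where
  /-- semistable reduction in `S` -/
  semistable : ∀ p : ℕ, p.Prime → p ∈ S → ∀ 𝔭 : Ideal (𝓞 F), 𝔭.IsMaximal → (p : 𝓞 F) ∈ 𝔭 →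
    T.SemistableAt p 𝔭
  /-- Hodge-Tate weights of `V_ℓ` at the places above `ℓ` -/
  weights : ∀ (ℓ : ℕ) [Fact ℓ.Prime],
    HodgeWeightsAt F (T.rat ℓ) (fun g => algebraMap ℤ_[ℓ] ℚ_[ℓ] (chi ℓ g : ℤ_[ℓ])) ℓ w h
  /-- Fontaine-Laffaille weights of `T_ℓ / ℓ` at the places above `ℓ`, for almost all `ℓ` -/
  residualWeights : ∃ N : ℕ, ∀ (ℓ : ℕ) [Fact ℓ.Prime], N < ℓ →
    HodgeWeightsAt F (T.res ℓ) (fun g => PadicInt.toZMod (chi ℓ g : ℤ_[ℓ])) ℓ w h

end IntegralSystem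

/-- The Hodge numbers `h^{r,w-r} = h^{w-r,r} = 1` (and all others are zero) of rank two. -/
def rankTwo (r w : ℕ) : ℕ → ℕ := fun s => if s = r ∨ s = w - r then 1 else 0

end defs

variable {F : SubFld ℚ}

theorem dim_le {k : Type} [Field k] {n d : ℕ} {C : Matrix (Fin n) (Fin d) k}
    (hC : Function.Injective C.mulVec) : d ≤ n := by
  have h1 := LinearMap.finrank_le_finrank_of_injective (f := C.mulVecLin) (by
    intro x y h
    exact hC h)
  rwa [finrank_fin_fun, finrank_fin_fun] at h1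

theorem weightsAt_of_hodge {k : Type} [Field k] {n : ℕ} {ρ : F.fixingSubgroup →* GL (Fin n) k}
    {χ : GQ → k} {ℓ w : ℕ} {h : ℕ → ℕ} (hw : HodgeWeightsAt F ρ χ ℓ w h) :
    WeightsAt F ρ χ ℓ (w * n) := by
  intro d C σ hC heq 𝔩 h1 h2
  obtain ⟨m, _, h4, h5⟩ := hw d C σ hC heq 𝔩 h1 h2
  refine ⟨_, ?_, h5⟩
  calc ∑ r ∈ Finset.range (w + 1), r * m r ≤ ∑ r ∈ Finset.range (w + 1), w * m r := by
        refine Finset.sum_le_sum fun r hr => Nat.mul_le_mul_right _ ?_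
        exact Nat.lt_succ_iff.1 (Finset.mem_range.1 hr)
    _ = w * d := by rw [← Finset.mul_sum, h4]
    _ ≤ w * n := Nat.mul_le_mul_left _ (dim_le hC)

section wt

variable {k : Type} [Field k] {n : ℕ} {ℓ : ℕ} [hℓ : Fact ℓ.Prime] (ψ : ℤ_[ℓ] →+* k)

theorem exists_hodge {ρ : F.fixingSubgroup →* GL (Fin n) k} {w : ℕ} {h : ℕ → ℕ}
    (hw : HodgeWeightsAt F ρ (fun g => ψ (chi ℓ g : ℤ_[ℓ])) ℓ w h) {U : Submodule k (Fin n → k)}
    (hU : IsStable ρ U) : ∃ m : Ideal (𝓞 F) → ℕ → ℕ, (∀ 𝔩 r, m 𝔩 r ≤ h r) ∧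
      (∀ 𝔩 : Ideal (𝓞 F), 𝔩.IsMaximal → (ℓ : 𝓞 F) ∈ 𝔩 →
        ∑ r ∈ Finset.range (w + 1), m 𝔩 r = finrank k U) ∧
      (∀ 𝔩 : Ideal (𝓞 F), ∑ r ∈ Finset.range (w + 1), r * m 𝔩 r ≤ w * n) ∧
      ∀ P : Ideal ZBar, P.IsMaximal → (ℓ : ZBar) ∈ P → ∀ τ : F.fixingSubgroup, InInertia P τ →
        detChar ρ U hU τ *
          chik ψ τ ^ (∑ r ∈ Finset.range (w + 1), r * m (P.under (𝓞 F)) r) = 1 := by
  classical
  let b := Module.finBasis k U
  let C : Matrix (Fin n) (Fin (finrank k U)) k := Matrix.of fun i j => (b j : Fin n → k) i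
  have hC : ∀ v, C.mulVec v = ((∑ j, v j • b j : U) : Fin n → k) := by
    intro v
    funext i
    rw [Matrix.mulVec, dotProduct, Submodule.coe_sum, Finset.sum_apply]
    refine Finset.sum_congr rfl fun j _ => ?_
    show (b j : Fin n → k) i * v j = v j * (b j : Fin n → k) i
    rw [mul_comm]
  have hinj : Function.Injective C.mulVec := by
    intro v v' hv
    rw [hC, hC] at hv
    have h3 := Subtype.ext hv
    have h4 := congrArg b.repr h3
    funext j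
    have h5 := DFunLike.congr_fun h4 j
    rw [Basis.repr_sum_self, Basis.repr_sum_self] at h5
    exact h5
  have heq : ∀ g, (ρ g : Matrix (Fin n) (Fin n) k) * C = C * LinearMap.toMatrix b b
      ((lin ρ g).restrict (hU g)) := by
    intro g
    ext i j
    have h3 : (C * LinearMap.toMatrix b b ((lin ρ g).restrict (hU g))) i j =
        C.mulVec (fun l => LinearMap.toMatrix b b ((lin ρ g).restrict (hU g)) l j) i := rfl
    rw [h3, hC]
    have h4 : (∑ l, LinearMap.toMatrix b b ((lin ρ g).restrict (hU g)) l j • b l) =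
        ((lin ρ g).restrict (hU g)) (b j) := by
      simp only [LinearMap.toMatrix_apply]
      exact b.sum_repr _
    rw [h4]
    rfl
  have h2 := hw (finrank k U) C _ hinj heq
  have hle : ∀ m : ℕ → ℕ, ∑ r ∈ Finset.range (w + 1), m r = finrank k U →
      ∑ r ∈ Finset.range (w + 1), r * m r ≤ w * n := by
    intro m hm
    calc ∑ r ∈ Finset.range (w + 1), r * m r ≤ ∑ r ∈ Finset.range (w + 1), w * m r := by
          refine Finset.sum_le_sum fun r hr => Nat.mul_le_mul_right _ ?_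
          exact Nat.lt_succ_iff.1 (Finset.mem_range.1 hr)
      _ = w * finrank k U := by rw [← Finset.mul_sum, hm]
      _ ≤ w * n := Nat.mul_le_mul_left _ (dim_le hinj)
  have h3 : ∀ 𝔩 : Ideal (𝓞 F), ∃ m : ℕ → ℕ, (∀ r, m r ≤ h r) ∧
      ∑ r ∈ Finset.range (w + 1), r * m r ≤ w * n ∧ (𝔩.IsMaximal → (ℓ : 𝓞 F) ∈ 𝔩 →
      ∑ r ∈ Finset.range (w + 1), m r = finrank k U ∧
      ∀ P : Ideal ZBar, P.IsMaximal → P.under (𝓞 F) = 𝔩 → ∀ τ : F.fixingSubgroup, InInertia P τ →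
        (LinearMap.toMatrix b b ((lin ρ τ).restrict (hU τ))).det *
          ψ (chi ℓ (τ : GQ) : ℤ_[ℓ]) ^ (∑ r ∈ Finset.range (w + 1), r * m r) = 1) := by
    intro 𝔩
    by_cases h5 : 𝔩.IsMaximal ∧ (ℓ : 𝓞 F) ∈ 𝔩
    · obtain ⟨m, h6, h7, h8⟩ := h2 𝔩 h5.1 h5.2
      exact ⟨m, h6, hle m h7, fun _ _ => ⟨h7, h8⟩⟩
    · refine ⟨fun _ => 0, fun _ => Nat.zero_le _, ?_, fun h6 h7 => absurd ⟨h6, h7⟩ h5⟩
      simp
  choose m hm1 hm2 hm3 using h3
  refine ⟨m, hm1, fun 𝔩 h4 h5 => (hm3 𝔩 h4 h5).1, hm2, fun P hP hℓP τ hτ => ?_⟩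
  have h4 := (hm3 (P.under (𝓞 F)) (Ideal.IsMaximal.under (𝓞 F) P) (by
    rw [mem_under, map_natCast]
    exact hℓP)).2 P hP rfl τ hτ
  rw [LinearMap.det_toMatrix] at h4
  apply Units.ext
  exact h4

/-- the combinatorial core -/
theorem rank_two_core [FiniteDimensional ℚ F] (hodd : Odd (finrank ℚ F) ∨
      ∃! 𝔩 : Ideal (𝓞 F), 𝔩.IsMaximal ∧ (ℓ : 𝓞 F) ∈ 𝔩) {r w : ℕ}
    (hr : 2 * r < w) {m : Ideal (𝓞 F) → ℕ → ℕ}
    (h1 : ∀ 𝔩 s, m 𝔩 s ≤ rankTwo r w s)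
    (h2 : ∀ 𝔩 : Ideal (𝓞 F), 𝔩.IsMaximal → (ℓ : 𝓞 F) ∈ 𝔩 →
      ∑ s ∈ Finset.range (w + 1), m 𝔩 s = 1)
    {P₀ : Ideal ZBar} (hP₀ : P₀.IsMaximal) (hℓP₀ : (ℓ : ZBar) ∈ P₀)
    (h3 : tot F (fun 𝔩 => ∑ s ∈ Finset.range (w + 1), s * m 𝔩 s) P₀ * 2 =
      w * (finrank ℚ F * 1)) : False := by
  classical
  -- the weight at each place
  have h4 : ∀ 𝔩 : Ideal (𝓞 F), 𝔩.IsMaximal → (ℓ : 𝓞 F) ∈ 𝔩 →
      ∑ s ∈ Finset.range (w + 1), s * m 𝔩 s = r + (w - 2 * r) * m 𝔩 (w - r) := by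
    intro 𝔩 h5 h6
    have h7 := h2 𝔩 h5 h6
    have hz : ∀ s ∈ Finset.range (w + 1), s ≠ r → s ≠ w - r → m 𝔩 s = 0 := by
      intro s _ hs1 hs2
      have := h1 𝔩 s
      rw [rankTwo, if_neg (by tauto)] at this
      omega
    have hne : r ≠ w - r := by omega
    have hrm : r ∈ Finset.range (w + 1) := Finset.mem_range.2 (by omega)
    have hwm : w - r ∈ Finset.range (w + 1) := Finset.mem_range.2 (by omega)
    have key : ∀ f : ℕ → ℕ, ∑ s ∈ Finset.range (w + 1), f s * m 𝔩 s =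
        f r * m 𝔩 r + f (w - r) * m 𝔩 (w - r) := by
      intro f
      rw [← Finset.add_sum_erase _ _ hrm, ← Finset.add_sum_erase _ _
        (Finset.mem_erase.2 ⟨hne.symm, hwm⟩), Finset.sum_eq_zero, add_zero]
      intro s hs
      rw [Finset.mem_erase, Finset.mem_erase] at hs
      rw [hz s hs.2.2 hs.2.1 hs.1, mul_zero]
    have h8 := key (fun s => s)
    have h9 := key (fun _ => 1)
    simp only [one_mul] at h9
    rw [h7] at h9
    rw [h8]
    have h10 : w - r = r + (w - 2 * r) := by omega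
    set δ := w - 2 * r with hδ
    rw [h10] at h9 ⊢
    have h11 : m 𝔩 r = 1 - m 𝔩 (r + δ) := by omega
    have h12 : m 𝔩 (r + δ) = 0 ∨ m 𝔩 (r + δ) = 1 := by omega
    rcases h12 with h | h
    · rw [h] at h11 ⊢
      rw [h11]
      ring
    · rw [h] at h11 ⊢
      rw [h11]
      ring
  have h5 : ∀ q : GQ ⧸ F.fixingSubgroup, ((cj q.out P₀).under (𝓞 F)).IsMaximal ∧
      (ℓ : 𝓞 F) ∈ (cj q.out P₀).under (𝓞 F) := by
    intro q
    have h6 : (cj q.out P₀).IsMaximal := cj_max hP₀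
    refine ⟨Ideal.IsMaximal.under (𝓞 F) _, ?_⟩
    rw [mem_under, map_natCast]
    exact cj_nat.2 hℓP₀
  unfold tot at h3
  rw [Finset.sum_congr rfl fun q _ => h4 _ (h5 q).1 (h5 q).2, Finset.sum_add_distrib,
    Finset.sum_const, Finset.card_univ, card_quot, ← Finset.mul_sum, smul_eq_mul] at h3
  set B := ∑ q : GQ ⧸ F.fixingSubgroup, m ((cj q.out P₀).under (𝓞 F)) (w - r) with hB
  set d := finrank ℚ F with hd
  obtain ⟨δ, hδ⟩ : ∃ δ, w = 2 * r + δ := ⟨w - 2 * r, by omega⟩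
  have h6 : w - 2 * r = δ := by omega
  rw [h6, hδ] at h3
  have h7 : δ * (2 * B) = δ * d := by nlinarith
  have h8 : 2 * B = d := Nat.eq_of_mul_eq_mul_left (by omega) h7
  rcases hodd with hodd | ⟨𝔩, _, huniq⟩
  · rw [← h8] at hodd
    exact (Nat.not_odd_iff_even.2 ⟨B, by ring⟩) hodd
  · have h9 : ∀ q : GQ ⧸ F.fixingSubgroup, (cj q.out P₀).under (𝓞 F) = 𝔩 := fun q => huniq _ (h5 q)
    rw [hB, Finset.sum_congr rfl fun q _ => by rw [h9 q], Finset.sum_const, Finset.card_univ,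
      card_quot, smul_eq_mul, ← hd] at h8
    have h10 : 0 < d := Module.finrank_pos
    have h11 : m 𝔩 (w - r) * 2 = 1 := by
      have h12 : d * (m 𝔩 (w - r) * 2) = d * 1 := by rw [mul_one]; linarith
      exact Nat.eq_of_mul_eq_mul_left h10 h12
    omega

end wt

section two

variable [hF : FiniteDimensional ℚ F] {S : Finset ℕ} {w r : ℕ}

theorem pure_of_hodge {n : ℕ} {h : ℕ → ℕ} {T : IntegralSystem F n} (hT : T.HodgeSystem S w h) :
    T.PureSystem S w where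
  continuous := hT.continuous
  good := hT.good
  semistable := hT.semistable
  weights ℓ _ := ⟨w * n, weightsAt_of_hodge (hT.weights ℓ)⟩
  residualWeights := by
    obtain ⟨N, hN⟩ := hT.residualWeights
    exact ⟨N, fun ℓ _ h => weightsAt_of_hodge (hN ℓ h)⟩

theorem rank_one_absurd {ℓ : ℕ} [hℓ : Fact ℓ.Prime] {k : Type} [Field k] [TopologicalSpace k]
    [IsTopologicalRing k] (ψ : ℤ_[ℓ] →+* k) (hodd : Odd (finrank ℚ F) ∨
      ∃! 𝔩 : Ideal (𝓞 F), 𝔩.IsMaximal ∧ (ℓ : 𝓞 F) ∈ 𝔩) (hr : 2 * r < w)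
    {T : IntegralSystem F 2} (hT : T.HodgeSystem S w (rankTwo r w))
    (hψ : Continuous ψ) (hk : HasMink k)
    (hw : HodgeWeightsAt F (rep ψ T) (fun g => ψ (chi ℓ g : ℤ_[ℓ])) ℓ w (rankTwo r w))
    {p : ℕ} (hp : p.Prime) (hpS : p ∉ S) (hpℓ : ℓ ≠ p) {P : Ideal ZBar} (hP : P.IsMaximal)
    (hpP : (p : ZBar) ∈ P) {σ : GQ} (hσ : IsGeomFrob p P σ)
    (hσc : σ ∈ (F.fixingSubgroup).normalCore) {M : ℤ} (hMk : (M : k) ≠ 0)
    (hM : ∀ (Ω : Type) [Field Ω] [IsAlgClosed Ω], (M : Ω) ≠ 0 →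
      ∀ (A : (GQ ⧸ F.fixingSubgroup) → Multiset Ω) (a : ℕ),
        a ≤ expo F.fixingSubgroup * (finrank ℚ F * (w * 2)) →
        (∀ q, A q ≤ ((T.poly ((cj q.out P).under (𝓞 F))).map (Int.castRingHom Ω)).roots) →
        ∏ q, (A q).prod ^ expo F.fixingSubgroup = (p : Ω) ^ a →
          a * 2 = ∑ q, expo F.fixingSubgroup * (w * Multiset.card (A q)))
    (U : Submodule k (Fin 2 → k)) (hU : IsStable (rep ψ T) U) : U = ⊥ ∨ U = ⊤ := by
  have hdim : finrank k (Fin 2 → k) = 2 := finrank_fin_fun k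
  have hle := Submodule.finrank_le U
  rw [hdim] at hle
  have h0 : finrank k U = 0 → U = ⊥ := fun h => Submodule.finrank_eq_zero.1 h
  have h1 : finrank k U = 2 → U = ⊤ := fun h => Submodule.eq_top_of_finrank_eq (by rw [hdim, h])
  have h2 : finrank k U ≠ 1 := by
    intro h2
    obtain ⟨m, hm1, hm2, hm3, hm4⟩ := exists_hodge ψ hw hU
    obtain ⟨P₀, _, hP₀, hℓP₀, _⟩ := exists_geom hℓ.out
    have h3 := (weight_sub' ψ hψ hk (pure_of_hodge hT) hp hpS hpℓ hP hpP hσ hσc hMk hM U hU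
      (fun 𝔩 => ∑ s ∈ Finset.range (w + 1), s * m 𝔩 s) hm3 hm4 hP₀ hℓP₀).1
    rw [h2] at h3
    refine rank_two_core (ℓ := ℓ) hodd hr hm1 ?_ hP₀ hℓP₀ h3
    intro 𝔩 h4 h5
    rw [hm2 𝔩 h4 h5, h2]
  rcases (by omega : finrank k U = 0 ∨ finrank k U = 2) with h | h
  · exact Or.inl (h0 h)
  · exact Or.inr (h1 h)

/-- **The systems of rank two over a number field of odd degree are irreducible.** -/
theorem irr_of_two {Λ : Set ℕ} (hodd : ∀ (ℓ : ℕ) [Fact ℓ.Prime], ℓ ∈ Λ → Odd (finrank ℚ F) ∨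
      ∃! 𝔩 : Ideal (𝓞 F), 𝔩.IsMaximal ∧ (ℓ : 𝓞 F) ∈ 𝔩) (hr : 2 * r < w)
    {T : IntegralSystem F 2} (hT : T.HodgeSystem S w (rankTwo r w)) : T.IsIrreducible Λ where
  rational ℓ _ hΛ U hU := by
    obtain ⟨q, hq, hqS', P, hPm, hqP, σ, hσ, hσc⟩ := exists_core (F := F) (S ∪ {ℓ})
    have hqS : q ∉ S := fun h => hqS' (Finset.mem_union_left _ h)
    have hqℓ : ℓ ≠ q := fun h => hqS' (Finset.mem_union_right _ (Finset.mem_singleton.2 h.symm))
    obtain ⟨M, hM0, hM⟩ := exists_M hT.toGoodSystem hq hqS hPm hqP hσ hσc (w * 2)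
    exact rank_one_absurd (algebraMap ℤ_[ℓ] ℚ_[ℓ]) (hodd ℓ hΛ) hr hT continuous_coe mink_padic
      (hT.weights ℓ) hq hqS hqℓ hPm hqP hσ hσc (M := M) (by exact_mod_cast hM0) hM U hU
  residual := by
    obtain ⟨q, hq, hqS, P, hPm, hqP, σ, hσ, hσc⟩ := exists_core (F := F) S
    obtain ⟨N₂, hN₂⟩ := hT.residualWeights
    obtain ⟨M, hM0, hM⟩ := exists_M hT.toGoodSystem hq hqS hPm hqP hσ hσc (w * 2)
    refine ⟨max N₂ (max q M.natAbs), ?_⟩
    intro ℓ hℓ hΛ hlt U hU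
    simp only [max_lt_iff] at hlt
    obtain ⟨h2, h4, h5⟩ := hlt
    exact rank_one_absurd (PadicInt.toZMod (p := ℓ)) (hodd ℓ hΛ) hr hT continuous_toZMod mink_zmod
      (hN₂ ℓ h2) hq hqS (by omega) hPm hqP hσ hσc (M := M) (ne_zero_mod hM0 h5) hM U hU

end two

end Pool.Agent.R390.SF
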