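import Pool.Agent.R390.SF.Wt
import Pool.Agent.R390.SF.Deg

/-!
# Irreducibility of maximally degenerate representations of the Galois group of a number field
-/

set_option autoImplicit false
set_option linter.unusedSectionVars false

namespace Pool.Agent.R390.SF

open Module Polynomial NumberField Pool.Agent.Y800
open Pool.Agent.Y126.SH (chi)

attribute [local instance] Subgroup.fintypeQuotientOfFiniteIndex

section core

variable {F : SubFld ℚ} [hF : FiniteDimensional ℚ F] {n : ℕ} {S : Finset ℕ} {w : ℕ}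
  {T : IntegralSystem F n} {ℓ : ℕ} [hℓ : Fact ℓ.Prime]
  {k : Type} [Field k] [TopologicalSpace k] [IsTopologicalRing k] (ψ : ℤ_[ℓ] →+* k)

/-- **One Jordan block: irreducibility.** -/
theorem irr_block (hn : 0 < n) (hT : T.PureSystem S w) {p : ℕ} (hp : p.Prime) (hpℓ : ℓ ≠ p)
    (hdeg : ∀ P : Ideal ZBar, P.IsMaximal → (p : ZBar) ∈ P → OneBlockAt F (rep ψ T) P)
    (hpk : ∀ e : ℕ, 0 < e → e ≤ expo F.fixingSubgroup * finrank ℚ F * n ^ 3 → (p : k) ^ e ≠ 1)
    (hwt : ∀ (U : Submodule k (Fin n → k)) (hU : IsStable (rep ψ T) U),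
      Wt ψ w (finrank k U) (detChar (rep ψ T) U hU))
    (U : Submodule k (Fin n → k)) (hU : IsStable (rep ψ T) U) : U = ⊥ ∨ U = ⊤ := by
  classical
  obtain ⟨P, σ, hP, hpP, hσ⟩ := exists_geom hp
  have hN : 0 < expo F.fixingSubgroup := expo_pos
  have hchip : (chik ψ σ : k) * (p : k) = 1 := chik_frob ψ hp hpℓ hP hpP hσ
  have hpk0 : (p : k) ≠ 0 := right_ne_zero_of_mul_eq_one hchip
  obtain ⟨D, rfl⟩ : ∃ D, n = D + 1 := ⟨n - 1, by omega⟩
  have hdim : finrank k (Fin (D + 1) → k) = D + 1 := finrank_fin_fun k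
  have key : ∀ q : GQ ⧸ F.fixingSubgroup, ∃ (c : k) (f m : ℕ), f * m = expo F.fixingSubgroup ∧
      ∀ (W : Submodule k (Fin (D + 1) → k)) (hW : IsStable (rep ψ T) W) (d : ℕ),
        finrank k W = d + 1 → (detChar (rep ψ T) W hW (zz σ q) : k) ^ 2 =
          (c ^ (2 * (d + 1)) * ((p : k) ^ f) ^ (d * (d + 1))) ^ m := by
    intro q
    obtain ⟨s, g, hs, hrel, hnil, hne⟩ := hdeg (cj q.out P) (cj_max hP) (cj_nat.2 hpP)
    obtain ⟨f, m, hf, hfm, τ, hτ, hz⟩ := zz_eq hp hP hpP hσ q hs
    let Φ : End k (Fin (D + 1) → k) :=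
      Matrix.toLin' (rep ψ T s : Matrix (Fin (D + 1)) (Fin (D + 1)) k)
    let N : End k (Fin (D + 1) → k) :=
      Matrix.toLin' ((rep ψ T g : Matrix (Fin (D + 1)) (Fin (D + 1)) k) - 1)
    have hN1 : 1 + N = Matrix.toLin' (rep ψ T g : Matrix (Fin (D + 1)) (Fin (D + 1)) k) := by
      show 1 + Matrix.toLin' ((rep ψ T g : Matrix (Fin (D + 1)) (Fin (D + 1)) k) - 1) = _
      rw [map_sub, Matrix.toLin'_one]
      exact add_sub_cancel (1 : End k (Fin (D + 1) → k)) _
    have hN : IsNilpotent N := by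
      obtain ⟨m, hm⟩ := hnil
      refine ⟨m, ?_⟩
      show (Matrix.toLin' ((rep ψ T g : Matrix (Fin (D + 1)) (Fin (D + 1)) k) - 1)) ^ m = 0
      rw [← Matrix.toLin'_pow, hm, map_zero]
    have hv : ∃ v, (N ^ D) v ≠ 0 := by
      by_contra hcon
      push Not at hcon
      apply hne
      have h1 : (Matrix.toLin' ((rep ψ T g : Matrix (Fin (D + 1)) (Fin (D + 1)) k) - 1)) ^ D = 0 :=
        LinearMap.ext hcon
      rw [← Matrix.toLin'_pow] at h1
      have h2 := (Matrix.toLin' (R := k) (m := Fin (D + 1)) (n := Fin (D + 1))).injective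
        (h1.trans (map_zero _).symm)
      rw [Nat.add_sub_cancel]
      exact h2
    obtain ⟨v, hv⟩ := hv
    have hrel' : (1 + N) * Φ = Φ * (1 + N) ^ (p ^ f) := by
      rw [hN1]
      show Matrix.toLin' _ ∘ₗ Matrix.toLin' _ = Matrix.toLin' _ ∘ₗ (Matrix.toLin' _) ^ (p ^ f)
      rw [← Matrix.toLin'_pow, ← Matrix.toLin'_mul, ← Matrix.toLin'_mul, ← Units.val_mul, hrel,
        Units.val_mul, Units.val_pow_eq_pow_val, hf]
    obtain ⟨c, hc, -⟩ := Pool.Agent.Y126.MD.det_block hN hdim hv hrel'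
    refine ⟨c, f, m, hfm, ?_⟩
    intro W hW d hd
    have hWN : ∀ x ∈ W, N x ∈ W := by
      intro x hx
      have h1 : N x = (Matrix.toLin' (rep ψ T g : Matrix (Fin (D + 1)) (Fin (D + 1)) k)) x - x := by
        show (Matrix.toLin' ((rep ψ T g : Matrix (Fin (D + 1)) (Fin (D + 1)) k) - 1)) x = _
        rw [map_sub, Matrix.toLin'_one]
        rfl
      rw [h1]
      exact W.sub_mem (hW g x hx) hx
    have h1 := Pool.Agent.Y126.MD.det_sub hN hdim hv hrel' hc hWN (hW s) hd
    have h2 : (detChar (rep ψ T) W hW s : k) =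
        ∏ i : Fin (d + 1), c * (((p ^ f : ℕ) : k)) ^ (d - (i : ℕ)) := h1
    have h3 : (detChar (rep ψ T) W hW (zz σ q) : k) = (detChar (rep ψ T) W hW s : k) ^ m := by
      rw [hz, map_mul, det_inertia ψ hT hW hp hpℓ (cj_max hP) (cj_nat.2 hpP) hτ, mul_one, map_pow,
        Units.val_pow_eq_pow_val]
    rw [h3, h2, ← pow_mul, mul_comm m 2, pow_mul, Pool.Agent.Y126.MD.prod_sq, Nat.cast_pow]
  choose c f m hfm hkey using key
  set X : k := ∏ q, c q ^ (2 * m q) with hX
  set N := expo F.fixingSubgroup with hNdef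
  -- the relation for each stable subspace
  have hsub : ∀ (W : Submodule k (Fin (D + 1) → k)) (_ : IsStable (rep ψ T) W) (d : ℕ),
      finrank k W = d + 1 → X ^ (d + 1) * (p : k) ^ (N * finrank ℚ F * (d * (d + 1))) =
        (p : k) ^ (N * (w * (finrank ℚ F * (d + 1)))) := by
    intro W hW d hd
    obtain ⟨A, hA, hA'⟩ := hwt W hW
    have h1 : (∏ q : GQ ⧸ F.fixingSubgroup, (detChar (rep ψ T) W hW (zz σ q) : k)) ^ 2 =
        ((p : k) ^ (N * A)) ^ 2 := by rw [hA' p hp hpℓ P hP hpP σ hσ]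
    rw [← Finset.prod_pow, ← pow_mul, Finset.prod_congr rfl fun q _ => hkey q W hW d hd] at h1
    have h2 : N * A * 2 = N * (w * (finrank ℚ F * (d + 1))) := by
      rw [mul_assoc, hA, hd]
    rw [h2] at h1
    rw [← h1]
    have h3 : ∀ q : GQ ⧸ F.fixingSubgroup,
        (c q ^ (2 * (d + 1)) * ((p : k) ^ f q) ^ (d * (d + 1))) ^ m q =
          (c q ^ (2 * m q)) ^ (d + 1) * (p : k) ^ (N * (d * (d + 1))) := by
      intro q
      rw [mul_pow, ← pow_mul, ← pow_mul, ← pow_mul, ← pow_mul, ← hfm q]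
      congr 1
      · congr 1
        ring
      · congr 1
        ring
    rw [Finset.prod_congr rfl fun q _ => h3 q, Finset.prod_mul_distrib, Finset.prod_pow,
      Finset.prod_const, Finset.card_univ, card_quot, ← pow_mul]
    congr 2
    ring
  rcases Nat.eq_zero_or_pos (finrank k U) with h0 | hpos
  · left
    exact Submodule.finrank_eq_zero.1 h0
  · right
    obtain ⟨d, hd⟩ : ∃ d, finrank k U = d + 1 := ⟨finrank k U - 1, by omega⟩
    have hle : d ≤ D := by
      have := Submodule.finrank_le U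
      rw [hdim, hd] at this
      omega
    rcases Nat.lt_or_ge d D with hlt | hge
    · exfalso
      have e1 := hsub U hU d hd
      have htop : IsStable (rep ψ T) (⊤ : Submodule k (Fin (D + 1) → k)) :=
        fun _ _ _ => Submodule.mem_top
      have e2 := hsub ⊤ htop D (by rw [finrank_top, hdim])
      set E := N * finrank ℚ F with hE
      have e3 : (X ^ (d + 1) * (p : k) ^ (E * (d * (d + 1)))) ^ (D + 1) =
          (X ^ (D + 1) * (p : k) ^ (E * (D * (D + 1)))) ^ (d + 1) := by
        rw [e1, e2, ← pow_mul, ← pow_mul]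
        congr 1
        ring
      rw [mul_pow, mul_pow, ← pow_mul, ← pow_mul, ← pow_mul, ← pow_mul] at e3
      have e4 : (d + 1) * (D + 1) = (D + 1) * (d + 1) := by ring
      rw [e4] at e3
      have hX0 : X ≠ 0 := by
        intro hX0
        rw [hX0, zero_pow (by omega), zero_mul] at e1
        exact pow_ne_zero _ hpk0 e1.symm
      have e5 := mul_left_cancel₀ (pow_ne_zero _ hX0) e3
      obtain ⟨t, rfl⟩ : ∃ t, D = d + t := ⟨D - d, by omega⟩
      have e6 : E * ((d + t) * (d + t + 1)) * (d + 1) = E * (d * (d + 1)) * (d + t + 1) +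
          E * (t * (d + t + 1) * (d + 1)) := by ring
      rw [e6, pow_add] at e5
      have e7 : (p : k) ^ (E * (t * (d + t + 1) * (d + 1))) = 1 := by
        have h8 : (p : k) ^ (E * (d * (d + 1)) * (d + t + 1)) * 1 =
            (p : k) ^ (E * (d * (d + 1)) * (d + t + 1)) *
              (p : k) ^ (E * (t * (d + t + 1) * (d + 1))) := by
          rw [mul_one]
          exact e5
        exact (mul_left_cancel₀ (pow_ne_zero _ hpk0) h8).symm
      have hFpos : 0 < finrank ℚ F := Module.finrank_pos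
      refine hpk _ ?_ ?_ e7
      · have : 0 < t := by omega
        positivity
      · rw [hE]
        apply Nat.mul_le_mul_left
        calc t * (d + t + 1) * (d + 1) ≤ (d + t + 1) * (d + t + 1) * (d + t + 1) := by
              gcongr; omega
          _ = (d + t + 1) ^ 3 := by ring
    · apply Submodule.eq_top_of_finrank_eq
      rw [hdim, hd]
      omega

end core

end Pool.Agent.R390.SF
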