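import Pool.Agent.R390.SF.Lat
import Pool.Agent.R390.SF.BN2

/-!
# Stable lattices in semisimple representations over `ℚ_ℓ`
-/

set_option autoImplicit false
set_option linter.unusedSectionVars false

namespace Pool.Agent.R390.SF

open Module Matrix Filter Topology

section jz

variable {G : Type} [Group G] {n : ℕ} {ℓ : ℕ} [hℓ : Fact ℓ.Prime]

/-- intertwiners that are congruent modulo a power of `ℓ` -/
theorem lat_congr2 {ρ ρ₁ ρ₂ : G →* GL (Fin n) ℤ_[ℓ]} {m : ℕ}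
    {B₁ B₂ D₁ D₂ : Matrix (Fin n) (Fin n) ℤ_[ℓ]}
    (hD₁ : B₁ * D₁ = (ℓ : ℤ_[ℓ]) ^ m • (1 : Matrix (Fin n) (Fin n) ℤ_[ℓ]))
    (hD₂ : B₂ * D₂ = (ℓ : ℤ_[ℓ]) ^ m • (1 : Matrix (Fin n) (Fin n) ℤ_[ℓ]))
    (h₁ : ∀ g, (ρ g : Matrix (Fin n) (Fin n) ℤ_[ℓ]) * B₁ = B₁ * ρ₁ g)
    (h₂ : ∀ g, (ρ g : Matrix (Fin n) (Fin n) ℤ_[ℓ]) * B₂ = B₂ * ρ₂ g)
    (hcong : ∀ i j, PadicInt.toZModPow m (B₁ i j) = PadicInt.toZModPow m (B₂ i j)) :
    ∃ A : GL (Fin n) ℤ_[ℓ], ∀ g, ρ₂ g = A * ρ₁ g * A⁻¹ := by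
  classical
  have hE : ∀ i j, ∃ e : ℤ_[ℓ], B₂ i j - B₁ i j = (ℓ : ℤ_[ℓ]) ^ m * e := by
    intro i j
    have h1 : B₂ i j - B₁ i j ∈ RingHom.ker (PadicInt.toZModPow (p := ℓ) m) := by
      rw [RingHom.mem_ker, map_sub, hcong, sub_self]
    rw [PadicInt.ker_toZModPow, Ideal.mem_span_singleton] at h1
    obtain ⟨e, he⟩ := h1
    exact ⟨e, he⟩
  choose E hE using hE
  have hE' : B₂ - B₁ = (ℓ : ℤ_[ℓ]) ^ m • (Matrix.of E) := by
    ext i j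
    rw [Matrix.sub_apply, hE, Matrix.smul_apply, Matrix.of_apply, smul_eq_mul]
  have hpow : ((ℓ : ℤ_[ℓ]) ^ m) ≠ 0 := pow_ne_zero _ (by exact_mod_cast hℓ.out.ne_zero)
  have hdet : ∀ B D : Matrix (Fin n) (Fin n) ℤ_[ℓ],
      B * D = (ℓ : ℤ_[ℓ]) ^ m • (1 : Matrix (Fin n) (Fin n) ℤ_[ℓ]) →
      ∀ X Y : Matrix (Fin n) (Fin n) ℤ_[ℓ], B * X = B * Y → X = Y := by
    intro B D hBD X Y hXY
    have h1 : B.det ≠ 0 := by
      intro h0
      have h2 := congrArg Matrix.det hBD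
      rw [Matrix.det_mul, h0, zero_mul, Matrix.det_smul, Matrix.det_one, mul_one] at h2
      exact pow_ne_zero _ hpow h2.symm
    have h3 : B.adjugate * (B * X) = B.adjugate * (B * Y) := by rw [hXY]
    rw [← Matrix.mul_assoc, ← Matrix.mul_assoc, Matrix.adjugate_mul, Matrix.smul_mul,
      Matrix.smul_mul, Matrix.one_mul, Matrix.one_mul] at h3
    ext i j
    have h4 := congrFun (congrFun h3 i) j
    rw [Matrix.smul_apply, Matrix.smul_apply, smul_eq_mul, smul_eq_mul] at h4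
    exact mul_left_cancel₀ h1 h4
  let u : Matrix (Fin n) (Fin n) ℤ_[ℓ] := 1 + D₁ * Matrix.of E
  let u' : Matrix (Fin n) (Fin n) ℤ_[ℓ] := 1 - D₂ * Matrix.of E
  have hu : B₁ * u = B₂ := by
    show B₁ * (1 + D₁ * Matrix.of E) = B₂
    rw [Matrix.mul_add, Matrix.mul_one, ← Matrix.mul_assoc, hD₁, Matrix.smul_mul, Matrix.one_mul,
      ← hE']
    abel
  have hu' : B₂ * u' = B₁ := by
    show B₂ * (1 - D₂ * Matrix.of E) = B₁
    rw [Matrix.mul_sub, Matrix.mul_one, ← Matrix.mul_assoc, hD₂, Matrix.smul_mul, Matrix.one_mul,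
      ← hE']
    abel
  have huu : u * u' = 1 := by
    apply hdet B₁ D₁ hD₁
    rw [← Matrix.mul_assoc, hu, hu', Matrix.mul_one]
  have huu' : u' * u = 1 := by
    apply hdet B₂ D₂ hD₂
    rw [← Matrix.mul_assoc, hu', hu, Matrix.mul_one]
  refine ⟨⟨u', u, huu', huu⟩, fun g => ?_⟩
  apply Units.ext
  rw [Units.val_mul, Units.val_mul]
  show (ρ₂ g : Matrix (Fin n) (Fin n) ℤ_[ℓ]) = u' * (ρ₁ g : Matrix (Fin n) (Fin n) ℤ_[ℓ]) * u
  apply hdet B₂ D₂ hD₂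
  rw [← h₂, ← Matrix.mul_assoc, ← Matrix.mul_assoc, hu', ← h₁, Matrix.mul_assoc, hu]


/-- rational coefficients of a matrix -/
noncomputable def qm : Matrix (Fin n) (Fin n) ℤ_[ℓ] →+* Matrix (Fin n) (Fin n) ℚ_[ℓ] :=
  (algebraMap ℤ_[ℓ] ℚ_[ℓ]).mapMatrix

theorem qm_inj : Function.Injective (qm (n := n) (ℓ := ℓ)) := by
  intro X Y h
  ext i j
  have h1 := congrFun (congrFun h i) j
  exact Subtype.ext h1

theorem qm_smul (c : ℤ_[ℓ]) (D : Matrix (Fin n) (Fin n) ℤ_[ℓ]) :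
    qm (c • D) = (algebraMap ℤ_[ℓ] ℚ_[ℓ] c) • qm D := by
  ext i j
  show algebraMap ℤ_[ℓ] ℚ_[ℓ] (c * D i j) = _
  rw [map_mul]
  rfl

theorem qm_det (D : Matrix (Fin n) (Fin n) ℤ_[ℓ]) :
    (qm D).det = algebraMap ℤ_[ℓ] ℚ_[ℓ] D.det := ((algebraMap ℤ_[ℓ] ℚ_[ℓ]).map_det D).symm

theorem toQ_val {ρ : G →* GL (Fin n) ℤ_[ℓ]} (g : G) :
    (toQ ρ g : Matrix (Fin n) (Fin n) ℚ_[ℓ]) = qm (ρ g : Matrix (Fin n) (Fin n) ℤ_[ℓ]) := rfl

/-- scaling a rational matrix -/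
theorem exists_scale (Q : Matrix (Fin n) (Fin n) ℚ_[ℓ]) :
    ∃ (s : ℕ) (Q' : Matrix (Fin n) (Fin n) ℤ_[ℓ]), qm Q' = ((ℓ : ℚ_[ℓ]) ^ s) • Q := by
  have h1 : ∀ x : ℚ_[ℓ], ∃ s : ℕ, ∀ t, s ≤ t → ‖(ℓ : ℚ_[ℓ]) ^ t * x‖ ≤ 1 := by
    intro x
    have h2 : Tendsto (fun t : ℕ => (ℓ : ℚ_[ℓ]) ^ t * x) atTop (𝓝 (0 * x)) :=
      (tendsto_pow_atTop_nhds_zero_of_norm_lt_one (by
        rw [Padic.norm_p]
        exact inv_lt_one_of_one_lt₀ (by exact_mod_cast hℓ.out.one_lt))).mul_const x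
    rw [zero_mul] at h2
    have h3 := h2.norm
    rw [norm_zero] at h3
    obtain ⟨s, hs⟩ := eventually_atTop.1 (h3.eventually (gt_mem_nhds one_pos))
    exact ⟨s, fun t ht => (hs t ht).le⟩
  choose s hs using h1
  let S := Finset.univ.sup fun x : Fin n × Fin n => s (Q x.1 x.2)
  have h2 : ∀ i j, ‖(ℓ : ℚ_[ℓ]) ^ S * Q i j‖ ≤ 1 := fun i j =>
    hs _ _ (Finset.le_sup (f := fun x : Fin n × Fin n => s (Q x.1 x.2)) (Finset.mem_univ (i, j)))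
  refine ⟨S, Matrix.of fun i j => ⟨(ℓ : ℚ_[ℓ]) ^ S * Q i j, h2 i j⟩, ?_⟩
  ext i j
  rfl

/-- congruences from convergence -/
theorem congr_of_tendsto {B : ℕ → Matrix (Fin n) (Fin n) ℤ_[ℓ]} {X : Matrix (Fin n) (Fin n) ℤ_[ℓ]}
    (h : Tendsto B atTop (𝓝 X)) (N : ℕ) :
    ∀ᶠ i in atTop, ∃ E : Matrix (Fin n) (Fin n) ℤ_[ℓ], B i = X + ((ℓ : ℤ_[ℓ]) ^ N) • E := by
  have h1 : ∀ a b : Fin n, ∀ᶠ i in atTop, ∃ e : ℤ_[ℓ], B i a b = X a b + (ℓ : ℤ_[ℓ]) ^ N * e := by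
    intro a b
    have h2 : Tendsto (fun i => B i a b) atTop (𝓝 (X a b)) := by
      have h3 := (tendsto_pi_nhds.1 h a)
      exact tendsto_pi_nhds.1 h3 b
    have h3 : Tendsto (fun i => ‖B i a b - X a b‖) atTop (𝓝 0) := by
      have := (h2.sub_const (X a b)).norm
      rwa [sub_self, norm_zero] at this
    have h4 : (0 : ℝ) < (ℓ : ℝ) ^ (-(N : ℤ)) := zpow_pos (by exact_mod_cast hℓ.out.pos) _
    filter_upwards [h3.eventually (gt_mem_nhds h4)] with i hi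
    have h5 := (PadicInt.norm_le_pow_iff_mem_span_pow (B i a b - X a b) N).1 hi.le
    rw [Ideal.mem_span_singleton] at h5
    obtain ⟨e, he⟩ := h5
    exact ⟨e, by rw [← he]; ring⟩
  have h2 : ∀ᶠ i in atTop, ∀ a b : Fin n, ∃ e : ℤ_[ℓ], B i a b = X a b + (ℓ : ℤ_[ℓ]) ^ N * e := by
    rw [eventually_all]
    intro a
    rw [eventually_all]
    exact h1 a
  filter_upwards [h2] with i hi
  choose E hE using hi
  refine ⟨Matrix.of E, ?_⟩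
  ext a b
  rw [hE, Matrix.add_apply, Matrix.smul_apply, Matrix.of_apply, smul_eq_mul]

/-- a multiple of the identity in the ideal of the matrices divisible on the left by `B` -/
theorem exists_inv {B : Matrix (Fin n) (Fin n) ℤ_[ℓ]} (hB : B.det ≠ 0) :
    ∃ (m : ℕ) (D : Matrix (Fin n) (Fin n) ℤ_[ℓ]),
      B * D = ((ℓ : ℤ_[ℓ]) ^ m) • (1 : Matrix (Fin n) (Fin n) ℤ_[ℓ]) := by
  have h1 := PadicInt.unitCoeff_spec hB
  set u := PadicInt.unitCoeff hB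
  refine ⟨B.det.valuation, (((u⁻¹ : (ℤ_[ℓ])ˣ) : ℤ_[ℓ])) • B.adjugate, ?_⟩
  rw [Matrix.mul_smul, Matrix.mul_adjugate, smul_smul]
  conv_lhs => rw [h1]
  rw [← mul_assoc, ← Units.val_mul, inv_mul_cancel, Units.val_one, one_mul]

/-- the determinant of `1 - Q + ℓ Q` for a projection `Q ≠ 0` -/
theorem det_proj {Q : Matrix (Fin n) (Fin n) ℚ_[ℓ]} (hQ : Q * Q = Q) (hQ0 : Q ≠ 0) :
    ‖(1 - Q + (ℓ : ℚ_[ℓ]) • Q).det‖ < 1 := by
  by_contra hcon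
  rw [not_lt] at hcon
  have h1 : ∀ N : ℕ, (1 - Q + (ℓ : ℚ_[ℓ]) • Q) ^ N = 1 - Q + ((ℓ : ℚ_[ℓ]) ^ N) • Q := by
    intro N
    induction N with
    | zero => rw [pow_zero, pow_zero, one_smul, sub_add_cancel]
    | succ N ih =>
      rw [pow_succ, ih]
      simp only [Matrix.add_mul, Matrix.mul_add, Matrix.sub_mul, Matrix.mul_sub, Matrix.one_mul,
        Matrix.mul_one, Matrix.smul_mul, Matrix.mul_smul, hQ, pow_succ]
      module
  have hlim : Tendsto (fun N : ℕ => (1 - Q + ((ℓ : ℚ_[ℓ]) ^ N) • Q).det) atTop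
      (𝓝 (1 - Q + (0 : ℚ_[ℓ]) • Q).det) := by
    have hc : Continuous fun t : ℚ_[ℓ] => (1 - Q + t • Q).det :=
      (continuous_const.add (continuous_id.smul continuous_const)).matrix_det
    exact (hc.tendsto 0).comp (tendsto_pow_atTop_nhds_zero_of_norm_lt_one (by
      rw [Padic.norm_p]
      exact inv_lt_one_of_one_lt₀ (by exact_mod_cast hℓ.out.one_lt)))
  have h0 : (1 - Q + (0 : ℚ_[ℓ]) • Q).det = 0 := by
    rw [zero_smul, add_zero]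
    by_contra h2
    have h3 : IsUnit (1 - Q).det := isUnit_iff_ne_zero.2 h2
    apply hQ0
    have h4 : (1 - Q) * Q = 0 := by rw [Matrix.sub_mul, Matrix.one_mul, hQ, sub_self]
    have h5 := congrArg (fun X => (1 - Q)⁻¹ * X) h4
    simp only [← Matrix.mul_assoc, Matrix.nonsing_inv_mul _ h3, Matrix.one_mul,
      Matrix.mul_zero] at h5
    exact h5
  rw [h0] at hlim
  have h2 := hlim.norm
  rw [norm_zero] at h2
  obtain ⟨N, hN⟩ := (h2.eventually (gt_mem_nhds one_pos)).exists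
  rw [← h1, Matrix.det_pow, norm_pow] at hN
  exact absurd (one_le_pow₀ hcon) (not_le.2 hN)

/-- **The images of the intertwiners of maximal determinant have bounded index.** -/
theorem jz (ρ₀ : G →* GL (Fin n) ℤ_[ℓ]) (hss : Semis (toQ ρ₀)) :
    ∃ m : ℕ, ∀ (ρ : G →* GL (Fin n) ℤ_[ℓ]) (B : Matrix (Fin n) (Fin n) ℤ_[ℓ]),
      (∀ g, (ρ₀ g : Matrix (Fin n) (Fin n) ℤ_[ℓ]) * B = B * ρ g) → B.det ≠ 0 →
      (∀ B' : Matrix (Fin n) (Fin n) ℤ_[ℓ],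
        (∀ g, (ρ₀ g : Matrix (Fin n) (Fin n) ℤ_[ℓ]) * B' = B' * ρ g) → ‖B'.det‖ ≤ ‖B.det‖) →
      ∃ D : Matrix (Fin n) (Fin n) ℤ_[ℓ],
        B * D = ((ℓ : ℤ_[ℓ]) ^ m) • (1 : Matrix (Fin n) (Fin n) ℤ_[ℓ]) := by
  classical
  by_contra hcon
  push Not at hcon
  choose ρ B hB hdet hmax hno using hcon
  -- a limit
  obtain ⟨X, φ, hφ, hX⟩ : ∃ (X : Matrix (Fin n) (Fin n) ℤ_[ℓ]) (φ : ℕ → ℕ), StrictMono φ ∧
      Tendsto (fun i => B (φ i)) atTop (𝓝 X) := by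
    obtain ⟨X, φ, hφ, hX⟩ := CompactSpace.tendsto_subseq (X := Fin n → Fin n → ℤ_[ℓ]) B
    exact ⟨X, φ, hφ, hX⟩
  -- the limit is a stable subspace
  have hst : ∀ g : G, ∃ Y : Matrix (Fin n) (Fin n) ℤ_[ℓ],
      (ρ₀ g : Matrix (Fin n) (Fin n) ℤ_[ℓ]) * X = X * Y := by
    intro g
    obtain ⟨Y, ψ, hψ, hY'⟩ : ∃ (Y : Matrix (Fin n) (Fin n) ℤ_[ℓ]) (ψ : ℕ → ℕ), StrictMono ψ ∧
        Tendsto (fun i => (ρ (φ (ψ i)) g : Matrix (Fin n) (Fin n) ℤ_[ℓ])) atTop (𝓝 Y) := by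
      obtain ⟨Y, ψ, hψ, hY⟩ := CompactSpace.tendsto_subseq (X := Fin n → Fin n → ℤ_[ℓ])
        (fun i => (ρ (φ i) g : Matrix (Fin n) (Fin n) ℤ_[ℓ]))
      exact ⟨Y, ψ, hψ, hY⟩
    have hX' : Tendsto (fun i => B (φ (ψ i))) atTop (𝓝 X) := hX.comp hψ.tendsto_atTop
    refine ⟨Y, ?_⟩
    have h1 : Tendsto (fun i => (ρ₀ g : Matrix (Fin n) (Fin n) ℤ_[ℓ]) * B (φ (ψ i))) atTop
        (𝓝 ((ρ₀ g : Matrix (Fin n) (Fin n) ℤ_[ℓ]) * X)) := hX'.const_mul _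
    have h2 : Tendsto (fun i => B (φ (ψ i)) * (ρ (φ (ψ i)) g : Matrix (Fin n) (Fin n) ℤ_[ℓ]))
        atTop (𝓝 (X * Y)) := hX'.mul hY'
    refine tendsto_nhds_unique h1 (h2.congr fun i => ?_)
    exact (hB _ g).symm
  have hWst : IsStable (toQ ρ₀) (LinearMap.range (qm X).mulVecLin) := by
    rintro g _ ⟨y, rfl⟩
    obtain ⟨Y, hY⟩ := hst g
    refine ⟨(qm Y).mulVec y, ?_⟩
    rw [Matrix.mulVecLin_apply, Matrix.mulVecLin_apply, Matrix.mulVec_mulVec,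
      Matrix.mulVec_mulVec, toQ_val, ← map_mul, ← map_mul, hY]
  obtain ⟨W', hW', hc⟩ := hss _ hWst
  set W := LinearMap.range (qm X).mulVecLin with hW
  by_cases hbot : W' = ⊥
  · -- the limit has full rank
    rw [hbot] at hc
    have htop : W = ⊤ := by
      have := hc.sup_eq_top
      rwa [sup_bot_eq] at this
    have hXdet : X.det ≠ 0 := by
      intro h0
      have h1 : (qm X).det = 0 := by rw [qm_det, h0, map_zero]
      have h2 : Function.Surjective (qm X).mulVecLin := LinearMap.range_eq_top.1 htop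
      have h3 : Function.Injective (qm X).mulVecLin := LinearMap.injective_iff_surjective.2 h2
      obtain ⟨v, hv, hv'⟩ := Matrix.exists_mulVec_eq_zero_iff.2 h1
      exact hv (h3 (by rw [Matrix.mulVecLin_apply, hv', map_zero]))
    obtain ⟨m, D, hD⟩ := exists_inv hXdet
    obtain ⟨i, ⟨E, hE⟩, him⟩ := ((congr_of_tendsto hX (m + 1)).and
      (eventually_ge_atTop m)).exists
    have hφm : m ≤ φ i := him.trans (hφ.id_le i)
    let U : Matrix (Fin n) (Fin n) ℤ_[ℓ] := 1 + (ℓ : ℤ_[ℓ]) • (E * D)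
    have hU : IsUnit U.det := by
      have h1 : PadicInt.toZMod (p := ℓ) U.det = 1 := by
        rw [RingHom.map_det]
        have h2 : (PadicInt.toZMod (p := ℓ)).mapMatrix U = 1 := by
          show (PadicInt.toZMod (p := ℓ)).mapMatrix (1 + (ℓ : ℤ_[ℓ]) • (E * D)) = 1
          rw [map_add, map_one]
          have h3 : (PadicInt.toZMod (p := ℓ)).mapMatrix ((ℓ : ℤ_[ℓ]) • (E * D)) = 0 := by
            ext a b
            show PadicInt.toZMod ((ℓ : ℤ_[ℓ]) * (E * D) a b) = 0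
            rw [map_mul, map_natCast, ZMod.natCast_self, zero_mul]
          rw [h3, add_zero]
        rw [h2, Matrix.det_one]
      by_contra hnu
      have h3 : U.det ∈ IsLocalRing.maximalIdeal ℤ_[ℓ] := (IsLocalRing.mem_maximalIdeal _).2 hnu
      rw [← PadicInt.ker_toZMod, RingHom.mem_ker, h1] at h3
      exact one_ne_zero h3
    have h1 : B (φ i) * D = ((ℓ : ℤ_[ℓ]) ^ m) • U := by
      rw [hE, Matrix.add_mul, hD, Matrix.smul_mul]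
      show _ = ((ℓ : ℤ_[ℓ]) ^ m) • (1 + (ℓ : ℤ_[ℓ]) • (E * D))
      rw [smul_add, smul_smul, pow_succ]
    refine hno (φ i) (((ℓ : ℤ_[ℓ]) ^ (φ i - m)) • (D * U⁻¹)) ?_
    rw [Matrix.mul_smul, ← Matrix.mul_assoc, h1, Matrix.smul_mul, Matrix.mul_nonsing_inv _ hU,
      smul_smul, ← pow_add, Nat.sub_add_cancel hφm]
  · -- the limit has lower rank
    let π : (Fin n → ℚ_[ℓ]) →ₗ[ℚ_[ℓ]] (Fin n → ℚ_[ℓ]) :=
      W'.subtype.comp (Submodule.projectionOnto W' W hc.symm)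
    have hπ1 : ∀ x ∈ W', π x = x := by
      intro x hx
      show ((Submodule.projectionOnto W' W hc.symm x : W') : Fin n → ℚ_[ℓ]) = x
      have := Submodule.projectionOnto_apply_left hc.symm ⟨x, hx⟩
      rw [this]
    have hπ2 : ∀ x ∈ W, π x = 0 := by
      intro x hx
      show ((Submodule.projectionOnto W' W hc.symm x : W') : Fin n → ℚ_[ℓ]) = 0
      rw [(Submodule.projectionOnto_apply_eq_zero_iff hc.symm).2 hx]
      rfl
    have hπm : ∀ x, π x ∈ W' := fun x => (Submodule.projectionOnto W' W hc.symm x).2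
    let Q : Matrix (Fin n) (Fin n) ℚ_[ℓ] := LinearMap.toMatrix' π
    have hQv : ∀ x, Q.mulVec x = π x := by
      intro x
      rw [← Matrix.toLin'_apply, Matrix.toLin'_toMatrix']
    have hmat : ∀ X Y : Matrix (Fin n) (Fin n) ℚ_[ℓ], (∀ x, X.mulVec x = Y.mulVec x) → X = Y := by
      intro X Y h
      apply Matrix.toLin'.injective
      exact LinearMap.ext fun x => h x
    have hQQ : Q * Q = Q := by
      apply hmat
      intro x
      rw [← Matrix.mulVec_mulVec, hQv, hQv, hπ1 _ (hπm x)]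
    have hQ0 : Q ≠ 0 := by
      intro h0
      apply hbot
      rw [eq_bot_iff]
      intro x hx
      rw [Submodule.mem_bot, ← hπ1 x hx, ← hQv, h0, Matrix.zero_mulVec]
    have hdec : ∀ x, ∃ a ∈ W', ∃ b ∈ W, x = a + b := by
      intro x
      have h1 : x ∈ W' ⊔ W := by rw [hc.symm.sup_eq_top]; exact Submodule.mem_top
      obtain ⟨a, ha, b, hb, hab⟩ := Submodule.mem_sup.1 h1
      exact ⟨a, ha, b, hb, hab.symm⟩
    have hQρ : ∀ g, (toQ ρ₀ g : Matrix (Fin n) (Fin n) ℚ_[ℓ]) * Q = Q * toQ ρ₀ g := by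
      intro g
      apply hmat
      intro x
      obtain ⟨a, ha, b, hb, rfl⟩ := hdec x
      rw [← Matrix.mulVec_mulVec, ← Matrix.mulVec_mulVec, hQv, hQv, map_add, hπ1 a ha, hπ2 b hb,
        add_zero, Matrix.mulVec_add, map_add, hπ1 _ (hW' g a ha), hπ2 _ (hWst g b hb), add_zero]
    have hQX : Q * qm X = 0 := by
      apply hmat
      intro x
      rw [← Matrix.mulVec_mulVec, hQv, Matrix.zero_mulVec]
      exact hπ2 _ ⟨x, rfl⟩
    obtain ⟨s, Q', hQ'⟩ := exists_scale Q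
    obtain ⟨i, E, hE⟩ := (congr_of_tendsto hX (s + 1)).exists
    have hℓ0 : (ℓ : ℚ_[ℓ]) ≠ 0 := by exact_mod_cast hℓ.out.ne_zero
    have halg : algebraMap ℤ_[ℓ] ℚ_[ℓ] (ℓ : ℤ_[ℓ]) = (ℓ : ℚ_[ℓ]) := map_natCast _ _
    -- the new intertwiner
    let B' : Matrix (Fin n) (Fin n) ℤ_[ℓ] := B (φ i) + (1 - (ℓ : ℤ_[ℓ])) • (Q' * E)
    have hqB : qm (Q' * E) = (ℓ : ℚ_[ℓ])⁻¹ • (Q * qm (B (φ i))) := by
      rw [hE, map_add, qm_smul, Matrix.mul_add, hQX, zero_add, Matrix.mul_smul, map_mul, hQ',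
        map_pow, halg, Matrix.smul_mul, smul_smul, pow_succ, mul_comm ((ℓ : ℚ_[ℓ]) ^ s),
        ← mul_assoc, inv_mul_cancel₀ hℓ0, one_mul]
    have hB' : qm B' = (1 - Q + (ℓ : ℚ_[ℓ])⁻¹ • Q) * qm (B (φ i)) := by
      show qm (B (φ i) + (1 - (ℓ : ℤ_[ℓ])) • (Q' * E)) = _
      rw [map_add, qm_smul, hqB, map_sub, map_one, halg, Matrix.add_mul, Matrix.sub_mul,
        Matrix.one_mul, Matrix.smul_mul, smul_smul, sub_mul, one_mul, mul_inv_cancel₀ hℓ0]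
      module
    have hB'ρ : ∀ g, (ρ₀ g : Matrix (Fin n) (Fin n) ℤ_[ℓ]) * B' = B' * ρ (φ i) g := by
      intro g
      apply qm_inj
      have h1 : qm (ρ₀ g : Matrix (Fin n) (Fin n) ℤ_[ℓ]) * (1 - Q + (ℓ : ℚ_[ℓ])⁻¹ • Q) =
          (1 - Q + (ℓ : ℚ_[ℓ])⁻¹ • Q) * qm (ρ₀ g : Matrix (Fin n) (Fin n) ℤ_[ℓ]) := by
        have h2 := hQρ g
        rw [toQ_val] at h2
        rw [Matrix.mul_add, Matrix.add_mul, Matrix.mul_sub, Matrix.sub_mul, Matrix.mul_one,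
          Matrix.one_mul, h2, Matrix.mul_smul, Matrix.smul_mul, h2]
      rw [map_mul, map_mul, hB', ← Matrix.mul_assoc, h1, Matrix.mul_assoc, Matrix.mul_assoc,
        ← map_mul, ← map_mul, hB]
    have h1 := hmax (φ i) B' hB'ρ
    have h2 : (1 - Q + (ℓ : ℚ_[ℓ]) • Q) * (1 - Q + (ℓ : ℚ_[ℓ])⁻¹ • Q) = 1 := by
      simp only [Matrix.add_mul, Matrix.mul_add, Matrix.sub_mul, Matrix.mul_sub, Matrix.one_mul,
        Matrix.mul_one, Matrix.smul_mul, Matrix.mul_smul, hQQ, smul_add, smul_sub, smul_smul,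
        inv_mul_cancel₀ hℓ0, one_smul]
      module
    have h3 := congrArg (fun Z => ‖Z.det‖) h2
    simp only [Matrix.det_mul, Matrix.det_one, norm_mul, norm_one] at h3
    have h4 := det_proj hQQ hQ0
    have h5 : ‖(qm B').det‖ = ‖(1 - Q + (ℓ : ℚ_[ℓ])⁻¹ • Q).det‖ * ‖(qm (B (φ i))).det‖ := by
      rw [hB', Matrix.det_mul, norm_mul]
    rw [qm_det, qm_det] at h5
    have h6 : ‖(B'.det : ℤ_[ℓ])‖ = ‖(1 - Q + (ℓ : ℚ_[ℓ])⁻¹ • Q).det‖ * ‖(B (φ i)).det‖ := h5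
    have h7 : 0 < ‖(B (φ i)).det‖ := norm_pos_iff.2 (hdet (φ i))
    have h8 : 0 ≤ ‖(1 - Q + (ℓ : ℚ_[ℓ]) • Q).det‖ := norm_nonneg _
    have h9 : 1 < ‖(1 - Q + (ℓ : ℚ_[ℓ])⁻¹ • Q).det‖ := by
      by_contra h10
      rw [not_lt] at h10
      nlinarith [norm_nonneg (1 - Q + (ℓ : ℚ_[ℓ])⁻¹ • Q).det]
    rw [h6] at h1
    nlinarith

end jz

end Pool.Agent.R390.SF
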