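import Pool.Agent.R390.SF.Stab
import Pool.Agent.Y126.SH.AL

/-!
# Stable lattices in irreducible representations of a group
-/

set_option autoImplicit false
set_option linter.unusedSectionVars false

namespace Pool.Agent.R390.SF

open Module Matrix Pool.Agent.Y800
open Pool.Agent.Y126.SH (NormAt)

section lat

variable {G : Type*} [Group G] {n : ℕ} {ℓ : ℕ} [hℓ : Fact ℓ.Prime]

/-- rational coefficients -/
noncomputable def toQ (ρ : G →* GL (Fin n) ℤ_[ℓ]) : G →* GL (Fin n) ℚ_[ℓ] :=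
  (Matrix.GeneralLinearGroup.map (algebraMap ℤ_[ℓ] ℚ_[ℓ])).comp ρ

/-- residual coefficients -/
noncomputable def toF (ρ : G →* GL (Fin n) ℤ_[ℓ]) : G →* GL (Fin n) (ZMod ℓ) :=
  (Matrix.GeneralLinearGroup.map (PadicInt.toZMod (p := ℓ))).comp ρ

/-- the matrix with rows `ρ (g i) v` -/
noncomputable def rowsOf (ρ : G →* GL (Fin n) ℤ_[ℓ]) (g : Fin n → G) (v : Fin n → ℤ_[ℓ]) :
    Matrix (Fin n) (Fin n) ℤ_[ℓ] :=
  Matrix.of fun i => (ρ (g i) : Matrix (Fin n) (Fin n) ℤ_[ℓ]).mulVec v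

theorem exists_rows (ρ : G →* GL (Fin n) ℤ_[ℓ])
    (hirr : ∀ U : Submodule ℚ_[ℓ] (Fin n → ℚ_[ℓ]), IsStable (toQ ρ) U → U = ⊥ ∨ U = ⊤)
    {v : Fin n → ℤ_[ℓ]} (hv : v ≠ 0) : ∃ g : Fin n → G, (rowsOf ρ g v).det ≠ 0 := by
  classical
  let vq : Fin n → ℚ_[ℓ] := fun i => (v i : ℚ_[ℓ])
  let s : Set (Fin n → ℚ_[ℓ]) :=
    Set.range fun g : G => (toQ ρ g : Matrix (Fin n) (Fin n) ℚ_[ℓ]).mulVec vq
  have hst : IsStable (toQ ρ) (Submodule.span ℚ_[ℓ] s) := by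
    intro g u hu
    induction hu using Submodule.span_induction with
    | mem x hx =>
      obtain ⟨h, rfl⟩ := hx
      refine Submodule.subset_span ⟨g * h, ?_⟩
      show (toQ ρ (g * h) : Matrix (Fin n) (Fin n) ℚ_[ℓ]).mulVec vq = _
      rw [map_mul, Units.val_mul, Matrix.mulVec_mulVec]
    | zero => rw [Matrix.mulVec_zero]; exact zero_mem _
    | add y z _ _ hy hz => rw [Matrix.mulVec_add]; exact add_mem hy hz
    | smul c y _ hy => rw [Matrix.mulVec_smul]; exact Submodule.smul_mem _ _ hy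
  have htop : Submodule.span ℚ_[ℓ] s = ⊤ := by
    refine (hirr _ hst).resolve_left fun h0 => hv ?_
    have h1 : vq ∈ Submodule.span ℚ_[ℓ] s := by
      refine Submodule.subset_span ⟨1, ?_⟩
      show (toQ ρ 1 : Matrix (Fin n) (Fin n) ℚ_[ℓ]).mulVec vq = vq
      rw [map_one, Units.val_one, Matrix.one_mulVec]
    rw [h0, Submodule.mem_bot] at h1
    funext i
    have h2 : (v i : ℚ_[ℓ]) = 0 := congrFun h1 i
    exact Subtype.ext h2
  obtain ⟨f, hf1, hf2, hf3⟩ := Submodule.exists_fun_fin_finrank_span_eq ℚ_[ℓ] s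
  have hfr : finrank ℚ_[ℓ] (Submodule.span ℚ_[ℓ] s) = n := by
    rw [htop, finrank_top, finrank_fin_fun]
  choose g hg using hf1
  let e := finCongr hfr
  refine ⟨fun i => g (e.symm i), ?_⟩
  have h1 : LinearIndependent ℚ_[ℓ] (fun i => f (e.symm i)) := hf3.comp _ e.symm.injective
  have h2 : ((rowsOf ρ (fun i => g (e.symm i)) v).map (algebraMap ℤ_[ℓ] ℚ_[ℓ])).row =
      fun i => f (e.symm i) := by
    funext i
    rw [← hg (e.symm i)]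
    funext j
    show algebraMap ℤ_[ℓ] ℚ_[ℓ] (((ρ (g (e.symm i)) : Matrix (Fin n) (Fin n) ℤ_[ℓ]).mulVec v) j) =
      ((toQ ρ (g (e.symm i)) : Matrix (Fin n) (Fin n) ℚ_[ℓ]).mulVec vq) j
    rw [Matrix.mulVec, dotProduct, map_sum]
    refine Finset.sum_congr rfl fun m _ => ?_
    rw [map_mul]
    rfl
  rw [← h2, Matrix.linearIndependent_rows_iff_isUnit, Matrix.isUnit_iff_isUnit_det] at h1
  intro h3
  have h4 : ((rowsOf ρ (fun i => g (e.symm i)) v).map (algebraMap ℤ_[ℓ] ℚ_[ℓ])).det = 0 := by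
    rw [← RingHom.mapMatrix_apply, ← RingHom.map_det, h3, map_zero]
  rw [h4] at h1
  exact h1.ne_zero rfl

/-- **Uniform bound.** -/
theorem lat_bound (ρ : G →* GL (Fin n) ℤ_[ℓ])
    (hirr : ∀ U : Submodule ℚ_[ℓ] (Fin n → ℚ_[ℓ]), IsStable (toQ ρ) U → U = ⊥ ∨ U = ⊤) :
    ∃ m : ℕ, ∀ v : Fin n → ℤ_[ℓ], (∃ i, IsUnit (v i)) →
      ∃ g : Fin n → G, (rowsOf ρ g v).det ∣ (ℓ : ℤ_[ℓ]) ^ m := by
  classical
  let K : Set (Fin n → ℤ_[ℓ]) := {v | ∃ i, IsUnit (v i)}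
  have hKc : IsCompact K := by
    apply IsClosed.isCompact
    have h1 : Kᶜ = ⋂ i, {v : Fin n → ℤ_[ℓ] | ‖v i‖ < 1} := by
      ext v
      simp only [K, Set.mem_compl_iff, Set.mem_ofPred_eq, not_exists, Set.mem_iInter]
      refine forall_congr' fun i => ?_
      rw [PadicInt.isUnit_iff]
      constructor
      · intro h
        exact lt_of_le_of_ne (PadicInt.norm_le_one _) h
      · intro h h'
        exact absurd h (by rw [h']; exact lt_irrefl 1)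
    rw [← isOpen_compl_iff, h1]
    refine isOpen_iInter_of_finite fun i => ?_
    exact isOpen_lt ((continuous_apply i).norm) continuous_const
  let O : ℕ → Set (Fin n → ℤ_[ℓ]) := fun m =>
    {v | ∃ g : Fin n → G, (ℓ : ℝ) ^ (-(m : ℤ)) < ‖(rowsOf ρ g v).det‖}
  have hO : ∀ m, IsOpen (O m) := by
    intro m
    have h1 : O m = ⋃ g : Fin n → G, {v | (ℓ : ℝ) ^ (-(m : ℤ)) < ‖(rowsOf ρ g v).det‖} := by
      ext v
      simp only [O, Set.mem_ofPred_eq, Set.mem_iUnion]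
    rw [h1]
    refine isOpen_iUnion fun g => isOpen_lt continuous_const ?_
    apply Continuous.norm
    apply Continuous.matrix_det
    apply continuous_matrix
    intro i j
    show Continuous fun v => ((ρ (g i) : Matrix (Fin n) (Fin n) ℤ_[ℓ]).mulVec v) j
    exact (continuous_apply j).comp (Continuous.matrix_mulVec continuous_const continuous_id)
  have hℓ1 : (1 : ℝ) < ℓ := by exact_mod_cast hℓ.out.one_lt
  have hmono : Monotone O := by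
    intro a b hab v hv
    obtain ⟨g, hg⟩ := hv
    refine ⟨g, lt_of_le_of_lt ?_ hg⟩
    exact zpow_le_zpow_right₀ hℓ1.le (by omega)
  have hcov : K ⊆ ⋃ m, O m := by
    intro v hv
    obtain ⟨i, hi⟩ := hv
    have hv0 : v ≠ 0 := by
      rintro rfl
      exact not_isUnit_zero hi
    obtain ⟨g, hg⟩ := exists_rows ρ hirr hv0
    have h1 : 0 < ‖(rowsOf ρ g v).det‖ := norm_pos_iff.2 hg
    obtain ⟨m, hm⟩ := exists_pow_lt_of_lt_one h1 (inv_lt_one_of_one_lt₀ hℓ1)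
    refine Set.mem_iUnion.2 ⟨m, g, ?_⟩
    rw [_root_.zpow_neg, zpow_natCast, ← inv_pow]
    exact hm
  obtain ⟨m, hm⟩ := hKc.elim_directed_cover O hO hcov hmono.directed_le
  refine ⟨m, fun v hv => ?_⟩
  obtain ⟨g, hg⟩ := hm hv
  refine ⟨g, ?_⟩
  have h1 : ‖(ℓ : ℤ_[ℓ]) ^ m‖ ≤ ‖(rowsOf ρ g v).det‖ := by
    rw [PadicInt.norm_p_pow]
    exact hg.le
  refine Pool.Agent.Y126.SH.dvd_of_norm_le (fun h0 => ?_) h1
  rw [h0, norm_zero] at hg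
  have : (0 : ℝ) < (ℓ : ℝ) ^ (-(m : ℤ)) := by positivity
  linarith

/-- the lattice given by a primitive intertwiner is large -/
theorem lat_inv {ρ ρ' : G →* GL (Fin n) ℤ_[ℓ]} {m : ℕ}
    (hm : ∀ v : Fin n → ℤ_[ℓ], (∃ i, IsUnit (v i)) →
      ∃ g : Fin n → G, (rowsOf ρ g v).det ∣ (ℓ : ℤ_[ℓ]) ^ m)
    {B : Matrix (Fin n) (Fin n) ℤ_[ℓ]} (hB : ∃ i j, IsUnit (B i j))
    (hρ : ∀ g, (ρ g : Matrix (Fin n) (Fin n) ℤ_[ℓ]) * B = B * ρ' g) :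
    ∃ D : Matrix (Fin n) (Fin n) ℤ_[ℓ], B * D = (ℓ : ℤ_[ℓ]) ^ m • (1 : Matrix (Fin n) (Fin n) ℤ_[ℓ]) := by
  classical
  obtain ⟨i, j, hij⟩ := hB
  obtain ⟨g, c, hc⟩ := hm (B.mulVec (Pi.single j 1)) ⟨i, by
    rw [Matrix.mulVec_single_one]; exact hij⟩
  let X := rowsOf ρ g (B.mulVec (Pi.single j 1))
  let Y : Matrix (Fin n) (Fin n) ℤ_[ℓ] :=
    Matrix.of fun i => (ρ' (g i) : Matrix (Fin n) (Fin n) ℤ_[ℓ]).mulVec (Pi.single j 1)
  have hX : X.transpose = B * Y.transpose := by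
    ext a b
    show ((ρ (g b) : Matrix (Fin n) (Fin n) ℤ_[ℓ]).mulVec (B.mulVec (Pi.single j 1))) a = _
    rw [Matrix.mulVec_mulVec, hρ, ← Matrix.mulVec_mulVec]
    rfl
  refine ⟨c • (Y.transpose * X.transpose.adjugate), ?_⟩
  rw [Matrix.mul_smul, ← Matrix.mul_assoc, ← hX, Matrix.mul_adjugate, Matrix.det_transpose,
    smul_smul, hc, mul_comm]

/-- congruent primitive intertwiners give isomorphic lattices -/
theorem lat_congr {ρ ρ₁ ρ₂ : G →* GL (Fin n) ℤ_[ℓ]} {m : ℕ}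
    (hm : ∀ v : Fin n → ℤ_[ℓ], (∃ i, IsUnit (v i)) →
      ∃ g : Fin n → G, (rowsOf ρ g v).det ∣ (ℓ : ℤ_[ℓ]) ^ m)
    {B₁ B₂ : Matrix (Fin n) (Fin n) ℤ_[ℓ]} (hB₁ : ∃ i j, IsUnit (B₁ i j))
    (hB₂ : ∃ i j, IsUnit (B₂ i j))
    (h₁ : ∀ g, (ρ g : Matrix (Fin n) (Fin n) ℤ_[ℓ]) * B₁ = B₁ * ρ₁ g)
    (h₂ : ∀ g, (ρ g : Matrix (Fin n) (Fin n) ℤ_[ℓ]) * B₂ = B₂ * ρ₂ g)
    (hcong : ∀ i j, PadicInt.toZModPow m (B₁ i j) = PadicInt.toZModPow m (B₂ i j)) :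
    ∃ A : GL (Fin n) ℤ_[ℓ], ∀ g, ρ₂ g = A * ρ₁ g * A⁻¹ := by
  classical
  obtain ⟨D₁, hD₁⟩ := lat_inv hm hB₁ h₁
  obtain ⟨D₂, hD₂⟩ := lat_inv hm hB₂ h₂
  have hE : ∀ i j, ∃ e : ℤ_[ℓ], B₂ i j - B₁ i j = (ℓ : ℤ_[ℓ]) ^ m * e := by
    intro i j
    have h1 : B₂ i j - B₁ i j ∈ RingHom.ker (PadicInt.toZModPow (p := ℓ) m) := by
      rw [RingHom.mem_ker, map_sub, hcong, sub_self]
    rw [PadicInt.ker_toZModPow, Ideal.mem_span_singleton] at h1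
    obtain ⟨e, he⟩ := h1
    exact ⟨e, he⟩
  choose E hE using hE
  have hE' : B₂ - B₁ = (ℓ : ℤ_[ℓ]) ^ m • (Matrix.of E) := by
    ext i j
    rw [Matrix.sub_apply, hE, Matrix.smul_apply, Matrix.of_apply, smul_eq_mul]
  have hpow : ((ℓ : ℤ_[ℓ]) ^ m) ≠ 0 := pow_ne_zero _ (by exact_mod_cast hℓ.out.ne_zero)
  have hdet : ∀ B D : Matrix (Fin n) (Fin n) ℤ_[ℓ],
      B * D = (ℓ : ℤ_[ℓ]) ^ m • (1 : Matrix (Fin n) (Fin n) ℤ_[ℓ]) →
      ∀ X Y : Matrix (Fin n) (Fin n) ℤ_[ℓ], B * X = B * Y → X = Y := by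
    intro B D hBD X Y hXY
    have h1 : B.det ≠ 0 := by
      intro h0
      have h2 := congrArg Matrix.det hBD
      rw [Matrix.det_mul, h0, zero_mul, Matrix.det_smul, Matrix.det_one, mul_one] at h2
      exact pow_ne_zero _ hpow h2.symm
    have h3 : B.adjugate * (B * X) = B.adjugate * (B * Y) := by rw [hXY]
    rw [← Matrix.mul_assoc, ← Matrix.mul_assoc, Matrix.adjugate_mul, Matrix.smul_mul,
      Matrix.smul_mul, Matrix.one_mul, Matrix.one_mul] at h3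
    ext i j
    have h4 := congrFun (congrFun h3 i) j
    rw [Matrix.smul_apply, Matrix.smul_apply, smul_eq_mul, smul_eq_mul] at h4
    exact mul_left_cancel₀ h1 h4
  let u : Matrix (Fin n) (Fin n) ℤ_[ℓ] := 1 + D₁ * Matrix.of E
  let u' : Matrix (Fin n) (Fin n) ℤ_[ℓ] := 1 - D₂ * Matrix.of E
  have hu : B₁ * u = B₂ := by
    show B₁ * (1 + D₁ * Matrix.of E) = B₂
    rw [Matrix.mul_add, Matrix.mul_one, ← Matrix.mul_assoc, hD₁, Matrix.smul_mul, Matrix.one_mul,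
      ← hE']
    abel
  have hu' : B₂ * u' = B₁ := by
    show B₂ * (1 - D₂ * Matrix.of E) = B₁
    rw [Matrix.mul_sub, Matrix.mul_one, ← Matrix.mul_assoc, hD₂, Matrix.smul_mul, Matrix.one_mul,
      ← hE']
    abel
  have huu : u * u' = 1 := by
    apply hdet B₁ D₁ hD₁
    rw [← Matrix.mul_assoc, hu, hu', Matrix.mul_one]
  have huu' : u' * u = 1 := by
    apply hdet B₂ D₂ hD₂
    rw [← Matrix.mul_assoc, hu', hu, Matrix.mul_one]
  refine ⟨⟨u', u, huu', huu⟩, fun g => ?_⟩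
  apply Units.ext
  rw [Units.val_mul, Units.val_mul]
  show (ρ₂ g : Matrix (Fin n) (Fin n) ℤ_[ℓ]) = u' * (ρ₁ g : Matrix (Fin n) (Fin n) ℤ_[ℓ]) * u
  apply hdet B₂ D₂ hD₂
  rw [← h₂, ← Matrix.mul_assoc, ← Matrix.mul_assoc, hu', ← h₁, Matrix.mul_assoc, hu]

/-- if the residual representation is irreducible then primitive intertwiners are invertible -/
theorem lat_res {ρ ρ₁ : G →* GL (Fin n) ℤ_[ℓ]}
    (hirr : ∀ U : Submodule (ZMod ℓ) (Fin n → ZMod ℓ), IsStable (toF ρ) U → U = ⊥ ∨ U = ⊤)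
    {B : Matrix (Fin n) (Fin n) ℤ_[ℓ]} (hB : ∃ i j, IsUnit (B i j))
    (h₁ : ∀ g, (ρ g : Matrix (Fin n) (Fin n) ℤ_[ℓ]) * B = B * ρ₁ g) :
    ∃ A : GL (Fin n) ℤ_[ℓ], ∀ g, ρ₁ g = A * ρ g * A⁻¹ := by
  classical
  let φ : ℤ_[ℓ] →+* ZMod ℓ := PadicInt.toZMod
  have h2 : ∀ g, (toF ρ g : Matrix (Fin n) (Fin n) (ZMod ℓ)) * B.map φ =
      B.map φ * (toF ρ₁ g : Matrix (Fin n) (Fin n) (ZMod ℓ)) := by
    intro g
    have h3 := congrArg (fun X : Matrix (Fin n) (Fin n) ℤ_[ℓ] => φ.mapMatrix X) (h₁ g)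
    simp only [map_mul] at h3
    exact h3
  have hst : IsStable (toF ρ) (LinearMap.range (Matrix.toLin' (B.map φ))) := by
    rintro g _ ⟨x, rfl⟩
    refine ⟨(toF ρ₁ g : Matrix (Fin n) (Fin n) (ZMod ℓ)).mulVec x, ?_⟩
    rw [Matrix.toLin'_apply, Matrix.toLin'_apply, Matrix.mulVec_mulVec, Matrix.mulVec_mulVec, h2]
  have htop : LinearMap.range (Matrix.toLin' (B.map φ)) = ⊤ := by
    refine (hirr _ hst).resolve_left fun h0 => ?_
    obtain ⟨i, j, hij⟩ := hB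
    have h3 : Matrix.toLin' (B.map φ) (Pi.single j 1) ∈ LinearMap.range (Matrix.toLin' (B.map φ)) :=
      ⟨_, rfl⟩
    rw [h0, Submodule.mem_bot, Matrix.toLin'_apply, Matrix.mulVec_single_one] at h3
    have h4 : φ (B i j) = 0 := congrFun h3 i
    exact (hij.map φ).ne_zero h4
  have hunit : IsUnit (B.map φ).det := by
    have h3 : Function.Surjective (Matrix.toLin' (B.map φ)) := LinearMap.range_eq_top.1 htop
    have h4 : Function.Injective (Matrix.toLin' (B.map φ)) := LinearMap.injective_iff_surjective.2 h3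
    rw [isUnit_iff_ne_zero]
    intro h5
    obtain ⟨v, hv, hv'⟩ := Matrix.exists_mulVec_eq_zero_iff.2 h5
    exact hv (h4 (by rw [Matrix.toLin'_apply, hv', map_zero]))
  have hdet : IsUnit B.det := by
    by_contra hnu
    have h3 : B.det ∈ IsLocalRing.maximalIdeal ℤ_[ℓ] := (IsLocalRing.mem_maximalIdeal _).2 hnu
    rw [← PadicInt.ker_toZMod, RingHom.mem_ker] at h3
    have h4 : (B.map φ).det = 0 := by
      rw [← RingHom.mapMatrix_apply, ← RingHom.map_det]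
      exact h3
    rw [h4] at hunit
    exact not_isUnit_zero hunit
  obtain ⟨A, hA⟩ := (Matrix.isUnit_iff_isUnit_det B).2 hdet
  refine ⟨A⁻¹, fun g => ?_⟩
  apply Units.ext
  rw [inv_inv, Units.val_mul, Units.val_mul, Matrix.mul_assoc, hA, h₁, ← hA, ← Matrix.mul_assoc,
    ← Units.val_mul, inv_mul_cancel, Units.val_one, Matrix.one_mul]

/-- scaling to a primitive integral matrix -/
theorem exists_primitive (hn : 0 < n) {ρ ρ₁ : G →* GL (Fin n) ℤ_[ℓ]} (A : GL (Fin n) ℚ_[ℓ])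
    (hA : ∀ g, (toQ ρ g : Matrix (Fin n) (Fin n) ℚ_[ℓ]) * A = A * toQ ρ₁ g) :
    ∃ B : Matrix (Fin n) (Fin n) ℤ_[ℓ], (∃ i j, IsUnit (B i j)) ∧
      ∀ g, (ρ g : Matrix (Fin n) (Fin n) ℤ_[ℓ]) * B = B * ρ₁ g := by
  classical
  have : Nonempty (Fin n) := ⟨⟨0, hn⟩⟩
  obtain ⟨⟨i₀, j₀⟩, hmax⟩ := Finite.exists_max fun x : Fin n × Fin n =>
    ‖(A : Matrix (Fin n) (Fin n) ℚ_[ℓ]) x.1 x.2‖
  set c := (A : Matrix (Fin n) (Fin n) ℚ_[ℓ]) i₀ j₀ with hc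
  have hc0 : c ≠ 0 := by
    intro h0
    have h1 : (A : Matrix (Fin n) (Fin n) ℚ_[ℓ]) = 0 := by
      ext i j
      have h2 := hmax (i, j)
      rw [h0, norm_zero] at h2
      rw [Matrix.zero_apply]
      exact norm_le_zero_iff.1 h2
    have h2 : (A : Matrix (Fin n) (Fin n) ℚ_[ℓ]).det = 0 := by rw [h1, Matrix.det_zero]
    have h3 : IsUnit (A : Matrix (Fin n) (Fin n) ℚ_[ℓ]).det :=
      (Matrix.isUnit_iff_isUnit_det _).1 A.isUnit
    rw [h2] at h3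
    exact not_isUnit_zero h3
  have hle : ∀ i j, ‖c⁻¹ * (A : Matrix (Fin n) (Fin n) ℚ_[ℓ]) i j‖ ≤ 1 := by
    intro i j
    rw [norm_mul, norm_inv, inv_mul_le_iff₀ (norm_pos_iff.2 hc0), mul_one]
    exact hmax (i, j)
  let B : Matrix (Fin n) (Fin n) ℤ_[ℓ] := Matrix.of fun i j =>
    ⟨c⁻¹ * (A : Matrix (Fin n) (Fin n) ℚ_[ℓ]) i j, hle i j⟩
  refine ⟨B, ⟨i₀, j₀, ?_⟩, ?_⟩
  · rw [PadicInt.isUnit_iff]
    show ‖c⁻¹ * (A : Matrix (Fin n) (Fin n) ℚ_[ℓ]) i₀ j₀‖ = 1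
    rw [← hc, inv_mul_cancel₀ hc0, norm_one]
  · intro g
    have hBm : B.map (algebraMap ℤ_[ℓ] ℚ_[ℓ]) = c⁻¹ • (A : Matrix (Fin n) (Fin n) ℚ_[ℓ]) := by
      ext i j
      rfl
    apply Matrix.map_injective (f := algebraMap ℤ_[ℓ] ℚ_[ℓ]) (IsFractionRing.injective ℤ_[ℓ] ℚ_[ℓ])
    show ((ρ g : Matrix (Fin n) (Fin n) ℤ_[ℓ]) * B).map (algebraMap ℤ_[ℓ] ℚ_[ℓ]) =
      (B * (ρ₁ g : Matrix (Fin n) (Fin n) ℤ_[ℓ])).map (algebraMap ℤ_[ℓ] ℚ_[ℓ])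
    rw [Matrix.map_mul, Matrix.map_mul, hBm, Matrix.mul_smul, Matrix.smul_mul]
    congr 1
    exact hA g


/-- stable normalised lattices contain `ℓ ^ m` times the standard lattice -/
theorem lat_contains {ρ : G →* GL (Fin n) ℤ_[ℓ]} {m : ℕ}
    (hm : ∀ v : Fin n → ℤ_[ℓ], (∃ i, IsUnit (v i)) →
      ∃ g : Fin n → G, (rowsOf ρ g v).det ∣ (ℓ : ℤ_[ℓ]) ^ m)
    {L : Submodule ℤ_[ℓ] (Fin n → ℚ_[ℓ])}
    (hst : ∀ g, ∀ v ∈ L, (toQ ρ g : Matrix (Fin n) (Fin n) ℚ_[ℓ]).mulVec v ∈ L)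
    {a : ℤ} (ha : NormAt a L) (x : Fin n → ℚ_[ℓ])
    (hx : ∀ i, ‖(ℓ : ℚ_[ℓ]) ^ a * x i‖ ≤ ‖(ℓ : ℤ_[ℓ]) ^ m‖) : x ∈ L := by
  classical
  obtain ⟨v, hv, i0, hi0⟩ := ha.2
  let w : Fin n → ℤ_[ℓ] := fun i => ⟨(ℓ : ℚ_[ℓ]) ^ a * v i, ha.1 v hv i⟩
  obtain ⟨g, c, hc⟩ := hm w ⟨i0, PadicInt.isUnit_iff.2 hi0⟩
  let y : Fin n → ℤ_[ℓ] := fun i => ⟨(ℓ : ℚ_[ℓ]) ^ a * x i, (hx i).trans (PadicInt.norm_le_one _)⟩
  have hℓ0 : (ℓ : ℤ_[ℓ]) ^ m ≠ 0 := pow_ne_zero _ (by exact_mod_cast hℓ.out.ne_zero)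
  have ht : ∀ i, ∃ t : ℤ_[ℓ], y i = (ℓ : ℤ_[ℓ]) ^ m * t := fun i => Pool.Agent.Y126.SH.dvd_of_norm_le hℓ0 (hx i)
  choose t ht using ht
  set R := rowsOf ρ g w with hR
  have hy : y = Matrix.vecMul (c • Matrix.vecMul t R.adjugate) R := by
    rw [Matrix.smul_vecMul, Matrix.vecMul_vecMul, Matrix.adjugate_mul, Matrix.vecMul_smul,
      Matrix.vecMul_one, smul_smul]
    funext i
    rw [ht i, hc, Pi.smul_apply, smul_eq_mul, mul_comm c]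
  set z := c • Matrix.vecMul t R.adjugate with hz
  have hℓa : (ℓ : ℚ_[ℓ]) ^ a ≠ 0 := zpow_ne_zero _ (by exact_mod_cast hℓ.out.ne_zero)
  have hxs : x = ∑ i, z i • ((toQ ρ (g i) : Matrix (Fin n) (Fin n) ℚ_[ℓ]).mulVec v) := by
    funext j
    apply mul_left_cancel₀ hℓa
    have h1 : (ℓ : ℚ_[ℓ]) ^ a * x j = ((y j : ℤ_[ℓ]) : ℚ_[ℓ]) := rfl
    rw [h1, hy, Finset.sum_apply, Finset.mul_sum]
    have h2 : (Matrix.vecMul z R) j = ∑ i, z i * (R i j) := rfl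
    rw [h2, PadicInt.coe_sum]
    refine Finset.sum_congr rfl fun i _ => ?_
    rw [PadicInt.coe_mul]
    show (z i : ℚ_[ℓ]) * ((((ρ (g i) : Matrix (Fin n) (Fin n) ℤ_[ℓ]).mulVec w) j : ℤ_[ℓ]) : ℚ_[ℓ]) =
      (ℓ : ℚ_[ℓ]) ^ a * ((z i : ℚ_[ℓ]) * ((toQ ρ (g i) : Matrix (Fin n) (Fin n) ℚ_[ℓ]).mulVec v) j)
    have h3 : ((((ρ (g i) : Matrix (Fin n) (Fin n) ℤ_[ℓ]).mulVec w) j : ℤ_[ℓ]) : ℚ_[ℓ]) =
        (ℓ : ℚ_[ℓ]) ^ a * ((toQ ρ (g i) : Matrix (Fin n) (Fin n) ℚ_[ℓ]).mulVec v) j := by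
      rw [Matrix.mulVec, Matrix.mulVec, dotProduct, dotProduct, PadicInt.coe_sum, Finset.mul_sum]
      refine Finset.sum_congr rfl fun l _ => ?_
      rw [PadicInt.coe_mul]
      show ((ρ (g i) : Matrix (Fin n) (Fin n) ℤ_[ℓ]) j l : ℚ_[ℓ]) * ((ℓ : ℚ_[ℓ]) ^ a * v l) =
        (ℓ : ℚ_[ℓ]) ^ a * (((ρ (g i) : Matrix (Fin n) (Fin n) ℤ_[ℓ]) j l : ℚ_[ℓ]) * v l)
      ring
    rw [h3]
    ring
  rw [hxs]
  exact Submodule.sum_mem _ fun i _ => L.smul_mem _ (hst _ v hv)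

/-- residual irreducibility gives the bound `m = 0` -/
theorem lat_bound_res (ρ : G →* GL (Fin n) ℤ_[ℓ])
    (hirr : ∀ U : Submodule (ZMod ℓ) (Fin n → ZMod ℓ), IsStable (toF ρ) U → U = ⊥ ∨ U = ⊤)
    (v : Fin n → ℤ_[ℓ]) (hv : ∃ i, IsUnit (v i)) :
    ∃ g : Fin n → G, (rowsOf ρ g v).det ∣ (ℓ : ℤ_[ℓ]) ^ 0 := by
  classical
  let φ : ℤ_[ℓ] →+* ZMod ℓ := PadicInt.toZMod
  let vq : Fin n → ZMod ℓ := fun i => φ (v i)
  let s : Set (Fin n → ZMod ℓ) :=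
    Set.range fun g : G => (toF ρ g : Matrix (Fin n) (Fin n) (ZMod ℓ)).mulVec vq
  have hst : IsStable (toF ρ) (Submodule.span (ZMod ℓ) s) := by
    intro g u hu
    induction hu using Submodule.span_induction with
    | mem x hx =>
      obtain ⟨h, rfl⟩ := hx
      refine Submodule.subset_span ⟨g * h, ?_⟩
      show (toF ρ (g * h) : Matrix (Fin n) (Fin n) (ZMod ℓ)).mulVec vq = _
      rw [map_mul, Units.val_mul, Matrix.mulVec_mulVec]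
    | zero => rw [Matrix.mulVec_zero]; exact zero_mem _
    | add y z _ _ hy hz => rw [Matrix.mulVec_add]; exact add_mem hy hz
    | smul c y _ hy => rw [Matrix.mulVec_smul]; exact Submodule.smul_mem _ _ hy
  have htop : Submodule.span (ZMod ℓ) s = ⊤ := by
    refine (hirr _ hst).resolve_left fun h0 => ?_
    have h1 : vq ∈ Submodule.span (ZMod ℓ) s := by
      refine Submodule.subset_span ⟨1, ?_⟩
      show (toF ρ 1 : Matrix (Fin n) (Fin n) (ZMod ℓ)).mulVec vq = vq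
      rw [map_one, Units.val_one, Matrix.one_mulVec]
    rw [h0, Submodule.mem_bot] at h1
    obtain ⟨i, hi⟩ := hv
    have h2 : φ (v i) = 0 := congrFun h1 i
    exact (hi.map φ).ne_zero h2
  obtain ⟨f, hf1, hf2, hf3⟩ := Submodule.exists_fun_fin_finrank_span_eq (ZMod ℓ) s
  have hfr : finrank (ZMod ℓ) (Submodule.span (ZMod ℓ) s) = n := by
    rw [htop, finrank_top, finrank_fin_fun]
  choose g hg using hf1
  let e := finCongr hfr
  refine ⟨fun i => g (e.symm i), ?_⟩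
  have h1 : LinearIndependent (ZMod ℓ) (fun i => f (e.symm i)) := hf3.comp _ e.symm.injective
  have h2 : ((rowsOf ρ (fun i => g (e.symm i)) v).map φ).row = fun i => f (e.symm i) := by
    funext i
    rw [← hg (e.symm i)]
    funext j
    show φ (((ρ (g (e.symm i)) : Matrix (Fin n) (Fin n) ℤ_[ℓ]).mulVec v) j) =
      ((toF ρ (g (e.symm i)) : Matrix (Fin n) (Fin n) (ZMod ℓ)).mulVec vq) j
    rw [Matrix.mulVec, dotProduct, map_sum]
    refine Finset.sum_congr rfl fun m _ => ?_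
    rw [map_mul]
    rfl
  rw [← h2, Matrix.linearIndependent_rows_iff_isUnit, Matrix.isUnit_iff_isUnit_det] at h1
  rw [pow_zero]
  refine (isUnit_iff_dvd_one.1 ?_)
  by_contra hnu
  have h3 : (rowsOf ρ (fun i => g (e.symm i)) v).det ∈ IsLocalRing.maximalIdeal ℤ_[ℓ] :=
    (IsLocalRing.mem_maximalIdeal _).2 hnu
  rw [← PadicInt.ker_toZMod, RingHom.mem_ker] at h3
  have h4 : ((rowsOf ρ (fun i => g (e.symm i)) v).map φ).det = 0 := by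
    rw [← RingHom.mapMatrix_apply, ← RingHom.map_det]
    exact h3
  rw [h4] at h1
  exact not_isUnit_zero h1

end lat

end Pool.Agent.R390.SF
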