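import Pool.Agent.R390.SF.Tr
import Pool.Agent.R390.SF.Lat

/-!
# Finiteness of the irreducible integral systems over a number field
-/

set_option autoImplicit false

set_option linter.unusedSectionVars false

namespace Pool.Agent.R390.SF

open Module Matrix Polynomial NumberField Pool.Agent.Y800 IntegralSystem
open Pool.Agent.Y126.SH (bn exists_reps NormAt normAt_unique exists_normAt normAt_std codeAt code_iff
  std_iff smul_iff)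

variable {F : SubFld ℚ} [hF : FiniteDimensional ℚ F] {n : ℕ}

theorem exists_B (hn : 0 < n) {Λ : Set ℕ} {T0 T : IntegralSystem F n}
    (hT0 : T0.IsIrreducible Λ) (hT : T.IsIrreducible Λ) (ℓ : ℕ) [Fact ℓ.Prime] (hΛ : ℓ ∈ Λ)
    (htr : ∀ g, (T.rat ℓ g : Matrix (Fin n) (Fin n) ℚ_[ℓ]).trace =
      (T0.rat ℓ g : Matrix (Fin n) (Fin n) ℚ_[ℓ]).trace) :
    ∃ B : Matrix (Fin n) (Fin n) ℤ_[ℓ], (∃ i j, IsUnit (B i j)) ∧
      ∀ g, (T0.rho ℓ g : Matrix (Fin n) (Fin n) ℤ_[ℓ]) * B = B * T.rho ℓ g := by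
  obtain ⟨A, hA⟩ := bn (T.rat ℓ) (T0.rat ℓ) hn
    (fun m h1 _ => Nat.cast_ne_zero.2 (by omega))
    (fun W hW => hT.rational ℓ hΛ W hW) (fun W hW => hT0.rational ℓ hΛ W hW) htr
  exact exists_primitive hn A hA

theorem local_code {Λ : Set ℕ} {T0 : IntegralSystem F n} (hT0 : T0.IsIrreducible Λ) (ℓ : ℕ) :
    ∃ (k : ℕ) (c : IntegralSystem F n → ℕ), (∀ T, c T < k) ∧
      ∀ [Fact ℓ.Prime] (T T' : IntegralSystem F n), ℓ ∈ Λ →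
        (∃ B : Matrix (Fin n) (Fin n) ℤ_[ℓ], (∃ i j, IsUnit (B i j)) ∧
          ∀ g, (T0.rho ℓ g : Matrix (Fin n) (Fin n) ℤ_[ℓ]) * B = B * T.rho ℓ g) →
        (∃ B : Matrix (Fin n) (Fin n) ℤ_[ℓ], (∃ i j, IsUnit (B i j)) ∧
          ∀ g, (T0.rho ℓ g : Matrix (Fin n) (Fin n) ℤ_[ℓ]) * B = B * T'.rho ℓ g) →
        c T = c T' → ∃ A : GL (Fin n) ℤ_[ℓ], ∀ g, T'.rho ℓ g = A * T.rho ℓ g * A⁻¹ := by
  classical
  by_cases hℓ : ℓ.Prime ∧ ℓ ∈ Λ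
  · have hF : Fact ℓ.Prime := ⟨hℓ.1⟩
    obtain ⟨m, hm⟩ := lat_bound (T0.rho ℓ) (fun U hU => hT0.rational ℓ hℓ.2 U hU)
    have hne : NeZero (ℓ ^ m) := ⟨pow_ne_zero _ hℓ.1.ne_zero⟩
    obtain ⟨k, ⟨e⟩⟩ := Finite.exists_equiv_fin (Fin n → Fin n → ZMod (ℓ ^ m))
    refine ⟨k, fun T => if h : ∃ B : Matrix (Fin n) (Fin n) ℤ_[ℓ], (∃ i j, IsUnit (B i j)) ∧
        ∀ g, (T0.rho ℓ g : Matrix (Fin n) (Fin n) ℤ_[ℓ]) * B = B * T.rho ℓ g then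
          (e (fun i j => PadicInt.toZModPow m (h.choose i j)) : ℕ) else 0, ?_, ?_⟩
    · intro T
      dsimp only
      split_ifs with h
      · exact Fin.is_lt _
      · exact lt_of_le_of_lt (Nat.zero_le _) (e (fun _ _ => 0)).is_lt
    · intro _ T T' _ h h' hc
      dsimp only at hc
      rw [dif_pos h, dif_pos h'] at hc
      have h1 := e.injective (Fin.ext hc)
      exact lat_congr hm h.choose_spec.1 h'.choose_spec.1 h.choose_spec.2 h'.choose_spec.2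
        (fun i j => congrFun (congrFun h1 i) j)
  · exact ⟨1, fun _ => 0, fun _ => Nat.one_pos, fun {hF} _ _ hΛ => (hℓ ⟨hF.out, hΛ⟩).elim⟩

/-- **Finiteness.** -/
theorem finiteness (hn : 0 < n) (w : ℕ) (S : Finset ℕ) (Λ : Set ℕ)
    (Cl : IntegralSystem F n → Prop) (hG : ∀ T, Cl T → T.GoodSystem S w)
    (hI : ∀ T, Cl T → T.IsIrreducible Λ) :
    ∃ (m : ℕ) (T : Fin m → IntegralSystem F n), (∀ i, Cl (T i)) ∧
      ∀ T' : IntegralSystem F n, Cl T' → ∃ i, IsomorphicOn Λ (T i) T' := by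
  classical
  obtain ⟨𝒯, h𝒯, hdet⟩ := traces_of_finite (F := F) hn S
  refine exists_reps (fun T : IntegralSystem F n => Cl T)
    (fun T T' => IsomorphicOn Λ T T') (fun T => fun p : 𝒯 => (T.poly p).coeff (n - 1)) ?_ ?_
  · refine (Set.Finite.pi' (t := fun p : 𝒯 => Set.Icc
      (-((Nat.card (𝓞 F ⧸ (p : Ideal (𝓞 F))) ^ w) ^ n * n.choose (n / 2) : ℕ) : ℤ)
      (((Nat.card (𝓞 F ⧸ (p : Ideal (𝓞 F))) ^ w) ^ n * n.choose (n / 2) : ℕ) : ℤ))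
      (fun p => Set.finite_Icc _ _)).subset ?_
    rintro _ ⟨T, hT, rfl⟩ p
    obtain ⟨h1, r, hr, hrS, h2⟩ := h𝒯 p p.2
    exact abs_le.1 (coeff_bound (hG T hT) hr hrS h1 h2 (n - 1))
  · intro T0 hT0
    obtain ⟨N, hN⟩ := (hI T0 hT0).residual
    choose k c hk hc using local_code (hI T0 hT0)
    obtain ⟨K, ⟨e⟩⟩ := Finite.exists_equiv_fin (∀ ℓ : Fin (N + 1), Fin (k ℓ))
    refine ⟨K, fun T => (e fun ℓ => ⟨c ℓ T, hk ℓ T⟩ : ℕ), fun T => Fin.is_lt _, ?_⟩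
    intro T T' hT hT' hi hi' hcode ℓ hℓ hΛ
    have h1 := exists_B hn (hI T0 hT0) (hI T hT) ℓ hΛ
      (hdet w w T T0 (hG T hT) (hG T0 hT0) (fun p hp => congrFun hi ⟨p, hp⟩) ℓ)
    have h2 := exists_B hn (hI T0 hT0) (hI T' hT') ℓ hΛ
      (hdet w w T' T0 (hG T' hT') (hG T0 hT0) (fun p hp => congrFun hi' ⟨p, hp⟩) ℓ)
    by_cases hℓN : ℓ ≤ N
    · have h3 := e.injective (Fin.ext hcode)
      have h4 := congrFun h3 ⟨ℓ, Nat.lt_succ_of_le hℓN⟩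
      exact hc ℓ T T' hΛ h1 h2 (congrArg Fin.val h4)
    · obtain ⟨B, hB, hB'⟩ := h1
      obtain ⟨B', hB1, hB1'⟩ := h2
      obtain ⟨A, hA⟩ := lat_res (fun U hU => hN ℓ hΛ (by omega) U hU) hB hB'
      obtain ⟨A', hA'⟩ := lat_res (fun U hU => hN ℓ hΛ (by omega) U hU) hB1 hB1'
      refine ⟨A' * A⁻¹, fun g => ?_⟩
      rw [hA, hA']
      group

theorem local_lat {Λ : Set ℕ} {T : IntegralSystem F n} (hT : T.IsIrreducible Λ) (ℓ : ℕ) :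
    ∃ (k : ℕ) (c : (∀ (ℓ : ℕ) [Fact ℓ.Prime], Submodule ℤ_[ℓ] (Fin n → ℚ_[ℓ])) → ℕ),
      (∀ L, c L < k) ∧ ∀ [Fact ℓ.Prime] L L', ℓ ∈ Λ → T.IsLattice L → T.IsLattice L' →
        c L = c L' → ∀ a a' : ℤ, NormAt a (L ℓ) → NormAt a' (L' ℓ) →
          ∀ v, v ∈ L' ℓ ↔ ((ℓ : ℚ_[ℓ]) ^ (a' - a)) • v ∈ L ℓ := by
  classical
  by_cases hℓ : ℓ.Prime ∧ ℓ ∈ Λ
  · have hF : Fact ℓ.Prime := ⟨hℓ.1⟩
    obtain ⟨m, hm⟩ := lat_bound (T.rho ℓ) (fun U hU => hT.rational ℓ hℓ.2 U hU)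
    have hne : NeZero (ℓ ^ m) := ⟨pow_ne_zero _ hℓ.1.ne_zero⟩
    obtain ⟨k, ⟨e⟩⟩ := Finite.exists_equiv_fin (Set (Fin n → ZMod (ℓ ^ m)))
    refine ⟨k, fun L => if h : ∃ a : ℤ, NormAt a (L ℓ) then (e (codeAt m h.choose (L ℓ)) : ℕ) else 0,
      ?_, ?_⟩
    · intro L
      dsimp only
      split_ifs with h
      · exact Fin.is_lt _
      · exact lt_of_le_of_lt (Nat.zero_le _) (e ∅).is_lt
    · intro _ L L' _ hL hL' hc a a' ha ha' v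
      dsimp only at hc
      have h : ∃ a : ℤ, NormAt a (L ℓ) := ⟨a, ha⟩
      have h' : ∃ a : ℤ, NormAt a (L' ℓ) := ⟨a', ha'⟩
      rw [dif_pos h, dif_pos h', normAt_unique h.choose_spec ha,
        normAt_unique h'.choose_spec ha'] at hc
      have h1 := e.injective (Fin.ext hc)
      exact code_iff (fun x hx => lat_contains hm (hL.stable ℓ) ha x hx)
        (fun x hx => lat_contains hm (hL'.stable ℓ) ha' x hx) ha ha' h1 v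
  · exact ⟨1, fun _ => 0, fun _ => Nat.one_pos, fun {hF} _ _ hΛ => (hℓ ⟨hF.out, hΛ⟩).elim⟩

/-- **Finiteness of the stable lattices up to rational factors.** -/
theorem lattices (hn : 0 < n) {Λ : Set ℕ} {T : IntegralSystem F n} (hT : T.IsIrreducible Λ) :
    ∃ (m : ℕ) (L : Fin m → ∀ (ℓ : ℕ) [Fact ℓ.Prime], Submodule ℤ_[ℓ] (Fin n → ℚ_[ℓ])),
      (∀ i, T.IsLattice (L i)) ∧
        ∀ L' : (∀ (ℓ : ℕ) [Fact ℓ.Prime], Submodule ℤ_[ℓ] (Fin n → ℚ_[ℓ])), T.IsLattice L' →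
          ∃ i, ProportionalOn Λ (L i) L' := by
  classical
  refine exists_reps
    (fun L : (∀ (ℓ : ℕ) [Fact ℓ.Prime], Submodule ℤ_[ℓ] (Fin n → ℚ_[ℓ])) => T.IsLattice L)
    (fun L L' => ProportionalOn Λ L L') (fun _ => ()) (Set.toFinite _) ?_
  intro _ _
  obtain ⟨N, hN⟩ := hT.residual
  choose k c hk hc using local_lat hT
  obtain ⟨K, ⟨e⟩⟩ := Finite.exists_equiv_fin (∀ ℓ : Fin (N + 1), Fin (k ℓ))
  refine ⟨K, fun L => (e fun ℓ => ⟨c ℓ L, hk ℓ L⟩ : ℕ), fun L => Fin.is_lt _, ?_⟩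
  intro L L' hL hL' _ _ hcode
  -- the exponents
  have hex : ∀ (R : ∀ (ℓ : ℕ) [Fact ℓ.Prime], Submodule ℤ_[ℓ] (Fin n → ℚ_[ℓ])), T.IsLattice R →
      ∀ ℓ : ℕ, ∃ a : ℤ, ∀ [Fact ℓ.Prime], NormAt a (R ℓ) := by
    intro R hR ℓ
    by_cases hℓ : ℓ.Prime
    · have hF : Fact ℓ.Prime := ⟨hℓ⟩
      obtain ⟨m, hm⟩ := hR.span ℓ (fun _ => 1)
      obtain ⟨a, ha⟩ := exists_normAt (hR.fg ℓ) ⟨_, hm, fun h0 => by
        have h1 := congrFun h0 ⟨0, hn⟩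
        rw [Pi.smul_apply, Pi.zero_apply, smul_eq_mul, mul_one] at h1
        exact pow_ne_zero m (by exact_mod_cast hℓ.ne_zero : (ℓ : ℚ_[ℓ]) ≠ 0) h1⟩
      exact ⟨a, ha⟩
    · exact ⟨0, fun {hF} => (hℓ hF.out).elim⟩
  choose a ha using hex L hL
  choose a' ha' using hex L' hL'
  obtain ⟨M, hM⟩ := hL.standard
  obtain ⟨M', hM'⟩ := hL'.standard
  have hz : ∀ (ℓ : ℕ) [Fact ℓ.Prime], max M M' < ℓ → a' ℓ - a ℓ = 0 := by
    intro ℓ _ hlt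
    rw [max_lt_iff] at hlt
    rw [normAt_unique (ha ℓ) (normAt_std hn (hM ℓ hlt.1)),
      normAt_unique (ha' ℓ) (normAt_std hn (hM' ℓ hlt.2)), sub_self]
  -- the local statement
  have hloc : ∀ (ℓ : ℕ) [Fact ℓ.Prime], ℓ ∈ Λ → ∀ (v : Fin n → ℚ_[ℓ]),
      v ∈ L' ℓ ↔ ((ℓ : ℚ_[ℓ]) ^ (a' ℓ - a ℓ)) • v ∈ L ℓ := by
    intro ℓ hℓ hΛ v
    by_cases hℓN : ℓ ≤ N
    · have h3 := e.injective (Fin.ext hcode)
      have h4 := congrFun h3 ⟨ℓ, Nat.lt_succ_of_le hℓN⟩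
      exact hc ℓ L L' hΛ hL hL' (congrArg Fin.val h4) _ _ (ha ℓ) (ha' ℓ) v
    · have hm := lat_bound_res (T.rho ℓ) (fun U hU => hN ℓ hΛ (by omega) U hU)
      exact std_iff (fun x hx => lat_contains hm (hL.stable ℓ) (ha ℓ) x hx)
        (fun x hx => lat_contains hm (hL'.stable ℓ) (ha' ℓ) x hx) (ha ℓ) (ha' ℓ) v
  -- the rational number
  let P := (Finset.range (max M M' + 1)).filter Nat.Prime
  refine ⟨∏ q ∈ P, (q : ℚ) ^ (a' q - a q), ?_, ?_⟩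
  · refine Finset.prod_pos fun q hq => zpow_pos ?_ _
    exact_mod_cast (Finset.mem_filter.1 hq).2.pos
  · intro ℓ hℓ hΛ v
    rw [hloc ℓ hΛ v]
    refine (smul_iff (L ℓ) (zpow_ne_zero _ (by exact_mod_cast hℓ.out.ne_zero)) ?_ v).symm
    have h1 : ((∏ q ∈ P, (q : ℚ) ^ (a' q - a q) : ℚ) : ℚ_[ℓ]) =
        ∏ q ∈ P, (q : ℚ_[ℓ]) ^ (a' q - a q) := by
      push_cast
      rfl
    have h2 : ∀ q ∈ P, q ≠ ℓ → ‖(q : ℚ_[ℓ]) ^ (a' q - a q)‖ = 1 := by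
      intro q hq hne
      rw [norm_zpow, Padic.norm_natCast_eq_one_iff.2, _root_.one_zpow]
      exact (Nat.coprime_primes hℓ.out (Finset.mem_filter.1 hq).2).2 hne.symm
    rw [h1, norm_prod]
    by_cases hℓP : ℓ ∈ P
    · exact Finset.prod_eq_single_of_mem ℓ hℓP h2
    · have h3 : max M M' < ℓ := by
        by_contra hle
        exact hℓP (Finset.mem_filter.2 ⟨Finset.mem_range.2 (by omega), hℓ.out⟩)
      rw [hz ℓ h3, zpow_zero, norm_one]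
      exact Finset.prod_eq_one fun q hq => h2 q hq fun h => hℓP (h ▸ hq)

end Pool.Agent.R390.SF
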