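import Pool.Agent.R390.SF.Stab

/-!
# The total weight of a stable subspace
-/

set_option autoImplicit false
set_option linter.unusedSectionVars false

namespace Pool.Agent.R390.SF

open Module Polynomial NumberField Pool.Agent.Y800
open Pool.Agent.Y126.SH (chi)

attribute [local instance] Subgroup.fintypeQuotientOfFiniteIndex

section core

variable {F : SubFld ℚ} [hF : FiniteDimensional ℚ F] {n : ℕ} {S : Finset ℕ} {w : ℕ}
  {T : IntegralSystem F n} {ℓ : ℕ} [hℓ : Fact ℓ.Prime]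
  {k : Type} [Field k] [TopologicalSpace k] [IsTopologicalRing k] (ψ : ℤ_[ℓ] →+* k)

/-- the conjugate of the power of a Frobenius element -/
noncomputable def zz (σ : GQ) (q : GQ ⧸ F.fixingSubgroup) : F.fixingSubgroup :=
  ⟨q.out⁻¹ * σ ^ expo F.fixingSubgroup * q.out, core_conj (pow_core σ) q.out⟩

/-- The conclusion on the total weight of the determinant character `φ` of a stable subspace of
dimension `d`. -/
def Wt (_ψ : ℤ_[ℓ] →+* k) (w d : ℕ) (φ : F.fixingSubgroup →* kˣ) : Prop :=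
  ∃ A : ℕ, A * 2 = w * (finrank ℚ F * d) ∧
    ∀ p : ℕ, p.Prime → ℓ ≠ p → ∀ P : Ideal ZBar, P.IsMaximal → (p : ZBar) ∈ P → ∀ σ : GQ,
      IsGeomFrob p P σ → ∏ q : GQ ⧸ F.fixingSubgroup, (φ (zz σ q) : k) =
        (p : k) ^ (expo F.fixingSubgroup * A)

/-- **The total weight of a stable subspace.** -/
theorem weight_sub' (hψ : Continuous ψ) (hk : HasMink k) (hT : T.PureSystem S w) {c : ℕ}
    {p : ℕ} (hp : p.Prime) (hpS : p ∉ S) (hpℓ : ℓ ≠ p) {P : Ideal ZBar} (hP : P.IsMaximal)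
    (hpP : (p : ZBar) ∈ P) {σ : GQ} (hσ : IsGeomFrob p P σ)
    (hσc : σ ∈ (F.fixingSubgroup).normalCore) {M : ℤ} (hMk : (M : k) ≠ 0)
    (hM : ∀ (Ω : Type) [Field Ω] [IsAlgClosed Ω], (M : Ω) ≠ 0 →
      ∀ (A : (GQ ⧸ F.fixingSubgroup) → Multiset Ω) (a : ℕ),
        a ≤ expo F.fixingSubgroup * (finrank ℚ F * c) →
        (∀ q, A q ≤ ((T.poly ((cj q.out P).under (𝓞 F))).map (Int.castRingHom Ω)).roots) →
        ∏ q, (A q).prod ^ expo F.fixingSubgroup = (p : Ω) ^ a →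
          a * 2 = ∑ q, expo F.fixingSubgroup * (w * Multiset.card (A q)))
    (U : Submodule k (Fin n → k)) (hU : IsStable (rep ψ T) U)
    (a : Ideal (𝓞 F) → ℕ) (hac : ∀ 𝔩, a 𝔩 ≤ c)
    (ha : ∀ P : Ideal ZBar, P.IsMaximal → (ℓ : ZBar) ∈ P → ∀ τ : F.fixingSubgroup, InInertia P τ →
      detChar (rep ψ T) U hU τ * chik ψ τ ^ a (P.under (𝓞 F)) = 1)
    {P₀ : Ideal ZBar} (hP₀ : P₀.IsMaximal) (hℓP₀ : (ℓ : ZBar) ∈ P₀) :
    tot F a P₀ * 2 = w * (finrank ℚ F * finrank k U) ∧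
    ∀ p : ℕ, p.Prime → ℓ ≠ p → ∀ P : Ideal ZBar, P.IsMaximal → (p : ZBar) ∈ P → ∀ σ : GQ,
      IsGeomFrob p P σ →
      ∏ q : GQ ⧸ F.fixingSubgroup, (detChar (rep ψ T) U hU (zz σ q) : k) =
        (p : k) ^ (expo F.fixingSubgroup * tot F a P₀) := by
  classical
  have h1 : ∀ p : ℕ, p.Prime → ℓ ≠ p → ∀ P : Ideal ZBar, P.IsMaximal → (p : ZBar) ∈ P →
      ∀ τ : F.fixingSubgroup, InInertia P τ → detChar (rep ψ T) U hU τ = 1 :=
    fun p hp hpℓ P hP hpP τ hτ => det_inertia ψ hT hU hp hpℓ hP hpP hτ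
  have hfr : ∀ p : ℕ, p.Prime → ℓ ≠ p → ∀ P : Ideal ZBar, P.IsMaximal → (p : ZBar) ∈ P →
      ∀ σ : GQ, IsGeomFrob p P σ →
      ∏ q : GQ ⧸ F.fixingSubgroup, (detChar (rep ψ T) U hU (zz σ q) : k) =
        (p : k) ^ (expo F.fixingSubgroup * tot F a P₀) := by
    intro p hp hpℓ P hP hpP σ hσ
    exact transfer_frob ψ hk (continuous_chik ψ hψ) (detChar (rep ψ T) U hU)
      (continuous_detChar ψ hψ hT.toGoodSystem hU) h1 a ha hP₀ hℓP₀ hp hpℓ hP hpP hσ
  refine ⟨?_, hfr⟩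
  have hN : 0 < expo F.fixingSubgroup := expo_pos
  -- the conjugates of `σ`
  let y : (GQ ⧸ F.fixingSubgroup) → F.fixingSubgroup := fun q => ⟨q.out⁻¹ * σ * q.out,
    core_conj hσc q.out⟩
  have hy : ∀ q, IsGeomFrob p (cj q.out P) (y q) := fun q => cj_frob hσ
  have hzy : ∀ q, zz σ q = y q ^ expo F.fixingSubgroup := by
    intro q
    apply Subtype.ext
    show q.out⁻¹ * σ ^ expo F.fixingSubgroup * q.out = ((y q ^ expo F.fixingSubgroup :
      F.fixingSubgroup) : GQ)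
    rw [SubmonoidClass.coe_pow]
    show _ = (q.out⁻¹ * σ * q.out) ^ expo F.fixingSubgroup
    have h3 := conj_pow (i := expo F.fixingSubgroup) (a := (q.out)⁻¹) (b := σ)
    rw [inv_inv] at h3
    exact h3.symm
  -- the eigenvalues
  have hUy : ∀ q, U ≤ U.comap (lin (rep ψ T) (y q)) := fun q u hu => hU (y q) u hu
  have hroots := fun q => Pool.Agent.Y126.MD.roots_sub (Ω := AlgebraicClosure k) (hUy q)
  have hpoly : ∀ q, (lin (rep ψ T) (y q)).charpoly.aroots (AlgebraicClosure k) =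
      ((T.poly ((cj q.out P).under (𝓞 F))).map (Int.castRingHom (AlgebraicClosure k))).roots := by
    intro q
    rw [charpoly_frob ψ hT.toGoodSystem hp hpS hpℓ (cj_max hP) (cj_nat.2 hpP) (hy q), aroots_def,
      Polynomial.map_map]
    congr 2
  have hMΩ : (M : AlgebraicClosure k) ≠ 0 := by
    rw [← map_intCast (algebraMap k (AlgebraicClosure k))]
    exact (_root_.map_ne_zero _).2 hMk
  have hle : expo F.fixingSubgroup * tot F a P₀ ≤ expo F.fixingSubgroup * (finrank ℚ F * c) :=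
    Nat.mul_le_mul_left _ (tot_le fun x => hac _)
  have h5 := hM (AlgebraicClosure k) hMΩ
    (fun q => ((lin (rep ψ T) (y q)).restrict (hUy q)).charpoly.aroots (AlgebraicClosure k))
    _ hle (fun q => by
      rw [← hpoly q]
      exact (hroots q).1) (by
      have h6 := congrArg (algebraMap k (AlgebraicClosure k)) (hfr p hp hpℓ P hP hpP σ hσ)
      rw [map_prod, map_pow, map_natCast] at h6
      rw [← h6]
      refine Finset.prod_congr rfl fun q _ => ?_
      rw [(hroots q).2.1, hzy q, map_pow, Units.val_pow_eq_pow_val, map_pow]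
      rfl)
  have h7 : ∀ q : GQ ⧸ F.fixingSubgroup, Multiset.card
      (((lin (rep ψ T) (y q)).restrict (hUy q)).charpoly.aroots (AlgebraicClosure k)) =
        finrank k U := fun q => (hroots q).2.2
  rw [Finset.sum_congr rfl fun q _ => by rw [h7 q], Finset.sum_const, Finset.card_univ, card_quot,
    smul_eq_mul] at h5
  have h8 : expo F.fixingSubgroup * (tot F a P₀ * 2) =
      expo F.fixingSubgroup * (w * (finrank ℚ F * finrank k U)) := by
    rw [← mul_assoc, h5]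
    ring
  exact Nat.eq_of_mul_eq_mul_left hN h8

theorem weight_sub (hψ : Continuous ψ) (hk : HasMink k) (hT : T.PureSystem S w) {c : ℕ}
    (hw : WeightsAt F (rep ψ T) (fun g => ψ (chi ℓ g : ℤ_[ℓ])) ℓ c)
    {p : ℕ} (hp : p.Prime) (hpS : p ∉ S) (hpℓ : ℓ ≠ p) {P : Ideal ZBar} (hP : P.IsMaximal)
    (hpP : (p : ZBar) ∈ P) {σ : GQ} (hσ : IsGeomFrob p P σ)
    (hσc : σ ∈ (F.fixingSubgroup).normalCore) {M : ℤ} (hMk : (M : k) ≠ 0)
    (hM : ∀ (Ω : Type) [Field Ω] [IsAlgClosed Ω], (M : Ω) ≠ 0 →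
      ∀ (A : (GQ ⧸ F.fixingSubgroup) → Multiset Ω) (a : ℕ),
        a ≤ expo F.fixingSubgroup * (finrank ℚ F * c) →
        (∀ q, A q ≤ ((T.poly ((cj q.out P).under (𝓞 F))).map (Int.castRingHom Ω)).roots) →
        ∏ q, (A q).prod ^ expo F.fixingSubgroup = (p : Ω) ^ a →
          a * 2 = ∑ q, expo F.fixingSubgroup * (w * Multiset.card (A q)))
    (U : Submodule k (Fin n → k)) (hU : IsStable (rep ψ T) U) :
    Wt ψ w (finrank k U) (detChar (rep ψ T) U hU) := by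
  obtain ⟨a, hac, ha⟩ := exists_wt ψ hw hU
  obtain ⟨P₀, _, hP₀, hℓP₀, _⟩ := exists_geom hℓ.out
  exact ⟨tot F a P₀, weight_sub' ψ hψ hk hT hp hpS hpℓ hP hpP hσ hσc hMk hM U hU a hac ha hP₀ hℓP₀⟩

/-- the conjugate of the power of a Frobenius element is a product of a power of a Frobenius element
of the group and of an element of the inertia group -/
theorem zz_eq {p : ℕ} (hp : p.Prime) {P : Ideal ZBar} (hP : P.IsMaximal) (hpP : (p : ZBar) ∈ P)
    {σ : GQ} (hσ : IsGeomFrob p P σ) (q : GQ ⧸ F.fixingSubgroup) {s : F.fixingSubgroup}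
    (hs : IsGeomFrob (resCard F (cj q.out P)) (cj q.out P) s) :
    ∃ f m : ℕ, resCard F (cj q.out P) = p ^ f ∧ f * m = expo F.fixingSubgroup ∧
      ∃ τ : F.fixingSubgroup, InInertia (cj q.out P) τ ∧ zz σ q = s ^ m * τ := by
  obtain ⟨f, hf, hf'⟩ := resCard_pow (F := F) hp (cj_max (x := q.out) hP) (cj_nat.2 hpP)
  have h1 : IsGeomFrob (p ^ expo F.fixingSubgroup) (cj q.out P) (zz σ q : GQ) :=
    cj_frob (geom_pow hσ _)
  obtain ⟨m, hm⟩ := dvd_of_frob hp (cj_max hP) (cj_nat.2 hpP) hf' (zz σ q).2 h1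
  refine ⟨f, m, hf', hm.symm, (s ^ m)⁻¹ * zz σ q, ?_, by group⟩
  have h2 : IsGeomFrob (p ^ expo F.fixingSubgroup) (cj q.out P) ((s : GQ) ^ m) := by
    have h3 := geom_pow hs m
    rwa [hf', ← pow_mul, ← hm] at h3
  have h4 := geom_unique (cj_max hP) (pow_ne_zero _ hp.ne_zero) h2 h1
    (fun x y h => frob_inj hp (cj_max hP) (cj_nat.2 hpP) _ x y h)
  exact h4

end core

end Pool.Agent.R390.SF
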