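import Pool.Agent.R390.SF.MonoDef
import Pool.Agent.R390.SF.Bal
import Pool.Agent.R390.SF.Wt

/-!
# Representations with pure monodromy: the dimensions of the stable subspaces
-/

set_option autoImplicit false
set_option linter.unusedSectionVars false

namespace Pool.Agent.R390.SF

open Module Polynomial NumberField Pool.Agent.Y800
open Pool.Agent.Y126.SH (chi exists_roots roots_map)

attribute [local instance] Subgroup.fintypeQuotientOfFiniteIndex

/-- two polynomials without common complex roots are coprime modulo almost all primes -/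
theorem cop_gen {P Q : ℤ[X]} (hP : P.Monic) (hQ : Q.Monic)
    (h : ∀ z : ℂ, z ∈ P.aroots ℂ → z ∉ Q.aroots ℂ) :
    ∃ M : ℤ, M ≠ 0 ∧ ∀ (k : Type) [Field k], (M : k) ≠ 0 →
      IsCoprime (P.map (Int.castRingHom k)) (Q.map (Int.castRingHom k)) := by
  classical
  obtain ⟨R, hR⟩ := exists_roots hP
  obtain ⟨R', hR'⟩ := exists_roots hQ
  let E : Finset ZBar := (R.toFinset ×ˢ R'.toFinset).image fun x => x.1 - x.2
  have hm : ∀ e : ZBar, ∃ m : ℤ, e ≠ 0 → (m ≠ 0 ∧ ∃ r, e * r = m) := by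
    intro e
    by_cases he : e = 0
    · exact ⟨0, fun h => absurd he h⟩
    · obtain ⟨m, r, h1, h2⟩ := exists_int_mul he
      exact ⟨m, fun _ => ⟨h1, r, h2⟩⟩
  choose m hm using hm
  obtain ⟨i, _⟩ := extend_gen (R := ℤ) (S := ZBar) (k := ℂ) (Int.castRingHom ℂ)
  have hE : ∀ e ∈ E, e ≠ 0 := by
    intro e he h0
    obtain ⟨⟨a, b⟩, hab, rfl⟩ := Finset.mem_image.1 he
    rw [Finset.mem_product, Multiset.mem_toFinset, Multiset.mem_toFinset] at hab
    have h1 : a = b := sub_eq_zero.1 h0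
    refine h (i a) ?_ ?_
    · rw [aroots_def]
      have h2 := roots_map hR i
      rw [show algebraMap ℤ ℂ = Int.castRingHom ℂ from rfl, h2]
      exact Multiset.mem_map_of_mem i hab.1
    · rw [aroots_def]
      have h2 := roots_map hR' i
      rw [show algebraMap ℤ ℂ = Int.castRingHom ℂ from rfl, h2, h1]
      exact Multiset.mem_map_of_mem i hab.2
  refine ⟨∏ e ∈ E, m e, ?_, ?_⟩
  · rw [Finset.prod_ne_zero_iff]
    exact fun e he => (hm e (hE e he)).1
  intro k _ hM
  let Ω := AlgebraicClosure k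
  have hMΩ : ((∏ e ∈ E, m e : ℤ) : Ω) ≠ 0 := by
    rw [← map_intCast (algebraMap k Ω)]
    exact (_root_.map_ne_zero _).2 hM
  obtain ⟨ψ, hψ⟩ := extend_gen (R := ℤ) (S := ZBar) (k := Ω) (Int.castRingHom Ω)
  have hψi : ∀ i : ℤ, ψ (i : ZBar) = (i : Ω) := fun i => map_intCast ψ i
  rw [← Polynomial.isCoprime_map (algebraMap k Ω), Polynomial.map_map, Polynomial.map_map]
  have hc : (algebraMap k Ω).comp (Int.castRingHom k) = Int.castRingHom Ω := RingHom.ext_int _ _
  rw [hc]
  by_contra hcop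
  have hne : P.map (Int.castRingHom Ω) ≠ 0 := (hP.map _).ne_zero
  obtain ⟨x, hx1, hx2⟩ : ∃ x : Ω, (P.map (Int.castRingHom Ω)).IsRoot x ∧
      (Q.map (Int.castRingHom Ω)).IsRoot x := by
    have h1 : ¬ IsUnit (gcd (P.map (Int.castRingHom Ω)) (Q.map (Int.castRingHom Ω))) := by
      rwa [gcd_isUnit_iff]
    have h2 : (gcd (P.map (Int.castRingHom Ω)) (Q.map (Int.castRingHom Ω))).degree ≠ 0 := by
      intro h3
      exact h1 (Polynomial.isUnit_iff_degree_eq_zero.2 h3)
    obtain ⟨x, hx⟩ := IsAlgClosed.exists_root _ h2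
    exact ⟨x, hx.dvd (gcd_dvd_left _ _), hx.dvd (gcd_dvd_right _ _)⟩
  have h1 : x ∈ (P.map (Int.castRingHom Ω)).roots := (mem_roots hne).2 hx1
  have h2 : x ∈ (Q.map (Int.castRingHom Ω)).roots := (mem_roots (hQ.map _).ne_zero).2 hx2
  rw [roots_map hR ψ] at h1
  rw [roots_map hR' ψ] at h2
  obtain ⟨a, ha, rfl⟩ := Multiset.mem_map.1 h1
  obtain ⟨b, hb, hab⟩ := Multiset.mem_map.1 h2
  apply hMΩ
  have hmem : a - b ∈ E := Finset.mem_image.2 ⟨(a, b), Finset.mem_product.2
    ⟨Multiset.mem_toFinset.2 ha, Multiset.mem_toFinset.2 hb⟩, rfl⟩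
  obtain ⟨_, r, hr⟩ := hm (a - b) (hE _ hmem)
  rw [Int.cast_prod]
  apply Finset.prod_eq_zero hmem
  rw [← hψi, ← hr, map_mul, map_sub, hab, sub_self, zero_mul]

section lin

variable {k : Type} [Field k] {n : ℕ}

theorem aeval_toLin (A : Matrix (Fin n) (Fin n) k) (r : k[X]) :
    aeval (Matrix.toLin' A) r = Matrix.toLin' (aeval A r) :=
  Polynomial.aeval_algHom_apply (Matrix.toLinAlgEquiv' (R := k) (n := Fin n)).toAlgHom A r

theorem logU_mem {A : Matrix (Fin n) (Fin n) k} {U : Submodule k (Fin n → k)}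
    (hU : ∀ u ∈ U, A.mulVec u ∈ U) {u : Fin n → k} (hu : u ∈ U) : (logU A).mulVec u ∈ U := by
  have h1 : ∀ v ∈ U, (A - 1).mulVec v ∈ U := by
    intro v hv
    rw [Matrix.sub_mulVec, Matrix.one_mulVec]
    exact U.sub_mem (hU v hv) hv
  have h2 : ∀ (i : ℕ) (v : Fin n → k), v ∈ U → ((A - 1) ^ i).mulVec v ∈ U := by
    intro i
    induction i with
    | zero => intro v hv; rw [pow_zero, Matrix.one_mulVec]; exact hv
    | succ i ih =>
      intro v hv
      rw [pow_succ, ← Matrix.mulVec_mulVec]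
      exact ih _ (h1 v hv)
  unfold logU
  rw [Matrix.sum_mulVec]
  refine U.sum_mem fun i _ => ?_
  rw [Matrix.smul_mulVec]
  exact U.smul_mem _ (h2 i u hu)

/-- **The weights of a stable subspace at a place with pure monodromy.** -/
theorem local_dec {F : SubFld ℚ} {ρ : F.fixingSubgroup →* GL (Fin n) k} {w q : ℕ} {R : ℕ → ℤ[X]}
    {P : Ideal ZBar} (hR : WeightPolys w q R) (hmono : PureMonodromyAt F ρ w R P)
    (hcop : ∀ i ∈ Finset.range (2 * w + 1), ∀ j ∈ Finset.range (2 * w + 1), i ≠ j →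
      IsCoprime ((R i).map (Int.castRingHom k)) ((R j).map (Int.castRingHom k)))
    {U : Submodule k (Fin n → k)} (hU : IsStable ρ U) :
    ∃ s : F.fixingSubgroup, IsGeomFrob (resCard F P) P s ∧
      ∃ (u : ℕ → ℕ) (A : ℕ → Multiset (AlgebraicClosure k)),
        (∀ j ∈ Finset.range (2 * w + 1),
          A j ≤ ((R j).map (Int.castRingHom (AlgebraicClosure k))).roots) ∧
        (∀ j ∈ Finset.range (2 * w + 1), Multiset.card (A j) = u j) ∧
        ∏ j ∈ Finset.range (2 * w + 1), (A j).prod =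
          algebraMap k (AlgebraicClosure k) (detChar ρ U hU s : k) ∧
        ∑ j ∈ Finset.range (2 * w + 1), u j = finrank k U ∧
        (∀ i ≤ w, u (w + i) ≤ u (w - i)) ∧
        ((∀ i ≤ w, u (w + i) = u (w - i)) → IsBlockSum w R (finrank k U)) := by
  classical
  obtain ⟨s, g, hs, -, hch, hN, hinj⟩ := hmono
  set Φ : (Fin n → k) →ₗ[k] (Fin n → k) := lin ρ s with hΦdef
  set N : (Fin n → k) →ₗ[k] (Fin n → k) := Matrix.toLin' (logU (ρ g : Matrix (Fin n) (Fin n) k))
    with hNdef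
  set r : ℕ → k[X] := fun j => (R j).map (Int.castRingHom k) with hr
  have haev : ∀ (q : k[X]) (v : Fin n → k), aeval Φ q v =
      (aeval (ρ s : Matrix (Fin n) (Fin n) k) q).mulVec v := by
    intro q v
    rw [hΦdef, lin_apply, aeval_toLin]
    rfl
  have hNv : ∀ v, N v = (logU (ρ g : Matrix (Fin n) (Fin n) k)).mulVec v := fun v => rfl
  have hNpow : ∀ (i : ℕ) (v : Fin n → k), (N ^ i) v =
      ((logU (ρ g : Matrix (Fin n) (Fin n) k)) ^ i).mulVec v := by
    intro i v
    rw [hNdef, ← Matrix.toLin'_pow]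
    rfl
  have hN' : ∀ j, ∀ v, aeval Φ (r (j + 2)) v = 0 → aeval Φ (r j) (N v) = 0 := by
    intro j v hv
    rw [haev] at hv ⊢
    exact hN j v hv
  have hinj' : ∀ i ≤ w, ∀ v, aeval Φ (r (w + i)) v = 0 → (N ^ i) v = 0 → v = 0 := by
    intro i hi v hv h
    rw [haev] at hv
    rw [hNpow] at h
    exact hinj i hi v hv h
  have hr1 : ∀ j, 2 * w < j → r j = 1 := by
    intro j hj
    rw [hr]
    simp only [hR.top j hj, Polynomial.map_one]
  have hUN : ∀ v ∈ U, N v ∈ U := fun v hv => logU_mem (hU g) hv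
  have hUΦ : U ≤ U.comap Φ := fun u hu => hU s u hu
  have hcharp : Φ.charpoly = ∏ j ∈ Finset.range (2 * w + 1), r j := by
    rw [hΦdef, charpoly_lin, hch]
  have hcop' : ((Finset.range (2 * w + 1) : Finset ℕ) : Set ℕ).Pairwise
      fun i j => IsCoprime (r i) (r j) := fun i hi j hj hij => hcop i hi j hj hij
  have hmonic : ∀ j ∈ Finset.range (2 * w + 1), (r j).Monic := fun j _ => (hR.monic j).map _
  obtain ⟨A, hA1, hA2, hA3, hA4⟩ := stable_dec (Ω := AlgebraicClosure k) hcharp hUΦ hcop' hmonic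
  have hdeg : ∀ j, finrank k (pt Φ r ⊤ j) = (R j).natDegree := by
    intro j
    unfold pt
    rw [top_inf_eq]
    by_cases hj : 2 * w < j
    · rw [hr1 j hj, hR.top j hj, map_one, natDegree_one]
      have h2 : LinearMap.ker (1 : (Fin n → k) →ₗ[k] (Fin n → k)) = ⊥ := LinearMap.ker_id
      rw [h2, finrank_bot]
    · rw [finrank_ker_top hcharp hcop' hmonic (Finset.mem_range.2 (by omega))]
      exact (hR.monic j).natDegree_map _
  refine ⟨s, hs, fun j => finrank k (pt Φ r U j), A, ?_, hA2, hA3, hA4,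
    fun i hi => finrank_pt_le hN' hinj' hUN hi, fun hb => ?_⟩
  · intro j hj
    have h1 := hA1 j hj
    rw [aroots_def, Polynomial.map_map] at h1
    have hc : (algebraMap k (AlgebraicClosure k)).comp (Int.castRingHom k) =
      Int.castRingHom (AlgebraicClosure k) := RingHom.ext_int _ _
    rwa [hc] at h1
  · refine ⟨fun i => finrank k (pt Φ r U (w + i)) - finrank k (pt Φ r U (w + i + 2)), ?_, ?_⟩
    · intro i
      have h1 := blocks_le hN' hinj' hr1 hUN hb i
      rwa [hdeg, hdeg] at h1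
    · have h2 := sum_blocks (u := fun j => finrank k (pt Φ r U j)) ?_ hb
        (fun i => finrank_pt_two hN' hinj' hr1 hUN i)
      · rw [← hA4]
        exact h2
      · intro j hj
        have h3 : pt Φ r U j = ⊥ := by
          unfold pt
          rw [hr1 _ hj, map_one, eq_bot_iff]
          intro x hx
          exact (Submodule.mem_inf.1 hx).2
        show finrank k (pt Φ r U j) = 0
        rw [h3, finrank_bot]

end lin

section core

variable {F : SubFld ℚ} [hF : FiniteDimensional ℚ F] {n : ℕ} {S : Finset ℕ} {w : ℕ}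
  {T : IntegralSystem F n} {ℓ : ℕ} [hℓ : Fact ℓ.Prime]
  {k : Type} [Field k] [TopologicalSpace k] [IsTopologicalRing k] (ψ : ℤ_[ℓ] →+* k)

/-- **The dimensions of the stable subspaces are sums of sizes of Jordan blocks.** -/
theorem block_core (hT : T.PureSystem S w) {p : ℕ} (hp : p.Prime) (hpℓ : ℓ ≠ p) {P : Ideal ZBar}
    (hP : P.IsMaximal) (hpP : (p : ZBar) ∈ P) {σ : GQ} (hσ : IsGeomFrob p P σ)
    {R : Ideal (𝓞 F) → ℕ → ℤ[X]}
    (hR : ∀ 𝔭 : Ideal (𝓞 F), 𝔭.IsMaximal → (p : 𝓞 F) ∈ 𝔭 →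
      WeightPolys w (Nat.card (𝓞 F ⧸ 𝔭)) (R 𝔭))
    (hmono : ∀ P : Ideal ZBar, P.IsMaximal → (p : ZBar) ∈ P →
      PureMonodromyAt F (rep ψ T) w (R (P.under (𝓞 F))) P)
    (hcop : ∀ q : GQ ⧸ F.fixingSubgroup, ∀ i ∈ Finset.range (2 * w + 1),
      ∀ j ∈ Finset.range (2 * w + 1), i ≠ j →
      IsCoprime ((R ((cj q.out P).under (𝓞 F)) i).map (Int.castRingHom k))
        ((R ((cj q.out P).under (𝓞 F)) j).map (Int.castRingHom k)))
    {f m : (GQ ⧸ F.fixingSubgroup) → ℕ} (hf : ∀ q, resCard F (cj q.out P) = p ^ f q)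
    (hfm : ∀ q, f q * m q = expo F.fixingSubgroup)
    {M : ℤ} (hMk : (M : k) ≠ 0)
    (hM : ∀ (Ω : Type) [Field Ω] [IsAlgClosed Ω], (M : Ω) ≠ 0 →
      ∀ (A : ((GQ ⧸ F.fixingSubgroup) × Fin (2 * w + 1)) → Multiset Ω) (a : ℕ),
        a ≤ expo F.fixingSubgroup * (w * (finrank ℚ F * n)) →
        (∀ x, A x ≤ ((R ((cj x.1.out P).under (𝓞 F)) x.2).map (Int.castRingHom Ω)).roots) →
        ∏ x, (A x).prod ^ m x.1 = (p : Ω) ^ a →
          a * 2 = ∑ x, m x.1 * ((f x.1 * x.2) * Multiset.card (A x)))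
    {U : Submodule k (Fin n → k)} (hU : IsStable (rep ψ T) U)
    (hwt : Wt ψ w (finrank k U) (detChar (rep ψ T) U hU)) :
    ∀ q : GQ ⧸ F.fixingSubgroup, IsBlockSum w (R ((cj q.out P).under (𝓞 F))) (finrank k U) := by
  classical
  have hN : 0 < expo F.fixingSubgroup := expo_pos
  have hlocal := fun q : GQ ⧸ F.fixingSubgroup => local_dec (k := k)
    (hR _ (under_max (cj_max (x := q.out) hP)) (by
      rw [mem_under, map_natCast]
      exact cj_nat.2 hpP))
    (hmono _ (cj_max (x := q.out) hP) (cj_nat.2 hpP)) (hcop q) hU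
  choose s hs u A hA1 hA2 hA3 hA4 hA5 hA6 using hlocal
  obtain ⟨a, ha, ha'⟩ := hwt
  have hdet : ∀ q : GQ ⧸ F.fixingSubgroup, (detChar (rep ψ T) U hU (zz σ q) : k) =
      (detChar (rep ψ T) U hU (s q) : k) ^ m q := by
    intro q
    obtain ⟨f', m', hf', hfm', τ, hτ, hz⟩ := zz_eq hp hP hpP hσ q (hs q)
    have e1 : f' = f q := Nat.pow_right_injective hp.two_le (hf'.symm.trans (hf q))
    have hf0 : 0 < f q := by
      rcases Nat.eq_zero_or_pos (f q) with h | h
      · have := hfm q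
        rw [h, zero_mul] at this
        omega
      · exact h
    have e2 : m' = m q := by
      have h1 := hfm'.trans (hfm q).symm
      rw [e1] at h1
      exact Nat.eq_of_mul_eq_mul_left hf0 h1
    rw [hz, map_mul, det_inertia ψ hT hU hp hpℓ (cj_max hP) (cj_nat.2 hpP) hτ, mul_one, map_pow,
      Units.val_pow_eq_pow_val, e2]
  have hMΩ : (M : AlgebraicClosure k) ≠ 0 := by
    rw [← map_intCast (algebraMap k (AlgebraicClosure k))]
    exact (_root_.map_ne_zero _).2 hMk
  have hdle : finrank k U ≤ n := by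
    have := Submodule.finrank_le U
    rwa [finrank_fin_fun] at this
  have hale : a ≤ w * (finrank ℚ F * n) := by
    have h1 : w * (finrank ℚ F * finrank k U) ≤ w * (finrank ℚ F * n) :=
      Nat.mul_le_mul_left _ (Nat.mul_le_mul_left _ hdle)
    omega
  have h5 := hM (AlgebraicClosure k) hMΩ (fun x => A x.1 x.2) (expo F.fixingSubgroup * a)
    (Nat.mul_le_mul_left _ hale) (fun x => hA1 x.1 x.2 (Finset.mem_range.2 x.2.2)) (by
      have h6 := congrArg (algebraMap k (AlgebraicClosure k)) (ha' p hp hpℓ P hP hpP σ hσ)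
      rw [map_prod, map_pow, map_natCast] at h6
      rw [← h6, Fintype.prod_prod_type]
      refine Finset.prod_congr rfl fun q _ => ?_
      rw [hdet q, map_pow, ← hA3 q, ← Finset.prod_pow, ← Fin.prod_univ_eq_prod_range
        (fun j => (A q j).prod ^ m q)])
  rw [Fintype.sum_prod_type] at h5
  have h7 : ∀ q : GQ ⧸ F.fixingSubgroup, ∑ y : Fin (2 * w + 1),
      m q * ((f q * (y : ℕ)) * Multiset.card (A q y)) =
        expo F.fixingSubgroup * ∑ j ∈ Finset.range (2 * w + 1), j * u q j := by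
    intro q
    rw [Fin.sum_univ_eq_sum_range (fun j => m q * ((f q * j) * Multiset.card (A q j))),
      Finset.mul_sum, ← hfm q]
    refine Finset.sum_congr rfl fun j hj => ?_
    rw [hA2 q j hj]
    ring
  rw [Finset.sum_congr rfl fun q _ => h7 q, ← Finset.mul_sum, mul_assoc, ha] at h5
  have h8 := Nat.eq_of_mul_eq_mul_left hN h5
  -- the balance
  have h9 : ∑ q : GQ ⧸ F.fixingSubgroup, ∑ j ∈ Finset.range (2 * w + 1), j * u q j =
      ∑ q : GQ ⧸ F.fixingSubgroup, w * ∑ j ∈ Finset.range (2 * w + 1), u q j := by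
    rw [← h8, Finset.sum_congr rfl fun q _ => by rw [hA4 q], Finset.sum_const, Finset.card_univ,
      card_quot, smul_eq_mul]
    ring
  have h10 := (Finset.sum_eq_sum_iff_of_le fun q _ => (sum_le (hA5 q)).1).1 h9
  exact fun q => hA6 q ((sum_le (hA5 q)).2 (h10 q (Finset.mem_univ q)))

end core

end Pool.Agent.R390.SF
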