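import Pool.Agent.R390.SF.Defs

/-!
# Pure monodromy at a place of a number field
-/

set_option autoImplicit false

namespace Pool.Agent.R390.SF

open Polynomial NumberField Pool.Agent.Y800

/-- The logarithm `∑_{0 < i < n} (-1)^(i+1) (A - 1)^i / i` of the unipotent matrix `A` of size `n`. -/
noncomputable def logU {k : Type} [Field k] {n : ℕ} (A : Matrix (Fin n) (Fin n) k) :
    Matrix (Fin n) (Fin n) k :=
  ∑ i ∈ Finset.range n, ((-1) ^ (i + 1) * (i : k)⁻¹) • (A - 1) ^ i

/-- `R 0, …, R (2 w)` are possible characteristic polynomials of the Frobenius elements at a place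
with `q` elements in the residue field on the parts of weight `0, …, 2 w`: the polynomial `R j` has
integral coefficients and is monic, its complex roots have absolute value `q ^ (j / 2)`, and
`R j = 1` for `j > 2 w`. -/
structure WeightPolys (w q : ℕ) (R : ℕ → ℤ[X]) : Prop where
  monic : ∀ j, (R j).Monic
  pure : ∀ j, ∀ z : ℂ, z ∈ (R j).aroots ℂ → ‖z‖ ^ 2 = (q : ℝ) ^ j
  top : ∀ j, 2 * w < j → R j = 1

/-- If there are `deg R_{w+s} - deg R_{w+s+2}` Jordan blocks of size `s + 1`, for all `s ≥ 0`, then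
`d` is the sum of the sizes of some of the blocks. -/
def IsBlockSum (w : ℕ) (R : ℕ → ℤ[X]) (d : ℕ) : Prop :=
  ∃ b : ℕ → ℕ, (∀ s, b s + (R (w + s + 2)).natDegree ≤ (R (w + s)).natDegree) ∧
    ∑ s ∈ Finset.range (w + 1), (s + 1) * b s = d

variable (F : SubFld ℚ) {k : Type} [Field k] {n : ℕ}

/-- The representation `ρ` has pure monodromy of weight `w` at the place of `F` below `P` (the
weight-monodromy conjecture), where the parts of weight `j` have the Frobenius polynomials `R j`. For a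
geometric Frobenius element `σ` and an element `g` of the inertia group (a generator of the tame inertia
group), the characteristic polynomial of `ρ(σ)` is `∏_j R j`, and for the parts
`V_j = ker R_j(ρ(σ))` of weight `j` and `N = log ρ(g)` we have `N (V_{j+2}) ⊆ V_j`, and
`N ^ i : V_{w+i} → V_{w-i}` is injective. -/
def PureMonodromyAt (ρ : F.fixingSubgroup →* GL (Fin n) k) (w : ℕ) (R : ℕ → ℤ[X])
    (P : Ideal ZBar) : Prop :=
  ∃ σ g : F.fixingSubgroup, IsGeomFrob (resCard F P) P σ ∧ InInertia P g ∧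
    (ρ σ : Matrix (Fin n) (Fin n) k).charpoly =
      ∏ j ∈ Finset.range (2 * w + 1), (R j).map (Int.castRingHom k) ∧
    (∀ j v, (aeval (ρ σ : Matrix (Fin n) (Fin n) k)
        ((R (j + 2)).map (Int.castRingHom k))).mulVec v = 0 →
      (aeval (ρ σ : Matrix (Fin n) (Fin n) k) ((R j).map (Int.castRingHom k))).mulVec
        ((logU (ρ g : Matrix (Fin n) (Fin n) k)).mulVec v) = 0) ∧
    ∀ i ≤ w, ∀ v, (aeval (ρ σ : Matrix (Fin n) (Fin n) k)
        ((R (w + i)).map (Int.castRingHom k))).mulVec v = 0 →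
      ((logU (ρ g : Matrix (Fin n) (Fin n) k)) ^ i).mulVec v = 0 → v = 0

namespace IntegralSystem

variable {F}

/-- `T` has pure monodromy at the places above the primes `p` in `S₁`, where the parts of weight `j` at
the place `𝔭` have the Frobenius polynomials `R 𝔭 j`; for the primes `ℓ ≠ p` in `Λ` for the
representation `V_ℓ`, and for almost all `ℓ` in `Λ` also for `T_ℓ / ℓ`. -/
structure MonodromySystem (S₁ : Finset ℕ) (w : ℕ) (Λ : Set ℕ) (R : Ideal (𝓞 F) → ℕ → ℤ[X])
    (T : IntegralSystem F n) : Prop where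
  polys : ∀ p ∈ S₁, p.Prime → ∀ 𝔭 : Ideal (𝓞 F), 𝔭.IsMaximal → (p : 𝓞 F) ∈ 𝔭 →
    WeightPolys w (Nat.card (𝓞 F ⧸ 𝔭)) (R 𝔭)
  rational : ∀ p ∈ S₁, p.Prime → ∀ (ℓ : ℕ) [Fact ℓ.Prime], ℓ ∈ Λ → ℓ ≠ p →
    ∀ P : Ideal ZBar, P.IsMaximal → (p : ZBar) ∈ P →
      PureMonodromyAt F (T.rat ℓ) w (R (P.under (𝓞 F))) P
  residual : ∃ N : ℕ, ∀ p ∈ S₁, p.Prime → ∀ (ℓ : ℕ) [Fact ℓ.Prime], ℓ ∈ Λ → ℓ ≠ p → N < ℓ →
    ∀ P : Ideal ZBar, P.IsMaximal → (p : ZBar) ∈ P →
      PureMonodromyAt F (T.res ℓ) w (R (P.under (𝓞 F))) P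

end IntegralSystem

end Pool.Agent.R390.SF
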