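import Pool.Agent.R390.SF.Mono
import Pool.Agent.R390.SF.Inst

/-!
# Systems with pure monodromy are irreducible if the block sizes exclude all the dimensions
-/

set_option autoImplicit false
set_option linter.unusedSectionVars false

namespace Pool.Agent.R390.SF

open Module Polynomial NumberField Pool.Agent.Y800

attribute [local instance] Subgroup.fintypeQuotientOfFiniteIndex

/-- For each prime `ℓ` in `Λ` and each `0 < d < n` such that `w [F : ℚ] d` is even there are a prime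
`p ≠ ℓ` in `S₁` and a place `𝔭` above `p` such that `d` is not the sum of the sizes of some of the
Jordan blocks of the monodromy at `𝔭`. -/
def Excludes (F : SubFld ℚ) (n w : ℕ) (S₁ : Finset ℕ) (Λ : Set ℕ) (R : Ideal (𝓞 F) → ℕ → ℤ[X]) :
    Prop :=
  ∀ ℓ ∈ Λ, ∀ d : ℕ, 0 < d → d < n → Even (w * (finrank ℚ F * d)) →
    ∃ p ∈ S₁, p.Prime ∧ ℓ ≠ p ∧ ∃ 𝔭 : Ideal (𝓞 F), 𝔭.IsMaximal ∧ (p : 𝓞 F) ∈ 𝔭 ∧
      ¬ IsBlockSum w (R 𝔭) d

variable {F : SubFld ℚ} [hF : FiniteDimensional ℚ F]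

theorem exists_q {p : ℕ} (hp : p.Prime) {P : Ideal ZBar} (hP : P.IsMaximal) (hpP : (p : ZBar) ∈ P)
    {𝔭 : Ideal (𝓞 F)} (h𝔭 : 𝔭.IsMaximal) (hp𝔭 : (p : 𝓞 F) ∈ 𝔭) :
    ∃ q : GQ ⧸ F.fixingSubgroup, (cj q.out P).under (𝓞 F) = 𝔭 := by
  obtain ⟨P', hP', hP'𝔭⟩ := Ideal.exists_ideal_over_maximal_of_isIntegral (S := ZBar) 𝔭 (by
    rw [(RingHom.injective_iff_ker_eq_bot _).1 (FaithfulSMul.algebraMap_injective (𝓞 F) ZBar)]
    exact bot_le)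
  have hpP' : (p : ZBar) ∈ P' := by
    have h1 : (p : 𝓞 F) ∈ P'.comap (algebraMap (𝓞 F) ZBar) := by
      rw [hP'𝔭]
      exact hp𝔭
    rwa [Ideal.mem_comap, map_natCast] at h1
  obtain ⟨x, hx⟩ := exists_cj hp hP hpP hP' hpP'
  refine ⟨(x : GQ ⧸ F.fixingSubgroup), ?_⟩
  obtain ⟨h, hh⟩ := QuotientGroup.mk_out_eq_mul F.fixingSubgroup x
  rw [hh, ← cj_cj, ← hx, under_cj h.2]
  exact hP'𝔭

/-- the data at the prime `p` -/
theorem exists_data {w n p : ℕ} (hp : p.Prime) {R : Ideal (𝓞 F) → ℕ → ℤ[X]}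
    (hR : ∀ 𝔭 : Ideal (𝓞 F), 𝔭.IsMaximal → (p : 𝓞 F) ∈ 𝔭 →
      WeightPolys w (Nat.card (𝓞 F ⧸ 𝔭)) (R 𝔭)) :
    ∃ M : ℤ, M ≠ 0 ∧ ∀ (S : Finset ℕ) (T : IntegralSystem F n), T.PureSystem S w →
      ∀ (ℓ : ℕ) [Fact ℓ.Prime], ℓ ≠ p → ∀ (k : Type) [Field k] [TopologicalSpace k]
      [IsTopologicalRing k] (ψ : ℤ_[ℓ] →+* k), (M : k) ≠ 0 →
      (∀ P : Ideal ZBar, P.IsMaximal → (p : ZBar) ∈ P →
        PureMonodromyAt F (rep ψ T) w (R (P.under (𝓞 F))) P) →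
      ∀ (U : Submodule k (Fin n → k)) (hU : IsStable (rep ψ T) U),
        Wt ψ w (finrank k U) (detChar (rep ψ T) U hU) →
        ∀ 𝔭 : Ideal (𝓞 F), 𝔭.IsMaximal → (p : 𝓞 F) ∈ 𝔭 → IsBlockSum w (R 𝔭) (finrank k U) := by
  classical
  obtain ⟨P, σ, hP, hpP, hσ⟩ := exists_geom hp
  have hplace : ∀ q : GQ ⧸ F.fixingSubgroup, ((cj q.out P).under (𝓞 F)).IsMaximal ∧
      (p : 𝓞 F) ∈ (cj q.out P).under (𝓞 F) := by
    intro q
    refine ⟨under_max (cj_max hP), ?_⟩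
    rw [mem_under, map_natCast]
    exact cj_nat.2 hpP
  have hRq := fun q => hR _ (hplace q).1 (hplace q).2
  have hf0 : ∀ q : GQ ⧸ F.fixingSubgroup, ∃ f : ℕ, 0 < f ∧ resCard F (cj q.out P) = p ^ f :=
    fun q => resCard_pow hp (cj_max hP) (cj_nat.2 hpP)
  choose f hfpos hf using hf0
  have hm0 : ∀ q : GQ ⧸ F.fixingSubgroup, ∃ m : ℕ, f q * m = expo F.fixingSubgroup := by
    intro q
    obtain ⟨m, hm⟩ := dvd_of_frob hp (cj_max hP) (cj_nat.2 hpP) (hf q) (zz σ q).2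
      (cj_frob (geom_pow hσ (expo F.fixingSubgroup)))
    exact ⟨m, hm.symm⟩
  choose m hfm using hm0
  -- the weights
  obtain ⟨M₁, hM₁, hM₁'⟩ := wt_gen
    (fun x : (GQ ⧸ F.fixingSubgroup) × Fin (2 * w + 1) => R ((cj x.1.out P).under (𝓞 F)) x.2)
    (fun x => (hRq x.1).monic _) hp.one_lt (fun x => f x.1 * x.2) (by
      intro x z hz
      have h1 := (hRq x.1).pure _ z hz
      have h2 : Nat.card (𝓞 F ⧸ (cj x.1.out P).under (𝓞 F)) = p ^ f x.1 := hf x.1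
      rw [h1, h2, Nat.cast_pow, ← pow_mul])
    (fun x => m x.1) (expo F.fixingSubgroup * (w * (finrank ℚ F * n)))
  -- the coprimality
  have hcop : ∀ x : (GQ ⧸ F.fixingSubgroup) × Fin (2 * w + 1) × Fin (2 * w + 1), ∃ M : ℤ, M ≠ 0 ∧
      (x.2.1 ≠ x.2.2 → ∀ (k : Type) [Field k], (M : k) ≠ 0 →
        IsCoprime ((R ((cj x.1.out P).under (𝓞 F)) x.2.1).map (Int.castRingHom k))
          ((R ((cj x.1.out P).under (𝓞 F)) x.2.2).map (Int.castRingHom k))) := by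
    intro x
    by_cases hx : x.2.1 = x.2.2
    · exact ⟨1, one_ne_zero, fun h => absurd hx h⟩
    · obtain ⟨M, hM, hM'⟩ := cop_gen ((hRq x.1).monic (x.2.1 : ℕ)) ((hRq x.1).monic (x.2.2 : ℕ)) (by
        intro z hz hz'
        have h1 := (hRq x.1).pure _ z hz
        have h2 := (hRq x.1).pure _ z hz'
        have h3 : Nat.card (𝓞 F ⧸ (cj x.1.out P).under (𝓞 F)) = p ^ f x.1 := hf x.1
        rw [h1, h3] at h2
        have h4 : 1 < p ^ f x.1 := Nat.one_lt_pow (hfpos _).ne' hp.one_lt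
        have h5 : (x.2.1 : ℕ) = x.2.2 := by
          have h6 : (p ^ f x.1) ^ (x.2.1 : ℕ) = (p ^ f x.1) ^ (x.2.2 : ℕ) := by exact_mod_cast h2
          exact Nat.pow_right_injective h4 h6
        exact hx (Fin.ext h5))
      exact ⟨M, hM, fun _ => hM'⟩
  choose M₂ hM₂ hM₂' using hcop
  refine ⟨M₁ * ∏ x, M₂ x, mul_ne_zero hM₁ (Finset.prod_ne_zero_iff.2 fun x _ => hM₂ x), ?_⟩
  intro S T hT ℓ _ hpℓ k _ _ _ ψ hMk hmono U hU hwt 𝔭 h𝔭 hp𝔭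
  rw [Int.cast_mul, Int.cast_prod] at hMk
  have hk1 := left_ne_zero_of_mul hMk
  have hk2 := right_ne_zero_of_mul hMk
  rw [Finset.prod_ne_zero_iff] at hk2
  obtain ⟨q, hq⟩ := exists_q hp hP hpP h𝔭 hp𝔭
  rw [← hq]
  refine block_core ψ hT hp hpℓ hP hpP hσ hR hmono ?_ hf hfm hk1 hM₁' hU hwt q
  intro q i hi j hj hij
  have h1 := hM₂' (q, ⟨i, Finset.mem_range.1 hi⟩, ⟨j, Finset.mem_range.1 hj⟩)
    (fun h => hij (congrArg Fin.val h)) k (hk2 _ (Finset.mem_univ _))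
  exact h1

/-- **Systems with pure monodromy are irreducible if the blocks exclude all dimensions.** -/
theorem irr_of_mono {n w : ℕ} {S S₁ : Finset ℕ} {Λ : Set ℕ} {R : Ideal (𝓞 F) → ℕ → ℤ[X]}
    {T : IntegralSystem F n} (hT : T.PureSystem S w) (hM : T.MonodromySystem S₁ w Λ R)
    (hex : Excludes F n w S₁ Λ R) : T.IsIrreducible Λ := by
  have hdata : ∀ p : ℕ, ∃ M : ℤ, M ≠ 0 ∧ (p ∈ S₁ → p.Prime →
      ∀ (ℓ : ℕ) [Fact ℓ.Prime], ℓ ≠ p → ∀ (k : Type) [Field k] [TopologicalSpace k]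
      [IsTopologicalRing k] (ψ : ℤ_[ℓ] →+* k), (M : k) ≠ 0 →
      (∀ P : Ideal ZBar, P.IsMaximal → (p : ZBar) ∈ P →
        PureMonodromyAt F (rep ψ T) w (R (P.under (𝓞 F))) P) →
      ∀ (U : Submodule k (Fin n → k)) (hU : IsStable (rep ψ T) U),
        Wt ψ w (finrank k U) (detChar (rep ψ T) U hU) →
        ∀ 𝔭 : Ideal (𝓞 F), 𝔭.IsMaximal → (p : 𝓞 F) ∈ 𝔭 → IsBlockSum w (R 𝔭) (finrank k U)) := by
    intro p
    by_cases h : p ∈ S₁ ∧ p.Prime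
    · obtain ⟨M, h1, h2⟩ := exists_data (n := n) h.2 (hM.polys p h.1 h.2)
      exact ⟨M, h1, fun _ _ => h2 S T hT⟩
    · exact ⟨1, one_ne_zero, fun h1 h2 => absurd ⟨h1, h2⟩ h⟩
  choose M hM0 hM1 using hdata
  -- the conclusion for a field
  have hfin : ∀ (ℓ : ℕ) [Fact ℓ.Prime], ℓ ∈ Λ → ∀ (k : Type) [Field k] [TopologicalSpace k]
      [IsTopologicalRing k] (ψ : ℤ_[ℓ] →+* k), (∀ p ∈ S₁, (M p : k) ≠ 0) →
      (∀ p ∈ S₁, p.Prime → ℓ ≠ p → ∀ P : Ideal ZBar, P.IsMaximal → (p : ZBar) ∈ P →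
        PureMonodromyAt F (rep ψ T) w (R (P.under (𝓞 F))) P) →
      ∀ (U : Submodule k (Fin n → k)) (hU : IsStable (rep ψ T) U),
        Wt ψ w (finrank k U) (detChar (rep ψ T) U hU) → U = ⊥ ∨ U = ⊤ := by
    intro ℓ _ hΛ k _ _ _ ψ hMk hmono U hU hwt
    have hle := Submodule.finrank_le U
    rw [finrank_fin_fun] at hle
    rcases Nat.eq_zero_or_pos (finrank k U) with h0 | hpos
    · exact Or.inl (Submodule.finrank_eq_zero.1 h0)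
    · rcases Nat.lt_or_ge (finrank k U) n with hlt | hge
      · exfalso
        obtain ⟨a, ha, _⟩ := id hwt
        obtain ⟨p, hpS, hp, hpℓ, 𝔭, h𝔭, hp𝔭, hnot⟩ := hex ℓ hΛ (finrank k U) hpos hlt
          ⟨a, by rw [← ha]; ring⟩
        exact hnot (hM1 p hpS hp ℓ hpℓ k ψ (hMk p hpS) (hmono p hpS hp hpℓ) U hU hwt 𝔭 h𝔭 hp𝔭)
      · exact Or.inr (Submodule.eq_top_of_finrank_eq (by rw [finrank_fin_fun]; omega))
  refine ⟨?_, ?_⟩
  · intro ℓ _ hΛ U hU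
    exact hfin ℓ hΛ ℚ_[ℓ] (algebraMap ℤ_[ℓ] ℚ_[ℓ]) (fun p _ => by exact_mod_cast hM0 p)
      (fun p hpS hp hpℓ => hM.rational p hpS hp ℓ hΛ hpℓ) U hU (rat_wt hT U hU)
  · obtain ⟨N₁, hN₁⟩ := res_wt hT
    obtain ⟨N₂, hN₂⟩ := hM.residual
    refine ⟨max (max N₁ N₂) (S₁.sup fun p => (M p).natAbs), ?_⟩
    intro ℓ _ hΛ hlt U hU
    simp only [max_lt_iff] at hlt
    obtain ⟨⟨h1, h2⟩, h3⟩ := hlt
    exact hfin ℓ hΛ (ZMod ℓ) (PadicInt.toZMod (p := ℓ))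
      (fun p hpS => ne_zero_mod (hM0 p)
        (lt_of_le_of_lt (Finset.le_sup (f := fun p => (M p).natAbs) hpS) h3))
      (fun p hpS hp hpℓ => hN₂ p hpS hp ℓ hΛ hpℓ h2) U hU (hN₁ ℓ h1 U hU)

end Pool.Agent.R390.SF
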