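import Pool.Agent.R390.SF.Defs

/-!
# Polarized integral systems with given Hodge numbers over a number field
-/

set_option autoImplicit false

namespace Pool.Agent.R390.SF

open Polynomial NumberField Pool.Agent.Y800
open Pool.Agent.Y126.SH (chi)

/-- The orthogonal complement of the subspace `U` for the bilinear form with the matrix `J`. -/
def orth {k : Type} [Field k] {n : ℕ} (J : Matrix (Fin n) (Fin n) k)
    (U : Submodule k (Fin n → k)) : Submodule k (Fin n → k) where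
  carrier := {x | ∀ u ∈ U, dotProduct u (J.mulVec x) = 0}
  add_mem' := by
    intro x y hx hy u hu
    rw [Matrix.mulVec_add, dotProduct_add, hx u hu, hy u hu, add_zero]
  zero_mem' := by
    intro u _
    rw [Matrix.mulVec_zero, dotProduct_zero]
  smul_mem' := by
    intro c x hx u hu
    rw [Matrix.mulVec_smul, dotProduct_smul, hx u hu, smul_zero]

/-- The Hodge-Tate weights of the representation `ρ` with the form `J` at the places above `ℓ` are given
by the Hodge numbers `h r = h^{r,w-r}`: there are numbers `m U 𝔩 r` (the multiplicity of the weight `r`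
in the stable subspace `U` at the place `𝔩` above `ℓ`), increasing with `U`, such that
* `∑_{r ≤ w} m U 𝔩 r = dim U`, and the inertia groups at `𝔩` act on the determinant of `U` through
  `χ ^ (-∑ r m_r)` (`U` is given by a basis, the columns of the matrix `C`, and `σ` is the action on it);
* `m (U^⊥) 𝔩 r + m U 𝔩 (w - r) = h r`, that is, the quotient by the orthogonal complement of `U` is
  the dual of `U` (twisted by the weight `w`). -/
def HodgeFormAt (F : SubFld ℚ) {k : Type} [Field k] {n : ℕ} (ρ : F.fixingSubgroup →* GL (Fin n) k)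
    (J : Matrix (Fin n) (Fin n) k) (χ : GQ → k) (ℓ w : ℕ) (h : ℕ → ℕ) : Prop :=
  ∃ m : Submodule k (Fin n → k) → Ideal (𝓞 F) → ℕ → ℕ,
    ∀ 𝔩 : Ideal (𝓞 F), 𝔩.IsMaximal → (ℓ : 𝓞 F) ∈ 𝔩 →
      (∀ U U' : Submodule k (Fin n → k), IsStable ρ U → IsStable ρ U' → U ≤ U' →
        ∀ r, m U 𝔩 r ≤ m U' 𝔩 r) ∧
      (∀ (d : ℕ) (C : Matrix (Fin n) (Fin d) k) (σ : F.fixingSubgroup → Matrix (Fin d) (Fin d) k),
        Function.Injective C.mulVec → (∀ g, (ρ g : Matrix (Fin n) (Fin n) k) * C = C * σ g) →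
          ∑ r ∈ Finset.range (w + 1), m (LinearMap.range C.mulVecLin) 𝔩 r = d ∧
          ∀ P : Ideal ZBar, P.IsMaximal → P.under (𝓞 F) = 𝔩 → ∀ τ : F.fixingSubgroup,
            InInertia P τ → (σ τ).det * χ τ ^
              (∑ r ∈ Finset.range (w + 1), r * m (LinearMap.range C.mulVecLin) 𝔩 r) = 1) ∧
      ∀ U : Submodule k (Fin n → k), IsStable ρ U → ∀ r ≤ w,
        m (orth J U) 𝔩 r + m U 𝔩 (w - r) = h r

namespace IntegralSystem

variable {F : SubFld ℚ} {n : ℕ}

/-- The matrix `J` is the matrix of a polarization of `T_ℓ`: a nondegenerate `(-1)^w`-symmetric form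
`T_ℓ × T_ℓ → ℤ_ℓ(-w)` which is compatible with the action of the Galois group. -/
structure IsPolarization (T : IntegralSystem F n) (w ℓ : ℕ) [Fact ℓ.Prime]
    (J : Matrix (Fin n) (Fin n) ℤ_[ℓ]) : Prop where
  symm : J.transpose = (-1) ^ w • J
  equivariant : ∀ g : F.fixingSubgroup, (chi ℓ g : ℤ_[ℓ]) ^ w •
    ((T.rho ℓ g : Matrix (Fin n) (Fin n) ℤ_[ℓ]).transpose * J * T.rho ℓ g) = J
  nondegenerate : J.det ≠ 0

/-- The properties of the realisations of a polarized pure motive over `F` of weight `w`, with Hodge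
numbers `h r = h^{r,w-r}`, `0 ≤ r ≤ w`, with a lattice, with good reduction outside the finite set `S`
of primes and semistable reduction in `S`. The polarization of `T_ℓ` is perfect for `ℓ` outside the
finite set `S'`. -/
structure PolarizedSystem (S S' : Finset ℕ) (w : ℕ) (h : ℕ → ℕ) (T : IntegralSystem F n) : Prop
    extends T.GoodSystem S w where
  /-- semistable reduction in `S` -/
  semistable : ∀ p : ℕ, p.Prime → p ∈ S → ∀ 𝔭 : Ideal (𝓞 F), 𝔭.IsMaximal → (p : 𝓞 F) ∈ 𝔭 →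
    T.SemistableAt p 𝔭
  /-- a polarization of `V_ℓ`, and the Hodge-Tate weights -/
  rational : ∀ (ℓ : ℕ) [Fact ℓ.Prime], ∃ J : Matrix (Fin n) (Fin n) ℤ_[ℓ],
    T.IsPolarization w ℓ J ∧
    HodgeFormAt F (T.rat ℓ) (J.map (algebraMap ℤ_[ℓ] ℚ_[ℓ]))
      (fun g => algebraMap ℤ_[ℓ] ℚ_[ℓ] (chi ℓ g : ℤ_[ℓ])) ℓ w h
  /-- for `ℓ` outside `S'` a perfect polarization of `T_ℓ`, and the Fontaine-Laffaille weights of
  `T_ℓ / ℓ` -/
  residual : ∀ (ℓ : ℕ) [Fact ℓ.Prime], ℓ ∉ S' → ∃ J : Matrix (Fin n) (Fin n) ℤ_[ℓ],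
    T.IsPolarization w ℓ J ∧ IsUnit J.det ∧
    HodgeFormAt F (T.res ℓ) (J.map (PadicInt.toZMod (p := ℓ)))
      (fun g => PadicInt.toZMod (chi ℓ g : ℤ_[ℓ])) ℓ w h

end IntegralSystem

/-- The Hodge numbers `h` do not allow isotropic subspaces, for the places of `F` above `ℓ`: if
`m 𝔩 r` are numbers with `m 𝔩 r + m 𝔩 (w - r) ≤ h r` and `∑_r m 𝔩 r = d` for all the places `𝔩` above
`ℓ`, and the mean of the weights `r` with the multiplicities `m 𝔩 r` and `[F_𝔩 : ℚ_ℓ]` is `w / 2`,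
then `d = 0`. The sum over the places `𝔩` above `ℓ` with the multiplicities `[F_𝔩 : ℚ_ℓ]` is written as
a sum over the conjugates `x⁻¹ P₀` of a maximal ideal `P₀` above `ℓ` of the ring of all algebraic
integers, `x` in the absolute Galois group of `ℚ` modulo the one of `F`. -/
def NoIsotropic (F : SubFld ℚ) (w : ℕ) (h : ℕ → ℕ) (ℓ : ℕ) : Prop :=
  ∀ P₀ : Ideal ZBar, P₀.IsMaximal → (ℓ : ZBar) ∈ P₀ → ∀ (d : ℕ) (m : Ideal (𝓞 F) → ℕ → ℕ),
    (∀ 𝔩 : Ideal (𝓞 F), 𝔩.IsMaximal → (ℓ : 𝓞 F) ∈ 𝔩 → (∀ r ≤ w, m 𝔩 r + m 𝔩 (w - r) ≤ h r) ∧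
      ∑ r ∈ Finset.range (w + 1), m 𝔩 r = d) →
    2 * (∑ᶠ q : GQ ⧸ F.fixingSubgroup, ∑ r ∈ Finset.range (w + 1),
      r * m ((cj q.out P₀).under (𝓞 F)) r) = w * (Module.finrank ℚ F * d) → d = 0

end Pool.Agent.R390.SF
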