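import Pool.Agent.R390.SF.PolW
import Pool.Agent.R390.SF.JZ
import Pool.Agent.R390.SF.Inst

/-!
# Finiteness of the polarized integral systems with given Hodge numbers
-/

set_option autoImplicit false
set_option linter.unusedSectionVars false

namespace Pool.Agent.R390.SF

open Module Matrix Polynomial NumberField Pool.Agent.Y800 IntegralSystem
open Pool.Agent.Y126.SH (chi exists_reps)

attribute [local instance] Subgroup.fintypeQuotientOfFiniteIndex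

section single

variable {F : SubFld ℚ} {n : ℕ} {S S' : Finset ℕ} {w : ℕ} {h : ℕ → ℕ}
  {T : IntegralSystem F n}

theorem pure_of_pol (hT : T.PolarizedSystem S S' w h) : T.PureSystem S w where
  toGoodSystem := hT.toGoodSystem
  semistable := hT.semistable
  weights := by
    intro ℓ _
    obtain ⟨J, _, hJ⟩ := hT.rational ℓ
    exact ⟨w * n, weightsAt_of_form hJ⟩
  residualWeights := by
    refine ⟨S'.sup id, fun ℓ _ hlt => ?_⟩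
    have h1 : ℓ ∉ S' := fun h => absurd (Finset.le_sup (f := id) h) (not_le.2 hlt)
    obtain ⟨J, _, _, hJ⟩ := hT.residual ℓ h1
    exact weightsAt_of_form hJ

theorem equi_rat {ℓ : ℕ} [Fact ℓ.Prime] {J : Matrix (Fin n) (Fin n) ℤ_[ℓ]}
    (hJ : T.IsPolarization w ℓ J) : Equi (T.rat ℓ) (J.map (algebraMap ℤ_[ℓ] ℚ_[ℓ])) := by
  refine ⟨fun g => algebraMap ℤ_[ℓ] ℚ_[ℓ] ((chi ℓ g : ℤ_[ℓ]) ^ w), fun g => ?_⟩
  have h1 := congrArg qm (hJ.equivariant g)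
  rw [qm_smul, map_mul, map_mul] at h1
  exact h1

theorem equi_res {ℓ : ℕ} [Fact ℓ.Prime] {J : Matrix (Fin n) (Fin n) ℤ_[ℓ]}
    (hJ : T.IsPolarization w ℓ J) : Equi (T.res ℓ) (J.map (PadicInt.toZMod (p := ℓ))) :=
  equi_rd (fun g => (chi ℓ g : ℤ_[ℓ]) ^ w) hJ.equivariant

variable [hF : FiniteDimensional ℚ F]

theorem noiso_rat (hT : T.PolarizedSystem S S' w h) {ℓ : ℕ} [hℓ : Fact ℓ.Prime]
    (hno : NoIsotropic F w h ℓ) : ∃ J : Matrix (Fin n) (Fin n) ℚ_[ℓ],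
      Equi (T.rat ℓ) J ∧ NoIso (T.rat ℓ) J := by
  obtain ⟨J, hJ, hw⟩ := hT.rational ℓ
  obtain ⟨q, hq, hqS', P, hPm, hqP, σ, hσ, hσc⟩ := exists_core (F := F) (S ∪ {ℓ})
  have hqS : q ∉ S := fun h => hqS' (Finset.mem_union_left _ h)
  have hqℓ : ℓ ≠ q := fun h => hqS' (Finset.mem_union_right _ (Finset.mem_singleton.2 h.symm))
  obtain ⟨M, hM0, hM⟩ := exists_M hT.toGoodSystem hq hqS hPm hqP hσ hσc (w * n)
  exact ⟨_, equi_rat hJ, noiso_of (algebraMap ℤ_[ℓ] ℚ_[ℓ]) continuous_coe mink_padic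
    (pure_of_pol hT) (equi_rat hJ) hw hno hq hqS hqℓ hPm hqP hσ hσc (M := M)
    (by exact_mod_cast hM0) hM⟩

theorem semis_rat (hT : T.PolarizedSystem S S' w h) {ℓ : ℕ} [hℓ : Fact ℓ.Prime]
    (hno : NoIsotropic F w h ℓ) : Semis (T.rat ℓ) := by
  obtain ⟨J, h1, h2⟩ := noiso_rat hT hno
  exact fun U hU => ⟨orth J U, orth_stable h1 hU, isCompl_orth h1 h2 hU⟩

theorem noiso_res (hT : T.PolarizedSystem S S' w h) {ℓ : ℕ} [hℓ : Fact ℓ.Prime]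
    (hno : NoIsotropic F w h ℓ) (hℓS : ℓ ∉ S')
    {p : ℕ} (hp : p.Prime) (hpS : p ∉ S) (hpℓ : ℓ ≠ p) {P : Ideal ZBar} (hP : P.IsMaximal)
    (hpP : (p : ZBar) ∈ P) {σ : GQ} (hσ : IsGeomFrob p P σ)
    (hσc : σ ∈ (F.fixingSubgroup).normalCore) {M : ℤ} (hMk : (M : ZMod ℓ) ≠ 0)
    (hM : ∀ (Ω : Type) [Field Ω] [IsAlgClosed Ω], (M : Ω) ≠ 0 →
      ∀ (A : (GQ ⧸ F.fixingSubgroup) → Multiset Ω) (a : ℕ),
        a ≤ expo F.fixingSubgroup * (finrank ℚ F * (w * n)) →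
        (∀ q, A q ≤ ((T.poly ((cj q.out P).under (𝓞 F))).map (Int.castRingHom Ω)).roots) →
        ∏ q, (A q).prod ^ expo F.fixingSubgroup = (p : Ω) ^ a →
          a * 2 = ∑ q, expo F.fixingSubgroup * (w * Multiset.card (A q))) :
    ∃ J : Matrix (Fin n) (Fin n) ℤ_[ℓ], T.IsPolarization w ℓ J ∧ IsUnit J.det ∧
      NoIso (toF (T.rho ℓ)) (rd J) := by
  obtain ⟨J, hJ, hJu, hw⟩ := hT.residual ℓ hℓS
  exact ⟨J, hJ, hJu, noiso_of (PadicInt.toZMod (p := ℓ)) continuous_toZMod mink_zmod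
    (pure_of_pol hT) (equi_res hJ) hw hno hp hpS hpℓ hP hpP hσ hσc hMk hM⟩

theorem semis_res (hT : T.PolarizedSystem S S' w h) : ∃ N : ℕ, ∀ (ℓ : ℕ) [Fact ℓ.Prime], N < ℓ →
    NoIsotropic F w h ℓ → Semis (T.res ℓ) := by
  obtain ⟨p, hp, hpS, P, hP, hpP, σ, hσ, hσc⟩ := exists_core (F := F) S
  obtain ⟨M, hM0, hM⟩ := exists_M hT.toGoodSystem hp hpS hP hpP hσ hσc (w * n)
  refine ⟨max (S'.sup id) (max p M.natAbs), ?_⟩
  intro ℓ hℓ hN hno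
  simp only [max_lt_iff] at hN
  obtain ⟨h1, h2, h3⟩ := hN
  obtain ⟨J, hJ, -, hn⟩ := noiso_res hT hno
    (fun h4 => absurd (Finset.le_sup (f := id) h4) (not_le.2 h1)) hp hpS
    (by omega) hP hpP hσ hσc (M := M) (ne_zero_mod hM0 h3) hM
  exact fun U hU => ⟨_, orth_stable (equi_res hJ) hU, isCompl_orth (equi_res hJ) hn hU⟩

end single

section loc

variable {F : SubFld ℚ} {n : ℕ}

/-- the set of the intertwiners from `T` to `T0` with nonzero determinant -/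
def Inter (T0 T : IntegralSystem F n) (ℓ : ℕ) [Fact ℓ.Prime]
    (B : Matrix (Fin n) (Fin n) ℤ_[ℓ]) : Prop :=
  B.det ≠ 0 ∧ ∀ g, (T0.rho ℓ g : Matrix (Fin n) (Fin n) ℤ_[ℓ]) * B = B * T.rho ℓ g

theorem exists_inter {T0 T : IntegralSystem F n} {ℓ : ℕ} [hℓ : Fact ℓ.Prime]
    (hT0 : Semis (T0.rat ℓ)) (hT : Semis (T.rat ℓ))
    (htr : ∀ g, (T.rat ℓ g : Matrix (Fin n) (Fin n) ℚ_[ℓ]).trace =
      (T0.rat ℓ g : Matrix (Fin n) (Fin n) ℚ_[ℓ]).trace) :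
    ∃ B : Matrix (Fin n) (Fin n) ℤ_[ℓ], Inter T0 T ℓ B := by
  obtain ⟨A, hA⟩ := bn_ss hT hT0 htr
  obtain ⟨s, B, hB⟩ := exists_scale (A : Matrix (Fin n) (Fin n) ℚ_[ℓ])
  have hℓ0 : (ℓ : ℚ_[ℓ]) ≠ 0 := by exact_mod_cast hℓ.out.ne_zero
  refine ⟨B, ?_, fun g => ?_⟩
  · intro h0
    have h1 := qm_det B
    rw [h0, map_zero, hB, Matrix.det_smul] at h1
    have h3 : IsUnit (A : Matrix (Fin n) (Fin n) ℚ_[ℓ]).det :=
      (Matrix.isUnit_iff_isUnit_det _).1 A.isUnit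
    exact mul_ne_zero (pow_ne_zero _ (pow_ne_zero _ hℓ0)) h3.ne_zero h1
  · apply qm_inj
    rw [map_mul, map_mul, hB, Matrix.mul_smul, Matrix.smul_mul]
    congr 1
    exact hA g

/-- an intertwiner of maximal determinant -/
theorem exists_max {T0 T : IntegralSystem F n} {ℓ : ℕ} [hℓ : Fact ℓ.Prime]
    (hex : ∃ B : Matrix (Fin n) (Fin n) ℤ_[ℓ], Inter T0 T ℓ B) :
    ∃ B : Matrix (Fin n) (Fin n) ℤ_[ℓ], Inter T0 T ℓ B ∧
      ∀ B' : Matrix (Fin n) (Fin n) ℤ_[ℓ],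
        (∀ g, (T0.rho ℓ g : Matrix (Fin n) (Fin n) ℤ_[ℓ]) * B' = B' * T.rho ℓ g) →
          ‖B'.det‖ ≤ ‖B.det‖ := by
  obtain ⟨B, hB, hmin⟩ := (measure fun B : Matrix (Fin n) (Fin n) ℤ_[ℓ] =>
    B.det.valuation).wf.has_min {B | Inter T0 T ℓ B} hex
  refine ⟨B, hB, fun B' hB' => ?_⟩
  by_cases h0 : B'.det = 0
  · rw [h0, norm_zero]
    exact norm_nonneg _
  · have h1 : ¬ B'.det.valuation < B.det.valuation := hmin B' ⟨h0, hB'⟩
    rw [PadicInt.norm_eq_zpow_neg_valuation h0, PadicInt.norm_eq_zpow_neg_valuation hB.1]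
    refine zpow_le_zpow_right₀ (by exact_mod_cast hℓ.out.one_lt.le) ?_
    rw [neg_le_neg_iff]
    exact_mod_cast not_lt.1 h1

theorem local_code2 {Λ : Set ℕ} {T0 : IntegralSystem F n}
    (hT0 : ∀ (ℓ : ℕ) [Fact ℓ.Prime], ℓ ∈ Λ → Semis (T0.rat ℓ)) (ℓ : ℕ) :
    ∃ (k : ℕ) (c : IntegralSystem F n → ℕ), (∀ T, c T < k) ∧
      ∀ [Fact ℓ.Prime] (T T' : IntegralSystem F n), ℓ ∈ Λ →
        (∃ B : Matrix (Fin n) (Fin n) ℤ_[ℓ], Inter T0 T ℓ B) →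
        (∃ B : Matrix (Fin n) (Fin n) ℤ_[ℓ], Inter T0 T' ℓ B) →
        c T = c T' → ∃ A : GL (Fin n) ℤ_[ℓ], ∀ g, T'.rho ℓ g = A * T.rho ℓ g * A⁻¹ := by
  classical
  by_cases hℓ : ℓ.Prime ∧ ℓ ∈ Λ
  · have hF : Fact ℓ.Prime := ⟨hℓ.1⟩
    obtain ⟨m, hm⟩ := jz (T0.rho ℓ) (hT0 ℓ hℓ.2)
    have hne : NeZero (ℓ ^ m) := ⟨pow_ne_zero _ hℓ.1.ne_zero⟩
    obtain ⟨k, ⟨e⟩⟩ := Finite.exists_equiv_fin (Fin n → Fin n → ZMod (ℓ ^ m))
    refine ⟨k, fun T => if h : ∃ B : Matrix (Fin n) (Fin n) ℤ_[ℓ], Inter T0 T ℓ B then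
          (e (fun i j => PadicInt.toZModPow m ((exists_max h).choose i j)) : ℕ) else 0, ?_, ?_⟩
    · intro T
      dsimp only
      split_ifs with h
      · exact Fin.is_lt _
      · exact lt_of_le_of_lt (Nat.zero_le _) (e (fun _ _ => 0)).is_lt
    · intro _ T T' _ h h' hc
      dsimp only at hc
      rw [dif_pos h, dif_pos h'] at hc
      have h1 := e.injective (Fin.ext hc)
      obtain ⟨h2, h3⟩ := (exists_max h).choose_spec
      obtain ⟨h2', h3'⟩ := (exists_max h').choose_spec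
      obtain ⟨D, hD⟩ := hm (T.rho ℓ) _ h2.2 h2.1 h3
      obtain ⟨D', hD'⟩ := hm (T'.rho ℓ) _ h2'.2 h2'.1 h3'
      exact lat_congr2 hD hD' h2.2 h2'.2 (fun i j => congrFun (congrFun h1 i) j)
  · exact ⟨1, fun _ => 0, fun _ => Nat.one_pos, fun {hF} _ _ hΛ => (hℓ ⟨hF.out, hΛ⟩).elim⟩

end loc

section main

variable {F : SubFld ℚ} [hF : FiniteDimensional ℚ F] {n : ℕ}

/-- **Finiteness of the polarized systems.** -/
theorem pol_finiteness (hn : 0 < n) (w : ℕ) (h : ℕ → ℕ) (S S' : Finset ℕ) (Λ : Set ℕ)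
    (hΛ : ∀ ℓ : ℕ, ℓ.Prime → ℓ ∈ Λ → NoIsotropic F w h ℓ) :
    ∃ (m : ℕ) (T : Fin m → IntegralSystem F n), (∀ i, (T i).PolarizedSystem S S' w h) ∧
      ∀ T' : IntegralSystem F n, T'.PolarizedSystem S S' w h → ∃ i, IsomorphicOn Λ (T i) T' := by
  classical
  obtain ⟨𝒯, h𝒯, hdet⟩ := traces_of_finite (F := F) hn S
  obtain ⟨p, hp, hpS, P, hP, hpP, σ, hσ, hσc⟩ := exists_core (F := F) S
  let 𝒰 : Finset (Ideal (𝓞 F)) := 𝒯 ∪ (Finset.univ.image fun q : GQ ⧸ F.fixingSubgroup =>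
    (cj q.out P).under (𝓞 F))
  have h𝒰 : ∀ 𝔭 ∈ 𝒰, 𝔭.IsMaximal ∧ ∃ p : ℕ, p.Prime ∧ p ∉ S ∧ (p : 𝓞 F) ∈ 𝔭 := by
    intro 𝔭 h𝔭
    rcases Finset.mem_union.1 h𝔭 with h1 | h1
    · exact h𝒯 𝔭 h1
    · obtain ⟨q, _, rfl⟩ := Finset.mem_image.1 h1
      refine ⟨under_max (cj_max hP), p, hp, hpS, ?_⟩
      rw [mem_under, map_natCast]
      exact cj_nat.2 hpP
  have hmem : ∀ q : GQ ⧸ F.fixingSubgroup, (cj q.out P).under (𝓞 F) ∈ 𝒰 := fun q =>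
    Finset.mem_union_right _ (Finset.mem_image_of_mem _ (Finset.mem_univ q))
  have hpoly : ∀ T T' : IntegralSystem F n, T.GoodSystem S w → T'.GoodSystem S w →
      ((fun x : 𝒰 × Fin (n + 1) => (T.poly x.1).coeff x.2) =
        fun x : 𝒰 × Fin (n + 1) => (T'.poly x.1).coeff x.2) →
      ∀ 𝔭 ∈ 𝒰, T.poly 𝔭 = T'.poly 𝔭 := by
    intro T T' hT hT' heq 𝔭 h𝔭
    obtain ⟨h1, p, hp, hpS, hp𝔭⟩ := h𝒰 𝔭 h𝔭
    ext i
    by_cases hi : i < n + 1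
    · exact congrFun heq (⟨𝔭, h𝔭⟩, ⟨i, hi⟩)
    · rw [Polynomial.coeff_eq_zero_of_natDegree_lt, Polynomial.coeff_eq_zero_of_natDegree_lt]
      · rw [(hT'.good p hp hpS 𝔭 h1 hp𝔭).natDegree]
        omega
      · rw [(hT.good p hp hpS 𝔭 h1 hp𝔭).natDegree]
        omega
  refine exists_reps (fun T : IntegralSystem F n => T.PolarizedSystem S S' w h)
    (fun T T' => IsomorphicOn Λ T T')
    (fun T => fun x : 𝒰 × Fin (n + 1) => (T.poly x.1).coeff x.2) ?_ ?_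
  · refine (Set.Finite.pi' (t := fun x : 𝒰 × Fin (n + 1) => Set.Icc
      (-((Nat.card (𝓞 F ⧸ (x.1 : Ideal (𝓞 F))) ^ w) ^ n * n.choose (n / 2) : ℕ) : ℤ)
      (((Nat.card (𝓞 F ⧸ (x.1 : Ideal (𝓞 F))) ^ w) ^ n * n.choose (n / 2) : ℕ) : ℤ))
      (fun p => Set.finite_Icc _ _)).subset ?_
    rintro _ ⟨T, hT, rfl⟩ x
    obtain ⟨h1, r, hr, hrS, h2⟩ := h𝒰 x.1 x.1.2
    exact abs_le.1 (coeff_bound hT.toGoodSystem hr hrS h1 h2 x.2)
  · intro T0 hT0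
    obtain ⟨M, hM0, hM⟩ := exists_M hT0.toGoodSystem hp hpS hP hpP hσ hσc (w * n)
    let N : ℕ := max (S'.sup id) (max p M.natAbs)
    choose k c hk hc using local_code2 (Λ := Λ) (T0 := T0)
      (fun ℓ hℓ hℓΛ => semis_rat hT0 (hΛ ℓ hℓ.out hℓΛ))
    obtain ⟨K, ⟨e⟩⟩ := Finite.exists_equiv_fin (∀ ℓ : Fin (N + 1), Fin (k ℓ))
    refine ⟨K, fun T => (e fun ℓ => ⟨c ℓ T, hk ℓ T⟩ : ℕ), fun T => Fin.is_lt _, ?_⟩
    intro T T' hT hT' hi hi' hcode ℓ hℓ hℓΛ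
    have hno := hΛ ℓ hℓ.out hℓΛ
    have key : ∀ T : IntegralSystem F n, T.PolarizedSystem S S' w h →
        ((fun x : 𝒰 × Fin (n + 1) => (T.poly x.1).coeff x.2) =
          fun x : 𝒰 × Fin (n + 1) => (T0.poly x.1).coeff x.2) →
        ∃ B : Matrix (Fin n) (Fin n) ℤ_[ℓ], Inter T0 T ℓ B := by
      intro T hT hi
      refine exists_inter (semis_rat hT0 hno) (semis_rat hT hno) ?_
      refine hdet w w T T0 hT.toGoodSystem hT0.toGoodSystem (fun p hp => ?_) ℓ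
      rw [hpoly T T0 hT.toGoodSystem hT0.toGoodSystem hi p (Finset.mem_union_left _ hp)]
    have key2 : N < ℓ → ∀ T : IntegralSystem F n, T.PolarizedSystem S S' w h →
        ((fun x : 𝒰 × Fin (n + 1) => (T.poly x.1).coeff x.2) =
          fun x : 𝒰 × Fin (n + 1) => (T0.poly x.1).coeff x.2) →
        ∃ J : Matrix (Fin n) (Fin n) ℤ_[ℓ], T.IsPolarization w ℓ J ∧ IsUnit J.det ∧
          NoIso (toF (T.rho ℓ)) (rd J) := by
      intro hN T hT hi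
      simp only [N, max_lt_iff] at hN
      obtain ⟨h1, h2, h3⟩ := hN
      refine noiso_res hT hno (fun h4 => absurd (Finset.le_sup (f := id) h4) (not_le.2 h1)) hp hpS
        (by omega) hP hpP hσ hσc (M := M) (ne_zero_mod hM0 h3) ?_
      intro Ω _ _ hMΩ A a ha hA hprod
      refine hM Ω hMΩ A a ha (fun q => ?_) hprod
      rw [← hpoly T T0 hT.toGoodSystem hT0.toGoodSystem hi _ (hmem q)]
      exact hA q
    have h1 := key T hT hi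
    have h2 := key T' hT' hi'
    by_cases hℓN : ℓ ≤ N
    · have h3 := e.injective (Fin.ext hcode)
      have h4 := congrFun h3 ⟨ℓ, Nat.lt_succ_of_le hℓN⟩
      exact hc ℓ T T' hℓΛ h1 h2 (congrArg Fin.val h4)
    · obtain ⟨B, hB, hBρ⟩ := h1
      obtain ⟨B', hB', hBρ'⟩ := h2
      obtain ⟨J0, hJ0, -, hn0⟩ := key2 (not_le.1 hℓN) T0 hT0 rfl
      obtain ⟨J, hJ, hJu, hn⟩ := key2 (not_le.1 hℓN) T hT hi
      obtain ⟨J', hJ', hJu', hn'⟩ := key2 (not_le.1 hℓN) T' hT' hi'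
      obtain ⟨A, hA⟩ := uniq hJu hJ.equivariant hJ0.equivariant hn hn0 hB hBρ
      obtain ⟨A', hA'⟩ := uniq hJu' hJ'.equivariant hJ0.equivariant hn' hn0 hB' hBρ'
      refine ⟨A' * A⁻¹, fun g => ?_⟩
      rw [hA, hA']
      group

end main

end Pool.Agent.R390.SF
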