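import Pool.Agent.R390.SF.PolMain

/-!
# Hodge numbers that do not allow isotropic subspaces
-/

set_option autoImplicit false
set_option linter.unusedSectionVars false

namespace Pool.Agent.R390.SF

open Module NumberField Pool.Agent.Y800

attribute [local instance] Subgroup.fintypeQuotientOfFiniteIndex

/-- The Hodge numbers `h r = h^{r,w-r}` do not allow isotropic parts: if `m r + m (w - r) ≤ h r` and
the mean of the weights `r` with the multiplicities `m r` is `w / 2`, then `m = 0`. -/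
def Rigid (w : ℕ) (h : ℕ → ℕ) : Prop :=
  ∀ m : ℕ → ℕ, (∀ r ≤ w, m r + m (w - r) ≤ h r) →
    2 * ∑ r ∈ Finset.range (w + 1), r * m r = w * ∑ r ∈ Finset.range (w + 1), m r →
      ∑ r ∈ Finset.range (w + 1), m r = 0

theorem two_mul_sum_le {w : ℕ} {h m : ℕ → ℕ} (hm : ∀ r ≤ w, m r + m (w - r) ≤ h r) :
    2 * ∑ r ∈ Finset.range (w + 1), m r ≤ ∑ r ∈ Finset.range (w + 1), h r := by
  have h1 : ∑ r ∈ Finset.range (w + 1), m (w - r) = ∑ r ∈ Finset.range (w + 1), m r := by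
    have := Finset.sum_range_reflect m (w + 1)
    rw [← this]
    rfl
  calc 2 * ∑ r ∈ Finset.range (w + 1), m r
      = ∑ r ∈ Finset.range (w + 1), (m r + m (w - r)) := by
        rw [Finset.sum_add_distrib, h1, two_mul]
    _ ≤ ∑ r ∈ Finset.range (w + 1), h r :=
        Finset.sum_le_sum fun r hr => hm r (Nat.lt_succ_iff.1 (Finset.mem_range.1 hr))

/-- the support of the multiplicities, if they are at most one -/
theorem exists_support {w : ℕ} {h m : ℕ → ℕ} (h1 : ∀ r ≤ w, h r ≤ 1)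
    (hm : ∀ r ≤ w, m r + m (w - r) ≤ h r) : ∃ A : Finset ℕ, (∀ r ∈ A, r ≤ w ∧ m r = 1) ∧
      (∀ f : ℕ → ℕ, ∑ r ∈ Finset.range (w + 1), f r * m r = ∑ r ∈ A, f r) := by
  classical
  refine ⟨(Finset.range (w + 1)).filter fun r => m r = 1, ?_, ?_⟩
  · intro r hr
    rw [Finset.mem_filter, Finset.mem_range] at hr
    exact ⟨by omega, hr.2⟩
  · intro f
    rw [Finset.sum_filter]
    refine Finset.sum_congr rfl fun r hr => ?_
    have h2 := hm r (by rw [Finset.mem_range] at hr; omega)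
    have h3 := h1 r (by rw [Finset.mem_range] at hr; omega)
    split_ifs with h4
    · rw [h4, mul_one]
    · rw [show m r = 0 by omega, mul_zero]

/-- **Regular Hodge numbers in small rank.** -/
theorem rigid_of_card {w : ℕ} {h : ℕ → ℕ} (h1 : ∀ r ≤ w, h r ≤ 1)
    (hc : ∑ r ∈ Finset.range (w + 1), h r ≤ 5 ∨
      (Odd w ∧ ∑ r ∈ Finset.range (w + 1), h r ≤ 7)) : Rigid w h := by
  classical
  intro m hm hmean
  obtain ⟨A, hA, hf⟩ := exists_support h1 hm
  have h2 := two_mul_sum_le hm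
  have h3 : ∑ r ∈ Finset.range (w + 1), m r = A.card := by
    have := hf (fun _ => 1)
    simp only [one_mul, Finset.sum_const, smul_eq_mul, mul_one] at this
    exact this
  have h4 := hf (fun r => r)
  rw [h4, h3] at hmean
  rw [h3] at h2 ⊢
  have h5 : A.card ≤ 2 := by
    rcases hc with hc | ⟨hw, hc⟩
    · omega
    · by_contra hlt
      have h6 : A.card = 3 := by omega
      rw [h6] at hmean
      obtain ⟨v, hv⟩ := hw
      omega
  have h6 : ∀ r ∈ A, w - r ∉ A := by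
    intro r hr hr'
    have h7 := hm r (hA r hr).1
    have h8 := h1 r (hA r hr).1
    rw [(hA r hr).2, (hA _ hr').2] at h7
    omega
  by_contra h0
  rcases (by omega : A.card = 1 ∨ A.card = 2) with h7 | h7
  · obtain ⟨r, rfl⟩ := Finset.card_eq_one.1 h7
    rw [Finset.sum_singleton, Finset.card_singleton] at hmean
    apply h6 r (Finset.mem_singleton_self r)
    rw [Finset.mem_singleton]
    omega
  · obtain ⟨r, s, hrs, rfl⟩ := Finset.card_eq_two.1 h7
    rw [Finset.sum_pair hrs, h7] at hmean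
    apply h6 r (by simp)
    rw [Finset.mem_insert, Finset.mem_singleton]
    right
    omega

variable {F : SubFld ℚ} [hF : FiniteDimensional ℚ F] {w ℓ : ℕ} {h : ℕ → ℕ}

theorem place_of {P₀ : Ideal ZBar} (hP₀ : P₀.IsMaximal) (hℓ : (ℓ : ZBar) ∈ P₀)
    (q : GQ ⧸ F.fixingSubgroup) : ((cj q.out P₀).under (𝓞 F)).IsMaximal ∧
      (ℓ : 𝓞 F) ∈ (cj q.out P₀).under (𝓞 F) := by
  have h6 : (cj q.out P₀).IsMaximal := cj_max hP₀
  refine ⟨Ideal.IsMaximal.under (𝓞 F) _, ?_⟩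
  rw [mem_under, map_natCast]
  exact cj_nat.2 hℓ

/-- one place above `ℓ` -/
theorem noIsotropic_of_rigid (hF1 : finrank ℚ F = 1 ∨
      ∃! 𝔩 : Ideal (𝓞 F), 𝔩.IsMaximal ∧ (ℓ : 𝓞 F) ∈ 𝔩) (hr : Rigid w h) :
    NoIsotropic F w h ℓ := by
  classical
  intro P₀ hP₀ hℓ d m hm hmean
  have h1 : ∃ 𝔩 : Ideal (𝓞 F), (𝔩.IsMaximal ∧ (ℓ : 𝓞 F) ∈ 𝔩) ∧
      ∀ q : GQ ⧸ F.fixingSubgroup, (cj q.out P₀).under (𝓞 F) = 𝔩 := by
    rcases hF1 with h1 | ⟨𝔩, h1, h2⟩
    · rw [← card_quot, Fintype.card_eq_one_iff] at h1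
      obtain ⟨q₀, hq₀⟩ := h1
      exact ⟨(cj q₀.out P₀).under (𝓞 F), place_of hP₀ hℓ q₀, fun q => by rw [hq₀ q]⟩
    · exact ⟨𝔩, h1, fun q => h2 _ (place_of hP₀ hℓ q)⟩
  obtain ⟨𝔩, h1, h2⟩ := h1
  obtain ⟨h3, h4⟩ := hm 𝔩 h1.1 h1.2
  rw [finsum_eq_sum_of_fintype, Finset.sum_congr rfl fun q _ => by rw [h2 q], Finset.sum_const,
    Finset.card_univ, card_quot, smul_eq_mul] at hmean
  have h5 : 0 < finrank ℚ F := Module.finrank_pos
  have h6 : 2 * ∑ r ∈ Finset.range (w + 1), r * m 𝔩 r =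
      w * ∑ r ∈ Finset.range (w + 1), m 𝔩 r := by
    rw [h4]
    apply Nat.eq_of_mul_eq_mul_left h5
    calc finrank ℚ F * (2 * ∑ r ∈ Finset.range (w + 1), r * m 𝔩 r)
        = 2 * (finrank ℚ F * ∑ r ∈ Finset.range (w + 1), r * m 𝔩 r) := by ring
      _ = w * (finrank ℚ F * d) := hmean
      _ = _ := by ring
  rw [← h4]
  exact hr _ h3 h6

/-- the sum of four different values -/
theorem four_le {w : ℕ} {h : ℕ → ℕ} {a b : ℕ} (ha : a ≤ w) (hb : b ≤ w) (ha1 : 1 ≤ h a)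
    (hb1 : 1 ≤ h b) (ha2 : 1 ≤ h (w - a)) (hb2 : 1 ≤ h (w - b)) (hne : b ≠ a) (hne' : b ≠ w - a)
    (haw : 2 * a ≠ w) (hbw : 2 * b ≠ w) : 4 ≤ ∑ r ∈ Finset.range (w + 1), h r := by
  classical
  have h1 : ({a, w - a, b, w - b} : Finset ℕ) ⊆ Finset.range (w + 1) := by
    intro x hx
    simp only [Finset.mem_insert, Finset.mem_singleton] at hx
    rw [Finset.mem_range]
    omega
  have h2 : ({a, w - a, b, w - b} : Finset ℕ).card = 4 := by
    rw [Finset.card_insert_of_notMem, Finset.card_insert_of_notMem, Finset.card_pair]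
    · omega
    · simp only [Finset.mem_insert, Finset.mem_singleton]
      omega
    · simp only [Finset.mem_insert, Finset.mem_singleton]
      omega
  calc 4 = ∑ _r ∈ ({a, w - a, b, w - b} : Finset ℕ), 1 := by
        rw [Finset.sum_const, h2]
        rfl
    _ ≤ ∑ r ∈ ({a, w - a, b, w - b} : Finset ℕ), h r := by
        refine Finset.sum_le_sum fun r hr => ?_
        simp only [Finset.mem_insert, Finset.mem_singleton] at hr
        rcases hr with rfl | rfl | rfl | rfl <;> assumption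
    _ ≤ ∑ r ∈ Finset.range (w + 1), h r := Finset.sum_le_sum_of_subset h1

/-- fields of odd degree -/
theorem noIsotropic_of_odd (hodd : Odd (finrank ℚ F)) (h1 : ∀ r ≤ w, h r ≤ 1)
    (hc : ∑ r ∈ Finset.range (w + 1), h r ≤ 3) : NoIsotropic F w h ℓ := by
  classical
  intro P₀ hP₀ hℓ d m hm hmean
  by_contra hd0
  rw [finsum_eq_sum_of_fintype] at hmean
  have hp := fun q : GQ ⧸ F.fixingSubgroup => place_of hP₀ hℓ q
  let q₀ : GQ ⧸ F.fixingSubgroup := QuotientGroup.mk 1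
  have hd : d = 1 := by
    obtain ⟨h2, h3⟩ := hm _ (hp q₀).1 (hp q₀).2
    have h4 := two_mul_sum_le h2
    rw [h3] at h4
    omega
  -- the weights
  have h2 : ∀ q : GQ ⧸ F.fixingSubgroup, ∃ r : ℕ, r ≤ w ∧ 1 ≤ h r ∧ 1 ≤ h (w - r) ∧ 2 * r ≠ w ∧
      ∑ s ∈ Finset.range (w + 1), s * m ((cj q.out P₀).under (𝓞 F)) s = r := by
    intro q
    obtain ⟨h2, h3⟩ := hm _ (hp q).1 (hp q).2
    obtain ⟨A, hA, hf⟩ := exists_support h1 h2
    have h4 : A.card = 1 := by
      have := hf (fun _ => 1)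
      simp only [one_mul, Finset.sum_const, smul_eq_mul, mul_one] at this
      rw [← this, h3, hd]
    obtain ⟨r, rfl⟩ := Finset.card_eq_one.1 h4
    obtain ⟨h5, h6⟩ := hA r (Finset.mem_singleton_self r)
    have h7 := h2 r h5
    have h8 := h2 (w - r) (Nat.sub_le _ _)
    rw [Nat.sub_sub_self h5] at h8
    refine ⟨r, h5, by omega, by omega, fun h9 => ?_, ?_⟩
    · have h10 : w - r = r := by omega
      rw [h10] at h7
      have := h1 r h5
      omega
    · rw [hf (fun s => s), Finset.sum_singleton]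
  choose r hr1 hr2 hr3 hr4 hr5 using h2
  have h3 : ∀ q, r q = r q₀ ∨ r q = w - r q₀ := by
    intro q
    by_contra hcon
    push Not at hcon
    have := four_le (hr1 q₀) (hr1 q) (hr2 q₀) (hr2 q) (hr3 q₀) (hr3 q) hcon.1 hcon.2
      (hr4 q₀) (hr4 q)
    omega
  have h4 : ∀ q, (r q : ℤ) = r q₀ + ((w : ℤ) - 2 * r q₀) * (if r q = r q₀ then 0 else 1 : ℤ) := by
    intro q
    split_ifs with h5
    · rw [h5, mul_zero, add_zero]
    · rcases h3 q with h6 | h6
      · exact absurd h6 h5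
      · rw [h6, Nat.cast_sub (hr1 q₀)]
        ring
  have h5 : (∑ q : GQ ⧸ F.fixingSubgroup, (r q : ℤ)) = finrank ℚ F * r q₀ +
      ((w : ℤ) - 2 * r q₀) * ∑ q : GQ ⧸ F.fixingSubgroup, (if r q = r q₀ then 0 else 1 : ℤ) := by
    rw [Finset.sum_congr rfl fun q _ => h4 q, Finset.sum_add_distrib, Finset.sum_const,
      Finset.card_univ, card_quot, ← Finset.mul_sum, nsmul_eq_mul]
  rw [Finset.sum_congr rfl fun q _ => hr5 q, hd, mul_one] at hmean
  have h6 : 2 * (∑ q : GQ ⧸ F.fixingSubgroup, (r q : ℤ)) = w * finrank ℚ F := by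
    exact_mod_cast hmean
  rw [h5] at h6
  set B := ∑ q : GQ ⧸ F.fixingSubgroup, (if r q = r q₀ then 0 else 1 : ℤ) with hB
  have h7 : ((w : ℤ) - 2 * r q₀) * (2 * B) = ((w : ℤ) - 2 * r q₀) * finrank ℚ F := by
    linarith
  have h8 : ((w : ℤ) - 2 * r q₀) ≠ 0 := by
    intro h9
    exact hr4 q₀ (by omega)
  have h9 := mul_left_cancel₀ h8 h7
  obtain ⟨t, ht⟩ := hodd
  omega

end Pool.Agent.R390.SF
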