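import Pool.Agent.R390.SF.Uniq
import Pool.Agent.R390.SF.Hodge

/-!
# Polarized systems: no isotropic stable subspaces
-/

set_option autoImplicit false
set_option linter.unusedSectionVars false

namespace Pool.Agent.R390.SF

open Module Polynomial NumberField Pool.Agent.Y800
open Pool.Agent.Y126.SH (chi)

attribute [local instance] Subgroup.fintypeQuotientOfFiniteIndex

variable {F : SubFld ℚ}

theorem weightsAt_of_form {k : Type} [Field k] {n : ℕ} {ρ : F.fixingSubgroup →* GL (Fin n) k}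
    {J : Matrix (Fin n) (Fin n) k} {χ : GQ → k} {ℓ w : ℕ} {h : ℕ → ℕ}
    (hw : HodgeFormAt F ρ J χ ℓ w h) : WeightsAt F ρ χ ℓ (w * n) := by
  obtain ⟨m, hm⟩ := hw
  intro d C σ hC heq 𝔩 h1 h2
  obtain ⟨-, h3, -⟩ := hm 𝔩 h1 h2
  obtain ⟨h4, h5⟩ := h3 d C σ hC heq
  refine ⟨_, ?_, h5⟩
  calc ∑ r ∈ Finset.range (w + 1), r * m (LinearMap.range C.mulVecLin) 𝔩 r
      ≤ ∑ r ∈ Finset.range (w + 1), w * m (LinearMap.range C.mulVecLin) 𝔩 r := by
        refine Finset.sum_le_sum fun r hr => Nat.mul_le_mul_right _ ?_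
        exact Nat.lt_succ_iff.1 (Finset.mem_range.1 hr)
    _ = w * d := by rw [← Finset.mul_sum, h4]
    _ ≤ w * n := Nat.mul_le_mul_left _ (dim_le hC)

section form

variable {k : Type} [Field k] {n : ℕ} {ℓ : ℕ} [hℓ : Fact ℓ.Prime] (ψ : ℤ_[ℓ] →+* k)

/-- the weights of a stable subspace -/
theorem form_sub {ρ : F.fixingSubgroup →* GL (Fin n) k} {w : ℕ}
    {m : Submodule k (Fin n → k) → Ideal (𝓞 F) → ℕ → ℕ} {𝔩 : Ideal (𝓞 F)}
    (hm : ∀ (d : ℕ) (C : Matrix (Fin n) (Fin d) k) (σ : F.fixingSubgroup → Matrix (Fin d) (Fin d) k),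
        Function.Injective C.mulVec → (∀ g, (ρ g : Matrix (Fin n) (Fin n) k) * C = C * σ g) →
          ∑ r ∈ Finset.range (w + 1), m (LinearMap.range C.mulVecLin) 𝔩 r = d ∧
          ∀ P : Ideal ZBar, P.IsMaximal → P.under (𝓞 F) = 𝔩 → ∀ τ : F.fixingSubgroup,
            InInertia P τ → (σ τ).det * (ψ (chi ℓ (τ : GQ) : ℤ_[ℓ])) ^
              (∑ r ∈ Finset.range (w + 1), r * m (LinearMap.range C.mulVecLin) 𝔩 r) = 1)
    {U : Submodule k (Fin n → k)} (hU : IsStable ρ U) :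
    ∑ r ∈ Finset.range (w + 1), m U 𝔩 r = finrank k U ∧
      ∀ P : Ideal ZBar, P.IsMaximal → P.under (𝓞 F) = 𝔩 → ∀ τ : F.fixingSubgroup,
        InInertia P τ → detChar ρ U hU τ *
          chik ψ τ ^ (∑ r ∈ Finset.range (w + 1), r * m U 𝔩 r) = 1 := by
  classical
  let b := Module.finBasis k U
  let C : Matrix (Fin n) (Fin (finrank k U)) k := Matrix.of fun i j => (b j : Fin n → k) i
  have hC : ∀ v, C.mulVec v = ((∑ j, v j • b j : U) : Fin n → k) := by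
    intro v
    funext i
    rw [Matrix.mulVec, dotProduct, Submodule.coe_sum, Finset.sum_apply]
    refine Finset.sum_congr rfl fun j _ => ?_
    show (b j : Fin n → k) i * v j = v j * (b j : Fin n → k) i
    rw [mul_comm]
  have hinj : Function.Injective C.mulVec := by
    intro v v' hv
    rw [hC, hC] at hv
    have h3 := Subtype.ext hv
    have h4 := congrArg b.repr h3
    funext j
    have h5 := DFunLike.congr_fun h4 j
    rw [Basis.repr_sum_self, Basis.repr_sum_self] at h5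
    exact h5
  have heq : ∀ g, (ρ g : Matrix (Fin n) (Fin n) k) * C = C * LinearMap.toMatrix b b
      ((lin ρ g).restrict (hU g)) := by
    intro g
    ext i j
    have h3 : (C * LinearMap.toMatrix b b ((lin ρ g).restrict (hU g))) i j =
        C.mulVec (fun l => LinearMap.toMatrix b b ((lin ρ g).restrict (hU g)) l j) i := rfl
    rw [h3, hC]
    have h4 : (∑ l, LinearMap.toMatrix b b ((lin ρ g).restrict (hU g)) l j • b l) =
        ((lin ρ g).restrict (hU g)) (b j) := by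
      simp only [LinearMap.toMatrix_apply]
      exact b.sum_repr _
    rw [h4]
    rfl
  have hrange : LinearMap.range C.mulVecLin = U := by
    ext x
    constructor
    · rintro ⟨v, rfl⟩
      rw [Matrix.mulVecLin_apply, hC]
      exact (∑ j, v j • b j : U).2
    · intro hx
      refine ⟨fun j => b.repr ⟨x, hx⟩ j, ?_⟩
      rw [Matrix.mulVecLin_apply, hC]
      exact congrArg Subtype.val (b.sum_repr ⟨x, hx⟩)
  have h2 := hm (finrank k U) C _ hinj heq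
  rw [hrange] at h2
  refine ⟨h2.1, fun P hP hP𝔩 τ hτ => ?_⟩
  have h4 := h2.2 P hP hP𝔩 τ hτ
  rw [LinearMap.det_toMatrix] at h4
  apply Units.ext
  exact h4

end form

section core

variable [hF : FiniteDimensional ℚ F] {n : ℕ} {S : Finset ℕ} {w : ℕ}
  {T : IntegralSystem F n} {ℓ : ℕ} [hℓ : Fact ℓ.Prime]
  {k : Type} [Field k] [TopologicalSpace k] [IsTopologicalRing k] (ψ : ℤ_[ℓ] →+* k)

/-- **There are no isotropic stable subspaces.** -/
theorem noiso_of (hψ : Continuous ψ) (hk : HasMink k) (hT : T.PureSystem S w) {h : ℕ → ℕ}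
    {J : Matrix (Fin n) (Fin n) k} (hJ : Equi (rep ψ T) J)
    (hw : HodgeFormAt F (rep ψ T) J (fun g => ψ (chi ℓ g : ℤ_[ℓ])) ℓ w h)
    (hno : NoIsotropic F w h ℓ)
    {p : ℕ} (hp : p.Prime) (hpS : p ∉ S) (hpℓ : ℓ ≠ p) {P : Ideal ZBar} (hP : P.IsMaximal)
    (hpP : (p : ZBar) ∈ P) {σ : GQ} (hσ : IsGeomFrob p P σ)
    (hσc : σ ∈ (F.fixingSubgroup).normalCore) {M : ℤ} (hMk : (M : k) ≠ 0)
    (hM : ∀ (Ω : Type) [Field Ω] [IsAlgClosed Ω], (M : Ω) ≠ 0 →
      ∀ (A : (GQ ⧸ F.fixingSubgroup) → Multiset Ω) (a : ℕ),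
        a ≤ expo F.fixingSubgroup * (finrank ℚ F * (w * n)) →
        (∀ q, A q ≤ ((T.poly ((cj q.out P).under (𝓞 F))).map (Int.castRingHom Ω)).roots) →
        ∏ q, (A q).prod ^ expo F.fixingSubgroup = (p : Ω) ^ a →
          a * 2 = ∑ q, expo F.fixingSubgroup * (w * Multiset.card (A q))) :
    NoIso (rep ψ T) J := by
  classical
  intro U hU hiso
  obtain ⟨m, hm⟩ := hw
  obtain ⟨P₀, _, hP₀, hℓP₀, _⟩ := exists_geom hℓ.out
  let a : Ideal (𝓞 F) → ℕ := fun 𝔩 => if 𝔩.IsMaximal ∧ (ℓ : 𝓞 F) ∈ 𝔩 then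
    ∑ r ∈ Finset.range (w + 1), r * m U 𝔩 r else 0
  have hdle : finrank k U ≤ n := by
    have := Submodule.finrank_le U
    rwa [finrank_fin_fun] at this
  have hsub := fun (𝔩 : Ideal (𝓞 F)) (h1 : 𝔩.IsMaximal) (h2 : (ℓ : 𝓞 F) ∈ 𝔩) =>
    form_sub ψ (hm 𝔩 h1 h2).2.1 hU
  have hac : ∀ 𝔩, a 𝔩 ≤ w * n := by
    intro 𝔩
    show (if 𝔩.IsMaximal ∧ (ℓ : 𝓞 F) ∈ 𝔩 then
      ∑ r ∈ Finset.range (w + 1), r * m U 𝔩 r else 0) ≤ w * n
    split_ifs with h1
    · calc ∑ r ∈ Finset.range (w + 1), r * m U 𝔩 r ≤ ∑ r ∈ Finset.range (w + 1), w * m U 𝔩 r := by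
            refine Finset.sum_le_sum fun r hr => Nat.mul_le_mul_right _ ?_
            exact Nat.lt_succ_iff.1 (Finset.mem_range.1 hr)
        _ = w * finrank k U := by rw [← Finset.mul_sum, (hsub 𝔩 h1.1 h1.2).1]
        _ ≤ w * n := Nat.mul_le_mul_left _ hdle
    · exact Nat.zero_le _
  have hplace : ∀ P : Ideal ZBar, P.IsMaximal → (ℓ : ZBar) ∈ P →
      (P.under (𝓞 F)).IsMaximal ∧ (ℓ : 𝓞 F) ∈ P.under (𝓞 F) := by
    intro P hP hℓP
    refine ⟨under_max hP, ?_⟩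
    rw [mem_under, map_natCast]
    exact hℓP
  have ha : ∀ P : Ideal ZBar, P.IsMaximal → (ℓ : ZBar) ∈ P → ∀ τ : F.fixingSubgroup,
      InInertia P τ → detChar (rep ψ T) U hU τ * chik ψ τ ^ a (P.under (𝓞 F)) = 1 := by
    intro P hP hℓP τ hτ
    obtain ⟨h1, h2⟩ := hplace P hP hℓP
    have h3 : a (P.under (𝓞 F)) = ∑ r ∈ Finset.range (w + 1), r * m U (P.under (𝓞 F)) r :=
      if_pos ⟨h1, h2⟩
    rw [h3]
    exact (hsub _ h1 h2).2 P hP rfl τ hτ
  have h1 := (weight_sub' ψ hψ hk hT hp hpS hpℓ hP hpP hσ hσc hMk hM U hU a hac ha hP₀ hℓP₀).1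
  have h2 := hno P₀ hP₀ hℓP₀ (finrank k U) (fun 𝔩 r => m U 𝔩 r) (by
    intro 𝔩 h3 h4
    refine ⟨fun r hr => ?_, (hsub 𝔩 h3 h4).1⟩
    obtain ⟨h5, -, h6⟩ := hm 𝔩 h3 h4
    have h7 := h5 U (orth J U) hU (orth_stable hJ hU) (fun x hx u hu => hiso u hu x hx) r
    have h8 := h6 U hU r hr
    omega) (by
    rw [finsum_eq_sum_of_fintype, mul_comm 2, ← h1]
    congr 1
    unfold tot
    refine Finset.sum_congr rfl fun q _ => ?_
    exact (if_pos (hplace _ (cj_max hP₀) (cj_nat.2 hℓP₀))).symm)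
  exact Submodule.finrank_eq_zero.1 h2

end core

end Pool.Agent.R390.SF
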