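import Pool.Agent.Y126.MD.Irr

/-!
# The primary decomposition of a stable subspace
-/

set_option autoImplicit false
set_option linter.unusedSectionVars false

namespace Pool.Agent.R390.SF

open Module Polynomial TensorProduct
open Pool.Agent.Y126.SH (charpoly_eq_mul')

section root

variable {k : Type*} [Field k] {V : Type*} [AddCommGroup V] [Module k V] [FiniteDimensional k V]
  {Ω : Type*} [Field Ω] [Algebra k Ω]

/-- an eigenvector after extension of the scalars -/
theorem exists_eigen {Φ : V →ₗ[k] V} (r : k[X]) {x : Ω} (hx : x ∈ Φ.charpoly.aroots Ω) :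
    ∃ v : Ω ⊗[k] V, v ≠ 0 ∧ ((aeval Φ r).baseChange Ω) v = (aeval x r) • v := by
  have h1 : (LinearMap.baseChange Ω Φ).charpoly.IsRoot x := by
    rw [LinearMap.charpoly_baseChange]
    rw [mem_aroots] at hx
    rw [IsRoot.def, eval_map_algebraMap]
    exact hx.2
  have h2 := (Module.End.hasEigenvalue_iff_isRoot_charpoly (LinearMap.baseChange Ω Φ) x).2 h1
  obtain ⟨v, hv⟩ := h2.exists_hasEigenvector
  refine ⟨v, hv.2, ?_⟩
  have h3 := Module.End.aeval_apply_of_hasEigenvector (p := r.map (algebraMap k Ω)) hv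
  rw [eval_map_algebraMap] at h3
  rw [← h3]
  congr 1
  have h4 := Polynomial.map_aeval_eq_aeval_map (φ := algebraMap k Ω)
    (ψ := (Module.End.baseChangeHom k Ω V).toRingHom) (p := r) (a := Φ) (by
      ext a : 1
      have h5 := AlgHom.commutes (Module.End.baseChangeHom k Ω V) a
      have h6 : (algebraMap k (Module.End Ω (Ω ⊗[k] V))) a =
          algebraMap Ω (Module.End Ω (Ω ⊗[k] V)) (algebraMap k Ω a) :=
        IsScalarTower.algebraMap_apply _ _ _ _
      exact (h5.trans h6).symm)
  exact h4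

theorem root_of_aeval {Φ : V →ₗ[k] V} {r : k[X]} (h : aeval Φ r = 0) {x : Ω}
    (hx : x ∈ Φ.charpoly.aroots Ω) : aeval x r = 0 := by
  obtain ⟨v, hv, h1⟩ := exists_eigen r hx
  rw [h, LinearMap.baseChange_zero, LinearMap.zero_apply] at h1
  exact (smul_eq_zero.1 h1.symm).resolve_right hv

theorem not_root_of_inj {Φ : V →ₗ[k] V} {r : k[X]} (h : Function.Injective (aeval Φ r)) {x : Ω}
    (hx : x ∈ Φ.charpoly.aroots Ω) : aeval x r ≠ 0 := by
  intro h0
  obtain ⟨v, hv, h1⟩ := exists_eigen r hx
  obtain ⟨s, hs⟩ := LinearMap.exists_leftInverse_of_injective (aeval Φ r) (LinearMap.ker_eq_bot.2 h)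
  rw [h0, zero_smul] at h1
  apply hv
  have h2 : (s.baseChange Ω) (((aeval Φ r).baseChange Ω) v) = v := by
    rw [← LinearMap.comp_apply, ← LinearMap.baseChange_comp, hs, LinearMap.baseChange_id,
      LinearMap.id_apply]
  rw [← h2, h1, map_zero]

end root

section prim

variable {k : Type*} [Field k] {V : Type*} [AddCommGroup V] [Module k V] [FiniteDimensional k V]
  {Ω : Type*} [Field Ω] [Algebra k Ω] [IsAlgClosed Ω] {ι : Type*} [DecidableEq ι]

theorem aeval_restrict {Φ : V →ₗ[k] V} {U : Submodule k V} (hU : ∀ x ∈ U, Φ x ∈ U) (r : k[X])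
    (x : U) : ((aeval (Φ.restrict hU) r x : U) : V) = aeval Φ r x := by
  induction r using Polynomial.induction_on' with
  | add p q hp hq => rw [map_add, map_add, LinearMap.add_apply, LinearMap.add_apply, ← hp, ← hq]; rfl
  | monomial n a =>
    rw [aeval_monomial, aeval_monomial, Module.End.mul_apply, Module.End.mul_apply,
      Module.algebraMap_end_apply, Module.algebraMap_end_apply, Module.End.pow_restrict]
    rfl

variable {s : Finset ι} {r : ι → k[X]}

/-- the square of `r j` has the same kernel -/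
theorem ker_sq {Φ : V →ₗ[k] V} (hcop : (s : Set ι).Pairwise fun i j => IsCoprime (r i) (r j))
    (hz : aeval Φ (∏ j ∈ s, r j) = 0) {j : ι} (hj : j ∈ s) {x : V}
    (hx : aeval Φ (r j) (aeval Φ (r j) x) = 0) : aeval Φ (r j) x = 0 := by
  have h1 : IsCoprime (r j) (∏ i ∈ s.erase j, r i) := by
    refine IsCoprime.prod_right fun i hi => ?_
    rw [Finset.mem_erase] at hi
    exact hcop hj hi.2 hi.1.symm
  obtain ⟨a, b, hab⟩ := h1
  have h2 : aeval Φ (∏ i ∈ s.erase j, r i) (aeval Φ (r j) x) = 0 := by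
    rw [← Module.End.mul_apply, ← map_mul, Finset.prod_erase_mul _ _ hj, hz, LinearMap.zero_apply]
  have h3 : aeval Φ (a * r j + b * ∏ i ∈ s.erase j, r i) (aeval Φ (r j) x) = aeval Φ (r j) x := by
    rw [hab, map_one, Module.End.one_apply]
  rw [← h3, map_add, LinearMap.add_apply, map_mul, map_mul, Module.End.mul_apply,
    Module.End.mul_apply, hx, h2, map_zero, map_zero, add_zero]

open Classical in
/-- **The multiplicities of the eigenvalues that are roots of `r j`.** -/
theorem card_filter {Φ : V →ₗ[k] V} (hcop : (s : Set ι).Pairwise fun i j => IsCoprime (r i) (r j))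
    (hz : aeval Φ (∏ j ∈ s, r j) = 0) {j : ι} (hj : j ∈ s) :
    Multiset.card ((Φ.charpoly.aroots Ω).filter fun x => aeval x (r j) = 0) =
      finrank k (LinearMap.ker (aeval Φ (r j))) := by
  have hW : LinearMap.ker (aeval Φ (r j)) ≤ (LinearMap.ker (aeval Φ (r j))).comap Φ := by
    intro x hx
    rw [LinearMap.mem_ker] at hx
    rw [Submodule.mem_comap, LinearMap.mem_ker]
    have h1 : aeval Φ (r j) * Φ = Φ * aeval Φ (r j) := by
      have h2 : aeval Φ (r j * X) = aeval Φ (X * r j) := by rw [mul_comm]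
      rwa [map_mul, map_mul, aeval_X] at h2
    have h2 := LinearMap.congr_fun h1 x
    rw [Module.End.mul_apply, Module.End.mul_apply, hx, map_zero] at h2
    exact h2
  have hne : ((Φ.restrict hW).charpoly * ((LinearMap.ker (aeval Φ (r j))).mapQ _ Φ hW).charpoly).map
      (algebraMap k Ω) ≠ 0 :=
    (((LinearMap.charpoly_monic _).mul (LinearMap.charpoly_monic _)).map _).ne_zero
  rw [charpoly_eq_mul' hW, aroots_def, Polynomial.map_mul, roots_mul (by
    rw [Polynomial.map_mul] at hne
    exact hne), Multiset.filter_add, Multiset.card_add]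
  have h1 : (((Φ.restrict hW).charpoly.map (algebraMap k Ω)).roots).filter
      (fun x => aeval x (r j) = 0) = ((Φ.restrict hW).charpoly.map (algebraMap k Ω)).roots := by
    rw [Multiset.filter_eq_self]
    intro x hx
    refine root_of_aeval (Φ := Φ.restrict hW) ?_ hx
    apply LinearMap.ext
    intro y
    apply Subtype.ext
    rw [aeval_restrict]
    exact y.2
  have h2 : ((((LinearMap.ker (aeval Φ (r j))).mapQ _ Φ hW).charpoly.map (algebraMap k Ω)).roots).filter
      (fun x => aeval x (r j) = 0) = 0 := by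
    rw [Multiset.filter_eq_nil]
    intro x hx
    refine not_root_of_inj (Φ := (LinearMap.ker (aeval Φ (r j))).mapQ _ Φ hW) ?_ hx
    rw [← LinearMap.ker_eq_bot, LinearMap.ker_eq_bot']
    intro y hy
    obtain ⟨x, rfl⟩ := Submodule.Quotient.mk_surjective _ y
    have h3 : ∀ q : k[X], aeval ((LinearMap.ker (aeval Φ (r j))).mapQ _ Φ hW) q
        (Submodule.Quotient.mk x) = Submodule.Quotient.mk (aeval Φ q x) := by
      intro q
      induction q using Polynomial.induction_on' with
      | add p q hp hq =>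
        rw [map_add, map_add, LinearMap.add_apply, LinearMap.add_apply, hp, hq]; rfl
      | monomial n a =>
        rw [aeval_monomial, aeval_monomial, Module.End.mul_apply, Module.End.mul_apply,
          Module.algebraMap_end_apply, Module.algebraMap_end_apply, ← Submodule.mapQ_pow]
        rfl
    rw [h3, Submodule.Quotient.mk_eq_zero, LinearMap.mem_ker] at hy
    rw [Submodule.Quotient.mk_eq_zero, LinearMap.mem_ker]
    exact ker_sq hcop hz hj hy
  have h4 := (Pool.Agent.Y126.MD.roots_sub (Ω := Ω) hW).2.2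
  rw [aroots_def] at h4
  rw [h1, h2, Multiset.card_zero, add_zero, h4]

theorem exists_unique_root (hcop : (s : Set ι).Pairwise fun i j => IsCoprime (r i) (r j))
    {x : Ω} (hx : aeval x (∏ j ∈ s, r j) = 0) :
    ∃ j ∈ s, ∀ i ∈ s, (aeval x (r i) = 0 ↔ i = j) := by
  rw [map_prod, Finset.prod_eq_zero_iff] at hx
  obtain ⟨j, hj, hx⟩ := hx
  refine ⟨j, hj, fun i hi => ⟨fun h => ?_, fun h => h ▸ hx⟩⟩
  by_contra hne
  obtain ⟨a, b, hab⟩ := hcop hi hj hne
  have h1 := congrArg (aeval x) hab
  rw [map_add, map_mul, map_mul, h, hx, mul_zero, mul_zero, add_zero, map_one] at h1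
  exact zero_ne_one h1

open Classical in
/-- the eigenvalues are distributed among the factors -/
theorem sum_filter (hcop : (s : Set ι).Pairwise fun i j => IsCoprime (r i) (r j))
    {A : Multiset Ω} (hA : ∀ x ∈ A, aeval x (∏ j ∈ s, r j) = 0) :
    ∑ j ∈ s, A.filter (fun x => aeval x (r j) = 0) = A := by
  ext x
  rw [Multiset.count_sum']
  simp only [Multiset.count_filter]
  by_cases hx : x ∈ A
  · obtain ⟨j, hj, h⟩ := exists_unique_root hcop (hA x hx)
    rw [Finset.sum_eq_single_of_mem j hj, if_pos ((h j hj).2 rfl)]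
    intro i hi hne
    rw [if_neg fun h1 => hne ((h i hi).1 h1)]
  · have h0 := Multiset.count_eq_zero_of_notMem hx
    rw [h0]
    exact Finset.sum_eq_zero fun i _ => by rw [ite_self]

open Classical in
/-- the roots of the factor `r j` among the roots of the product -/
theorem filter_roots (hcop : (s : Set ι).Pairwise fun i j => IsCoprime (r i) (r j))
    (hr : ∀ j ∈ s, (r j).Monic) {j : ι} (hj : j ∈ s) :
    ((∏ i ∈ s, r i).aroots Ω).filter (fun x => aeval x (r j) = 0) = (r j).aroots Ω := by
  have hmem : ∀ i ∈ s, ∀ x ∈ (r i).aroots Ω, aeval x (∏ j ∈ s, r j) = 0 := by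
    intro i hi x hx
    rw [map_prod, Finset.prod_eq_zero_iff]
    exact ⟨i, hi, (mem_aroots.1 hx).2⟩
  have h1 : (∏ i ∈ s, r i).aroots Ω = ∑ i ∈ s, (r i).aroots Ω := by
    rw [aroots_def, Polynomial.map_prod, roots_prod]
    · rfl
    · rw [Finset.prod_ne_zero_iff]
      exact fun i hi => ((hr i hi).map _).ne_zero
  rw [h1]
  ext x
  rw [Multiset.count_filter, Multiset.count_sum']
  split_ifs with hx
  · rw [Finset.sum_eq_single_of_mem j hj]
    intro i hi hne
    rw [Multiset.count_eq_zero]
    intro hxi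
    obtain ⟨l, hl, h⟩ := exists_unique_root hcop (hmem i hi x hxi)
    exact hne (((h i hi).1 (mem_aroots.1 hxi).2).trans ((h j hj).1 hx).symm)
  · symm
    rw [Multiset.count_eq_zero]
    exact fun h => hx (mem_aroots.1 h).2

variable {Φ : V →ₗ[k] V} {U : Submodule k V}

theorem aeval_prod_restrict (hΦ : Φ.charpoly = ∏ j ∈ s, r j) (hU : ∀ x ∈ U, Φ x ∈ U) :
    aeval (Φ.restrict hU) (∏ j ∈ s, r j) = 0 := by
  apply LinearMap.ext
  intro x
  apply Subtype.ext
  rw [aeval_restrict, ← hΦ, LinearMap.aeval_self_charpoly]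
  rfl

theorem finrank_ker_restrict (hU : ∀ x ∈ U, Φ x ∈ U) (q : k[X]) :
    finrank k (LinearMap.ker (aeval (Φ.restrict hU) q)) =
      finrank k (U ⊓ LinearMap.ker (aeval Φ q) : Submodule k V) := by
  rw [← Submodule.finrank_map_subtype_eq U (LinearMap.ker (aeval (Φ.restrict hU) q))]
  have h0 : Submodule.map U.subtype (LinearMap.ker (aeval (Φ.restrict hU) q)) =
      U ⊓ LinearMap.ker (aeval Φ q) := by
    ext x
    rw [Submodule.mem_map, Submodule.mem_inf]
    constructor
    · rintro ⟨y, hy, rfl⟩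
      rw [LinearMap.mem_ker] at hy
      refine ⟨y.2, ?_⟩
      rw [LinearMap.mem_ker]
      show aeval Φ q (y : V) = 0
      rw [← aeval_restrict hU, hy]
      rfl
    · rintro ⟨hx, h⟩
      refine ⟨⟨x, hx⟩, ?_, rfl⟩
      rw [LinearMap.mem_ker]
      apply Subtype.ext
      rw [aeval_restrict]
      exact h
  rw [h0]

open Classical in
/-- **The eigenvalues on a stable subspace.** -/
theorem stable_dec (hΦ : Φ.charpoly = ∏ j ∈ s, r j) (hU : U ≤ U.comap Φ)
    (hcop : (s : Set ι).Pairwise fun i j => IsCoprime (r i) (r j)) (hr : ∀ j ∈ s, (r j).Monic) :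
    ∃ A : ι → Multiset Ω, (∀ j ∈ s, A j ≤ (r j).aroots Ω) ∧
      (∀ j ∈ s, Multiset.card (A j) =
        finrank k (U ⊓ LinearMap.ker (aeval Φ (r j)) : Submodule k V)) ∧
      ∏ j ∈ s, (A j).prod = algebraMap k Ω (LinearMap.det (Φ.restrict hU)) ∧
      ∑ j ∈ s, finrank k (U ⊓ LinearMap.ker (aeval Φ (r j)) : Submodule k V) = finrank k U := by
  have hz := aeval_prod_restrict hΦ (U := U) hU
  have h0 := Pool.Agent.Y126.MD.roots_sub (Ω := Ω) hU
  have hmem : ∀ x ∈ (Φ.restrict hU).charpoly.aroots Ω, aeval x (∏ j ∈ s, r j) = 0 :=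
    fun x hx => root_of_aeval hz hx
  have hsum := sum_filter hcop hmem
  have hcard : ∀ j ∈ s, Multiset.card (((Φ.restrict hU).charpoly.aroots Ω).filter
      fun x => aeval x (r j) = 0) = finrank k (U ⊓ LinearMap.ker (aeval Φ (r j)) : Submodule k V) := by
    intro j hj
    rw [card_filter hcop hz hj, finrank_ker_restrict]
  refine ⟨fun j => ((Φ.restrict hU).charpoly.aroots Ω).filter fun x => aeval x (r j) = 0,
    fun j hj => ?_, hcard, ?_, ?_⟩
  · rw [← filter_roots hcop hr hj, ← hΦ]
    exact Multiset.filter_le_filter _ h0.1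
  · rw [← h0.2.1]
    conv_rhs => rw [← hsum]
    rw [Multiset.prod_sum]
  · rw [← h0.2.2, ← Finset.sum_congr rfl hcard]
    conv_rhs => rw [← hsum]
    rw [Multiset.card_sum]

/-- the dimension of the whole primary component -/
theorem finrank_ker_top (hΦ : Φ.charpoly = ∏ j ∈ s, r j)
    (hcop : (s : Set ι).Pairwise fun i j => IsCoprime (r i) (r j)) (hr : ∀ j ∈ s, (r j).Monic)
    {j : ι} (hj : j ∈ s) : finrank k (LinearMap.ker (aeval Φ (r j))) = (r j).natDegree := by
  classical
  rw [← card_filter (Ω := AlgebraicClosure k) hcop (by rw [← hΦ, LinearMap.aeval_self_charpoly]) hj,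
    hΦ, filter_roots hcop hr hj, aroots_def, ← natDegree_map (algebraMap k (AlgebraicClosure k))]
  exact ((IsAlgClosed.splits _).natDegree_eq_card_roots).symm

end prim

end Pool.Agent.R390.SF
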