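import Pool.Agent.Y126.SH.Rel

/-!
# Weights of products of roots of several polynomials, modulo almost all primes
-/

set_option autoImplicit false

namespace Pool.Agent.R390.SF

open Polynomial NumberField Pool.Agent.Y800 Pool.Agent.Y126.SH

/-- For almost all characteristics the products of roots which are powers of `p` have the right
weight. -/
theorem wt_gen {J : Type*} [Fintype J] (P : J → ℤ[X]) (hP : ∀ j, (P j).Monic) {p : ℕ} (hp : 1 < p)
    (v : J → ℕ) (hpure : ∀ j, ∀ z : ℂ, z ∈ (P j).aroots ℂ → ‖z‖ ^ 2 = (p : ℝ) ^ v j) (e : J → ℕ)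
    (B : ℕ) :
    ∃ M : ℤ, M ≠ 0 ∧ ∀ (Ω : Type) [Field Ω] [IsAlgClosed Ω], (M : Ω) ≠ 0 →
      ∀ (A : J → Multiset Ω) (a : ℕ), a ≤ B →
        (∀ j, A j ≤ ((P j).map (Int.castRingHom Ω)).roots) →
        ∏ j, (A j).prod ^ e j = (p : Ω) ^ a → a * 2 = ∑ j, e j * (v j * Multiset.card (A j)) := by
  classical
  have hR0 : ∀ j, ∃ R : Multiset ZBar,
    (P j).map (algebraMap ℤ ZBar) = (R.map fun r => X - C r).prod := fun j => exists_roots (hP j)
  choose R hR using hR0
  let E : Finset ZBar := ((Fintype.piFinset fun j => (R j).powerset.toFinset) ×ˢ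
      Finset.range (B + 1)).image
      fun x : (J → Multiset ZBar) × ℕ => (∏ j, (x.1 j).prod ^ e j) - (p : ZBar) ^ x.2
  have hm : ∀ e : ZBar, ∃ m : ℤ, e ≠ 0 → (m ≠ 0 ∧ ∃ r, e * r = m) := by
    intro e
    by_cases he : e = 0
    · exact ⟨0, fun h => absurd he h⟩
    · obtain ⟨m, r, h1, h2⟩ := exists_int_mul he
      exact ⟨m, fun _ => ⟨h1, r, h2⟩⟩
  choose m hm using hm
  refine ⟨∏ e ∈ E.filter (fun e => e ≠ 0), m e, ?_, ?_⟩
  · rw [Finset.prod_ne_zero_iff]
    intro e he
    exact (hm e (Finset.mem_filter.1 he).2).1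
  intro Ω _ _ hM A a ha hA hprod
  obtain ⟨ψ, hψ⟩ := extend_gen (R := ℤ) (S := ZBar) (k := Ω) (Int.castRingHom Ω)
  have hψi : ∀ i : ℤ, ψ (i : ZBar) = (i : Ω) := fun i => map_intCast ψ i
  have hgood : ∀ e ∈ E, ψ e = 0 → e = 0 := by
    intro e he h0
    by_contra hne
    apply hM
    rw [Int.cast_prod]
    apply Finset.prod_eq_zero (Finset.mem_filter.2 ⟨he, hne⟩)
    obtain ⟨_, r, hr⟩ := hm e hne
    rw [← hψi, ← hr, map_mul, h0, zero_mul]
  have hex : ∀ j, ∃ T ≤ R j, T.map ψ = A j := by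
    intro j
    have h1 := hA j
    rw [roots_map (hR j) ψ] at h1
    exact exists_le_map ψ (A j) (R j) h1
  choose T hTR hT using hex
  have hTp : ∏ j, (T j).prod ^ e j = (p : ZBar) ^ a := by
    rw [← sub_eq_zero]
    apply hgood
    · refine Finset.mem_image.2 ⟨(T, a), Finset.mem_product.2 ⟨?_, Finset.mem_range.2 (by omega)⟩, rfl⟩
      rw [Fintype.mem_piFinset]
      intro j
      rw [Multiset.mem_toFinset]
      exact Multiset.mem_powerset.2 (hTR j)
    · rw [map_sub, map_pow, map_natCast, ← hprod, map_prod, sub_eq_zero]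
      refine Finset.prod_congr rfl fun j _ => ?_
      rw [map_pow, map_multiset_prod, hT]
  -- complex numbers
  obtain ⟨i, _⟩ := extend_gen (R := ℤ) (S := ZBar) (k := ℂ) (Int.castRingHom ℂ)
  have hroots : ∀ j, (P j).aroots ℂ = (R j).map i := fun j => roots_map (hR j) i
  have h1 : ∏ j, ((T j).map i).prod ^ e j = (p : ℂ) ^ a := by
    rw [← map_natCast i p, ← map_pow, ← hTp, map_prod]
    refine Finset.prod_congr rfl fun j _ => ?_
    rw [map_pow, map_multiset_prod]
  have h2 : ∀ j, ∀ T₁ : Multiset ZBar, T₁ ≤ R j →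
      ‖(T₁.map i).prod‖ ^ 2 = (p : ℝ) ^ (v j * Multiset.card T₁) := by
    intro j T₁
    induction T₁ using Multiset.induction_on with
    | empty => intro _; simp
    | cons t T₁ ih =>
      intro hle
      rw [Multiset.map_cons, Multiset.prod_cons, norm_mul, mul_pow,
        ih ((Multiset.le_cons_self _ _).trans hle), hpure j (i t) (by
          rw [hroots]
          exact Multiset.mem_map_of_mem i (Multiset.mem_of_le hle (Multiset.mem_cons_self _ _))),
        Multiset.card_cons, mul_add, mul_one, pow_add, mul_comm]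
  have h3 : ‖(p : ℂ) ^ a‖ ^ 2 = (p : ℝ) ^ (∑ j, e j * (v j * Multiset.card (T j))) := by
    rw [← h1, norm_prod, ← Finset.prod_pow, ← Finset.prod_pow_eq_pow_sum]
    refine Finset.prod_congr rfl fun j _ => ?_
    rw [norm_pow, ← pow_mul, mul_comm (e j) 2, pow_mul, h2 j (T j) (hTR j), ← pow_mul,
      mul_comm (e j)]
  rw [norm_pow, Complex.norm_natCast, ← pow_mul] at h3
  have h4 : a * 2 = ∑ j, e j * (v j * Multiset.card (T j)) :=
    pow_right_injective₀ (by exact_mod_cast (by omega : 0 < p)) (by exact_mod_cast (by omega : p ≠ 1)) h3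
  rw [h4]
  refine Finset.sum_congr rfl fun j _ => ?_
  rw [← hT j, Multiset.card_map]

end Pool.Agent.R390.SF
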