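import Pool.Agent.R390.SF.Tra
import Pool.Agent.R390.SF.Rel
import Pool.Agent.R390.SF.Defs
import Pool.Agent.Y126.MD.Irr

/-!
# Stable subspaces, their determinants and the total weight
-/

set_option autoImplicit false
set_option linter.unusedSectionVars false

namespace Pool.Agent.R390.SF

open Module Polynomial NumberField Pool.Agent.Y800
open Pool.Agent.Y126.SH (chi)

attribute [local instance] Subgroup.fintypeQuotientOfFiniteIndex

section stable

variable {G : Type*} [Group G] {k : Type} [Field k] {n : ℕ}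

/-- the representation by endomorphisms -/
noncomputable def lin (ρ : G →* GL (Fin n) k) : G →* ((Fin n → k) →ₗ[k] (Fin n → k)) where
  toFun g := Matrix.toLin' (ρ g : Matrix (Fin n) (Fin n) k)
  map_one' := by rw [map_one, Units.val_one, Matrix.toLin'_one]; rfl
  map_mul' g h := by rw [map_mul, Units.val_mul, Matrix.toLin'_mul]; rfl

theorem lin_apply (ρ : G →* GL (Fin n) k) (g : G) :
    lin ρ g = Matrix.toLin' (ρ g : Matrix (Fin n) (Fin n) k) := rfl

/-- the determinant of a stable subspace as a character -/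
noncomputable def detChar (ρ : G →* GL (Fin n) k) (U : Submodule k (Fin n → k))
    (hU : IsStable ρ U) : G →* kˣ :=
  Pool.Agent.Y142.detRep (lin ρ) U (fun g u hu => hU g u hu)

theorem detChar_val (ρ : G →* GL (Fin n) k) (U : Submodule k (Fin n → k))
    (hU : IsStable ρ U) (g : G) :
    (detChar ρ U hU g : k) = LinearMap.det ((lin ρ g).restrict (hU g)) := rfl

theorem charpoly_lin (ρ : G →* GL (Fin n) k) (g : G) :
    (lin ρ g).charpoly = (ρ g : Matrix (Fin n) (Fin n) k).charpoly := by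
  rw [← LinearMap.charpoly_toMatrix _ (Pi.basisFun k (Fin n))]
  congr 1
  exact LinearMap.toMatrix'_toLin' _

/-- unipotent elements have determinant one -/
theorem detChar_unip {ρ : G →* GL (Fin n) k} {U : Submodule k (Fin n → k)} (hU : IsStable ρ U)
    {g : G} (hg : IsNilpotent ((ρ g : Matrix (Fin n) (Fin n) k) - 1)) : detChar ρ U hU g = 1 := by
  apply Units.ext
  rw [detChar_val, Units.val_one]
  apply Pool.Agent.Y126.SH.det_unip
  obtain ⟨m, hm⟩ := hg
  refine ⟨m, ?_⟩
  have h4 : (lin ρ g).restrict (hU g) - 1 =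
      (Matrix.toLin' ((ρ g : Matrix (Fin n) (Fin n) k) - 1)).restrict
        (p := U) (q := U) (fun x hx => by
          rw [map_sub, Matrix.toLin'_one]
          exact U.sub_mem (hU g x hx) hx) := by
    apply LinearMap.ext
    intro x
    apply Subtype.ext
    show (Matrix.toLin' (ρ g : Matrix (Fin n) (Fin n) k)) x.1 - x.1 =
      (Matrix.toLin' ((ρ g : Matrix (Fin n) (Fin n) k) - 1)) x.1
    rw [map_sub, Matrix.toLin'_one]
    rfl
  rw [h4, Module.End.pow_restrict]
  apply LinearMap.ext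
  intro x
  apply Subtype.ext
  rw [LinearMap.restrict_apply]
  show ((Matrix.toLin' ((ρ g : Matrix (Fin n) (Fin n) k) - 1)) ^ m) x = 0
  rw [← Matrix.toLin'_pow, hm, map_zero, LinearMap.zero_apply]

end stable

section weights

variable {F : SubFld ℚ} {k : Type} [Field k] {n : ℕ} {ℓ : ℕ} [hℓ : Fact ℓ.Prime] (ψ : ℤ_[ℓ] →+* k)

theorem exists_wt {ρ : F.fixingSubgroup →* GL (Fin n) k} {c : ℕ}
    (h : WeightsAt F ρ (fun g => ψ (chi ℓ g : ℤ_[ℓ])) ℓ c) {U : Submodule k (Fin n → k)}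
    (hU : IsStable ρ U) : ∃ a : Ideal (𝓞 F) → ℕ, (∀ 𝔩, a 𝔩 ≤ c) ∧
      ∀ P : Ideal ZBar, P.IsMaximal → (ℓ : ZBar) ∈ P → ∀ τ : F.fixingSubgroup, InInertia P τ →
        detChar ρ U hU τ * chik ψ τ ^ a (P.under (𝓞 F)) = 1 := by
  classical
  let b := Module.finBasis k U
  let C : Matrix (Fin n) (Fin (finrank k U)) k := Matrix.of fun i j => (b j : Fin n → k) i
  have hC : ∀ v, C.mulVec v = ((∑ j, v j • b j : U) : Fin n → k) := by
    intro v
    funext i
    rw [Matrix.mulVec, dotProduct, Submodule.coe_sum, Finset.sum_apply]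
    refine Finset.sum_congr rfl fun j _ => ?_
    show (b j : Fin n → k) i * v j = v j * (b j : Fin n → k) i
    rw [mul_comm]
  have hinj : Function.Injective C.mulVec := by
    intro v v' hv
    rw [hC, hC] at hv
    have h3 := Subtype.ext hv
    have h4 := congrArg b.repr h3
    funext j
    have h5 := DFunLike.congr_fun h4 j
    rw [Basis.repr_sum_self, Basis.repr_sum_self] at h5
    exact h5
  have heq : ∀ g, (ρ g : Matrix (Fin n) (Fin n) k) * C = C * LinearMap.toMatrix b b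
      ((lin ρ g).restrict (hU g)) := by
    intro g
    ext i j
    have h3 : (C * LinearMap.toMatrix b b ((lin ρ g).restrict (hU g))) i j =
        C.mulVec (fun l => LinearMap.toMatrix b b ((lin ρ g).restrict (hU g)) l j) i := rfl
    rw [h3, hC]
    have h4 : (∑ l, LinearMap.toMatrix b b ((lin ρ g).restrict (hU g)) l j • b l) =
        ((lin ρ g).restrict (hU g)) (b j) := by
      simp only [LinearMap.toMatrix_apply]
      exact b.sum_repr _
    rw [h4]
    rfl
  have h2 := h (finrank k U) C _ hinj heq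
  have h3 : ∀ 𝔩 : Ideal (𝓞 F), ∃ a : ℕ, a ≤ c ∧ (𝔩.IsMaximal → (ℓ : 𝓞 F) ∈ 𝔩 →
      ∀ P : Ideal ZBar, P.IsMaximal → P.under (𝓞 F) = 𝔩 → ∀ τ : F.fixingSubgroup, InInertia P τ →
        (LinearMap.toMatrix b b ((lin ρ τ).restrict (hU τ))).det * ψ (chi ℓ (τ : GQ) : ℤ_[ℓ]) ^ a = 1) := by
    intro 𝔩
    by_cases h5 : 𝔩.IsMaximal ∧ (ℓ : 𝓞 F) ∈ 𝔩
    · obtain ⟨a, h6, h7⟩ := h2 𝔩 h5.1 h5.2
      exact ⟨a, h6, fun _ _ => h7⟩
    · exact ⟨0, Nat.zero_le _, fun h6 h7 => absurd ⟨h6, h7⟩ h5⟩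
  choose a ha1 ha2 using h3
  refine ⟨a, ha1, fun P hP hℓP τ hτ => ?_⟩
  have h4 := ha2 (P.under (𝓞 F)) (Ideal.IsMaximal.under (𝓞 F) P) (by
    rw [mem_under, map_natCast]
    exact hℓP) P hP rfl τ hτ
  rw [LinearMap.det_toMatrix] at h4
  apply Units.ext
  exact h4

/-- the representation with coefficients in `k` -/
noncomputable def rep (T : IntegralSystem F n) : F.fixingSubgroup →* GL (Fin n) k :=
  (Matrix.GeneralLinearGroup.map ψ).comp (T.rho ℓ)

theorem rep_val (T : IntegralSystem F n) (g : F.fixingSubgroup) :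
    (rep ψ T g : Matrix (Fin n) (Fin n) k) =
      (T.rho ℓ g : Matrix (Fin n) (Fin n) ℤ_[ℓ]).map ψ := rfl

variable {S : Finset ℕ} {w : ℕ} {T : IntegralSystem F n}

/-- away from `ℓ` the inertia groups act unipotently -/
theorem unip_inertia (hT : T.PureSystem S w) {p : ℕ} (hp : p.Prime) (hpℓ : ℓ ≠ p)
    {P : Ideal ZBar} (hP : P.IsMaximal) (hpP : (p : ZBar) ∈ P) {τ : F.fixingSubgroup}
    (hτ : InInertia P τ) : IsNilpotent ((rep ψ T τ : Matrix (Fin n) (Fin n) k) - 1) := by
  have hm : (P.under (𝓞 F)).IsMaximal := Ideal.IsMaximal.under (𝓞 F) P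
  have hpm : (p : 𝓞 F) ∈ P.under (𝓞 F) := by
    rw [mem_under, map_natCast]
    exact hpP
  have h1 : IsNilpotent ((T.rho ℓ τ : Matrix (Fin n) (Fin n) ℤ_[ℓ]) - 1) := by
    by_cases hpS : p ∈ S
    · exact hT.semistable p hp hpS _ hm hpm ℓ hpℓ P hP rfl τ hτ
    · rw [(hT.good p hp hpS _ hm hpm).unramified ℓ hpℓ P hP rfl τ hτ, Units.val_one, sub_self]
      exact IsNilpotent.zero
  obtain ⟨m, hm⟩ := h1
  refine ⟨m, ?_⟩
  have h3 : ((rep ψ T τ : Matrix (Fin n) (Fin n) k) - 1) =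
      ψ.mapMatrix ((T.rho ℓ τ : Matrix (Fin n) (Fin n) ℤ_[ℓ]) - 1) := by
    rw [map_sub, map_one]; rfl
  rw [h3, ← map_pow, hm, map_zero]

theorem det_inertia (hT : T.PureSystem S w) {U : Submodule k (Fin n → k)}
    (hU : IsStable (rep ψ T) U) {p : ℕ} (hp : p.Prime) (hpℓ : ℓ ≠ p)
    {P : Ideal ZBar} (hP : P.IsMaximal) (hpP : (p : ZBar) ∈ P) {τ : F.fixingSubgroup}
    (hτ : InInertia P τ) : detChar (rep ψ T) U hU τ = 1 :=
  detChar_unip hU (unip_inertia ψ hT hp hpℓ hP hpP hτ)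

/-- the residue degree and the Frobenius elements of degree one -/
theorem resCard_one [FiniteDimensional ℚ F] {p : ℕ} (hp : p.Prime) {P : Ideal ZBar}
    (hP : P.IsMaximal) (hpP : (p : ZBar) ∈ P) {σ : GQ} (hσF : σ ∈ F.fixingSubgroup)
    (hσ : IsGeomFrob p P σ) : resCard F P = p := by
  obtain ⟨f, hf, hf'⟩ := resCard_pow (F := F) hp hP hpP
  have h1 := dvd_of_frob hp hP hpP hf' (m := 1) hσF (by rw [pow_one]; exact hσ)
  rw [Nat.dvd_one] at h1
  rw [hf', h1, pow_one]

/-- the characteristic polynomial of a Frobenius element of degree one -/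
theorem charpoly_frob [FiniteDimensional ℚ F] (hT : T.GoodSystem S w) {p : ℕ} (hp : p.Prime)
    (hpS : p ∉ S) (hpℓ : ℓ ≠ p) {P : Ideal ZBar} (hP : P.IsMaximal) (hpP : (p : ZBar) ∈ P)
    {σ : F.fixingSubgroup} (hσ : IsGeomFrob p P σ) :
    (lin (rep ψ T) σ).charpoly = (T.poly (P.under (𝓞 F))).map (Int.castRingHom k) := by
  have hm : (P.under (𝓞 F)).IsMaximal := Ideal.IsMaximal.under (𝓞 F) P
  have hpm : (p : 𝓞 F) ∈ P.under (𝓞 F) := by
    rw [mem_under, map_natCast]
    exact hpP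
  have h4 := (hT.good p hp hpS _ hm hpm).frobenius ℓ hpℓ P hP rfl σ (by
    have h5 : Nat.card (𝓞 F ⧸ P.under (𝓞 F)) = p := resCard_one hp hP hpP σ.2 hσ
    rw [h5]
    exact hσ)
  rw [charpoly_lin, rep_val, Matrix.charpoly_map, h4, Polynomial.map_map]
  congr 1
  exact RingHom.ext_int _ _

theorem pure_frob [FiniteDimensional ℚ F] (hT : T.GoodSystem S w) {p : ℕ} (hp : p.Prime)
    (hpS : p ∉ S) {P : Ideal ZBar} (hP : P.IsMaximal) (hpP : (p : ZBar) ∈ P)
    {σ : F.fixingSubgroup} (hσ : IsGeomFrob p P σ) :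
    ∀ z : ℂ, z ∈ (T.poly (P.under (𝓞 F))).aroots ℂ → ‖z‖ ^ 2 = (p : ℝ) ^ w := by
  have hm : (P.under (𝓞 F)).IsMaximal := Ideal.IsMaximal.under (𝓞 F) P
  have hpm : (p : 𝓞 F) ∈ P.under (𝓞 F) := by
    rw [mem_under, map_natCast]
    exact hpP
  intro z hz
  have h5 : Nat.card (𝓞 F ⧸ P.under (𝓞 F)) = p := resCard_one hp hP hpP σ.2 hσ
  rw [(hT.good p hp hpS _ hm hpm).pure z hz, h5]

variable [TopologicalSpace k] [IsTopologicalRing k]

theorem continuous_chik (hψ : Continuous ψ) : Continuous fun g => (chik ψ g : k) :=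
  hψ.comp (Units.continuous_val.comp (Pool.Agent.Y126.SH.continuous_chi ℓ))

theorem continuous_detChar (hψ : Continuous ψ) (hT : T.GoodSystem S w)
    {U : Submodule k (Fin n → k)} (hU : IsStable (rep ψ T) U) :
    Continuous fun g => (detChar (rep ψ T) U hU g : k) := by
  apply Pool.Agent.Y142.continuous_detRep
  intro f x
  have c4 : Continuous fun g => (rep ψ T g : Matrix (Fin n) (Fin n) k) :=
    (hT.continuous ℓ).matrix_map hψ
  have c3 : Continuous fun g => (lin (rep ψ T) g) x := by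
    have : Continuous fun g => (rep ψ T g : Matrix (Fin n) (Fin n) k).mulVec x :=
      c4.matrix_mulVec continuous_const
    exact this
  have h1 : ∀ y : Fin n → k, f y = ∑ i, y i * f (Pi.single i 1) := by
    intro y
    conv_lhs => rw [pi_eq_sum_univ' y, map_sum]
    refine Finset.sum_congr rfl fun i _ => ?_
    rw [map_smul, smul_eq_mul]
  have h2 : (fun g => f ((lin (rep ψ T) g) x)) =
      fun g => ∑ i, ((lin (rep ψ T) g) x) i * f (Pi.single i 1) := by
    funext g
    exact h1 _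
  rw [h2]
  exact continuous_finsetSum _ fun i _ => ((continuous_apply i).comp c3).mul continuous_const

end weights

end Pool.Agent.R390.SF
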