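import Pool.Agent.R390.SF.Gal

/-!
# The transfer of characters of the Galois group of a number field to the one of `ℚ`
-/

set_option autoImplicit false
set_option linter.unusedSectionVars false

namespace Pool.Agent.R390.SF

open NumberField Pool.Agent.Y800
open Pool.Agent.Y126.SH (chi)

section group

variable {G : Type*} [Group G] {H : Subgroup G}

theorem core_conj {z : G} (hz : z ∈ H.normalCore) (x : G) : x⁻¹ * z * x ∈ H := by
  have h1 := hz x⁻¹
  rwa [inv_inv] at h1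

attribute [local instance] Subgroup.fintypeQuotientOfFiniteIndex

variable [H.FiniteIndex] {A : Type*} [CommGroup A] (φ : H →* A)

/-- the transfer on the normal core -/
theorem transfer_core {z : G} (hz : z ∈ H.normalCore) :
    MonoidHom.transfer φ z = ∏ q : G ⧸ H, φ ⟨q.out⁻¹ * z * q.out, core_conj hz q.out⟩ := by
  classical
  have hout : ∀ q : G ⧸ H, ((Quotient.out q : G) : G ⧸ H) = q := fun q => QuotientGroup.out_eq' q
  let T : H.LeftTransversal := ⟨Set.range (Quotient.out : G ⧸ H → G), Subgroup.isComplement_range_left hout⟩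
  have hT : ∀ q : G ⧸ H, (T.2.leftQuotientEquiv q : G) = q.out := fun q =>
    Subgroup.IsComplement.leftQuotientEquiv_apply hout q
  have hfix : ∀ q : G ⧸ H, z⁻¹ • q = q := by
    intro q
    induction q using QuotientGroup.induction_on with
    | H x =>
      show ((z⁻¹ * x : G) : G ⧸ H) = (x : G ⧸ H)
      rw [QuotientGroup.eq]
      have h1 := core_conj hz x
      have h2 : (z⁻¹ * x)⁻¹ * x = x⁻¹ * z * x := by group
      rw [h2]
      exact h1
  rw [MonoidHom.transfer_def φ T]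
  unfold Subgroup.leftTransversals.diff
  refine Finset.prod_congr rfl fun q _ => ?_
  congr 1
  apply Subtype.ext
  show (T.2.leftQuotientEquiv q : G)⁻¹ * ((z • T).2.leftQuotientEquiv q : G) = q.out⁻¹ * z * q.out
  rw [Subgroup.smul_apply_eq_smul_apply_inv_smul, hfix, hT, smul_eq_mul, mul_assoc]

/-- the exponent -/
noncomputable def expo (H : Subgroup G) : ℕ := H.normalCore.index

theorem expo_pos : 0 < expo H := Nat.pos_of_ne_zero Subgroup.FiniteIndex.index_ne_zero

theorem pow_core (g : G) : g ^ expo H ∈ H.normalCore := H.normalCore.pow_index_mem g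

/-- the power of the transfer -/
theorem transfer_pow (g : G) : (MonoidHom.transfer φ g) ^ expo H =
    ∏ q : G ⧸ H, φ ⟨q.out⁻¹ * g ^ expo H * q.out, core_conj (pow_core g) q.out⟩ := by
  rw [← map_pow, transfer_core φ (pow_core g)]

end group

attribute [local instance] Subgroup.fintypeQuotientOfFiniteIndex

section field

variable {F : SubFld ℚ} [hF : FiniteDimensional ℚ F]

instance instFiniteIndex : (F.fixingSubgroup).FiniteIndex := by
  refine ⟨?_⟩
  rw [← IntermediateField.finrank_eq_fixingSubgroup_index]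
  exact Module.finrank_pos.ne'

theorem card_quot : Fintype.card (GQ ⧸ F.fixingSubgroup) = Module.finrank ℚ F := by
  rw [IntermediateField.finrank_eq_fixingSubgroup_index, Subgroup.index, Nat.card_eq_fintype_card]

/-- The sum over the places above `ℓ`, with multiplicities. -/
noncomputable def tot (F : SubFld ℚ) [FiniteDimensional ℚ F]
    (a : Ideal (𝓞 F) → ℕ) (P : Ideal ZBar) : ℕ :=
  ∑ q : GQ ⧸ F.fixingSubgroup, a ((cj q.out P).under (𝓞 F))

/-- the function on the cosets -/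
theorem under_out {x : GQ} {P : Ideal ZBar} :
    (cj (Quotient.out ((x : GQ) : GQ ⧸ F.fixingSubgroup)) P).under (𝓞 F) =
      (cj x P).under (𝓞 F) := by
  obtain ⟨h, hh⟩ := QuotientGroup.mk_out_eq_mul F.fixingSubgroup x
  rw [hh, ← cj_cj, under_cj h.2]

theorem tot_cj (a : Ideal (𝓞 F) → ℕ) (P : Ideal ZBar) (y : GQ) : tot F a (cj y P) = tot F a P := by
  classical
  unfold tot
  refine Fintype.sum_equiv (MulAction.toPerm y) _ _ fun q => ?_
  rw [cj_cj]
  congr 1
  rw [MulAction.toPerm_apply]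
  have h1 : y • q = ((y * q.out : GQ) : GQ ⧸ F.fixingSubgroup) := by
    conv_lhs => rw [← QuotientGroup.out_eq' q]
    rfl
  rw [h1, under_out]

theorem tot_eq {p : ℕ} (hp : p.Prime) {P Q : Ideal ZBar} (hP : P.IsMaximal)
    (hpP : (p : ZBar) ∈ P) (hQ : Q.IsMaximal) (hpQ : (p : ZBar) ∈ Q) (a : Ideal (𝓞 F) → ℕ) :
    tot F a Q = tot F a P := by
  obtain ⟨x, rfl⟩ := exists_cj hp hP hpP hQ hpQ
  exact tot_cj a P x

theorem tot_le {a : Ideal (𝓞 F) → ℕ} {P : Ideal ZBar} {c : ℕ}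
    (h : ∀ x : GQ, a ((cj x P).under (𝓞 F)) ≤ c) : tot F a P ≤ Module.finrank ℚ F * c := by
  unfold tot
  refine (Finset.sum_le_card_nsmul _ _ c fun q _ => h q.out).trans ?_
  rw [Finset.card_univ, card_quot, smul_eq_mul]

variable {ℓ : ℕ} [hℓ : Fact ℓ.Prime] {k : Type} [Field k] (ψ : ℤ_[ℓ] →+* k)

/-- The cyclotomic character with values in `k`. -/
noncomputable def chik : GQ →* kˣ := (Units.map (ψ : ℤ_[ℓ] →* k)).comp (chi ℓ)

theorem chik_val (g : GQ) : (chik ψ g : k) = ψ (chi ℓ g : ℤ_[ℓ]) := rfl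

theorem chik_inertia {p : ℕ} (hp : p.Prime) (h : ℓ ≠ p) {P : Ideal ZBar} (hP : P.IsMaximal)
    (hpP : (p : ZBar) ∈ P) {τ : GQ} (hτ : InInertia P τ) : chik ψ τ = 1 := by
  apply Units.ext
  rw [chik_val, Pool.Agent.Y126.SH.chi_inertia hp h hP hpP hτ, Units.val_one, Units.val_one, map_one]

theorem chik_frob {p : ℕ} (hp : p.Prime) (h : ℓ ≠ p) {P : Ideal ZBar} (hP : P.IsMaximal)
    (hpP : (p : ZBar) ∈ P) {σ : GQ} (hσ : IsGeomFrob p P σ) : (chik ψ σ : k) * (p : k) = 1 := by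
  have h1 := congrArg ψ (Pool.Agent.Y126.SH.chi_frob hp h hP hpP hσ)
  rwa [map_mul, map_natCast, map_one] at h1

theorem chik_conj (x g : GQ) : chik ψ (x⁻¹ * g * x) = chik ψ g := by
  rw [map_mul, map_mul, mul_comm (chik ψ x⁻¹), mul_assoc, ← map_mul, inv_mul_cancel, map_one,
    mul_one]

/-- **The transfer of a character of the Galois group of `F` which is a power of the cyclotomic
character on the inertia groups.** -/
theorem transfer_inertia (φ : F.fixingSubgroup →* kˣ)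
    (h1 : ∀ p : ℕ, p.Prime → ℓ ≠ p → ∀ P : Ideal ZBar, P.IsMaximal → (p : ZBar) ∈ P →
      ∀ τ : F.fixingSubgroup, InInertia P τ → φ τ = 1)
    (a : Ideal (𝓞 F) → ℕ)
    (h2 : ∀ P : Ideal ZBar, P.IsMaximal → (ℓ : ZBar) ∈ P →
      ∀ τ : F.fixingSubgroup, InInertia P τ → φ τ * chik ψ τ ^ a (P.under (𝓞 F)) = 1)
    {P₀ : Ideal ZBar} (hP₀ : P₀.IsMaximal) (hℓP₀ : (ℓ : ZBar) ∈ P₀)
    (P : Ideal ZBar) (hP : P.IsMaximal) (τ : GQ) (hτ : InInertia P τ) :
    (MonoidHom.transfer φ τ) ^ expo F.fixingSubgroup *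
      chik ψ τ ^ (expo F.fixingSubgroup * tot F a P₀) = 1 := by
  classical
  obtain ⟨p, hp, hpP⟩ := Pool.Agent.Y126.SH.exists_prime_mem hP
  rw [transfer_pow]
  have hI : ∀ q : GQ ⧸ F.fixingSubgroup,
      InInertia (cj q.out P) (q.out⁻¹ * τ ^ expo F.fixingSubgroup * q.out) :=
    fun q => cj_inertia (inertia_pow hτ _)
  by_cases hpℓ : ℓ = p
  · subst hpℓ
    have h3 : ∀ q : GQ ⧸ F.fixingSubgroup,
        φ ⟨q.out⁻¹ * τ ^ expo F.fixingSubgroup * q.out, core_conj (pow_core τ) q.out⟩ =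
          (chik ψ τ ^ (expo F.fixingSubgroup * a ((cj q.out P).under (𝓞 F))))⁻¹ := by
      intro q
      have h4 := h2 (cj q.out P) (cj_max hP) (cj_nat.2 hpP)
        ⟨q.out⁻¹ * τ ^ expo F.fixingSubgroup * q.out, core_conj (pow_core τ) q.out⟩ (hI q)
      have h5 : chik ψ (q.out⁻¹ * τ ^ expo F.fixingSubgroup * q.out) =
          chik ψ τ ^ expo F.fixingSubgroup := by rw [chik_conj, map_pow]
      have h6 : ((⟨q.out⁻¹ * τ ^ expo F.fixingSubgroup * q.out, core_conj (pow_core τ) q.out⟩ :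
        F.fixingSubgroup) : GQ) = q.out⁻¹ * τ ^ expo F.fixingSubgroup * q.out := rfl
      rw [h6, h5, ← pow_mul] at h4
      exact eq_inv_of_mul_eq_one_left h4
    rw [Finset.prod_congr rfl fun q _ => h3 q, Finset.prod_inv_distrib, Finset.prod_pow_eq_pow_sum,
      ← Finset.mul_sum]
    have h4 : tot F a P₀ = ∑ q : GQ ⧸ F.fixingSubgroup, a ((cj q.out P).under (𝓞 F)) :=
      tot_eq hp hP hpP hP₀ hℓP₀ a
    rw [h4, inv_mul_cancel]
  · have h3 : ∀ q : GQ ⧸ F.fixingSubgroup,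
        φ ⟨q.out⁻¹ * τ ^ expo F.fixingSubgroup * q.out, core_conj (pow_core τ) q.out⟩ = 1 :=
      fun q => h1 p hp hpℓ (cj q.out P) (cj_max hP) (cj_nat.2 hpP) _ (hI q)
    rw [Finset.prod_congr rfl fun q _ => h3 q, Finset.prod_const_one, one_mul,
      chik_inertia ψ hp hpℓ hP hpP hτ, one_pow]

variable [TopologicalSpace k] [ContinuousMul k]

/-- continuity of the power of the transfer -/
theorem continuous_transfer {φ : F.fixingSubgroup →* kˣ} (hc : Continuous fun g => (φ g : k)) :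
    Continuous fun g : GQ => ((MonoidHom.transfer φ g ^ expo F.fixingSubgroup : kˣ) : k) := by
  classical
  have h1 : (fun g : GQ => ((MonoidHom.transfer φ g ^ expo F.fixingSubgroup : kˣ) : k)) =
      fun g : GQ => ∏ q : GQ ⧸ F.fixingSubgroup,
        (φ ⟨q.out⁻¹ * g ^ expo F.fixingSubgroup * q.out, core_conj (pow_core g) q.out⟩ : k) := by
    funext g
    rw [transfer_pow, Units.coe_prod]
  rw [h1]
  refine continuous_finsetProd _ fun q _ => ?_
  refine hc.comp (Continuous.subtype_mk ?_ _)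
  exact (continuous_const.mul (continuous_pow _)).mul continuous_const

/-- The property of the field `k`: Minkowski's theorem for continuous characters. -/
def HasMink (k : Type) [Field k] [TopologicalSpace k] : Prop :=
  ∀ θ : GQ →* kˣ, Continuous (fun g => (θ g : k)) →
    (∀ P : Ideal ZBar, P.IsMaximal → ∀ τ : GQ, InInertia P τ → θ τ = 1) → ∀ g, θ g = 1

theorem transfer_eq (hk : HasMink k) (hχ : Continuous fun g => (chik ψ g : k))
    (φ : F.fixingSubgroup →* kˣ) (hc : Continuous fun g => (φ g : k))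
    (h1 : ∀ p : ℕ, p.Prime → ℓ ≠ p → ∀ P : Ideal ZBar, P.IsMaximal → (p : ZBar) ∈ P →
      ∀ τ : F.fixingSubgroup, InInertia P τ → φ τ = 1)
    (a : Ideal (𝓞 F) → ℕ)
    (h2 : ∀ P : Ideal ZBar, P.IsMaximal → (ℓ : ZBar) ∈ P →
      ∀ τ : F.fixingSubgroup, InInertia P τ → φ τ * chik ψ τ ^ a (P.under (𝓞 F)) = 1)
    {P₀ : Ideal ZBar} (hP₀ : P₀.IsMaximal) (hℓP₀ : (ℓ : ZBar) ∈ P₀) (g : GQ) :
    (MonoidHom.transfer φ g) ^ expo F.fixingSubgroup *
      chik ψ g ^ (expo F.fixingSubgroup * tot F a P₀) = 1 := by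
  have h3 := hk (MonoidHom.transfer φ ^ expo F.fixingSubgroup *
    chik ψ ^ (expo F.fixingSubgroup * tot F a P₀)) ?_ ?_ g
  · exact h3
  · exact (continuous_transfer hc).mul (hχ.pow _)
  · intro P hP τ hτ
    exact transfer_inertia ψ φ h1 a h2 hP₀ hℓP₀ P hP τ hτ

/-- **The relation at a prime different from `ℓ`**, for the powers of a Frobenius element. -/
theorem transfer_frob (hk : HasMink k) (hχ : Continuous fun g => (chik ψ g : k))
    (φ : F.fixingSubgroup →* kˣ) (hc : Continuous fun g => (φ g : k))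
    (h1 : ∀ p : ℕ, p.Prime → ℓ ≠ p → ∀ P : Ideal ZBar, P.IsMaximal → (p : ZBar) ∈ P →
      ∀ τ : F.fixingSubgroup, InInertia P τ → φ τ = 1)
    (a : Ideal (𝓞 F) → ℕ)
    (h2 : ∀ P : Ideal ZBar, P.IsMaximal → (ℓ : ZBar) ∈ P →
      ∀ τ : F.fixingSubgroup, InInertia P τ → φ τ * chik ψ τ ^ a (P.under (𝓞 F)) = 1)
    {P₀ : Ideal ZBar} (hP₀ : P₀.IsMaximal) (hℓP₀ : (ℓ : ZBar) ∈ P₀)
    {p : ℕ} (hp : p.Prime) (hpℓ : ℓ ≠ p) {P : Ideal ZBar} (hP : P.IsMaximal)
    (hpP : (p : ZBar) ∈ P) {σ : GQ} (hσ : IsGeomFrob p P σ) :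
    ∏ q : GQ ⧸ F.fixingSubgroup,
      (φ ⟨q.out⁻¹ * σ ^ expo F.fixingSubgroup * q.out, core_conj (pow_core σ) q.out⟩ : k) =
        (p : k) ^ (expo F.fixingSubgroup * tot F a P₀) := by
  classical
  have h3 := congrArg (Units.val) (transfer_eq ψ hk hχ φ hc h1 a h2 hP₀ hℓP₀ σ)
  rw [transfer_pow, Units.val_mul, Units.coe_prod, Units.val_one, Units.val_pow_eq_pow_val] at h3
  have h4 := chik_frob ψ hp hpℓ hP hpP hσ
  set X := ∏ q : GQ ⧸ F.fixingSubgroup,
      (φ ⟨q.out⁻¹ * σ ^ expo F.fixingSubgroup * q.out, core_conj (pow_core σ) q.out⟩ : k) with hX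
  set e := expo F.fixingSubgroup * tot F a P₀ with he
  calc X = X * ((chik ψ σ : k) * (p : k)) ^ e := by rw [h4, one_pow, mul_one]
    _ = (X * (chik ψ σ : k) ^ e) * (p : k) ^ e := by rw [mul_pow]; ring
    _ = (p : k) ^ e := by rw [h3, one_mul]

end field

end Pool.Agent.R390.SF
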