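import Pool.Agent.R390.SF.PolDef
import Pool.Agent.R390.SF.Lat

/-!
# Self-dual stable lattices
-/

set_option autoImplicit false
set_option linter.unusedSectionVars false

namespace Pool.Agent.R390.SF

open Module Matrix Pool.Agent.Y800

section form

variable {G : Type*} [Group G] {k : Type} [Field k] {n : ℕ} {ρ : G →* GL (Fin n) k}
  {J : Matrix (Fin n) (Fin n) k}

/-- there is no nonzero isotropic stable subspace -/
def NoIso (ρ : G →* GL (Fin n) k) (J : Matrix (Fin n) (Fin n) k) : Prop :=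
  ∀ I : Submodule k (Fin n → k), IsStable ρ I → (∀ x ∈ I, ∀ y ∈ I, dotProduct x (J.mulVec y) = 0) →
    I = ⊥

/-- the form is compatible with the representation -/
def Equi (ρ : G →* GL (Fin n) k) (J : Matrix (Fin n) (Fin n) k) : Prop :=
  ∃ c : G → k, ∀ g, c g • ((ρ g : Matrix (Fin n) (Fin n) k).transpose * J * ρ g) = J

theorem mem_orth {U : Submodule k (Fin n → k)} {x : Fin n → k} :
    x ∈ orth J U ↔ ∀ u ∈ U, dotProduct u (J.mulVec x) = 0 := Iff.rfl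

theorem form_smul (h : Equi ρ J) (hJ : J ≠ 0) (g : G) {x y : Fin n → k} :
    dotProduct ((ρ g : Matrix (Fin n) (Fin n) k).mulVec x)
      (J.mulVec ((ρ g : Matrix (Fin n) (Fin n) k).mulVec y)) = 0 ↔
    dotProduct x (J.mulVec y) = 0 := by
  obtain ⟨c, hc⟩ := h
  have hc0 : c g ≠ 0 := by
    intro h0
    have := hc g
    rw [h0, zero_smul] at this
    exact hJ this.symm
  have h1 : dotProduct x (J.mulVec y) = c g * dotProduct
      ((ρ g : Matrix (Fin n) (Fin n) k).mulVec x)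
      (J.mulVec ((ρ g : Matrix (Fin n) (Fin n) k).mulVec y)) := by
    conv_lhs => rw [← hc g]
    rw [Matrix.smul_mulVec, dotProduct_smul, smul_eq_mul, ← Matrix.mulVec_mulVec,
      ← Matrix.mulVec_mulVec, Matrix.dotProduct_mulVec x, Matrix.vecMul_transpose]
  rw [h1, mul_eq_zero, or_iff_right hc0]

theorem orth_stable (h : Equi ρ J) {U : Submodule k (Fin n → k)} (hU : IsStable ρ U) :
    IsStable ρ (orth J U) := by
  intro g x hx
  by_cases hJ : J = 0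
  · intro u _
    rw [hJ, Matrix.zero_mulVec, dotProduct_zero]
  · intro u hu
    have h1 : u = (ρ g : Matrix (Fin n) (Fin n) k).mulVec
        ((ρ g⁻¹ : Matrix (Fin n) (Fin n) k).mulVec u) := by
      rw [Matrix.mulVec_mulVec, ← Units.val_mul, ← map_mul, mul_inv_cancel, map_one, Units.val_one,
        Matrix.one_mulVec]
    rw [h1, form_smul h hJ g]
    exact hx _ (hU g⁻¹ u hu)

/-- a stable subspace meets its orthogonal complement trivially -/
theorem inf_orth (h : Equi ρ J) (hn : NoIso ρ J) {U : Submodule k (Fin n → k)}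
    (hU : IsStable ρ U) : U ⊓ orth J U = ⊥ := by
  refine hn _ (fun g x hx => ?_) (fun x hx y hy => ?_)
  · rw [Submodule.mem_inf] at hx ⊢
    exact ⟨hU g x hx.1, orth_stable h hU g x hx.2⟩
  · rw [Submodule.mem_inf] at hx hy
    exact hy.2 x hx.1

/-- **Semisimplicity.** -/
theorem isCompl_orth (h : Equi ρ J) (hn : NoIso ρ J) {U : Submodule k (Fin n → k)}
    (hU : IsStable ρ U) : IsCompl U (orth J U) := by
  have h1 := inf_orth h hn hU
  refine ⟨disjoint_iff.2 h1, ?_⟩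
  rw [codisjoint_iff]
  apply Submodule.eq_top_of_finrank_eq
  have h2 := Submodule.finrank_sup_add_finrank_inf_eq U (orth J U)
  rw [h1, finrank_bot, add_zero] at h2
  refine le_antisymm (Submodule.finrank_le _) ?_
  rw [h2]
  -- the dimension of the orthogonal complement
  let f : (Fin n → k) →ₗ[k] (U →ₗ[k] k) :=
    { toFun := fun x =>
        { toFun := fun u => dotProduct (u : Fin n → k) (J.mulVec x)
          map_add' := fun u v => by rw [Submodule.coe_add, add_dotProduct]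
          map_smul' := fun c u => by
            rw [Submodule.coe_smul, smul_dotProduct, RingHom.id_apply] }
      map_add' := fun x y => by
        ext u
        show dotProduct _ (J.mulVec (x + y)) = _
        rw [Matrix.mulVec_add, dotProduct_add]
        rfl
      map_smul' := fun c x => by
        ext u
        show dotProduct _ (J.mulVec (c • x)) = _
        rw [Matrix.mulVec_smul, dotProduct_smul]
        rfl }
  have hker : LinearMap.ker f = orth J U := by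
    ext x
    rw [LinearMap.mem_ker, mem_orth]
    constructor
    · intro hx u hu
      exact LinearMap.congr_fun hx ⟨u, hu⟩
    · intro hx
      ext u
      exact hx u.1 u.2
  have h3 := LinearMap.finrank_range_add_finrank_ker f
  rw [hker] at h3
  have h4 : finrank k (LinearMap.range f) ≤ finrank k U := by
    refine (Submodule.finrank_le _).trans ?_
    rw [Module.finrank_linearMap_self]
  omega

end form

/-- powers that are idempotent -/
theorem exists_idem {M : Type*} [Monoid M] [Finite M] (x : M) : ∃ m : ℕ, 0 < m ∧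
    x ^ (2 * m) = x ^ m := by
  have hni : ¬ Function.Injective fun i : ℕ => x ^ i := not_injective_infinite_finite _
  simp only [Function.Injective, not_forall] at hni
  obtain ⟨a, b, hab, hne⟩ := hni
  wlog hlt : a < b generalizing a b
  · exact this b a hab.symm (Ne.symm hne) (lt_of_le_of_ne (not_lt.1 hlt) (Ne.symm hne))
  obtain ⟨p, rfl⟩ : ∃ p, b = a + p := ⟨b - a, by omega⟩
  have hp : 0 < p := by omega
  have h1 : ∀ j, a ≤ j → x ^ (j + p) = x ^ j := by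
    intro j hj
    obtain ⟨i, rfl⟩ : ∃ i, j = a + i := ⟨j - a, by omega⟩
    have e : a + i + p = a + p + i := by ring
    rw [e, pow_add, ← hab, ← pow_add]
  have h2 : ∀ t j, a ≤ j → x ^ (j + t * p) = x ^ j := by
    intro t
    induction t with
    | zero => intro j _; rw [zero_mul, add_zero]
    | succ t ih =>
      intro j hj
      have e : j + (t + 1) * p = (j + t * p) + p := by ring
      rw [e, h1 _ (by omega), ih j hj]
  refine ⟨(a + 1) * p, by positivity, ?_⟩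
  have e : 2 * ((a + 1) * p) = (a + 1) * p + (a + 1) * p := by ring
  rw [e, h2 (a + 1) ((a + 1) * p) (by nlinarith)]

section padic

variable {n : ℕ} {ℓ : ℕ} [hℓ : Fact ℓ.Prime]

/-- reduction modulo `ℓ` -/
noncomputable def rd : Matrix (Fin n) (Fin n) ℤ_[ℓ] →+* Matrix (Fin n) (Fin n) (ZMod ℓ) :=
  (PadicInt.toZMod (p := ℓ)).mapMatrix

theorem rd_det (D : Matrix (Fin n) (Fin n) ℤ_[ℓ]) :
    (rd D).det = PadicInt.toZMod D.det := ((PadicInt.toZMod (p := ℓ)).map_det D).symm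

theorem toZMod_eq_zero {x : ℤ_[ℓ]} : PadicInt.toZMod x = 0 ↔ (ℓ : ℤ_[ℓ]) ∣ x := by
  rw [← RingHom.mem_ker, PadicInt.ker_toZMod, PadicInt.maximalIdeal_eq_span_p,
    Ideal.mem_span_singleton]

theorem rd_eq_zero {D : Matrix (Fin n) (Fin n) ℤ_[ℓ]} (h : rd D = 0) :
    ∃ E : Matrix (Fin n) (Fin n) ℤ_[ℓ], D = (ℓ : ℤ_[ℓ]) • E := by
  have h1 : ∀ i j, ∃ e, D i j = (ℓ : ℤ_[ℓ]) * e := by
    intro i j
    have h2 := congrFun (congrFun h i) j
    exact toZMod_eq_zero.1 h2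
  choose E hE using h1
  exact ⟨Matrix.of E, by ext i j; rw [hE, Matrix.smul_apply, Matrix.of_apply, smul_eq_mul]⟩

theorem isUnit_of_rd {x : ℤ_[ℓ]} (h : PadicInt.toZMod x ≠ 0) : IsUnit x := by
  by_contra hnu
  have h3 : x ∈ IsLocalRing.maximalIdeal ℤ_[ℓ] := (IsLocalRing.mem_maximalIdeal _).2 hnu
  rw [← PadicInt.ker_toZMod, RingHom.mem_ker] at h3
  exact h h3

theorem smul_cancel {D E : Matrix (Fin n) (Fin n) ℤ_[ℓ]}
    (h : (ℓ : ℤ_[ℓ]) • D = (ℓ : ℤ_[ℓ]) • E) : D = E := by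
  have h0 : (ℓ : ℤ_[ℓ]) ≠ 0 := by exact_mod_cast hℓ.out.ne_zero
  ext i j
  have h2 := congrFun (congrFun h i) j
  rw [Matrix.smul_apply, Matrix.smul_apply, smul_eq_mul, smul_eq_mul] at h2
  exact mul_left_cancel₀ h0 h2

/-- powers of an element which is idempotent modulo `ℓ` are idempotent modulo `ℓ ^ 2` -/
theorem idem_pow {x y : Matrix (Fin n) (Fin n) ℤ_[ℓ]} (h : x * x = x + (ℓ : ℤ_[ℓ]) • y) :
    ∃ z, x ^ ℓ * x ^ ℓ = x ^ ℓ + ((ℓ : ℤ_[ℓ]) ^ 2) • z := by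
  have hc : Commute x y := by
    have h1 : (ℓ : ℤ_[ℓ]) • (x * y) = (ℓ : ℤ_[ℓ]) • (y * x) := by
      have h2 : (ℓ : ℤ_[ℓ]) • y = x * x - x := by rw [h]; abel
      rw [← Matrix.mul_smul, ← Matrix.smul_mul, h2]
      noncomm_ring
    exact smul_cancel h1
  have h3 : x ^ ℓ * x ^ ℓ = (x + (ℓ : ℤ_[ℓ]) • y) ^ ℓ := by
    rw [← h, ← pow_add, ← pow_two, ← pow_mul]
    congr 1
    ring
  have hc' : Commute x ((ℓ : ℤ_[ℓ]) • y) := hc.smul_right _
  obtain ⟨m, hm⟩ : ∃ m, ℓ = m + 2 := ⟨ℓ - 2, by have := hℓ.out.two_le; omega⟩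
  rw [h3, hc'.add_pow]
  have h4 : ∀ i ∈ Finset.range ℓ, ∃ z : Matrix (Fin n) (Fin n) ℤ_[ℓ],
      x ^ i * ((ℓ : ℤ_[ℓ]) • y) ^ (ℓ - i) * ((ℓ.choose i : ℕ) : Matrix (Fin n) (Fin n) ℤ_[ℓ]) =
        ((ℓ : ℤ_[ℓ]) ^ 2) • z := by
    intro i hi
    rw [Finset.mem_range] at hi
    rcases Nat.lt_or_ge i (ℓ - 1) with h5 | h5
    · obtain ⟨j, hj⟩ : ∃ j, ℓ - i = 2 + j := ⟨ℓ - i - 2, by omega⟩
      refine ⟨x ^ i * ((ℓ : ℤ_[ℓ]) ^ j • y ^ (ℓ - i)) * (ℓ.choose i : ℕ), ?_⟩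
      rw [_root_.smul_pow, Matrix.mul_smul, Matrix.smul_mul, Matrix.mul_smul, Matrix.smul_mul,
        smul_smul, ← pow_add, hj]
    · have h6 : i = ℓ - 1 := by omega
      have h7 : ℓ - i = 1 := by omega
      have h8 : ℓ.choose i = ℓ := by
        rw [h6]
        have := Nat.choose_symm (n := ℓ) (k := 1) hℓ.out.one_lt.le
        rw [this, Nat.choose_one_right]
      refine ⟨x ^ i * y, ?_⟩
      rw [h7, h8, pow_one, Matrix.mul_smul, Matrix.smul_mul, pow_two, mul_smul]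
      congr 1
      ext a b
      rw [Matrix.smul_apply, smul_eq_mul, ← Matrix.diagonal_natCast, Matrix.mul_diagonal, mul_comm]
  rw [Finset.sum_range_succ, Nat.sub_self, pow_zero, mul_one, Nat.choose_self, Nat.cast_one, mul_one]
  choose! z hz using h4
  refine ⟨∑ i ∈ Finset.range ℓ, z i, ?_⟩
  rw [Finset.sum_congr rfl hz, ← Finset.smul_sum, add_comm]

section main

variable {G : Type*} [Group G] {ρ ρ₀ : G →* GL (Fin n) ℤ_[ℓ]} {J J₀ : Matrix (Fin n) (Fin n) ℤ_[ℓ]}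

theorem toF_val (g : G) : (toF ρ g : Matrix (Fin n) (Fin n) (ZMod ℓ)) =
    rd (ρ g : Matrix (Fin n) (Fin n) ℤ_[ℓ]) := rfl

theorem rd_transpose (D : Matrix (Fin n) (Fin n) ℤ_[ℓ]) : rd D.transpose = (rd D).transpose := rfl

theorem rd_smul (c : ℤ_[ℓ]) (D : Matrix (Fin n) (Fin n) ℤ_[ℓ]) :
    rd (c • D) = PadicInt.toZMod c • rd D := by
  ext i j
  show PadicInt.toZMod (c * D i j) = _
  rw [map_mul]
  rfl

theorem equi_rd (c : G → ℤ_[ℓ]) (hc : ∀ g, c g •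
      ((ρ g : Matrix (Fin n) (Fin n) ℤ_[ℓ]).transpose * J * ρ g) = J) : Equi (toF ρ) (rd J) := by
  refine ⟨fun g => PadicInt.toZMod (c g), fun g => ?_⟩
  rw [toF_val, ← rd_transpose, ← map_mul, ← map_mul, ← rd_smul, hc]

/-- one step: an intertwiner that is not invertible can be improved -/
theorem uniq_step (hJ : IsUnit J.det) {c : G → ℤ_[ℓ]}
    (hc : ∀ g, c g • ((ρ g : Matrix (Fin n) (Fin n) ℤ_[ℓ]).transpose * J * ρ g) = J)
    (hc₀ : ∀ g, c g • ((ρ₀ g : Matrix (Fin n) (Fin n) ℤ_[ℓ]).transpose * J₀ * ρ₀ g) = J₀)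
    (hn : NoIso (toF ρ) (rd J)) (hn₀ : NoIso (toF ρ₀) (rd J₀))
    {B : Matrix (Fin n) (Fin n) ℤ_[ℓ]}
    (hBρ : ∀ g, (ρ₀ g : Matrix (Fin n) (Fin n) ℤ_[ℓ]) * B = B * ρ g) (hB : ¬ IsUnit B.det) :
    ∃ B₁ : Matrix (Fin n) (Fin n) ℤ_[ℓ],
      (∀ g, (ρ₀ g : Matrix (Fin n) (Fin n) ℤ_[ℓ]) * B₁ = B₁ * ρ g) ∧
      ∃ u d : ℤ_[ℓ], IsUnit u ∧ B.det * u = B₁.det * ((ℓ : ℤ_[ℓ]) * d) := by
  classical
  have hJu : IsUnit J := (Matrix.isUnit_iff_isUnit_det J).2 hJ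
  -- the adjoint
  obtain ⟨Bs, hBs⟩ : ∃ Bs : Matrix (Fin n) (Fin n) ℤ_[ℓ], J * Bs = B.transpose * J₀ :=
    ⟨J⁻¹ * (B.transpose * J₀), by
      rw [← Matrix.mul_assoc, Matrix.mul_nonsing_inv _ hJ, Matrix.one_mul]⟩
  have hBsρ : ∀ g, (ρ g : Matrix (Fin n) (Fin n) ℤ_[ℓ]) * Bs = Bs * ρ₀ g := by
    intro g
    have e1 : (ρ g : Matrix (Fin n) (Fin n) ℤ_[ℓ]) * ((ρ g)⁻¹ : GL (Fin n) ℤ_[ℓ]) = 1 := by
      rw [← Units.val_mul, mul_inv_cancel, Units.val_one]
    have e2 : (((ρ g)⁻¹ : GL (Fin n) ℤ_[ℓ]) : Matrix (Fin n) (Fin n) ℤ_[ℓ]) * ρ g = 1 := by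
      rw [← Units.val_mul, inv_mul_cancel, Units.val_one]
    have e3 : J * ((ρ g)⁻¹ : GL (Fin n) ℤ_[ℓ]) =
        c g • ((ρ g : Matrix (Fin n) (Fin n) ℤ_[ℓ]).transpose * J) := by
      conv_lhs => rw [← hc g]
      rw [Matrix.smul_mul, Matrix.mul_assoc _ (ρ g : Matrix (Fin n) (Fin n) ℤ_[ℓ]), e1,
        Matrix.mul_one]
    have e4 : J * (((ρ g)⁻¹ : GL (Fin n) ℤ_[ℓ]) * (Bs * ρ₀ g)) = J * Bs := by
      rw [← Matrix.mul_assoc, e3, Matrix.smul_mul, Matrix.mul_assoc _ J, ← Matrix.mul_assoc J, hBs,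
        ← Matrix.mul_assoc, ← Matrix.mul_assoc, ← Matrix.transpose_mul, ← hBρ g,
        Matrix.transpose_mul, Matrix.mul_assoc B.transpose, Matrix.mul_assoc B.transpose,
        ← Matrix.mul_smul, hc₀ g]
    have e5 : (((ρ g)⁻¹ : GL (Fin n) ℤ_[ℓ]) : Matrix (Fin n) (Fin n) ℤ_[ℓ]) * (Bs * ρ₀ g) = Bs := by
      have := congrArg (fun X => J⁻¹ * X) e4
      simp only [← Matrix.mul_assoc, Matrix.nonsing_inv_mul _ hJ, Matrix.one_mul] at this
      rw [← Matrix.mul_assoc]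
      exact this
    conv_lhs => rw [← e5]
    rw [← Matrix.mul_assoc, e1, Matrix.one_mul]
  obtain ⟨A, hAdef⟩ : ∃ A : Matrix (Fin n) (Fin n) ℤ_[ℓ], A = Bs * B := ⟨_, rfl⟩
  have hA : ∀ g, (ρ g : Matrix (Fin n) (Fin n) ℤ_[ℓ]) * A = A * ρ g := by
    intro g
    rw [hAdef, ← Matrix.mul_assoc, hBsρ, Matrix.mul_assoc, hBρ, Matrix.mul_assoc]
  -- modulo `ℓ`
  have hj : ∀ x y : Fin n → ZMod ℓ, dotProduct ((rd B).mulVec x) ((rd J₀).mulVec y) =
      dotProduct x ((rd J).mulVec ((rd Bs).mulVec y)) := by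
    intro x y
    rw [Matrix.mulVec_mulVec, ← map_mul, hBs, map_mul, ← Matrix.mulVec_mulVec, rd_transpose,
      Matrix.dotProduct_mulVec x, Matrix.vecMul_transpose]
  have hA' : ∀ x, (rd A).mulVec x = (rd Bs).mulVec ((rd B).mulVec x) := by
    intro x
    rw [Matrix.mulVec_mulVec, ← map_mul, hAdef]
  have hker : ∀ x, (rd A).mulVec x = 0 → (rd B).mulVec x = 0 := by
    intro x hx
    rw [hA'] at hx
    have hst : IsStable (toF ρ₀) (LinearMap.range (rd B).mulVecLin) := by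
      rintro g _ ⟨y, rfl⟩
      refine ⟨(toF ρ g : Matrix (Fin n) (Fin n) (ZMod ℓ)).mulVec y, ?_⟩
      rw [Matrix.mulVecLin_apply, Matrix.mulVecLin_apply, Matrix.mulVec_mulVec,
        Matrix.mulVec_mulVec, toF_val, toF_val, ← map_mul, ← map_mul, hBρ]
    have h1 := inf_orth (equi_rd c hc₀) hn₀ hst
    have h2 : (rd B).mulVec x ∈ LinearMap.range (rd B).mulVecLin ⊓
        orth (rd J₀) (LinearMap.range (rd B).mulVecLin) := by
      refine Submodule.mem_inf.2 ⟨⟨x, rfl⟩, ?_⟩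
      rintro _ ⟨z, rfl⟩
      rw [Matrix.mulVecLin_apply, hj, hx, Matrix.mulVec_zero, dotProduct_zero]
    rw [h1, Submodule.mem_bot] at h2
    exact h2
  have hker2 : ∀ x, (rd A).mulVec ((rd A).mulVec x) = 0 → (rd A).mulVec x = 0 := by
    intro x hx
    have hst : IsStable (toF ρ) (LinearMap.ker (rd B).mulVecLin) := by
      intro g y hy
      rw [LinearMap.mem_ker, Matrix.mulVecLin_apply] at hy ⊢
      rw [Matrix.mulVec_mulVec, toF_val, ← map_mul, ← hBρ, map_mul, ← Matrix.mulVec_mulVec, hy,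
        Matrix.mulVec_zero]
    have h1 := inf_orth (equi_rd c hc) hn hst
    have h2 : (rd A).mulVec x ∈ LinearMap.ker (rd B).mulVecLin ⊓
        orth (rd J) (LinearMap.ker (rd B).mulVecLin) := by
      refine Submodule.mem_inf.2 ⟨?_, ?_⟩
      · rw [LinearMap.mem_ker, Matrix.mulVecLin_apply]
        exact hker _ hx
      · intro z hz
        rw [LinearMap.mem_ker, Matrix.mulVecLin_apply] at hz
        rw [hA', ← hj, hz, zero_dotProduct]
    rw [h1, Submodule.mem_bot] at h2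
    exact h2
  have hkerm : ∀ m x, ((rd A) ^ (m + 1)).mulVec x = 0 → (rd B).mulVec x = 0 := by
    intro m
    induction m with
    | zero => intro x hx; rw [zero_add, pow_one] at hx; exact hker x hx
    | succ m ih =>
      intro x hx
      rw [pow_succ, ← Matrix.mulVec_mulVec] at hx
      have h1 := ih _ hx
      refine hker x (hker2 x ?_)
      rw [hA', h1, Matrix.mulVec_zero]
  obtain ⟨m, hm, hidem⟩ := exists_idem (rd A)
  set f := (rd A) ^ m with hf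
  have hff : f * f = f := by
    rw [hf, ← pow_add, ← two_mul, hidem]
  have hfx : ∀ x, f.mulVec x = 0 → (rd B).mulVec x = 0 := by
    intro x hx
    obtain ⟨m', rfl⟩ : ∃ m', m = m' + 1 := ⟨m - 1, by omega⟩
    exact hkerm m' x hx
  have hbf : rd B * (1 - f) = 0 := by
    have h1 : ∀ x, (rd B * (1 - f)).mulVec x = 0 := by
      intro x
      rw [← Matrix.mulVec_mulVec]
      apply hfx
      rw [Matrix.mulVec_mulVec, Matrix.mul_sub, Matrix.mul_one, hff, sub_self, Matrix.zero_mulVec]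
    ext i j
    have h2 := congrFun (h1 (Pi.single j 1)) i
    rw [Matrix.mulVec_single_one] at h2
    exact h2
  -- the idempotent modulo `ℓ ^ 2`
  obtain ⟨y, hy⟩ := rd_eq_zero (D := A ^ m * A ^ m - A ^ m) (by
    rw [map_sub, map_mul, map_pow, ← hf, hff, sub_self])
  obtain ⟨z, hz⟩ := idem_pow (x := A ^ m) (y := y) (by rw [← hy]; abel)
  set ε := (A ^ m) ^ ℓ with hε
  have hrε : rd ε = f := by
    rw [hε, map_pow, map_pow, ← hf]
    have h1 : ∀ i : ℕ, 0 < i → f ^ i = f := by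
      intro i
      induction i with
      | zero => intro h; exact absurd h (lt_irrefl _)
      | succ i ih =>
        intro _
        rcases Nat.eq_zero_or_pos i with rfl | hi
        · rw [zero_add, pow_one]
        · rw [pow_succ, ih hi, hff]
    exact h1 ℓ hℓ.out.pos
  have hερ : ∀ g, (ρ g : Matrix (Fin n) (Fin n) ℤ_[ℓ]) * ε = ε * ρ g := by
    intro g
    have h1 : Commute (ρ g : Matrix (Fin n) (Fin n) ℤ_[ℓ]) A := hA g
    exact (h1.pow_right m).pow_right ℓ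
  obtain ⟨B₂, hB₂⟩ := rd_eq_zero (D := B * (1 - ε)) (by
    rw [map_mul, map_sub, map_one, hrε, hbf])
  have hB₂ρ : ∀ g, (ρ₀ g : Matrix (Fin n) (Fin n) ℤ_[ℓ]) * B₂ = B₂ * ρ g := by
    intro g
    apply smul_cancel
    rw [← Matrix.mul_smul, ← Matrix.smul_mul, ← hB₂, ← Matrix.mul_assoc, hBρ, Matrix.mul_assoc,
      Matrix.mul_assoc, Matrix.mul_sub, Matrix.sub_mul, hερ, Matrix.mul_one, Matrix.one_mul]
  refine ⟨B * ε + B₂, fun g => ?_, ?_⟩
  · rw [Matrix.mul_add, Matrix.add_mul, ← Matrix.mul_assoc, hBρ, Matrix.mul_assoc, hερ, hB₂ρ,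
      Matrix.mul_assoc]
  · let D : Matrix (Fin n) (Fin n) ℤ_[ℓ] := ε + (ℓ : ℤ_[ℓ]) • (1 - ε)
    let U : Matrix (Fin n) (Fin n) ℤ_[ℓ] := 1 + (ℓ : ℤ_[ℓ]) • ((2 * (ℓ : ℤ_[ℓ])) • z -
      ((ℓ : ℤ_[ℓ]) ^ 2) • z - z)
    have hzc : ε * ε = ε + ((ℓ : ℤ_[ℓ]) ^ 2) • z := hz
    have hD : (B * ε + B₂) * D = B * U := by
      apply smul_cancel
      have e1 : (ℓ : ℤ_[ℓ]) • ((B * ε + B₂) * D) = B * (((ℓ : ℤ_[ℓ]) • ε + (1 - ε)) * D) := by
        rw [← Matrix.smul_mul, smul_add, ← hB₂, ← Matrix.mul_smul, ← Matrix.mul_add,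
          Matrix.mul_assoc]
      rw [e1, ← Matrix.mul_smul]
      congr 1
      show ((ℓ : ℤ_[ℓ]) • ε + (1 - ε)) * (ε + (ℓ : ℤ_[ℓ]) • (1 - ε)) =
        (ℓ : ℤ_[ℓ]) • (1 + (ℓ : ℤ_[ℓ]) • ((2 * (ℓ : ℤ_[ℓ])) • z - ((ℓ : ℤ_[ℓ]) ^ 2) • z - z))
      simp only [Matrix.add_mul, Matrix.mul_add, Matrix.smul_mul, Matrix.mul_smul, Matrix.sub_mul,
        Matrix.mul_sub, Matrix.one_mul, Matrix.mul_one, smul_add, smul_sub, smul_smul, hzc]
      module
    have hUdet : IsUnit U.det := by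
      apply isUnit_of_rd
      rw [← rd_det]
      have h1 : rd U = 1 := by
        show rd (1 + (ℓ : ℤ_[ℓ]) • _) = 1
        rw [map_add, map_one, rd_smul, map_natCast, ZMod.natCast_self, zero_smul, add_zero]
      rw [h1, Matrix.det_one]
      exact one_ne_zero
    have hDdet : (ℓ : ℤ_[ℓ]) ∣ D.det := by
      rw [← toZMod_eq_zero, ← rd_det]
      have h1 : rd D = f := by
        show rd (ε + (ℓ : ℤ_[ℓ]) • (1 - ε)) = f
        rw [map_add, rd_smul, map_natCast, ZMod.natCast_self, zero_smul, add_zero, hrε]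
      rw [h1]
      have h2 : (rd B).det = 0 := by
        rw [rd_det]
        by_contra h3
        exact hB (isUnit_of_rd h3)
      obtain ⟨v, hv, hv'⟩ := Matrix.exists_mulVec_eq_zero_iff.2 h2
      refine Matrix.exists_mulVec_eq_zero_iff.1 ⟨v, hv, ?_⟩
      obtain ⟨m', rfl⟩ : ∃ m', m = m' + 1 := ⟨m - 1, by omega⟩
      rw [hf, pow_succ, ← Matrix.mulVec_mulVec, hA', hv', Matrix.mulVec_zero, Matrix.mulVec_zero]
    obtain ⟨d, hd⟩ := hDdet
    refine ⟨U.det, d, hUdet, ?_⟩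
    rw [← hd, ← Matrix.det_mul, ← Matrix.det_mul, hD]

/-- **Self-dual lattices without isotropic stable subspaces modulo `ℓ` are unique.** -/
theorem uniq (hJ : IsUnit J.det) {c : G → ℤ_[ℓ]}
    (hc : ∀ g, c g • ((ρ g : Matrix (Fin n) (Fin n) ℤ_[ℓ]).transpose * J * ρ g) = J)
    (hc₀ : ∀ g, c g • ((ρ₀ g : Matrix (Fin n) (Fin n) ℤ_[ℓ]).transpose * J₀ * ρ₀ g) = J₀)
    (hn : NoIso (toF ρ) (rd J)) (hn₀ : NoIso (toF ρ₀) (rd J₀))
    {B : Matrix (Fin n) (Fin n) ℤ_[ℓ]} (hB : B.det ≠ 0)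
    (hBρ : ∀ g, (ρ₀ g : Matrix (Fin n) (Fin n) ℤ_[ℓ]) * B = B * ρ g) :
    ∃ A : GL (Fin n) ℤ_[ℓ], ∀ g, ρ g = A * ρ₀ g * A⁻¹ := by
  classical
  have hnu : ¬ IsUnit (ℓ : ℤ_[ℓ]) := by
    rw [PadicInt.isUnit_iff, PadicInt.norm_p]
    intro h
    have h1 : (1 : ℝ) < ℓ := by exact_mod_cast hℓ.out.one_lt
    have h2 := inv_lt_one_of_one_lt₀ h1
    exact h2.ne h
  have key : ∀ (N : ℕ) (B : Matrix (Fin n) (Fin n) ℤ_[ℓ]),
      (∀ g, (ρ₀ g : Matrix (Fin n) (Fin n) ℤ_[ℓ]) * B = B * ρ g) →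
      ¬ (ℓ : ℤ_[ℓ]) ^ (N + 1) ∣ B.det →
      ∃ B' : Matrix (Fin n) (Fin n) ℤ_[ℓ], IsUnit B'.det ∧
        ∀ g, (ρ₀ g : Matrix (Fin n) (Fin n) ℤ_[ℓ]) * B' = B' * ρ g := by
    intro N
    induction N with
    | zero =>
      intro B hBρ hdvd
      rw [zero_add, pow_one] at hdvd
      refine ⟨B, isUnit_of_rd fun h => hdvd (toZMod_eq_zero.1 h), hBρ⟩
    | succ N ih =>
      intro B hBρ hdvd
      by_cases hu : IsUnit B.det
      · exact ⟨B, hu, hBρ⟩
      · obtain ⟨B₁, hB₁, u, d, hu', hud⟩ := uniq_step hJ hc hc₀ hn hn₀ hBρ hu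
        refine ih B₁ hB₁ fun h => hdvd ?_
        obtain ⟨e, he⟩ := h
        rw [he] at hud
        have h1 : (ℓ : ℤ_[ℓ]) ^ (N + 1 + 1) ∣ B.det * u :=
          ⟨e * d, by rw [hud]; ring⟩
        exact (hu'.dvd_mul_right).1 h1
  obtain ⟨N, hN⟩ := FiniteMultiplicity.of_not_isUnit hnu hB
  obtain ⟨B', hB', hB'ρ⟩ := key N B hBρ hN
  obtain ⟨A, hA⟩ := (Matrix.isUnit_iff_isUnit_det B').2 hB'
  refine ⟨A⁻¹, fun g => ?_⟩
  apply Units.ext
  rw [inv_inv, Units.val_mul, Units.val_mul, Matrix.mul_assoc, hA, hB'ρ, ← hA, ← Matrix.mul_assoc,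
    ← Units.val_mul, inv_mul_cancel, Units.val_one, Matrix.one_mul]

end main

end padic

end Pool.Agent.R390.SF
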